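import Pool.Agent.H5.HL.Pc
import Pool.Agent.H6.STB.EjA

/-!
# A polynomial which is small at a full time is small

`rmz_law`: the time is full given `W`, the polynomial is a function of `W`: outside a small event, if
it is small at the time, then it is small everywhere.
-/

set_option autoImplicit false

namespace Pool.NDD66

open Finset Real
open Pool.Agent.H49.Ent Pool.Agent.H32.Dense Pool.STK
open Pool.BFL (Pb)
open Pool.STB6 (bxi mem_bxi card_bxi bad_box read_set m1 m1_eval m1_deg)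

open Classical in
/-- **Small at a full time, small everywhere.** -/
theorem rmz_law (d : ℕ) : ∃ C : ℕ, 1 ≤ C ∧ ∀ (Ω τ : Type) [Fintype Ω] (q : Ω → ℝ) (W : Ω → τ)
    (t : Ω → ℤ) (P : τ → Polynomial ℝ) (M : ℕ) (η e ρ : ℝ), IsLaw q → 1 ≤ M → 0 < ρ → ρ ≤ 1 →
    0 ≤ η → (C : ℝ) ≤ ρ ^ C * (2 * M + 1) →
    (∀ ω, 0 < q ω → |t ω| ≤ (M : ℤ)) → Real.log (2 * M + 1) - e ≤ CH q t W →
    (∀ w, (P w).natDegree ≤ d) →
    Pb q (fun ω => |(P (W ω)).eval ((t ω : ℝ) / M)| ≤ η ∧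
      ∃ s : ℝ, |s| ≤ 1 ∧ C * (1 / ρ) ^ C * η < |(P (W ω)).eval s|) * Real.log (1 / ρ) ≤
      e + Real.log 2 := by
  obtain ⟨C, hC, hbox⟩ := bad_box 1 d
  refine ⟨C, hC, ?_⟩
  intro Ω τ _ q W t P M η e ρ hq hM hρ hρ1 hη hCM htM hfull hdeg
  obtain ⟨Bx, hBx⟩ : ∃ Bx : Finset ℤ, Bx = Finset.Icc (-(M : ℤ)) M := ⟨_, rfl⟩
  have hBxc : (Bx.card : ℝ) = 2 * M + 1 := by
    rw [hBx, Int.card_Icc]
    have : ((M : ℤ) + 1 - -(M : ℤ)).toNat = 2 * M + 1 := by omega
    rw [this]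
    push_cast
    ring
  refine read_set hq W t Bx (fun w => Bx.filter fun t : ℤ => |(P w).eval ((t : ℝ) / M)| ≤ η) _ hρ
    (fun ω hω => ?_) (by rw [hBxc]; exact hfull) ?_
  · rw [hBx, Finset.mem_Icc]
    exact abs_le.1 (htM ω hω)
  · rintro ω hω ⟨h1, s, hs, h2⟩
    refine ⟨Finset.mem_filter.2 ⟨?_, h1⟩, ?_⟩
    · rw [hBx, Finset.mem_Icc]
      exact abs_le.1 (htM ω hω)
    · have h3 := hbox (m1 (P (W ω))) M ρ 1 η (fun _ => s)
        (fun i => (m1_deg _ i).trans (hdeg (W ω))) hM hρ hρ1 hCM le_rfl hη (fun _ => hs) (by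
          rw [m1_eval]
          exact h2)
      rw [pow_one] at h3
      rw [hBxc]
      refine le_trans ?_ h3.le
      have h4 : (Bx.filter fun t : ℤ => |(P (W ω)).eval ((t : ℝ) / M)| ≤ η).card ≤
          ((bxi 1 M).filter fun y => |MvPolynomial.eval (fun i => ((y i : ℤ) : ℝ) / M)
            (m1 (P (W ω)))| ≤ η).card := by
        refine Finset.card_le_card_of_injOn (fun t => fun _ => t) ?_ ?_
        · intro t ht
          rw [Finset.mem_coe, Finset.mem_filter, hBx, Finset.mem_Icc] at ht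
          rw [Finset.mem_coe, Finset.mem_filter, mem_bxi]
          refine ⟨fun _ => abs_le.2 ht.1, ?_⟩
          rw [m1_eval]
          exact ht.2
        · intro t _ t' _ h
          exact congrFun h 0
      exact_mod_cast h4

end Pool.NDD66
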