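import Pool.Agent.H66.NDD.Prf
import Pool.Agent.H66.NDD.Prm
import Pool.Agent.H19.FLN.Own
import Pool.Agent.H98.STB.Chn

/-!
# The pair step, law level

`pcd`: the codes of finitely many path polynomials of a line. `pr_loss`: the line and the time in a
pair of configurations over the same near data. `pr_core`: if, in a pair of configurations, the path
polynomials of the two lines are near at the time, then the codes of the path polynomials are few
given the near data.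
-/

set_option autoImplicit false

namespace Pool.NDD66

open Finset Real
open Pool.Agent.H49.Ent Pool.Agent.H32.Dense Pool.STK
open Pool.BFL (Pb)
open Pool.K2S (cpn)
open Pool.CLU (cpn_law cpn_pos cpn_marg marg_cpn)
open Pool.H52.TIE (CH_cpn CH_cpn_zero)
open Pool.ND54 (cpn_tail cfg cfg_law cfg_pos cfg_one cfg_free cfg_loss cfg_gen nd_law)
open Pool.STB (Pb_mono Pb_or)

/-- **The codes of the path polynomials.** -/
noncomputable def pcd {Λ ι : Type} (d : ℕ) (σ : ι → ℝ) (P : Λ → ι → Polynomial ℝ) (s : Λ)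
    (a : ι × Fin (d + 1)) : ℤ := ⌊σ a.1 * (P s a.1).coeff a.2⌋

/-- Equal codes give near polynomials. -/
theorem pcd_near {Λ ι : Type} {d : ℕ} {σ : ι → ℝ} {P : Λ → ι → Polynomial ℝ} {s s' : Λ}
    (h : pcd d σ P s = pcd d σ P s') (j : ι) (hσ : 0 < σ j) (hd : (P s j).natDegree ≤ d)
    (hd' : (P s' j).natDegree ≤ d) {τ : ℝ} (hτ : |τ| ≤ 1) :
    |(P s j).eval τ - (P s' j).eval τ| ≤ (d + 1) / σ j := by
  rw [Polynomial.eval_eq_sum_range' (Nat.lt_succ_of_le hd),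
    Polynomial.eval_eq_sum_range' (Nat.lt_succ_of_le hd'), ← Finset.sum_sub_distrib]
  refine (Finset.abs_sum_le_sum_abs _ _).trans ?_
  refine (Finset.sum_le_sum (g := fun _ => 1 / σ j) fun i hi => ?_).trans (le_of_eq ?_)
  · rw [Finset.mem_range] at hi
    have h1 : pcd d σ P s (j, ⟨i, hi⟩) = pcd d σ P s' (j, ⟨i, hi⟩) := by rw [h]
    have h2 : ⌊σ j * (P s j).coeff i⌋ = ⌊σ j * (P s' j).coeff i⌋ := h1
    have h3 := Int.abs_sub_lt_one_of_floor_eq_floor h2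
    have h4 : |(P s j).coeff i - (P s' j).coeff i| ≤ 1 / σ j := by
      rw [le_div_iff₀ hσ]
      have h5 : σ j * (P s j).coeff i - σ j * (P s' j).coeff i =
        ((P s j).coeff i - (P s' j).coeff i) * σ j := by ring
      rw [h5, abs_mul, abs_of_pos hσ] at h3
      exact h3.le
    rw [← sub_mul, abs_mul, abs_pow]
    have h5 : |τ| ^ i ≤ 1 := pow_le_one₀ (abs_nonneg _) hτ
    calc _ ≤ 1 / σ j * 1 := mul_le_mul h4 h5 (by positivity) (by positivity)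
      _ = 1 / σ j := mul_one _
  · rw [Finset.sum_const, Finset.card_range, nsmul_eq_mul]
    push_cast
    ring

section

variable {Ω R Λ X U Z N S : Type} [Fintype Ω]

/-- The near data of a configuration. -/
def yd (m : ℕ) (t : Ω → ℤ) (x : Ω → X) (v : Fin (m + 1) → Fin 1 → Ω) : ℤ × (Fin (m + 1) → X) :=
  (t (v 0 0), fun j => x (v j 0))

/-- **The losses of a pair of configurations.** -/
theorem pr_loss {p : Ω → ℝ} (hp : IsLaw p) (r : Ω → R) (l : Ω → Λ) (m : ℕ) (t : Ω → ℤ)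
    (x : Ω → X) (ud : Ω → U) (zw : Ω → Z) (pn : Ω → N) {ct et e₀ e₁ e₂ : ℝ}
    (hlx : Det p l x) (hrz : Det p r zw) (hxz : Det p x zw) (hpr : Det p r pn)
    (htx : CH p t x ≤ ct) (ht : ct - et ≤ CH p t l)
    (h0 : CH p ud zw ≤ CH p ud r + e₀) (h1 : CH p x (fun ω => (pn ω, ud ω)) ≤ e₁)
    (h2 : CH p pn (fun ω => (t ω, x ω)) ≤ e₂) :
    CH (cfg p r l m 0) (fun v => l (v 0 0)) (fun v => x (v 0 0)) -
      CH (cfg p r l m 0) (fun v => l (v 0 0)) (yd m t x) ≤ et + m * e₀ + (e₂ + m * e₁) ∧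
    ∀ D : (Fin (m + 1) → Fin 1 → Ω) → S,
      CH (cfg p r l m 0) D (fun v => l (v 0 0)) - (et + m * e₀ + (e₂ + m * e₁)) ≤
      CH (cpn (cfg p r l m 0) (yd m t x) 1) (fun w => D (w 0)) (fun w i => l (w i 0 0)) := by
  classical
  have hc := cfg_law hp r l m 0
  have c0 := hc.nonneg
  have hm := cfg_one hp r l m 0 0 0
  have hH : H p (fun _ => ()) = 0 := H_const hp.sum_one _
  have hn : (0 : ℝ) - 0 ≤ CH p (fun _ : Ω => ()) l := by
    rw [sub_zero]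
    exact CH_nonneg hp.nonneg _ _
  have hlx' : Det (cfg p r l m 0) (fun v => l (v 0 0)) (fun v => x (v 0 0)) :=
    fun v v' hv hv' h => hlx _ _ ((cfg_pos hp r l hv).1 0 0) ((cfg_pos hp r l hv').1 0 0) h
  have hyx : Det (cfg p r l m 0) (yd m t x) (fun v => x (v 0 0)) :=
    fun v v' _ _ h => congrFun (Prod.ext_iff.1 h).2 0
  have hy := y_few hp r l m 0 t x ud pn (fun _ => ()) hpr h1 h2
  have hfr := cfg_free hp r l m 0 ud zw (fun _ => ()) (fun ω => (t ω, x ω)) hrz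
    (fun ω ω' hω hω' h => hxz _ _ hω hω' (Prod.ext_iff.1 h).2) h0 hn hH.le
  have h3 : CH (cfg p r l m 0) (fun v => fun (j : Fin m) => (ud (v j.succ 0),
      fun (_ : Fin 0) => ())) (fun v => v 0 0) ≤
      CH (cfg p r l m 0) (fun v => fun (j : Fin m) => (ud (v j.succ 0),
      fun (_ : Fin 0) => ())) (fun v => (t (v 0 0), l (v 0 0))) := by
    refine CH_mono_cond c0 fun v v' _ _ h => ?_
    have h' : v 0 0 = v' 0 0 := h
    rw [h']
  have h4 : CH (cfg p r l m 0) (fun v => t (v 0 0)) (fun v => x (v 0 0)) = CH p t x :=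
    hm.CH t x
  have h5 : CH (cfg p r l m 0) (fun v => t (v 0 0)) (fun v => l (v 0 0)) = CH p t l :=
    hm.CH t l
  have h6 : CH (cfg p r l m 0) (yd m t x) (fun v => (t (v 0 0), (x (v 0 0), fun (j : Fin m) =>
      (ud (v j.succ 0), fun (_ : Fin 0) => ())))) ≤ e₂ + m * e₁ := by
    refine le_trans (CH_mono_cond c0 fun v v' _ _ h => ?_) hy
    have h7 := Prod.ext_iff.1 h
    have h8 := Prod.ext_iff.1 h7.2
    exact Prod.ext (Prod.ext h7.1 h8.1) h8.2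
  have h7 := cfg_loss hc (fun v => t (v 0 0)) (fun v => l (v 0 0)) (fun v => x (v 0 0))
    (fun v => fun (j : Fin m) => (ud (v j.succ 0), fun (_ : Fin 0) => ())) (yd m t x)
    (ct := ct) (e := et) (e₁ := m * e₀) (e₂ := e₂ + m * e₁) hlx' h6 (by rw [h4]; exact htx)
    (by rw [h5]; exact ht) (by
      have e5 : (m : ℝ) * (e₀ + (0 : ℕ) * 0) = m * e₀ := by
        rw [mul_zero, add_zero]
      rw [e5] at hfr
      linarith)
  refine ⟨h7, fun D => ?_⟩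
  have h8 := cfg_gen hc (fun v => l (v 0 0)) (fun v => x (v 0 0)) (yd m t x) D 1 hyx hlx'
  rw [Nat.cast_one, one_mul] at h8
  linarith

end

/-- **The pair step, law level**: if, in a pair of configurations over the same near data, the path
polynomials of the two lines are near at the time, then their codes are few given the near data. -/
theorem pr_core (d : ℕ) : ∃ C : ℝ, 1 ≤ C ∧ ∀ {Ω R Λ X U Z N ι : Type} [Fintype Ω] [Fintype ι]
    {p : Ω → ℝ} (r : Ω → R) (l : Ω → Λ) (m : ℕ) (t : Ω → ℤ) (x : Ω → X)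
    (ud : Ω → U) (zw : Ω → Z) (pn : Ω → N) (e : Λ → ℤ) (P : Λ → ι → Polynomial ℝ)
    (δ σ : ι → ℝ) (M : ℕ) {ρ B D ct et em e₀ e₁ e₂ c₁ : ℝ}, IsLaw p →
    Det p l x → Det p r zw → Det p x zw → Det p r pn → 1 ≤ M → 0 < ρ → ρ < 1 →
    C ≤ ρ ^ ⌈C⌉₊ * (2 * M + 1) → (∀ ω, 0 < p ω → |t ω - e (l ω)| ≤ (M : ℤ)) →
    CH p t x ≤ ct → ct - et ≤ CH p t l → Real.log (2 * M + 1) - em ≤ ct →
    CH p ud zw ≤ CH p ud r + e₀ → CH p x (fun ω => (pn ω, ud ω)) ≤ e₁ →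
    CH p pn (fun ω => (t ω, x ω)) ≤ e₂ → (∀ s j, (P s j).natDegree ≤ d) → (∀ j, 0 ≤ δ j) →
    (∀ j, 0 ≤ σ j) → 0 ≤ B → (∀ ω, 0 < p ω → ∀ j (a : Fin (d + 1)),
      |σ j * (P (l ω) j).coeff a| ≤ B) →
    (∀ j, C * (1 / ρ) ^ ⌈C⌉₊ * (σ j * δ j) ≤ D) →
    (∀ j, Pb (cpn (cfg p r l m 0) (yd m t x) 1) (fun w =>
      ¬ |(P (l (w 1 0 0)) j - P (l (w 0 0 0)) j).eval
        (((t (w 0 0 0) - e (l (w 0 0 0)) : ℤ) : ℝ) / M)| ≤ δ j) ≤ c₁) →
    CH p (fun ω => pcd d σ P (l ω)) x ≤ (et + m * e₀ + (e₂ + m * e₁)) +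
      (Fintype.card (ι × Fin (d + 1))) * (Real.log 2 +
        ((c₁ + (et + m * e₀ + (e₂ + m * e₁) + et + em + Real.log 2) / Real.log (1 / ρ)) *
          Real.log (2 * (B + 1) + 1) + Real.log (2 * (D + 1) + 1))) := by
  obtain ⟨C₀, hC₀, hrm⟩ := rmz_law d
  obtain ⟨A, hA, hcf⟩ := Pool.FLN19.coeff_le d
  obtain ⟨C, hC⟩ : ∃ C : ℝ, C = A * C₀ := ⟨_, rfl⟩
  have hC₀R : (1 : ℝ) ≤ C₀ := by exact_mod_cast hC₀
  have hCC : (C₀ : ℝ) ≤ C := by
    rw [hC]
    exact le_mul_of_one_le_left (by linarith) hA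
  refine ⟨C, hC₀R.trans hCC, ?_⟩
  intro Ω R Λ X U Z N ι _ _ p r l m t x ud zw pn e P δ σ M ρ B D ct et em e₀ e₁ e₂ c₁ hp hlx hrz
    hxz hpr hM hρ hρ1 hCM htM htx ht hct h0 h1 h2 hdeg hδ hσ hB hPB hD hnear
  classical
  obtain ⟨q, hq⟩ : ∃ q, q = cfg p r l m 0 := ⟨_, rfl⟩
  obtain ⟨y, hy⟩ : ∃ y, y = yd m t x := ⟨_, rfl⟩
  have hql : IsLaw q := by rw [hq]; exact cfg_law hp r l m 0
  have q0 := hql.nonneg
  have hQ := cpn_law hql y 1
  have Q0 := hQ.nonneg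
  obtain ⟨ls, hls⟩ : ∃ ls : ℝ, ls = et + m * e₀ + (e₂ + m * e₁) := ⟨_, rfl⟩
  obtain ⟨hloss, hfull⟩ := pr_loss (S := ℤ) hp r l m t x ud zw pn hlx hrz hxz hpr htx ht h0 h1 h2
  have hf := hfull (fun v => t (v 0 0))
  rw [← hq, ← hy, ← hls] at hf hloss
  rw [← hq, ← hy] at hnear
  rw [← hls]
  have hm : Marg q p (fun v => v 0 0) := by rw [hq]; exact cfg_one hp r l m 0 0 0
  have hqpos : ∀ v, 0 < q v → ∀ j i, 0 < p (v j i) := fun v hv => by
    rw [hq] at hv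
    exact (cfg_pos hp r l hv).1
  -- the time is full given the pair
  obtain ⟨W, hW⟩ : ∃ W : (Fin 2 → Fin (m + 1) → Fin 1 → Ω) → (Fin 2 → Λ),
    W = fun w i => l (w i 0 0) := ⟨_, rfl⟩
  obtain ⟨ξ, hξ⟩ : ∃ ξ : (Fin 2 → Fin (m + 1) → Fin 1 → Ω) → ℤ,
    ξ = fun w => t (w 0 0 0) - e (l (w 0 0 0)) := ⟨_, rfl⟩
  have hfr : Real.log (2 * M + 1) - (ls + et + em) ≤ CH (cpn q y 1) ξ W := by
    have g1 : CH q (fun v => t (v 0 0)) (fun v => l (v 0 0)) = CH p t l := hm.CH t l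
    have g2 : CH (cpn q y 1) (fun w => t (w 0 0 0)) (fun w i => l (w i 0 0)) ≤
        CH (cpn q y 1) ξ W := by
      rw [hξ, hW]
      refine CH_mono_left Q0 fun w w' _ _ h => ?_
      have h3 := Prod.ext_iff.1 h
      have h4 : (fun i => l (w i 0 0)) = fun i => l (w' i 0 0) := h3.2
      have h5 : l (w 0 0 0) = l (w' 0 0 0) := congrFun h4 0
      have h6 : t (w 0 0 0) - e (l (w 0 0 0)) = t (w' 0 0 0) - e (l (w' 0 0 0)) := h3.1
      rw [h5] at h6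
      show t (w 0 0 0) = t (w' 0 0 0)
      linarith
    linarith
  have hξM : ∀ w, 0 < cpn q y 1 w → |ξ w| ≤ (M : ℤ) := fun w hw => by
    rw [hξ]
    exact htM _ (hqpos _ ((cpn_pos q0 y 1 w hw).1 0) 0 0)
  have hlr : 0 < Real.log (1 / ρ) := Real.log_pos (by rw [lt_div_iff₀ hρ]; linarith)
  have hp1 : C₀ ≤ ⌈C⌉₊ := by
    have h3 : (C₀ : ℝ) ≤ ⌈C⌉₊ := hCC.trans (Nat.le_ceil C)
    exact_mod_cast h3
  have hρC : ρ ^ ⌈C⌉₊ ≤ ρ ^ C₀ := pow_le_pow_of_le_one hρ.le hρ1.le hp1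
  have hρC' : (1 / ρ) ^ C₀ ≤ (1 / ρ) ^ ⌈C⌉₊ :=
    pow_le_pow_right₀ (by rw [le_div_iff₀ hρ]; linarith) hp1
  have hM0 : (0 : ℝ) ≤ M := Nat.cast_nonneg M
  -- the polynomials are near
  obtain ⟨c₂, hc₂⟩ : ∃ c₂ : ℝ, c₂ = (ls + et + em + Real.log 2) / Real.log (1 / ρ) := ⟨_, rfl⟩
  have hpol : ∀ j, Pb (cpn q y 1) (fun w => ¬ ∀ s : ℝ, |s| ≤ 1 →
      |(P (W w 1) j - P (W w 0) j).eval s| ≤ C₀ * (1 / ρ) ^ C₀ * δ j) ≤ c₁ + c₂ := by
    intro j
    have h3 := hrm _ _ (cpn q y 1) W ξ (fun s => P (s 1) j - P (s 0) j) M (δ j) (ls + et + em) ρ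
      hQ hM hρ hρ1.le (hδ j) (by
        refine hCC.trans (hCM.trans (mul_le_mul_of_nonneg_right hρC (by linarith)))) hξM hfr
      (fun s => (Polynomial.natDegree_sub_le _ _).trans (max_le (hdeg _ _) (hdeg _ _)))
    have h4 : Pb (cpn q y 1) (fun w => |(P (W w 1) j - P (W w 0) j).eval ((ξ w : ℝ) / M)| ≤ δ j ∧
        ∃ s : ℝ, |s| ≤ 1 ∧ C₀ * (1 / ρ) ^ C₀ * δ j < |(P (W w 1) j - P (W w 0) j).eval s|) ≤
        c₂ := by
      rw [hc₂, le_div_iff₀ hlr]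
      exact h3
    refine (Pb_mono Q0 (B := fun w => (¬ |(P (W w 1) j - P (W w 0) j).eval ((ξ w : ℝ) / M)| ≤
      δ j) ∨ (|(P (W w 1) j - P (W w 0) j).eval ((ξ w : ℝ) / M)| ≤ δ j ∧
        ∃ s : ℝ, |s| ≤ 1 ∧ C₀ * (1 / ρ) ^ C₀ * δ j < |(P (W w 1) j - P (W w 0) j).eval s|))
      fun w _ h5 => ?_).trans ((Pb_or Q0 _ _).trans (add_le_add ?_ h4))
    · by_cases h6 : |(P (W w 1) j - P (W w 0) j).eval ((ξ w : ℝ) / M)| ≤ δ j
      · refine Or.inr ⟨h6, ?_⟩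
        push Not at h5
        exact h5
      · exact Or.inl h6
    · have h5 := hnear j
      rw [hξ, hW]
      exact h5
  -- the codes
  obtain ⟨Xc, hXc⟩ : ∃ Xc : (Fin (m + 1) → Fin 1 → Ω) → (ι × Fin (d + 1)) → ℤ,
    Xc = fun v => pcd d σ P (l (v 0 0)) := ⟨_, rfl⟩
  have hD0 : ∀ _ : ι, 0 ≤ D := fun j => le_trans (by
    have := hδ j
    have := hσ j
    have : 0 ≤ C := by linarith
    positivity) (hD j)
  rcases isEmpty_or_nonempty ι with hι | ⟨⟨j₀⟩⟩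
  · have h3 : CH p (fun ω => pcd d σ P (l ω)) x = 0 :=
      CH_eq_zero hp.nonneg fun ω ω' _ _ _ => funext fun a => (hι.false a.1).elim
    have h4 : Fintype.card (ι × Fin (d + 1)) = 0 := Fintype.card_eq_zero_iff.2
      ⟨fun a => hι.false a.1⟩
    rw [h3, h4, Nat.cast_zero, zero_mul, add_zero]
    have h5 : CH q (fun v => l (v 0 0)) y ≤ CH q (fun v => l (v 0 0)) (fun v => x (v 0 0)) :=
      CH_mono_cond q0 fun v v' _ _ h => by
        rw [hy] at h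
        exact congrFun (Prod.ext_iff.1 h).2 0
    linarith
  have hD1 := hD0 j₀
  have hfew := few_pair hql y Xc (B := B + 1) (D := D + 1) (c := c₁ + c₂) (by linarith)
    (by linarith) (fun v hv a => by
      have h3 := hPB _ (hqpos v hv 0 0) a.1 a.2
      have h4 := Int.floor_le (σ a.1 * (P (l (v 0 0)) a.1).coeff a.2)
      have h5 := Int.lt_floor_add_one (σ a.1 * (P (l (v 0 0)) a.1).coeff a.2)
      rw [hXc]
      show |((⌊σ a.1 * (P (l (v 0 0)) a.1).coeff a.2⌋ : ℤ) : ℝ)| ≤ B + 1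
      rw [abs_le] at h3 ⊢
      constructor <;> linarith [h3.1, h3.2]) (fun a => by
      refine (Pb_mono Q0 fun w _ h3 => ?_).trans (hpol a.1)
      intro h4
      apply h3
      have h5 := hcf (P (W w 1) a.1 - P (W w 0) a.1) (C₀ * (1 / ρ) ^ C₀ * δ a.1)
        ((Polynomial.natDegree_sub_le _ _).trans (max_le (hdeg _ _) (hdeg _ _))) h4 a.2
      rw [Polynomial.coeff_sub] at h5
      have h6 : |σ a.1 * (P (W w 1) a.1).coeff a.2 - σ a.1 * (P (W w 0) a.1).coeff a.2| ≤ D := by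
        rw [← mul_sub, abs_mul, abs_of_nonneg (hσ a.1)]
        refine (mul_le_mul_of_nonneg_left h5 (hσ a.1)).trans (le_trans ?_ (hD a.1))
        rw [hC]
        have h7 : 0 ≤ A * C₀ * (σ a.1 * δ a.1) := by
          have := hδ a.1
          have := hσ a.1
          have : 0 ≤ A := by linarith
          positivity
        have h8 := mul_le_mul_of_nonneg_right hρC' h7
        calc σ a.1 * (A * (C₀ * (1 / ρ) ^ C₀ * δ a.1)) =
            (1 / ρ) ^ C₀ * (A * C₀ * (σ a.1 * δ a.1)) := by ring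
          _ ≤ (1 / ρ) ^ ⌈A * C₀⌉₊ * (A * C₀ * (σ a.1 * δ a.1)) := by
              rw [← hC] at h8 ⊢
              exact h8
          _ = _ := by ring
      have h7 := Int.floor_le (σ a.1 * (P (W w 1) a.1).coeff a.2)
      have h8 := Int.lt_floor_add_one (σ a.1 * (P (W w 1) a.1).coeff a.2)
      have h9 := Int.floor_le (σ a.1 * (P (W w 0) a.1).coeff a.2)
      have h10 := Int.lt_floor_add_one (σ a.1 * (P (W w 0) a.1).coeff a.2)
      have h11 : Xc (w 1) a = ⌊σ a.1 * (P (W w 1) a.1).coeff a.2⌋ := by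
        rw [hXc, hW]
        rfl
      have h12 : Xc (w 0) a = ⌊σ a.1 * (P (W w 0) a.1).coeff a.2⌋ := by
        rw [hXc, hW]
        rfl
      rw [h11, h12]
      rw [abs_le] at h6 ⊢
      constructor <;> linarith [h6.1, h6.2])
  -- from the configuration to the line
  have k1 : CH p (fun ω => pcd d σ P (l ω)) x = CH q Xc (fun v => x (v 0 0)) := by
    rw [hXc]
    exact (hm.CH (fun ω => pcd d σ P (l ω)) x).symm
  have k2 := CH_chain q0 Xc y (fun v => x (v 0 0))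
  have k3 := CH_chain q0 y Xc (fun v => x (v 0 0))
  have k4 : CH q (fun v => (Xc v, y v)) (fun v => x (v 0 0)) =
      CH q (fun v => (y v, Xc v)) (fun v => x (v 0 0)) := Pool.MIC.CH_swl q0 _ _ _
  have k5 : CH q Xc (fun v => (y v, x (v 0 0))) ≤ CH q Xc y :=
    CH_mono_cond q0 fun v v' _ _ h => (Prod.ext_iff.1 h).1
  have k6 : CH q y (fun v => (l (v 0 0), x (v 0 0))) ≤ CH q y (fun v => (Xc v, x (v 0 0))) := by
    refine CH_mono_cond q0 fun v v' _ _ h => ?_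
    have h3 := Prod.ext_iff.1 h
    have h4 : l (v 0 0) = l (v' 0 0) := h3.1
    refine Prod.ext ?_ h3.2
    show Xc v = Xc v'
    rw [hXc]
    show pcd d σ P (l (v 0 0)) = pcd d σ P (l (v' 0 0))
    rw [h4]
  have k7 := CH_chain q0 (fun v => l (v 0 0)) y (fun v => x (v 0 0))
  have k8 := CH_chain q0 y (fun v => l (v 0 0)) (fun v => x (v 0 0))
  have k9 : CH q (fun v => (l (v 0 0), y v)) (fun v => x (v 0 0)) =
      CH q (fun v => (y v, l (v 0 0))) (fun v => x (v 0 0)) := Pool.MIC.CH_swl q0 _ _ _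
  have k10 : CH q (fun v => l (v 0 0)) y ≤ CH q (fun v => l (v 0 0)) (fun v => (y v, x (v 0 0))) :=
    CH_mono_cond q0 fun v v' _ _ h => by
      have h3 : y v = y v' := h
      refine Prod.ext h3 ?_
      rw [hy] at h3
      exact congrFun (Prod.ext_iff.1 h3).2 0
  rw [k1, ← hc₂]
  linarith

end Pool.NDD66
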