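import Pool.Agent.H66.NDD.Lev
import Pool.Agent.H6.ND3.Rel

/-!
# A linear relation between own velocities and the gradient of a deep chart

`frm2`: natural components in two frames. `RelO`: three lines of one near ball, in general position,
whose own velocities over the charts `ψ` satisfy a linear relation with a large last coefficient.
`rel_grdO`: such a relation gives the natural components of the deep chart as quotients.
`pa3`: the polynomials of the time, in the frame of a ball.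
-/

set_option autoImplicit false

namespace Pool.NDD66

open Finset Real MvPolynomial
open Pool.Agent.H49.Ent Pool.Agent.H32.Dense Pool.STK Pool.KA Pool.KSAT Pool.K2S Pool.PB Pool.S6C
open Pool.GEN Pool.CHT Pool.D2R
open Pool.PB.Trl (rt rt_mem t_rt)

variable {m J : ℕ}

/-- A polynomial without coordinates. -/
theorem dd_dep0 {Q : MvPolynomial (Option (Fin m)) ℝ} {c : ℕ → Fin m} (hQ : DepC c 0 Q)
    (x : Option (Fin m) → ℝ) {V : Option (Fin m) → ℝ} (hV : V none = 0) : dd Q x V = 0 := by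
  have h1 : dd Q x V = dd Q x 0 := dd_congr hQ x (by rw [hV]; rfl) fun l hl =>
    absurd hl (Nat.not_lt_zero l)
  rw [h1]
  unfold dd
  exact Finset.sum_eq_zero fun o _ => by rw [Pi.zero_apply, mul_zero]

/-- **Natural components in two frames**, two places. -/
theorem frm2 {c : ℕ → Fin m} (hc : Set.InjOn c (Set.Iio 2))
    {ψ χ : ℕ → MvPolynomial (Option (Fin m)) ℝ} (hψ : ∀ l, DepC c l (ψ l))
    (hχ : ∀ l, DepC c l (χ l)) {Q : MvPolynomial (Option (Fin m)) ℝ} (hQ : DepC c 2 Q)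
    (x : Option (Fin m) → ℝ) :
    ncp c 2 χ Q x 1 = ncp c 2 ψ Q x 1 ∧
      ncp c 2 χ Q x 0 = ncp c 2 ψ Q x 0 + ncp c 2 ψ Q x 1 * ncp c 1 ψ (χ 1 - ψ 1) x 0 := by
  classical
  have hc1 : Set.InjOn c (Set.Iio 1) := hc.mono fun y hy => by
    rw [Set.mem_Iio] at hy ⊢
    omega
  have hd1 : DepC c 1 (χ 1 - ψ 1) := fun b b' h1 h2 => by
    rw [map_sub, map_sub, hχ 1 b b' h1 h2, hψ 1 b b' h1 h2]
  have key : ∀ (W : Option (Fin m) → ℝ) (y : ℕ → ℝ), W none = 0 →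
      (∀ l < 2, W (some (c l)) - dd (χ l) x W = y l) →
      W (some (c 0)) - dd (ψ 0) x W = y 0 ∧
        W (some (c 1)) - dd (ψ 1) x W = y 1 + ncp c 1 ψ (χ 1 - ψ 1) x 0 * y 0 := by
    intro W y h0 h1
    have e0 := h1 0 (by norm_num)
    have e1 := h1 1 (by norm_num)
    rw [dd_dep0 (hχ 0) x h0, sub_zero] at e0
    have e2 := ncp_sum hc1 hψ hd1 (x := x) h0
    rw [Finset.sum_range_one, dd_dep0 (hψ 0) x h0, sub_zero, e0, dd_sub] at e2
    rw [dd_dep0 (hψ 0) x h0, sub_zero]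
    exact ⟨e0, by linarith⟩
  have hQ2 : ∀ W : Option (Fin m) → ℝ, W none = 0 → dd Q x W =
      ncp c 2 ψ Q x 0 * (W (some (c 0)) - dd (ψ 0) x W) +
      ncp c 2 ψ Q x 1 * (W (some (c 1)) - dd (ψ 1) x W) := by
    intro W h0
    rw [ncp_sum hc hψ hQ h0, Finset.sum_range_succ, Finset.sum_range_one]
  obtain ⟨W1, h10, h11⟩ := vec_adapt hc hχ x 0 (fun l => if l = 1 then 1 else 0) 2 le_rfl
  obtain ⟨W0, h00, h01⟩ := vec_adapt hc hχ x 0 (fun l => if l = 0 then 1 else 0) 2 le_rfl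
  rw [ncp_eq hχ hQ h10 h11, ncp_eq hχ hQ h00 h01, hQ2 W1 h10, hQ2 W0 h00]
  obtain ⟨k1, k2⟩ := key W1 _ h10 h11
  obtain ⟨k3, k4⟩ := key W0 _ h00 h01
  rw [k1, k2, k3, k4]
  simp

/-- **Three lines in general position**, own velocities. -/
theorem alg3 {α a0 a1 β τ c0 c1 ε er U0 U1 dm : ℝ} {v0 v1 v2 : Fin 3 → ℝ} (hdm : 0 < dm)
    (hrel : ∀ a, |α + a0 * v0 a + a1 * v1 a + β * v2 a| ≤ ε)
    (hf : ∀ a, |v2 a - (τ + (c0 * v0 a + c1 * v1 a))| ≤ er)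
    (h0 : ∀ a, |v0 a| ≤ U0) (h1 : ∀ a, |v1 a| ≤ U1)
    (hdet : dm ≤ |(v0 0 - v0 2) * (v1 1 - v1 2) - (v0 1 - v0 2) * (v1 0 - v1 2)|) :
    |c0 * β + a0| ≤ 8 * U1 * (ε + |β| * er) / dm ∧
      |c1 * β + a1| ≤ 8 * U0 * (ε + |β| * er) / dm := by
  obtain ⟨E, hE⟩ : ∃ E, E = ε + |β| * er := ⟨_, rfl⟩
  obtain ⟨u0, hu0⟩ : ∃ u0, u0 = c0 * β + a0 := ⟨_, rfl⟩
  obtain ⟨u1, hu1⟩ : ∃ u1, u1 = c1 * β + a1 := ⟨_, rfl⟩
  rw [← hu0, ← hu1, ← hE]
  have k1 : ∀ a, |α + β * τ + u0 * v0 a + u1 * v1 a| ≤ E := by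
    intro a
    have e1 : α + β * τ + u0 * v0 a + u1 * v1 a = (α + a0 * v0 a + a1 * v1 a + β * v2 a) -
        β * (v2 a - (τ + (c0 * v0 a + c1 * v1 a))) := by
      rw [hu0, hu1]
      ring
    rw [e1, hE]
    refine (abs_sub _ _).trans (add_le_add (hrel a) ?_)
    rw [abs_mul]
    exact mul_le_mul_of_nonneg_left (hf a) (abs_nonneg _)
  have hE0 : 0 ≤ E := (abs_nonneg _).trans (k1 0)
  have k2 : ∀ a, |u0 * (v0 a - v0 2) + u1 * (v1 a - v1 2)| ≤ 2 * E := by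
    intro a
    have e1 : u0 * (v0 a - v0 2) + u1 * (v1 a - v1 2) =
        (α + β * τ + u0 * v0 a + u1 * v1 a) - (α + β * τ + u0 * v0 2 + u1 * v1 2) := by ring
    rw [e1]
    have := k1 a
    have := k1 2
    refine (abs_sub _ _).trans ?_
    linarith
  have hd0 : ∀ a b, |v0 a - v0 b| ≤ 2 * U0 := fun a b => by
    refine (abs_sub _ _).trans ?_
    have := h0 a
    have := h0 b
    linarith
  have hd1 : ∀ a b, |v1 a - v1 b| ≤ 2 * U1 := fun a b => by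
    refine (abs_sub _ _).trans ?_
    have := h1 a
    have := h1 b
    linarith
  obtain ⟨Dt, hDt⟩ : ∃ Dt, Dt = (v0 0 - v0 2) * (v1 1 - v1 2) - (v0 1 - v0 2) * (v1 0 - v1 2) :=
    ⟨_, rfl⟩
  rw [← hDt] at hdet
  have hDt0 : 0 < |Dt| := lt_of_lt_of_le hdm hdet
  constructor
  · rw [le_div_iff₀ hdm]
    have e1 : u0 * Dt = (u0 * (v0 0 - v0 2) + u1 * (v1 0 - v1 2)) * (v1 1 - v1 2) -
        (u0 * (v0 1 - v0 2) + u1 * (v1 1 - v1 2)) * (v1 0 - v1 2) := by rw [hDt]; ring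
    calc |u0| * dm ≤ |u0| * |Dt| := mul_le_mul_of_nonneg_left hdet (abs_nonneg _)
      _ = |u0 * Dt| := (abs_mul _ _).symm
      _ ≤ 2 * E * (2 * U1) + 2 * E * (2 * U1) := by
          rw [e1]
          refine (abs_sub _ _).trans ?_
          rw [abs_mul, abs_mul]
          exact add_le_add (mul_le_mul (k2 0) (hd1 1 2) (abs_nonneg _) (by linarith))
            (mul_le_mul (k2 1) (hd1 0 2) (abs_nonneg _) (by linarith))
      _ = 8 * U1 * E := by ring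
  · rw [le_div_iff₀ hdm]
    have e1 : u1 * Dt = (u0 * (v0 1 - v0 2) + u1 * (v1 1 - v1 2)) * (v0 0 - v0 2) -
        (u0 * (v0 0 - v0 2) + u1 * (v1 0 - v1 2)) * (v0 1 - v0 2) := by rw [hDt]; ring
    calc |u1| * dm ≤ |u1| * |Dt| := mul_le_mul_of_nonneg_left hdet (abs_nonneg _)
      _ = |u1 * Dt| := (abs_mul _ _).symm
      _ ≤ 2 * E * (2 * U0) + 2 * E * (2 * U0) := by
          rw [e1]
          refine (abs_sub _ _).trans ?_
          rw [abs_mul, abs_mul]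
          exact add_le_add (mul_le_mul (k2 1) (hd0 0 2) (abs_nonneg _) (by linarith))
            (mul_le_mul (k2 0) (hd0 1 2) (abs_nonneg _) (by linarith))
      _ = 8 * U0 * E := by ring

/-- The determinant of the own velocities of three lines. -/
noncomputable def det3o (F : Fam m J) (c : ℕ → Fin m) (ψ : ℕ → MvPolynomial (Option (Fin m)) ℝ)
    (nu : Fin 3 → F.Ω) : ℝ :=
  (ov F c ψ (nu 0) 0 - ov F c ψ (nu 2) 0) * (ov F c ψ (nu 1) 1 - ov F c ψ (nu 2) 1) -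
  (ov F c ψ (nu 1) 0 - ov F c ψ (nu 2) 0) * (ov F c ψ (nu 0) 1 - ov F c ψ (nu 2) 1)

/-- **The relation**: three lines of `B`, `SR`-related to `om`, the determinant of their own
velocities over the charts `Hw` of `om` at least `dm`, whose own velocities satisfy a linear relation
of precision `ε`, the last coefficient larger than `ε * E`; the coefficients are polynomials of the
relative time of `w`. -/
def RelO (F : Fam m J) (c : ℕ → Fin m) (B : F.Ω → Prop) (w : ℕ)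
    (Hw : LnT F → ℕ → MvPolynomial (Option (Fin m)) ℝ) (SR : F.Ω → F.Ω → Prop) (dm E : ℝ)
    (PA : ℕ → Polynomial ℝ) (om : F.Ω) : Prop :=
  ∃ (nu : Fin 3 → F.Ω) (ε : ℝ), (∀ a, B (nu a) ∧ SR om (nu a)) ∧
    dm ≤ |det3o F c (Hw (slam F w om)) nu| ∧
    (∀ a, |(PA 3).eval (rt F w om) + ∑ l ∈ range 3, (PA l).eval (rt F w om) *
      ov F c (Hw (slam F w om)) (nu a) l| ≤ ε) ∧ ε * E < |(PA 2).eval (rt F w om)|

theorem RelO.mono {F : Fam m J} {c : ℕ → Fin m} {B B' : F.Ω → Prop} {w : ℕ}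
    {Hw : LnT F → ℕ → MvPolynomial (Option (Fin m)) ℝ} {SR SR' : F.Ω → F.Ω → Prop}
    {dm dm' E E' : ℝ} {PA : ℕ → Polynomial ℝ} {om : F.Ω} (h : RelO F c B w Hw SR dm E PA om)
    (hB : Sub B B') (hSR : ∀ nu, B nu → SR om nu → SR' om nu) (hd : dm' ≤ dm) (hE : E' ≤ E) :
    RelO F c B' w Hw SR' dm' E' PA om := by
  obtain ⟨nu, ε, h1, h2, h3, h4⟩ := h
  refine ⟨nu, ε, fun a => ⟨hB _ (h1 a).1, hSR _ (h1 a).1 (h1 a).2⟩, hd.trans h2, h3,
    lt_of_le_of_lt ?_ h4⟩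
  exact mul_le_mul_of_nonneg_left hE ((abs_nonneg _).trans (h3 0))

/-- The polynomials of the gradient, in natural units, in the frame of the charts `H`. -/
noncomputable def pa3 {F : Fam m J} (c : ℕ → Fin m) (γ : ℕ → ℕ) (W D : ℕ)
    (H K : LnT F → ℕ → MvPolynomial (Option (Fin m)) ℝ) (A : ℕ → Polynomial ℝ) (s : LnT F)
    (j : ℕ) : Polynomial ℝ :=
  Polynomial.C (2 ^ γ 2 / 2 ^ γ j) * (if j = 0 then
    A 0 + A 2 * MvPolynomial.aeval (lc W s) (njP c 2 (K s) (D + 2 * D) (H s 2 - K s 2) 0) +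
      (A 1 + A 2 * MvPolynomial.aeval (lc W s) (njP c 2 (K s) (D + 2 * D) (H s 2 - K s 2) 1)) *
        MvPolynomial.aeval (lc W s) (njP c 1 (K s) (D + 1 * D) (H s 1 - K s 1) 0)
    else A 1 + A 2 * MvPolynomial.aeval (lc W s) (njP c 2 (K s) (D + 2 * D) (H s 2 - K s 2) 1))

theorem pa3_deg {F : Fam m J} (c : ℕ → Fin m) (γ : ℕ → ℕ) (W D : ℕ) {D₂ : ℕ}
    {H K : LnT F → ℕ → MvPolynomial (Option (Fin m)) ℝ}
    {A : ℕ → Polynomial ℝ} (hA : ∀ l, (A l).natDegree ≤ D₂) (s : LnT F) (j : ℕ) :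
    (pa3 c γ W D H K A s j).natDegree ≤ D₂ + 5 * D := by
  have h1 : ∀ i, (MvPolynomial.aeval (lc W s)
      (njP c 2 (K s) (D + 2 * D) (H s 2 - K s 2) i)).natDegree ≤ 3 * D := by
    intro i
    refine (natDegree_aeval_mul _ _ (E := 1) (fun o => natDegree_lc W s o)
      (D := D + 2 * D) (njP_deg c 2 (K s) (D + 2 * D) _ i)).trans (by omega)
  have h1' : (MvPolynomial.aeval (lc W s)
      (njP c 1 (K s) (D + 1 * D) (H s 1 - K s 1) 0)).natDegree ≤ 2 * D := by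
    refine (natDegree_aeval_mul _ _ (E := 1) (fun o => natDegree_lc W s o)
      (D := D + 1 * D) (njP_deg c 1 (K s) (D + 1 * D) _ 0)).trans (by omega)
  have h2 : ∀ i, (A 2 * MvPolynomial.aeval (lc W s)
      (njP c 2 (K s) (D + 2 * D) (H s 2 - K s 2) i)).natDegree ≤ D₂ + 3 * D :=
    fun i => Polynomial.natDegree_mul_le.trans (Nat.add_le_add (hA 2) (h1 i))
  have h3 : ∀ k i, (A k + A 2 * MvPolynomial.aeval (lc W s)
      (njP c 2 (K s) (D + 2 * D) (H s 2 - K s 2) i)).natDegree ≤ D₂ + 3 * D := fun k i =>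
    (Polynomial.natDegree_add_le _ _).trans (max_le ((hA k).trans (by omega)) (h2 i))
  unfold pa3
  refine (Polynomial.natDegree_C_mul_le _ _).trans ?_
  split_ifs
  · refine (Polynomial.natDegree_add_le _ _).trans (max_le ((h3 0 _).trans (by omega)) ?_)
    refine Polynomial.natDegree_mul_le.trans ?_
    have := h3 1 1
    omega
  · exact (h3 1 _).trans (by omega)

/-- **The relation gives the gradient** of the deep chart, in the frame of a ball. -/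
theorem rel_grdO (m D : ℕ) : ∃ C : ℕ, 1 ≤ C ∧ ∀ {J : ℕ} {F : Fam m J} {c : ℕ → Fin m}
    {w W a e k q X : ℕ} {g gw γ : ℕ → ℕ} {B : F.Ω → Prop}
    {G G' : PtT F → ℕ → MvPolynomial (Option (Fin m)) ℝ}
    {H H' Hw K : LnT F → ℕ → MvPolynomial (Option (Fin m)) ℝ} {SR : F.Ω → F.Ω → Prop}
    {om : F.Ω} {dm E U V er : ℝ} {PA A : ℕ → Polynomial ℝ}, Set.InjOn c (Set.Iio 3) →
    W ≤ J → a + 1 ≤ J → ChOK F c 3 (fun _ => D) a a e g B G' H' →
    (∀ l ≤ 2, e + g l + C * (k + 1) ≤ J) → (∀ s l, (Hw s l).totalDegree ≤ D) →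
    (∀ s l, DepC c l (Hw s l)) → (∀ y l, (G y l).totalDegree ≤ D) → (∀ y l, DepC c l (G y l)) →
    (∀ l ≤ 1, g l ≤ gw l + q) → 2 * q + C * (k + 1) ≤ X → B om →
    (∀ nu, B nu → SR om nu → NrB F c 1 a a k X g gw B G' H' (Hw (slam F w om)) om nu ∧
      ∀ l ≤ 1, |ov F c (Hw (slam F w om)) nu l| ≤ U * 2 ^ W / 2 ^ γ l) →
    (∀ l, (A l).eval (rt F W om) = (PA l).eval (rt F w om)) →
    (∀ l ≤ 2, G (ptr F J om) l = H (slam F W om) l) →
    (∀ l ≤ 2, K (slam F W om) l = Hw (slam F w om) l) →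
    |ncp c 1 (Hw (slam F w om)) (G (ptr F J om) 1 - Hw (slam F w om) 1) (bt F om) 0| ≤
      V * 2 ^ γ 0 / 2 ^ γ 1 →
    2 ^ (C * (k + 1)) * 2 ^ a * (1 / 2 ^ g 2 + 2 ^ (2 * q) / 2 ^ (gw 2 + X)) ≤ er →
    0 < dm → 0 < E → 0 ≤ U → 0 ≤ V → RelO F c B w Hw SR dm E PA om →
    (PA 2).eval (rt F w om) ≠ 0 ∧ ∀ j < 2,
      |gnh F c 2 γ G G' om j * (PA 2).eval (rt F w om) +
        (pa3 c γ W D H K A (slam F W om) j).eval (rt F W om)| ≤
        2 ^ γ 2 / 2 ^ W * (8 * U * (1 + V) * (1 / E + er) / (dm * 2 ^ γ 0 * 2 ^ γ 1 /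
          (2 ^ W * 2 ^ W))) * |(PA 2).eval (rt F w om)| := by
  classical
  obtain ⟨C, hC, hrel⟩ := chart_rel m D 1
  refine ⟨C, hC, ?_⟩
  intro J F c w W a e k q X g gw γ B G G' H H' Hw K SR om dm E U V er PA A hc hWJ haJ hch hJ hψ
    hψd hGd hGp hg hX hom hSR hA hcls hK hρ her hdm hE hU hV hR
  obtain ⟨nu, ε, hnu, hdet, hre, hbig⟩ := hR
  obtain ⟨x, hx⟩ : ∃ x, x = bt F om := ⟨_, rfl⟩
  obtain ⟨ψ, hψe⟩ : ∃ ψ, ψ = Hw (slam F w om) := ⟨_, rfl⟩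
  obtain ⟨β, hβ⟩ : ∃ β, β = (PA 2).eval (rt F w om) := ⟨_, rfl⟩
  have hψ1 : ∀ l, (ψ l).totalDegree ≤ D := fun l => by rw [hψe]; exact hψ _ l
  have hψ2 : ∀ l, DepC c l (ψ l) := fun l => by rw [hψe]; exact hψd _ l
  have hc2 : Set.InjOn c (Set.Iio 2) := hc.mono fun z hz => by
    rw [Set.mem_Iio] at hz ⊢
    omega
  have hc1 : Set.InjOn c (Set.Iio 1) := hc.mono fun z hz => by
    rw [Set.mem_Iio] at hz ⊢
    omega
  have hε0 : 0 ≤ ε := (abs_nonneg _).trans (hre 0)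
  have hβ0 : 0 < |β| := by
    rw [hβ]
    exact lt_of_le_of_lt (mul_nonneg hε0 hE.le) hbig
  have hεE : ε ≤ 1 / E * |β| := by
    rw [hβ, one_div, inv_mul_eq_div, le_div_iff₀ hE]
    exact hbig.le
  have her0 : 0 ≤ er := le_trans (by positivity) her
  -- the deep chart
  have hdeep : ∀ a', |ov F c ψ (nu a') 2 - (nct c 2 ψ (G' (ptr F J om) 2 - ψ 2) x +
      (ncp c 2 ψ (G' (ptr F J om) 2 - ψ 2) x 0 * ov F c ψ (nu a') 0 +
        ncp c 2 ψ (G' (ptr F J om) 2 - ψ 2) x 1 * ov F c ψ (nu a') 1))| ≤ er := by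
    intro a'
    obtain ⟨hN, -⟩ := hSR (nu a') (hnu a').1 (hnu a').2
    rw [← hψe] at hN
    have h1 := hrel (q := q) (gw := gw) (ψ := ψ) hc le_rfl haJ hch hJ hψ1 hψ2 hg hX om (nu a')
      hN.hω hN.hν hN.chg hN.t hN.dvn hN.cmp hN.hgt
    rw [Finset.sum_range_succ, Finset.sum_range_one, ← hx] at h1
    exact h1.trans her
  have hvel : ∀ l ≤ 1, ∀ a', |ov F c ψ (nu a') l| ≤ U * 2 ^ W / 2 ^ γ l := fun l hl a' => by
    rw [hψe]
    exact (hSR (nu a') (hnu a').1 (hnu a').2).2 l hl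
  obtain ⟨C0, hC0⟩ : ∃ C0, C0 = ncp c 2 ψ (G' (ptr F J om) 2 - ψ 2) x 0 := ⟨_, rfl⟩
  obtain ⟨C1, hC1⟩ : ∃ C1, C1 = ncp c 2 ψ (G' (ptr F J om) 2 - ψ 2) x 1 := ⟨_, rfl⟩
  rw [← hC0, ← hC1] at hdeep
  obtain ⟨k0, k1⟩ := alg3 (α := (PA 3).eval (rt F w om)) (a0 := (PA 0).eval (rt F w om))
    (a1 := (PA 1).eval (rt F w om)) (β := β) (τ := nct c 2 ψ (G' (ptr F J om) 2 - ψ 2) x)
    (c0 := C0) (c1 := C1) (ε := ε) (er := er) (U0 := U * 2 ^ W / 2 ^ γ 0)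
    (U1 := U * 2 ^ W / 2 ^ γ 1) (v0 := fun a => ov F c ψ (nu a) 0)
    (v1 := fun a => ov F c ψ (nu a) 1) (v2 := fun a => ov F c ψ (nu a) 2) hdm (fun a => by
      have h1 := hre a
      rw [Finset.sum_range_succ, Finset.sum_range_succ, Finset.sum_range_one, ← hβ, ← hψe] at h1
      have h2 : (PA 3).eval (rt F w om) + (PA 0).eval (rt F w om) * ov F c ψ (nu a) 0 +
          (PA 1).eval (rt F w om) * ov F c ψ (nu a) 1 + β * ov F c ψ (nu a) 2 =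
          (PA 3).eval (rt F w om) + ((PA 0).eval (rt F w om) * ov F c ψ (nu a) 0 +
          (PA 1).eval (rt F w om) * ov F c ψ (nu a) 1 + β * ov F c ψ (nu a) 2) := by ring
      rw [h2]
      exact h1) hdeep (hvel 0 (by norm_num)) (hvel 1 le_rfl) (by
      rw [hψe]
      exact hdet)
  -- the numbers
  obtain ⟨e', he'⟩ : ∃ e' : ℝ, e' = 8 * U * (1 / E + er) / (dm * 2 ^ γ 0 * 2 ^ γ 1 /
    (2 ^ W * 2 ^ W)) := ⟨_, rfl⟩
  have hbnd : ε + |β| * er ≤ (1 / E + er) * |β| := by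
    have : (1 / E + er) * |β| = 1 / E * |β| + |β| * er := by ring
    linarith
  have he0 : 0 ≤ e' := by rw [he']; positivity
  have hj0 : |C0 * β + (PA 0).eval (rt F w om)| ≤ 2 ^ γ 0 / 2 ^ W * e' * |β| := by
    refine k0.trans ?_
    have h1 : 8 * (U * 2 ^ W / 2 ^ γ 1) * (ε + |β| * er) / dm ≤
        8 * (U * 2 ^ W / 2 ^ γ 1) * ((1 / E + er) * |β|) / dm :=
      div_le_div_of_nonneg_right (mul_le_mul_of_nonneg_left hbnd (by positivity)) hdm.le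
    refine h1.trans (le_of_eq ?_)
    rw [he']
    field_simp
  have hj1 : |C1 * β + (PA 1).eval (rt F w om)| ≤ 2 ^ γ 1 / 2 ^ W * e' * |β| := by
    refine k1.trans ?_
    have h1 : 8 * (U * 2 ^ W / 2 ^ γ 0) * (ε + |β| * er) / dm ≤
        8 * (U * 2 ^ W / 2 ^ γ 0) * ((1 / E + er) * |β|) / dm :=
      div_le_div_of_nonneg_right (mul_le_mul_of_nonneg_left hbnd (by positivity)) hdm.le
    refine h1.trans (le_of_eq ?_)
    rw [he']
    field_simp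
  -- the frame
  obtain ⟨χ, hχ⟩ : ∃ χ, χ = G (ptr F J om) := ⟨_, rfl⟩
  have hG'p := hch.depG (ptr F J om) 2
  have hQ : DepC c 2 (G' (ptr F J om) 2 - G (ptr F J om) 2) := fun b b' h1 h2 => by
    rw [map_sub, map_sub, hG'p b b' h1 h2, hGp (ptr F J om) 2 b b' h1 h2]
  have hQ' : DepC c 2 (G' (ptr F J om) 2 - ψ 2) := fun b b' h1 h2 => by
    rw [map_sub, map_sub, hG'p b b' h1 h2, hψ2 2 b b' h1 h2]
  have hQ'' : DepC c 2 (χ 2 - ψ 2) := fun b b' h1 h2 => by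
    rw [map_sub, map_sub, hχ, hGp (ptr F J om) 2 b b' h1 h2, hψ2 2 b b' h1 h2]
  have hQ1 : DepC c 1 (χ 1 - ψ 1) := fun b b' h1 h2 => by
    rw [map_sub, map_sub, hχ, hGp (ptr F J om) 1 b b' h1 h2, hψ2 1 b b' h1 h2]
  have hlin : ∀ j, j < 2 → ncp c 2 ψ (G' (ptr F J om) 2 - G (ptr F J om) 2) x j =
      ncp c 2 ψ (G' (ptr F J om) 2 - ψ 2) x j - ncp c 2 ψ (χ 2 - ψ 2) x j := by
    intro j hj
    obtain ⟨V', hV0, hV1⟩ := vec_adapt hc2 hψ2 x 0 (fun l => if l = j then 1 else 0) 2 le_rfl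
    rw [ncp_eq hψ2 hQ hV0 hV1, ncp_eq hψ2 hQ' hV0 hV1, ncp_eq hψ2 hQ'' hV0 hV1, dd_sub, dd_sub,
      dd_sub, hχ]
    ring
  obtain ⟨f1, f0⟩ := frm2 hc2 hψ2 (χ := χ) (fun l => by rw [hχ]; exact hGp _ l) hQ x
  obtain ⟨s0, hs0⟩ : ∃ s0, s0 = ncp c 2 ψ (χ 2 - ψ 2) x 0 := ⟨_, rfl⟩
  obtain ⟨s1, hs1⟩ : ∃ s1, s1 = ncp c 2 ψ (χ 2 - ψ 2) x 1 := ⟨_, rfl⟩
  obtain ⟨ρ, hρe⟩ : ∃ ρ, ρ = ncp c 1 ψ (χ 1 - ψ 1) x 0 := ⟨_, rfl⟩
  rw [hlin 1 (by norm_num), ← hC1, ← hs1] at f1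
  rw [hlin 1 (by norm_num), hlin 0 (by norm_num), ← hC1, ← hs1, ← hC0, ← hs0, ← hρe] at f0
  rw [← hψe, ← hx, ← hχ, ← hρe] at hρ
  have hev : ∀ {r' : ℕ} (_ : r' ≤ 2) (_ : Set.InjOn c (Set.Iio r')) (j : ℕ), j < r' →
      (MvPolynomial.aeval (lc W (slam F W om)) (njP c r' (K (slam F W om)) (D + r' * D)
        (H (slam F W om) r' - K (slam F W om) r') j)).eval (rt F W om) =
      ncp c r' ψ (χ r' - ψ r') x j := by
    intro r' hr' hcr j hj
    rw [aeval_lc, ptw_rt F hWJ, ← hcls r' hr', ← hx, ← hχ]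
    have e1 : ∀ l ≤ 2, K (slam F W om) l = ψ l := fun l hl => by rw [hψe]; exact hK l hl
    obtain ⟨K', hK'⟩ : ∃ K' : ℕ → MvPolynomial (Option (Fin m)) ℝ, K' = K (slam F W om) :=
      ⟨_, rfl⟩
    rw [← hK'] at e1 ⊢
    obtain ⟨K2, hK2⟩ : ∃ K2 : ℕ → MvPolynomial (Option (Fin m)) ℝ,
      K2 = fun l => if l ≤ 2 then K' l else ψ l := ⟨_, rfl⟩
    have hK2ψ : K2 = ψ := by
      rw [hK2]
      funext l
      beta_reduce
      split_ifs with hl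
      · exact e1 l hl
      · rfl
    rw [e1 r' hr']
    -- only the first charts matter
    have hcg : ∀ (Δ : MvPolynomial (Option (Fin m)) ℝ),
        njP c r' K' (D + r' * D) Δ j = njP c r' ψ (D + r' * D) Δ j := by
      intro Δ
      unfold njP
      have e2 : (fun n : MvPolynomial (Option (Fin m)) ℝ => n.totalDegree ≤ D + r' * D ∧
          ∀ x, ncp c r' K' Δ x j = eval x n) = fun n : MvPolynomial (Option (Fin m)) ℝ =>
          n.totalDegree ≤ D + r' * D ∧ ∀ x, ncp c r' ψ Δ x j = eval x n := by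
        funext n
        refine propext ⟨fun h => ⟨h.1, fun y => ?_⟩, fun h => ⟨h.1, fun y => ?_⟩⟩
        · rw [← ncp_charts (fun l hl => e1 l (by omega)) Δ y j]
          exact h.2 y
        · rw [ncp_charts (fun l hl => e1 l (by omega)) Δ y j]
          exact h.2 y
      have key : ∀ P P' : MvPolynomial (Option (Fin m)) ℝ → Prop, P = P' →
          (if h : ∃ n, P n then h.choose else 0) = if h : ∃ n, P' n then h.choose else 0 := by
        intro P P' h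
        subst h
        rfl
      exact key _ _ e2
    rw [hcg, njP_eval hcr hψ1 hψ2 ((totalDegree_sub _ _).trans (max_le (by
      rw [hχ]; exact hGd _ _) (hψ1 _))) (fun b b' h1 h2 => by
      rw [map_sub, map_sub, hχ, hGp (ptr F J om) r' b b' h1 h2, hψ2 r' b b' h1 h2]) x hj]
  rw [← hβ]
  refine ⟨abs_pos.1 hβ0, ?_⟩
  have hfac : 8 * U * (1 + V) * (1 / E + er) / (dm * 2 ^ γ 0 * 2 ^ γ 1 / (2 ^ W * 2 ^ W)) =
      (1 + V) * e' := by
    rw [he']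
    ring
  rw [hfac]
  have hρ' : |ρ| * (2 ^ γ 1 / 2 ^ W * e' * |β|) ≤ V * (2 ^ γ 0 / 2 ^ W * e' * |β|) := by
    have h1 := mul_le_mul_of_nonneg_right hρ
      (show 0 ≤ 2 ^ γ 1 / 2 ^ W * e' * |β| by positivity)
    refine h1.trans (le_of_eq ?_)
    field_simp
  have hgn : ∀ j, gnh F c 2 γ G G' om j = 2 ^ γ 2 / 2 ^ γ j *
      ncp c 2 χ (G' (ptr F J om) 2 - G (ptr F J om) 2) x j := fun j => by
    unfold gnh
    rw [← hx, ← hχ]
  have hfin : ∀ (j : ℕ) (Cj z : ℝ), |Cj * β + z| ≤ (1 + V) * (2 ^ γ j / 2 ^ W * e' * |β|) →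
      |2 ^ γ 2 / 2 ^ γ j * Cj * β + 2 ^ γ 2 / 2 ^ γ j * z| ≤
        2 ^ γ 2 / 2 ^ W * ((1 + V) * e') * |β| := by
    intro j Cj z h1
    have e3 : 2 ^ γ 2 / 2 ^ γ j * Cj * β + 2 ^ γ 2 / 2 ^ γ j * z =
      2 ^ γ 2 / 2 ^ γ j * (Cj * β + z) := by ring
    rw [e3, abs_mul, abs_of_pos (show (0 : ℝ) < 2 ^ γ 2 / 2 ^ γ j by positivity)]
    refine (mul_le_mul_of_nonneg_left h1 (by positivity)).trans (le_of_eq ?_)
    field_simp
  intro j hj
  rw [hgn]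
  unfold pa3
  rw [Polynomial.eval_mul, Polynomial.eval_C]
  have d1 : |(C1 - s1) * β + ((PA 1).eval (rt F w om) + β * s1)| ≤
      2 ^ γ 1 / 2 ^ W * e' * |β| := by
    have e1 : (C1 - s1) * β + ((PA 1).eval (rt F w om) + β * s1) =
        C1 * β + (PA 1).eval (rt F w om) := by ring
    rw [e1]
    exact hj1
  have hn0 : ∀ j, 0 ≤ 2 ^ γ j / 2 ^ W * e' * |β| := fun j => by positivity
  rcases Nat.lt_or_ge j 1 with h1 | h1
  · have h2 : j = 0 := by omega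
    subst h2
    rw [if_pos rfl, Polynomial.eval_add, Polynomial.eval_add, Polynomial.eval_mul,
      Polynomial.eval_mul, Polynomial.eval_add, Polynomial.eval_mul,
      hev le_rfl hc2 0 (by norm_num), hev le_rfl hc2 1 (by norm_num),
      hev (by norm_num) hc1 0 (by norm_num), hA, hA, hA, ← hβ, ← hs0, ← hs1, ← hρe, f0]
    refine hfin 0 _ _ ?_
    have e1 : (C0 - s0 + (C1 - s1) * ρ) * β + ((PA 0).eval (rt F w om) + β * s0 +
        ((PA 1).eval (rt F w om) + β * s1) * ρ) =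
        (C0 * β + (PA 0).eval (rt F w om)) +
          ρ * ((C1 - s1) * β + ((PA 1).eval (rt F w om) + β * s1)) := by ring
    rw [e1]
    refine (abs_add_le _ _).trans ?_
    rw [abs_mul]
    have h3 := (mul_le_mul_of_nonneg_left d1 (abs_nonneg ρ)).trans hρ'
    have e2 : (1 + V) * (2 ^ γ 0 / 2 ^ W * e' * |β|) = 2 ^ γ 0 / 2 ^ W * e' * |β| +
        V * (2 ^ γ 0 / 2 ^ W * e' * |β|) := by ring
    rw [e2]
    exact add_le_add hj0 h3
  · have h2 : j = 1 := by omega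
    subst h2
    rw [if_neg one_ne_zero, Polynomial.eval_add, Polynomial.eval_mul,
      hev le_rfl hc2 1 (by norm_num), hA, hA, ← hβ, ← hs1, f1]
    refine hfin 1 _ _ (d1.trans ?_)
    have e2 : (1 + V) * (2 ^ γ 1 / 2 ^ W * e' * |β|) = 2 ^ γ 1 / 2 ^ W * e' * |β| +
        V * (2 ^ γ 1 / 2 ^ W * e' * |β|) := by ring
    rw [e2]
    have := mul_nonneg hV (hn0 1)
    linarith

end Pool.NDD66
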