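import Pool.Agent.H66.NDD.Qud

/-!
# The linear relation from the relation on the whole window

`dd_all`: `dd_ev` with fixed nodes: for each relative time the own path of the target along the
lines `ν i` is a polynomial in `h i`. `dd_aux`: the same with auxiliary lines: the difference of the
own paths of `ν i` and `ν 0` is the quadrature of the derivatives along the auxiliary lines.
-/

set_option autoImplicit false

namespace Pool.NDD66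

open Finset Real MvPolynomial
open Pool.Agent.H49.Ent Pool.Agent.H32.Dense Pool.STK Pool.KA Pool.KSAT Pool.K2S Pool.PB Pool.S6C
open Pool.GEN Pool.CHT Pool.D2R
open Pool.PB.Trl (rt rt_mem t_rt)

variable {m J : ℕ}

/-- **The linear relation from the relation on the whole window.** -/
theorem dd_all (m D r : ℕ) : ∃ C : ℕ, 1 ≤ C ∧ ∀ {J : ℕ} {F : Fam m J} {c : ℕ → Fin m}
    {w a e k X : ℕ} {g gw : ℕ → ℕ} {A : F.Ω → Prop}
    {G : PtT F → ℕ → MvPolynomial (Option (Fin m)) ℝ}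
    {H : LnT F → ℕ → MvPolynomial (Option (Fin m)) ℝ}
    {ψ : ℕ → MvPolynomial (Option (Fin m)) ℝ} {h : Fin (D + 2) → ℝ}
    {ω ν : Fin (D + 2) → F.Ω} {η : ℝ},
    Set.InjOn c (Set.Iio (r + 2)) → w ≤ a → a ≤ J →
    ChOK F c (r + 2) (fun _ => D) a w e g A G H →
    (∀ l ≤ r + 1, e + g l + C * (k + 1) ≤ J) →
    (∀ l, (ψ l).totalDegree ≤ D) → (∀ l, DepC c l (ψ l)) →
    (∀ i, A (ω i)) → (∀ i, A (ν i)) → (∀ i, ptr F J (ω i) = ptr F J (ν i)) →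
    (∀ i, F.T (ω i) = F.T (ω 0)) →
    (∀ i, ∀ l ≤ r + 1, ∀ τ ∈ Set.Icc (0 : ℝ) 1,
      |(dv w (fun s _ => H s l) (c l) (slam F w (ν i))).eval τ| ≤ 2 ^ k / 2 ^ g l) →
    (∀ i, ∀ l ≤ r + 1, |dd (ψ l) (bt F (ω i)) (bd F (ν i)) - dd (ψ l) (bt F (ν i)) (bd F (ν i))| ≤
      2 ^ k * 2 ^ w / 2 ^ (gw l + X)) →
    0 ≤ η → (∀ τ ∈ Set.Icc (0 : ℝ) 1, ∃ q : Polynomial ℝ, q.natDegree ≤ D ∧
      ∀ i, |(op w c ψ (slam F w (ν i)) (r + 1)).eval τ - q.eval (h i)| ≤ η) →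
    Function.Injective h →
    (∀ i, ∀ l ≤ r, |ov F c ψ (ν i) l - ov F c ψ (ν 0) l| ≤ 2 ^ w / 2 ^ (gw l + X)) →
    (∀ i, ∀ l ≤ r, |ncp c (r + 1) ψ (H (slam F w (ω i)) (r + 1) - ψ (r + 1)) (bt F (ω i)) l| ≤
      2 ^ k * 2 ^ gw l / 2 ^ gw (r + 1)) →
    |∑ i, mu h i * nct c (r + 1) ψ (H (slam F w (ω i)) (r + 1) - ψ (r + 1)) (bt F (ω i)) +
      ∑ l ∈ range (r + 1), (∑ i, mu h i * ncp c (r + 1) ψ
        (H (slam F w (ω i)) (r + 1) - ψ (r + 1)) (bt F (ω i)) l) * ov F c ψ (ν 0) l| ≤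
      2 ^ (C * (k + 1)) * Lam h * 2 ^ w * (η + 2 ^ (a - w) / 2 ^ g (r + 1) +
        1 / 2 ^ (gw (r + 1) + X)) := by
  classical
  obtain ⟨C₁, hC₁, hdd⟩ := dd_ev m D r
  obtain ⟨n, hn⟩ : ∃ n : ℕ, n = (D + 1) * (D + 1) := ⟨_, rfl⟩
  refine ⟨C₁ + n, by omega, ?_⟩
  intro J F c w a e k X g gw A G H ψ h ω ν η hc hwa haJ hrw hJ hψ hψd hAω hAν hpt hT hdv hmv hη hq
    hinj hnear hgrd
  have hk1 : n ≤ n * (k + 1) := Nat.le_mul_of_pos_right _ (Nat.succ_pos k)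
  have hCk : (C₁ + n) * (k + 1) = C₁ * (k + 1) + n * (k + 1) := by ring
  obtain ⟨t, ht⟩ : ∃ t : Fin (D + 2) → ℝ, t = fun j : Fin (D + 2) =>
    ((j : ℕ) : ℝ) / (D + 1) := ⟨_, rfl⟩
  have hD1 : (0 : ℝ) < (D : ℝ) + 1 := by positivity
  have ht01 : ∀ j, t j ∈ Set.Icc (0 : ℝ) 1 := by
    intro j
    rw [ht]
    refine ⟨by positivity, ?_⟩
    show ((j : ℕ) : ℝ) / (D + 1) ≤ 1
    rw [div_le_one hD1]
    have h1 : (j : ℕ) ≤ D + 1 := by have := j.2; omega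
    have h2 : ((j : ℕ) : ℝ) ≤ ((D + 1 : ℕ) : ℝ) := by exact_mod_cast h1
    push_cast at h2
    exact h2
  have hsep : ∀ j j', j ≠ j' → 1 / ((D : ℝ) + 1) ≤ |t j - t j'| := by
    intro j j' hjj
    rw [ht]
    show 1 / ((D : ℝ) + 1) ≤ |((j : ℕ) : ℝ) / (D + 1) - ((j' : ℕ) : ℝ) / (D + 1)|
    rw [← sub_div, abs_div, abs_of_pos hD1]
    refine div_le_div_of_nonneg_right ?_ hD1.le
    have h1 : ((j : ℕ) : ℤ) - ((j' : ℕ) : ℤ) ≠ 0 := by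
      intro h2
      exact hjj (Fin.ext (by omega))
    have h2 : (1 : ℤ) ≤ |((j : ℕ) : ℤ) - ((j' : ℕ) : ℤ)| := Int.one_le_abs h1
    have h3 : ((1 : ℤ) : ℝ) ≤ ((|((j : ℕ) : ℤ) - ((j' : ℕ) : ℤ)| : ℤ) : ℝ) := by exact_mod_cast h2
    push_cast at h3
    exact h3
  choose! q hqd hqe using hq
  have key := hdd (t := t) (q := fun j => q (t j)) (s := 1 / ((D : ℝ) + 1)) (X := X) hc hwa haJ hrw
    (fun l hl => by
      have := hJ l hl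
      rw [hCk] at this
      omega) hψ hψd hAω hAν hpt hT hdv hmv (by positivity) hsep ht01
    (fun j => hqd _ (ht01 j)) hη (fun i j => hqe _ (ht01 j) i) hinj hnear hgrd
  refine key.trans ?_
  have hLam : 0 ≤ Lam h := by
    unfold Lam
    exact Finset.sum_nonneg fun _ _ => abs_nonneg _
  have hDn : ((D : ℝ) + 1) ^ (D + 1) ≤ 2 ^ (n * (k + 1)) := by
    have h1 : ((D : ℝ) + 1) ≤ 2 ^ (D + 1) := by
      have h2 : D + 1 ≤ 2 ^ (D + 1) := Nat.lt_two_pow_self.le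
      exact_mod_cast h2
    calc ((D : ℝ) + 1) ^ (D + 1) ≤ (2 ^ (D + 1)) ^ (D + 1) := pow_le_pow_left₀ hD1.le h1 _
      _ = 2 ^ n := by rw [← pow_mul, hn]
      _ ≤ _ := pow_le_pow_right₀ (by norm_num) hk1
  obtain ⟨z, hz⟩ : ∃ z : ℝ, z = 2 ^ (a - w) / 2 ^ g (r + 1) + 1 / 2 ^ (gw (r + 1) + X) := ⟨_, rfl⟩
  have hz0 : 0 ≤ z := by rw [hz]; positivity
  have e0 : (2 : ℝ) ^ ((C₁ + n) * (k + 1)) = 2 ^ (C₁ * (k + 1)) * 2 ^ (n * (k + 1)) := by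
    rw [hCk, pow_add]
  rw [one_div_one_div, add_assoc, add_assoc, ← hz, e0]
  have h1 : (1 : ℝ) ≤ 2 ^ (n * (k + 1)) := one_le_pow₀ (by norm_num)
  have h2 : ((D : ℝ) + 1) ^ (D + 1) * η + z ≤ 2 ^ (n * (k + 1)) * (η + z) := by
    rw [mul_add]
    exact add_le_add (mul_le_mul_of_nonneg_right hDn hη) (le_mul_of_one_le_left hz0 h1)
  calc 2 ^ (C₁ * (k + 1)) * Lam h * 2 ^ w * (((D : ℝ) + 1) ^ (D + 1) * η + z) ≤
        2 ^ (C₁ * (k + 1)) * Lam h * 2 ^ w * (2 ^ (n * (k + 1)) * (η + z)) :=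
        mul_le_mul_of_nonneg_left h2 (by positivity)
    _ = _ := by ring

/-- **The relation with auxiliary lines**: the hypothesis of `dd_all` from the quadrature. -/
theorem aux_q {D : ℕ} {ι : Type} {P : ι → Polynomial ℝ} {h : ι → ℝ} {i₀ : ι} {y : Fin D → ℝ}
    {Cv : Fin D → Polynomial ℝ} {η : ℝ}
    (hrel : ∀ i, ∀ τ ∈ Set.Icc (0 : ℝ) 1, |(P i).eval τ - (P i₀).eval τ -
      ∑ k, (Qk y (h i₀) k).eval (h i) * (Cv k).eval τ| ≤ η) :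
    ∀ τ ∈ Set.Icc (0 : ℝ) 1, ∃ q : Polynomial ℝ, q.natDegree ≤ D ∧
      ∀ i, |(P i).eval τ - q.eval (h i)| ≤ η := by
  intro τ hτ
  refine ⟨qN y (h i₀) ((P i₀).eval τ) (fun k => (Cv k).eval τ), qN_deg _ _ _ _, fun i => ?_⟩
  rw [qN_eval, ← sub_sub]
  exact hrel i τ hτ

end Pool.NDD66
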