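import Pool.Agent.H66.NDD.Lev

/-!
# The linear relation of finitely many lines over one closed ball

As `Lev`, with the closed charts of the ball (window = radius) for the places `l ≤ r + 1`, and a row label
of an earlier window for the target only, of a smaller accuracy `2 ^ (-gr)`.
-/

set_option autoImplicit false

namespace Pool.NDD66

open Finset Real MvPolynomial
open Pool.Agent.H49.Ent Pool.Agent.H32.Dense Pool.STK Pool.KA Pool.KSAT Pool.K2S Pool.PB Pool.S6C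
open Pool.GEN Pool.CHT Pool.D2R
open Pool.PB.Trl (rt rt_mem t_rt)

variable {m J : ℕ}

/-- **The relation of two samples of one closed ball**, the row label `R` of the target. -/
theorem row_rel2 (m D r : ℕ) : ∃ C : ℕ, 1 ≤ C ∧ ∀ {J : ℕ} {F : Fam m J} {c : ℕ → Fin m}
    {a e k q X gr : ℕ} {g gw : ℕ → ℕ} {A : F.Ω → Prop}
    {G : PtT F → ℕ → MvPolynomial (Option (Fin m)) ℝ}
    {H : LnT F → ℕ → MvPolynomial (Option (Fin m)) ℝ}
    {ψ : ℕ → MvPolynomial (Option (Fin m)) ℝ} {R : MvPolynomial (Option (Fin m)) ℝ},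
    Set.InjOn c (Set.Iio (r + 2)) → a + 1 ≤ J → ChOK F c (r + 2) (fun _ => D) a a e g A G H →
    (∀ l ≤ r + 1, e + g l + C * (k + 1) ≤ J) → (∀ l, (ψ l).totalDegree ≤ D) →
    (∀ l, DepC c l (ψ l)) → R.totalDegree ≤ D → DepC c (r + 1) R → (∀ l ≤ r, g l ≤ gw l + q) →
    gw (r + 1) ≤ gr → gr ≤ g (r + 1) → (r + 1) * q + C * (k + 1) ≤ X →
    ∀ ω ν, NrB F c r a a k X g gw A G H ψ ω ν →
    (∀ b, NBx c (G (ptr F J ω)) g a (F.t ω) (r + 1) b →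
      |eval b (G (ptr F J ω) (r + 1)) - eval b R| ≤ 2 ^ k / 2 ^ gr) →
    |ov F c ψ ν (r + 1) - (nct c (r + 1) ψ (R - ψ (r + 1)) (bt F ω) +
      ∑ l ∈ range (r + 1), ncp c (r + 1) ψ (R - ψ (r + 1)) (bt F ω) l * ov F c ψ ν l)| ≤
      2 ^ (C * (k + 1)) * 2 ^ a *
      (1 / 2 ^ gr + 2 ^ ((r + 1) * q) / 2 ^ (gw (r + 1) + X)) := by
  classical
  obtain ⟨C₁, hC₁, hgrd⟩ := ball_grd m D (r + 1)
  obtain ⟨C₂, hC₂, hgen⟩ := rel_gen m D r
  obtain ⟨C₃, hC₃, hbt⟩ := box_two (r + 1) D D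
  obtain ⟨c₃, hc₃⟩ := pow_unbounded_of_one_lt (C₃ + 1) (one_lt_two (α := ℝ))
  obtain ⟨C, hC⟩ : ∃ C : ℕ, C = C₁ + C₂ + 1 + c₃ := ⟨_, rfl⟩
  refine ⟨C, by omega, ?_⟩
  intro J F c a e k q X gr g gw A G H ψ R hc haJ hch hJ hψ hdep hRd hRdep hg hgr hgr2 hX ω ν hN
    hbox
  have hCk : C * (k + 1) = C₁ * (k + 1) + C₂ * (k + 1) + (k + 1) + c₃ * (k + 1) := by
    rw [hC]
    ring
  have hci : Set.InjOn c (Set.Iio (r + 1)) := hc.mono fun y hy => by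
    rw [Set.mem_Iio] at hy ⊢
    omega
  have hω := hN.hω
  have hν := hN.hν
  have hGG := hN.chg
  have ht : F.t ω = F.t ν := hN.t
  have hbg : ∀ l ≤ r + 1, |bd F ν (some (c l)) - dd (G (ptr F J ν) l) (bt F ν) (bd F ν)| ≤
      2 ^ (C₁ * (k + 1)) * 2 ^ a / 2 ^ g l := fun l hl =>
    (hgrd (k := k) hc le_rfl (by omega) hch (fun l hl => by
      have := hJ l hl
      rw [hCk] at this
      omega) ω ν hω hν hGG ht hN.dvn l hl).1
  obtain ⟨κ, hκ⟩ := hN.cmp (r + 1) le_rfl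
  obtain ⟨E₁, hE₁⟩ : ∃ E₁ : ℝ, E₁ = 2 ^ (C₁ * (k + 1)) := ⟨_, rfl⟩
  have hE₁1 : 1 ≤ E₁ := by rw [hE₁]; exact one_le_pow₀ (by norm_num)
  have ha0 : (0 : ℝ) < 2 ^ a := by positivity
  -- the box of `ν`
  have hbox' : ∀ b, NBx c (G (ptr F J ν)) g a (F.t ν) (r + 1) b →
      |eval b (G (ptr F J ν) (r + 1)) - eval b R| ≤ 2 ^ k / 2 ^ gr := by
    intro b hb
    have h2 := hbox b ⟨by rw [ht]; exact hb.1, fun j hj => by
      rw [hGG j (by omega)]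
      exact hb.2 j hj⟩
    rw [hGG (r + 1) le_rfl] at h2
    exact h2
  obtain ⟨Q, hQ⟩ : ∃ Q, Q = G (ptr F J ν) (r + 1) - R := ⟨_, rfl⟩
  have hQdep : DepC c (r + 1) Q := by
    intro b b' h1 h2
    rw [hQ, map_sub, map_sub, hch.depG _ (r + 1) b b' h1 h2, hRdep b b' h1 h2]
  have hQdeg : Q.totalDegree ≤ D := by
    rw [hQ]
    exact (totalDegree_sub _ _).trans (max_le (hch.degG _ _) hRd)
  have hboxQ : ∀ b, NBx c (G (ptr F J ν)) g a (bt F ν none) (r + 1) b →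
      |eval b Q| ≤ 2 ^ k / 2 ^ gr := by
    intro b hb
    rw [hQ, map_sub]
    exact hbox' b hb
  obtain ⟨h1, -⟩ := hbt (M := 2 ^ k / 2 ^ gr) (L := E₁ * 2 ^ a)
    hci (fun j => hch.degG (ptr F J ν) j)
    (fun j => hch.depG _ j) hQdep hQdeg (by positivity) (by positivity) hboxQ
    (fun j hj => hch.pos ν hν j (by omega)) (bd F ν) (by
      have e1 : bd F ν none = 1 := rfl
      rw [e1, abs_one, mul_div_assoc, div_self ha0.ne', mul_one]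
      exact hE₁1) (fun j hj => by
      have h3 := hbg j (by omega)
      rw [← hE₁] at h3
      exact h3)
  rw [hQ, dd_sub] at h1
  have hb0 := hbg (r + 1) le_rfl
  rw [← hE₁] at hb0
  have hgg : (1 : ℝ) / 2 ^ g (r + 1) ≤ 1 / 2 ^ gr :=
    one_div_le_one_div_of_le (by positivity) (pow_le_pow_right₀ (by norm_num) hgr2)
  have hb2 : |bd F ν (some (c (r + 1))) - dd R (bt F ν) (bd F ν)| ≤
      2 ^ (C₁ * (k + 1) + c₃ * (k + 1) + k) * 2 ^ a * (1 / 2 ^ gr) := by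
    have e1 : bd F ν (some (c (r + 1))) - dd R (bt F ν) (bd F ν) =
        (bd F ν (some (c (r + 1))) - dd (G (ptr F J ν) (r + 1)) (bt F ν) (bd F ν)) +
        (dd (G (ptr F J ν) (r + 1)) (bt F ν) (bd F ν) - dd R (bt F ν) (bd F ν)) := by
      ring
    rw [e1]
    refine (abs_add_le _ _).trans ((add_le_add hb0 h1).trans ?_)
    have e2 : E₁ * 2 ^ a / 2 ^ g (r + 1) = E₁ * 2 ^ a * (1 / 2 ^ g (r + 1)) := by ring
    have e3 : E₁ * 2 ^ a * (1 / 2 ^ g (r + 1)) ≤ 2 ^ k * (E₁ * 2 ^ a * (1 / 2 ^ gr)) := by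
      have e4 : E₁ * 2 ^ a * (1 / 2 ^ g (r + 1)) ≤ E₁ * 2 ^ a * (1 / 2 ^ gr) :=
        mul_le_mul_of_nonneg_left hgg (by positivity)
      refine e4.trans (le_mul_of_one_le_left (by positivity) (one_le_pow₀ (by norm_num)))
    rw [e2]
    have e5 : C₃ * (2 ^ k / 2 ^ gr) * (E₁ * 2 ^ a) = C₃ * (2 ^ k * (E₁ * 2 ^ a * (1 / 2 ^ gr))) := by
      ring
    rw [e5]
    have e6 : (2 : ℝ) ^ (C₁ * (k + 1) + c₃ * (k + 1) + k) * 2 ^ a * (1 / 2 ^ gr) =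
        2 ^ (c₃ * (k + 1)) * (2 ^ k * (E₁ * 2 ^ a * (1 / 2 ^ gr))) := by
      rw [pow_add, pow_add, ← hE₁]
      ring
    rw [e6]
    have e7 : C₃ + 1 ≤ 2 ^ (c₃ * (k + 1)) :=
      hc₃.le.trans (pow_le_pow_right₀ (by norm_num) (Nat.le_mul_of_pos_right _ (by omega)))
    have e8 := mul_le_mul_of_nonneg_right e7
      (show 0 ≤ 2 ^ k * (E₁ * 2 ^ a * (1 / 2 ^ gr)) by positivity)
    linarith
  have hm := hgen (k := k) (M := 2 ^ (k + 1) / 2 ^ gw (r + 1)) (κ := κ)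
    (P := R) (X := X) hci le_rfl haJ (chOK_le (by omega) hch) (fun l hl => by
    have := hJ l (by omega)
    rw [hCk] at this
    omega) hψ hdep hg hRd hRdep (by
      rw [hCk] at hX
      omega) ω ν hν ht (fun l hl =>
      hN.dvn l (by omega)) (fun l hl => hN.cmp l (by omega)) (by positivity) (fun b hb => by
      have h1 := hκ b hb
      have h2 := hbox' b hb
      have e1 : eval b R - eval b (ψ (r + 1)) - κ =
          (eval b (G (ptr F J ν) (r + 1)) - eval b (ψ (r + 1)) - κ) -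
          (eval b (G (ptr F J ν) (r + 1)) - eval b R) := by ring
      rw [e1]
      refine (abs_sub _ _).trans ((add_le_add h1 h2).trans ?_)
      have h3 : (2 : ℝ) ^ k / 2 ^ gr ≤ 2 ^ k / 2 ^ gw (r + 1) :=
        div_le_div_of_nonneg_left (by positivity) (by positivity)
          (pow_le_pow_right₀ (by norm_num) hgr)
      rw [pow_succ]
      linarith [h3, show (2 : ℝ) ^ k * 2 / 2 ^ gw (r + 1) = 2 ^ k / 2 ^ gw (r + 1) +
        2 ^ k / 2 ^ gw (r + 1) by ring]) hN.hgt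
  obtain ⟨N, hNN⟩ : ∃ N : ℝ, N = nct c (r + 1) ψ (R - ψ (r + 1)) (bt F ω) +
    ∑ l ∈ range (r + 1), ncp c (r + 1) ψ (R - ψ (r + 1)) (bt F ω) l *
      ov F c ψ ν l := ⟨_, rfl⟩
  rw [← hNN] at hm ⊢
  have e1 : ov F c ψ ν (r + 1) - N =
      (bd F ν (some (c (r + 1))) - dd R (bt F ν) (bd F ν)) -
      (N - (dd R (bt F ν) (bd F ν) - dd (ψ (r + 1)) (bt F ν) (bd F ν))) := by
    have h2 : ov F c ψ ν (r + 1) = bd F ν (some (c (r + 1))) -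
      dd (ψ (r + 1)) (bt F ν) (bd F ν) := rfl
    rw [h2]
    ring
  rw [e1]
  refine (abs_sub _ _).trans ((add_le_add hb2 hm).trans ?_)
  obtain ⟨E, hE⟩ : ∃ E : ℝ, E = 2 ^ (C * (k + 1)) := ⟨_, rfl⟩
  have hE0 : 0 < E := by rw [hE]; positivity
  have h1 : (2 : ℝ) ^ (C₁ * (k + 1) + c₃ * (k + 1) + k) ≤ E := by
    rw [hE]
    refine pow_le_pow_right₀ (by norm_num) ?_
    rw [hCk]
    omega
  have h2 : (2 : ℝ) ^ (C₂ * (k + 1)) * 2 ^ a * (2 ^ ((r + 1) * q) *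
      (2 ^ (k + 1) / 2 ^ gw (r + 1)) / 2 ^ X) ≤
      E * 2 ^ a * (2 ^ ((r + 1) * q) / 2 ^ (gw (r + 1) + X)) := by
    have e2 : (2 : ℝ) ^ (C₂ * (k + 1)) * 2 ^ a * (2 ^ ((r + 1) * q) *
        (2 ^ (k + 1) / 2 ^ gw (r + 1)) / 2 ^ X) =
        2 ^ (C₂ * (k + 1) + (k + 1)) * 2 ^ a *
          (2 ^ ((r + 1) * q) / 2 ^ (gw (r + 1) + X)) := by
      rw [pow_add _ (C₂ * (k + 1)), pow_add _ (gw (r + 1))]
      field_simp
    rw [e2]
    refine mul_le_mul_of_nonneg_right (mul_le_mul_of_nonneg_right ?_ (by positivity))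
      (by positivity)
    rw [hE]
    refine pow_le_pow_right₀ (by norm_num) ?_
    rw [hCk]
    omega
  have h3 : (2 : ℝ) ^ (C₁ * (k + 1) + c₃ * (k + 1) + k) * 2 ^ a * (1 / 2 ^ gr) ≤
      E * 2 ^ a * (1 / 2 ^ gr) :=
    mul_le_mul_of_nonneg_right (mul_le_mul_of_nonneg_right h1 (by positivity)) (by positivity)
  rw [← hE]
  refine (add_le_add h3 h2).trans (le_of_eq ?_)
  ring

/-- **The relation of finitely many lines**, over one closed ball. -/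
theorem lin_ev2 (m D r : ℕ) : ∃ C : ℕ, 1 ≤ C ∧ ∀ {J : ℕ} {F : Fam m J} {c : ℕ → Fin m}
    {w a e k q X B gr : ℕ} {g gw : ℕ → ℕ} {A : F.Ω → Prop}
    {G : PtT F → ℕ → MvPolynomial (Option (Fin m)) ℝ}
    {H : LnT F → ℕ → MvPolynomial (Option (Fin m)) ℝ} {Hr : LnT F → MvPolynomial (Option (Fin m)) ℝ}
    {ψ : ℕ → MvPolynomial (Option (Fin m)) ℝ} {ι : Type} [Fintype ι] {lam : ι → ℝ}
    {ω ν : ι → F.Ω} {ω₀ : F.Ω} {ε : ℝ} (i₀ : ι), Set.InjOn c (Set.Iio (r + 2)) →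
    w ≤ J → a + 1 ≤ J → ChOK F c (r + 2) (fun _ => D) a a e g A G H →
    (∀ l ≤ r + 1, e + g l + C * (k + 1) ≤ J) → (∀ l, (ψ l).totalDegree ≤ D) →
    (∀ l, DepC c l (ψ l)) → (∀ s, (Hr s).totalDegree ≤ D) → (∀ s, DepC c (r + 1) (Hr s)) →
    (∀ l ≤ r, g l ≤ gw l + q) → gw (r + 1) ≤ gr → gr ≤ g (r + 1) →
    (r + 1) * q + C * (k + 1) ≤ X → (∀ i, NrB F c r a a k X g gw A G H ψ (ω i) (ν i)) →
    (∀ i, ∀ b, NBx c (G (ptr F J (ω i))) g a (F.t (ω i)) (r + 1) b →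
      |eval b (G (ptr F J (ω i)) (r + 1)) - eval b (Hr (slam F w (ω i)))| ≤ 2 ^ k / 2 ^ gr) →
    (∀ i, F.T (ω i) = F.T ω₀) → |∑ i, lam i * ov F c ψ (ν i) (r + 1)| ≤ ε →
    (∀ i, ∀ l ≤ r, |ov F c ψ (ν i) l - ov F c ψ (ν i₀) l| ≤ 2 ^ w / 2 ^ (gw l + B)) →
    (∀ i, ∀ l ≤ r, |ncp c (r + 1) ψ (Hr (slam F w (ω i)) - ψ (r + 1)) (bt F (ω i)) l| ≤
      2 ^ k * 2 ^ gw l / 2 ^ gw (r + 1)) →
    |(gA0 w c (r + 1) D ψ lam (fun i => slam F w (ω i))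
        (fun i => Hr (slam F w (ω i)))).eval (rt F w ω₀) +
      ∑ l ∈ range (r + 1), (gA w c (r + 1) D ψ lam (fun i => slam F w (ω i))
        (fun i => Hr (slam F w (ω i))) l).eval (rt F w ω₀) * ov F c ψ (ν i₀) l| ≤
      ε + (∑ i, |lam i|) * (2 ^ (C * (k + 1)) * (2 ^ a *
        (1 / 2 ^ gr + 2 ^ ((r + 1) * q) / 2 ^ (gw (r + 1) + X)) +
          2 ^ w / 2 ^ (gw (r + 1) + B))) := by
  classical
  obtain ⟨C₁, hC₁, hrel⟩ := row_rel2 m D r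
  obtain ⟨C, hC⟩ : ∃ C : ℕ, C = C₁ + r + 1 := ⟨_, rfl⟩
  refine ⟨C, by omega, ?_⟩
  intro J F c w a e k q X B gr g gw A G H Hr ψ ι _ lam ω ν ω₀ ε i₀ hc hwJ haJ hch hJ hψ hdep hRd
    hRdep hg hgr hgr2 hX hN hbox hT hS hnear hgrd
  have hCk : C * (k + 1) = C₁ * (k + 1) + r * (k + 1) + (k + 1) := by
    rw [hC]
    ring
  have hci : Set.InjOn c (Set.Iio (r + 1)) := hc.mono fun y hy => by
    rw [Set.mem_Iio] at hy ⊢
    omega
  have h1 := lin_alg i₀ lam (fun i => nct c (r + 1) ψ (Hr (slam F w (ω i)) - ψ (r + 1))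
      (bt F (ω i))) (fun i l => ncp c (r + 1) ψ (Hr (slam F w (ω i)) - ψ (r + 1))
      (bt F (ω i)) l) (fun i l => ov F c ψ (ν i) l) (r + 1) (ε := ε)
      (ε₀ := 2 ^ (C₁ * (k + 1)) * 2 ^ a *
        (1 / 2 ^ gr + 2 ^ ((r + 1) * q) / 2 ^ (gw (r + 1) + X)))
      (β := fun l => 2 ^ w / 2 ^ (gw l + B)) (γ := fun l => 2 ^ k * 2 ^ gw l / 2 ^ gw (r + 1))
      (fun i => hrel hc haJ hch (fun l hl => by
        have := hJ l hl
        rw [hCk] at this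
        omega) hψ hdep (hRd _) (hRdep _) hg hgr hgr2 (by omega) (ω i) (ν i) (hN i) (hbox i))
      hS (fun i l hl => hnear i l (by omega))
      (fun i l hl => hgrd i l (by omega))
  rw [gA0_eval hwJ hci hψ hdep lam hT (fun i => hRd _) (fun i => hRdep _)]
  have e1 : ∑ l ∈ range (r + 1), (gA w c (r + 1) D ψ lam (fun i => slam F w (ω i))
        (fun i => Hr (slam F w (ω i))) l).eval (rt F w ω₀) * ov F c ψ (ν i₀) l =
      ∑ l ∈ range (r + 1), (∑ i, lam i * ncp c (r + 1) ψ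
        (Hr (slam F w (ω i)) - ψ (r + 1)) (bt F (ω i)) l) * ov F c ψ (ν i₀) l := by
    refine Finset.sum_congr rfl fun l hl => ?_
    rw [gA_eval hwJ hci hψ hdep lam hT (fun i => hRd _) (fun i => hRdep _)
      (Finset.mem_range.1 hl)]
  rw [e1]
  refine h1.trans (add_le_add le_rfl (mul_le_mul_of_nonneg_left ?_
    (Finset.sum_nonneg fun i _ => abs_nonneg _)))
  obtain ⟨E, hE⟩ : ∃ E : ℝ, E = 2 ^ (C * (k + 1)) := ⟨_, rfl⟩
  have h2 : (2 : ℝ) ^ (C₁ * (k + 1)) ≤ E := by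
    rw [hE]
    refine pow_le_pow_right₀ (by norm_num) ?_
    rw [hCk]
    omega
  have h3 : ∑ l ∈ range (r + 1), (2 : ℝ) ^ k * 2 ^ gw l / 2 ^ gw (r + 1) *
      (2 ^ w / 2 ^ (gw l + B)) ≤ E * (2 ^ w / 2 ^ (gw (r + 1) + B)) := by
    have e2 : ∀ l ∈ range (r + 1), (2 : ℝ) ^ k * 2 ^ gw l / 2 ^ gw (r + 1) *
        (2 ^ w / 2 ^ (gw l + B)) = 2 ^ k * (2 ^ w / 2 ^ (gw (r + 1) + B)) := by
      intro l _
      rw [pow_add, pow_add]
      field_simp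
    rw [Finset.sum_congr rfl e2, Finset.sum_const, Finset.card_range, nsmul_eq_mul, ← mul_assoc]
    refine mul_le_mul_of_nonneg_right ?_ (by positivity)
    have h4 : ((r + 1 : ℕ) : ℝ) ≤ 2 ^ (r + 1) := by
      exact_mod_cast (Nat.lt_two_pow_self (n := r + 1)).le
    calc ((r + 1 : ℕ) : ℝ) * 2 ^ k ≤ 2 ^ (r + 1) * 2 ^ k :=
          mul_le_mul_of_nonneg_right h4 (by positivity)
      _ ≤ E := by
          rw [hE, ← pow_add]
          refine pow_le_pow_right₀ (by norm_num) ?_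
          rw [hCk]
          nlinarith [Nat.zero_le (C₁ * (k + 1)), Nat.zero_le (r * k)]
  rw [← hE]
  have h4 : (2 : ℝ) ^ (C₁ * (k + 1)) * 2 ^ a *
      (1 / 2 ^ gr + 2 ^ ((r + 1) * q) / 2 ^ (gw (r + 1) + X)) ≤ E * (2 ^ a *
      (1 / 2 ^ gr + 2 ^ ((r + 1) * q) / 2 ^ (gw (r + 1) + X))) := by
    rw [mul_assoc]
    exact mul_le_mul_of_nonneg_right h2 (by positivity)
  calc _ ≤ E * (2 ^ a * (1 / 2 ^ gr + 2 ^ ((r + 1) * q) / 2 ^ (gw (r + 1) + X))) +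
        E * (2 ^ w / 2 ^ (gw (r + 1) + B)) := add_le_add h4 h3
    _ = _ := by ring

/-- **The relation of a pair of lines**, over one closed ball. -/
theorem pr_ev2 (m D r : ℕ) : ∃ C : ℕ, 1 ≤ C ∧ ∀ {J : ℕ} {F : Fam m J} {c : ℕ → Fin m}
    {w a e k q X B gr : ℕ} {g gw : ℕ → ℕ} {A : F.Ω → Prop}
    {G : PtT F → ℕ → MvPolynomial (Option (Fin m)) ℝ}
    {H : LnT F → ℕ → MvPolynomial (Option (Fin m)) ℝ} {Hr : LnT F → MvPolynomial (Option (Fin m)) ℝ}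
    {ψ : ℕ → MvPolynomial (Option (Fin m)) ℝ} {ω ν : Fin 2 → F.Ω} {δ : ℝ},
    Set.InjOn c (Set.Iio (r + 2)) →
    w ≤ J → a + 1 ≤ J → ChOK F c (r + 2) (fun _ => D) a a e g A G H →
    (∀ l ≤ r + 1, e + g l + C * (k + 1) ≤ J) → (∀ l, (ψ l).totalDegree ≤ D) →
    (∀ l, DepC c l (ψ l)) → (∀ s, (Hr s).totalDegree ≤ D) → (∀ s, DepC c (r + 1) (Hr s)) →
    (∀ l ≤ r, g l ≤ gw l + q) → gw (r + 1) ≤ gr → gr ≤ g (r + 1) →
    (r + 1) * q + C * (k + 1) ≤ X → (∀ i, NrB F c r a a k X g gw A G H ψ (ω i) (ν i)) →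
    (∀ i, ∀ b, NBx c (G (ptr F J (ω i))) g a (F.t (ω i)) (r + 1) b →
      |eval b (G (ptr F J (ω i)) (r + 1)) - eval b (Hr (slam F w (ω i)))| ≤ 2 ^ k / 2 ^ gr) →
    F.T (ω 1) = F.T (ω 0) →
    (∀ l ≤ r, ∀ τ ∈ Set.Icc (0 : ℝ) 1, |(op w c ψ (slam F w (ν 1)) l).eval τ -
      (op w c ψ (slam F w (ν 0)) l).eval τ| ≤ 1 / 2 ^ (gw l + B + C)) →
    (∃ κ : ℝ, ∀ τ ∈ Set.Icc (0 : ℝ) 1, |(op w c ψ (slam F w (ν 1)) (r + 1)).eval τ -
      (op w c ψ (slam F w (ν 0)) (r + 1)).eval τ - κ| ≤ δ) →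
    (∀ i, ∀ l ≤ r, |ncp c (r + 1) ψ (Hr (slam F w (ω i)) - ψ (r + 1)) (bt F (ω i)) l| ≤
      2 ^ k * 2 ^ gw l / 2 ^ gw (r + 1)) →
    |(gA0 w c (r + 1) D ψ prl (fun i => slam F w (ω i))
        (fun i => Hr (slam F w (ω i)))).eval (rt F w (ω 0)) +
      ∑ l ∈ range (r + 1), (gA w c (r + 1) D ψ prl (fun i => slam F w (ω i))
        (fun i => Hr (slam F w (ω i))) l).eval (rt F w (ω 0)) * ov F c ψ (ν 0) l| ≤
      2 ^ (C * (k + 1)) * (2 ^ w * δ + 2 ^ a *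
        (1 / 2 ^ gr + 2 ^ ((r + 1) * q) / 2 ^ (gw (r + 1) + X)) +
          2 ^ w / 2 ^ (gw (r + 1) + B)) := by
  classical
  obtain ⟨C₁, hC₁, hlin⟩ := lin_ev2 m D r
  obtain ⟨C₂, hC₂, hov⟩ := ov_near D
  obtain ⟨C, hC⟩ : ∃ C : ℕ, C = C₁ + C₂ + 1 := ⟨_, rfl⟩
  refine ⟨C, by omega, ?_⟩
  intro J F c w a e k q X B gr g gw A G H Hr ψ ω ν δ hc hwJ haJ hch hJ hψ hdep hRd hRdep hg hgr hgr2
    hX hN hbox hT hx hn hgrd
  have hCk : C * (k + 1) = C₁ * (k + 1) + C₂ * (k + 1) + (k + 1) := by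
    rw [hC]
    ring
  have hTν : ∀ i, F.T (ν i) = F.T (ω 0) := by
    intro i
    rw [← (hN i).tim]
    fin_cases i
    · rfl
    · exact hT
  have hTω : ∀ i, F.T (ω i) = F.T (ω 0) := by
    intro i
    fin_cases i
    · rfl
    · exact hT
  have hrt : rt F w (ν 1) = rt F w (ν 0) := rt_congr ((hTν 1).trans (hTν 0).symm)
  obtain ⟨κ, hκ⟩ := hn
  have hδ0 : 0 ≤ δ := (abs_nonneg _).trans (hκ 0 ⟨le_rfl, zero_le_one⟩)
  have h2C : (1 : ℝ) ≤ 2 ^ (C₂ + C₂) := one_le_pow₀ (by norm_num)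
  have hv : ∀ l ≤ r, |ov F c ψ (ν 1) l - ov F c ψ (ν 0) l| ≤ 2 ^ w / 2 ^ (gw l + B) := by
    intro l hl
    refine (hov (κ := 0) (δ := 1 / 2 ^ (gw l + B + C)) hwJ hψ hrt (fun τ hτ => by
      rw [sub_zero]
      exact hx l hl τ hτ)).trans ?_
    have e1 : (2 : ℝ) ^ C₂ * 2 ^ w * (1 / 2 ^ (gw l + B + C)) =
        2 ^ w / 2 ^ (gw l + B) * (2 ^ C₂ / 2 ^ C) := by
      rw [pow_add _ (gw l + B) C]
      field_simp
    rw [e1]
    refine mul_le_of_le_one_right (by positivity) ?_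
    rw [div_le_one (by positivity)]
    exact pow_le_pow_right₀ (by norm_num) (by omega)
  have hv3 := hov (κ := κ) (δ := δ) hwJ hψ hrt hκ
  have hsum : ∀ f : Fin 2 → ℝ, ∑ i, prl i * f i = f 1 - f 0 := by
    intro f
    rw [Fin.sum_univ_two]
    unfold prl
    rw [if_pos rfl, if_neg (by decide)]
    ring
  have hlam : ∑ i, |prl i| = 2 := by
    rw [Fin.sum_univ_two]
    unfold prl
    rw [if_pos rfl, if_neg (by decide), abs_neg, abs_one]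
    norm_num
  have h1 := hlin (B := B) (lam := prl) (ω₀ := ω 0) (ε := 2 ^ C₂ * 2 ^ w * δ) 0 hc hwJ haJ hch
    (fun l hl => by
      have := hJ l hl
      rw [hCk] at this
      omega) hψ hdep hRd hRdep hg hgr hgr2 (by omega) hN hbox hTω (by
      rw [hsum (fun i => ov F c ψ (ν i) (r + 1))]
      exact hv3) (fun i l hl => by
      fin_cases i
      · show |ov F c ψ (ν 0) l - ov F c ψ (ν 0) l| ≤ _
        rw [sub_self, abs_zero]
        positivity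
      · exact hv l hl) hgrd
  rw [hlam] at h1
  refine h1.trans ?_
  obtain ⟨E, hE⟩ : ∃ E : ℝ, E = 2 ^ (C * (k + 1)) := ⟨_, rfl⟩
  have hE0 : 0 < E := by rw [hE]; positivity
  have h2 : (2 : ℝ) ^ C₂ ≤ E := by
    rw [hE]
    refine pow_le_pow_right₀ (by norm_num) ?_
    rw [hCk]
    have : C₂ ≤ C₂ * (k + 1) := Nat.le_mul_of_pos_right _ (Nat.succ_pos k)
    omega
  have h3 : 2 * (2 : ℝ) ^ (C₁ * (k + 1)) ≤ E := by
    rw [hE, mul_comm, ← pow_succ]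
    refine pow_le_pow_right₀ (by norm_num) ?_
    rw [hCk]
    omega
  rw [← hE]
  obtain ⟨R, hR⟩ : ∃ R : ℝ, R = 2 ^ a *
    (1 / 2 ^ gr + 2 ^ ((r + 1) * q) / 2 ^ (gw (r + 1) + X)) +
      2 ^ w / 2 ^ (gw (r + 1) + B) := ⟨_, rfl⟩
  have hR0 : 0 ≤ R := by rw [hR]; positivity
  have e1 : E * (2 ^ w * δ + 2 ^ a * (1 / 2 ^ gr + 2 ^ ((r + 1) * q) /
      2 ^ (gw (r + 1) + X)) + 2 ^ w / 2 ^ (gw (r + 1) + B)) = E * (2 ^ w * δ) + E * R := by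
    rw [hR]
    ring
  rw [e1, ← hR]
  have h4 : 2 ^ C₂ * 2 ^ w * δ ≤ E * (2 ^ w * δ) := by
    rw [mul_assoc]
    exact mul_le_mul_of_nonneg_right h2 (by positivity)
  have h5 : 2 * ((2 : ℝ) ^ (C₁ * (k + 1)) * R) ≤ E * R := by
    rw [← mul_assoc]
    exact mul_le_mul_of_nonneg_right h3 hR0
  exact add_le_add h4 h5

end Pool.NDD66
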