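import Pool.Agent.H66.NDD.Ddx

/-!
# The linear relation, for arbitrary weights

`dd_lin`: samples `ω i`, `ν i` of the same exact points, weights `lam i`; the lines `ν i` have near
own velocities; if the combination of the own velocities of the target is small, then the
combination of the gradients of the row labels of the lines `ω i` vanishes on the own velocities of
`ν i₀`.
-/

set_option autoImplicit false

namespace Pool.NDD66

open Finset Real MvPolynomial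
open Pool.Agent.H49.Ent Pool.Agent.H32.Dense Pool.STK Pool.KA Pool.KSAT Pool.K2S Pool.PB Pool.S6C
open Pool.GEN Pool.CHT Pool.D2R
open Pool.PB.Trl (rt rt_mem t_rt)

variable {m J : ℕ}

/-- **The linear relation, for arbitrary weights.** -/
theorem dd_lin (m D r : ℕ) : ∃ C : ℕ, 1 ≤ C ∧ ∀ {J : ℕ} {F : Fam m J} {c : ℕ → Fin m}
    {w a e k X : ℕ} {g gw : ℕ → ℕ} {A : F.Ω → Prop}
    {G : PtT F → ℕ → MvPolynomial (Option (Fin m)) ℝ}
    {H : LnT F → ℕ → MvPolynomial (Option (Fin m)) ℝ}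
    {ψ : ℕ → MvPolynomial (Option (Fin m)) ℝ} {ι : Type} [Fintype ι] {lam : ι → ℝ}
    {ω ν : ι → F.Ω} {ε : ℝ} (i₀ : ι),
    Set.InjOn c (Set.Iio (r + 2)) → w ≤ a → a ≤ J →
    ChOK F c (r + 2) (fun _ => D) a w e g A G H →
    (∀ l ≤ r + 1, e + g l + C * (k + 1) ≤ J) →
    (∀ l, (ψ l).totalDegree ≤ D) → (∀ l, DepC c l (ψ l)) →
    (∀ i, A (ω i)) → (∀ i, A (ν i)) → (∀ i, ptr F J (ω i) = ptr F J (ν i)) →
    (∀ i, ∀ l ≤ r + 1, ∀ τ ∈ Set.Icc (0 : ℝ) 1,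
      |(dv w (fun s _ => H s l) (c l) (slam F w (ν i))).eval τ| ≤ 2 ^ k / 2 ^ g l) →
    (∀ i, ∀ l ≤ r + 1, |dd (ψ l) (bt F (ω i)) (bd F (ν i)) - dd (ψ l) (bt F (ν i)) (bd F (ν i))| ≤
      2 ^ k * 2 ^ w / 2 ^ (gw l + X)) →
    |∑ i, lam i * ov F c ψ (ν i) (r + 1)| ≤ ε →
    (∀ i, ∀ l ≤ r, |ov F c ψ (ν i) l - ov F c ψ (ν i₀) l| ≤ 2 ^ w / 2 ^ (gw l + X)) →
    (∀ i, ∀ l ≤ r, |ncp c (r + 1) ψ (H (slam F w (ω i)) (r + 1) - ψ (r + 1)) (bt F (ω i)) l| ≤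
      2 ^ k * 2 ^ gw l / 2 ^ gw (r + 1)) →
    |∑ i, lam i * nct c (r + 1) ψ (H (slam F w (ω i)) (r + 1) - ψ (r + 1)) (bt F (ω i)) +
      ∑ l ∈ range (r + 1), (∑ i, lam i * ncp c (r + 1) ψ
        (H (slam F w (ω i)) (r + 1) - ψ (r + 1)) (bt F (ω i)) l) * ov F c ψ (ν i₀) l| ≤
      ε + 2 ^ (C * (k + 1)) * (∑ i, |lam i|) * 2 ^ w *
        (2 ^ (a - w) / 2 ^ g (r + 1) + 1 / 2 ^ (gw (r + 1) + X)) := by
  classical
  obtain ⟨C₁, hC₁, hrow⟩ := row_grd m D (r + 1)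
  obtain ⟨C, hC⟩ : ∃ C : ℕ, C = C₁ + 1 + r + 4 := ⟨_, rfl⟩
  refine ⟨C, by omega, ?_⟩
  intro J F c w a e k X g gw A G H ψ ι _ lam ω ν ε i₀ hc hwa haJ hrw hJ hψ hdep
    hAω hAν hpt hdv hmv hS hnear hgrd
  have hci : Set.InjOn c (Set.Iio (r + 1)) := hc.mono fun y hy => by
    rw [Set.mem_Iio] at hy ⊢
    omega
  have hCk : C * (k + 1) = C₁ * (k + 1) + 1 * (k + 1) + (r + 4) * (k + 1) := by
    rw [hC]
    ring
  have hk1 : ∀ n : ℕ, n ≤ n * (k + 1) := fun n => Nat.le_mul_of_pos_right _ (Nat.succ_pos k)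
  obtain ⟨E, hE⟩ : ∃ E : ℝ, E = 2 ^ (C * (k + 1)) := ⟨_, rfl⟩
  have hE0 : 0 < E := by rw [hE]; positivity
  -- the errors
  obtain ⟨er, her⟩ : ∃ er : ι → ℝ, er = fun i => bd F (ν i) (some (c (r + 1))) -
      dd (H (slam F w (ω i)) (r + 1)) (bt F (ω i)) (bd F (ν i)) := ⟨_, rfl⟩
  have her1 : ∀ i, |er i| ≤ 2 ^ (C₁ * (k + 1)) * 2 ^ a / 2 ^ g (r + 1) := by
    intro i
    rw [her]
    exact hrow hc hwa haJ hrw (fun l hl => by
      have := hJ l hl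
      rw [hCk] at this
      omega) (ω i) (ν i) (hAω i) (hAν i) (hpt i) (hdv i) (r + 1) le_rfl
  obtain ⟨fr, hfr⟩ : ∃ fr : ι → ℕ → ℝ, fr = fun i l =>
      dd (ψ l) (bt F (ω i)) (bd F (ν i)) - dd (ψ l) (bt F (ν i)) (bd F (ν i)) := ⟨_, rfl⟩
  have hfr1 : ∀ i, ∀ l ≤ r + 1, |fr i l| ≤ 2 ^ (1 * (k + 1)) * 2 ^ w / 2 ^ (gw l + X) := by
    intro i l hl
    rw [hfr]
    refine (hmv i l hl).trans (div_le_div_of_nonneg_right (mul_le_mul_of_nonneg_right
      (pow_le_pow_right₀ (by norm_num) (by omega)) (by positivity)) (by positivity))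
  -- the natural coframe
  obtain ⟨Δ, hΔ⟩ : ∃ Δ : ι → MvPolynomial (Option (Fin m)) ℝ, Δ = fun i =>
      H (slam F w (ω i)) (r + 1) - ψ (r + 1) := ⟨_, rfl⟩
  have hΔi : ∀ i, H (slam F w (ω i)) (r + 1) - ψ (r + 1) = Δ i := fun i => by rw [hΔ]
  obtain ⟨n0, hn0⟩ : ∃ n0 : ι → ℝ, n0 = fun i =>
      nct c (r + 1) ψ (Δ i) (bt F (ω i)) := ⟨_, rfl⟩
  obtain ⟨nj, hnj⟩ : ∃ nj : ι → ℕ → ℝ, nj = fun i l =>
      ncp c (r + 1) ψ (Δ i) (bt F (ω i)) l := ⟨_, rfl⟩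
  have hid : ∀ i, dd (Δ i) (bt F (ω i)) (bd F (ν i)) = n0 i +
      ∑ l ∈ range (r + 1), nj i l * (ov F c ψ (ν i) l - fr i l) := by
    intro i
    obtain ⟨-, -, -, -, -, -, h1⟩ := nat_pol hci hψ hdep (Δ := Δ i) (by
      rw [hΔ]
      exact (totalDegree_sub _ _).trans (max_le (hrw.degH _ _) (hψ _))) (by
      intro b b' h1 h2
      rw [hΔ]
      show eval b (H (slam F w (ω i)) (r + 1) - ψ (r + 1)) =
        eval b' (H (slam F w (ω i)) (r + 1) - ψ (r + 1))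
      rw [map_sub, map_sub, hrw.depH _ (r + 1) b b' h1 h2, hdep (r + 1) b b' h1 h2])
    rw [h1]
    have e1 : bd F (ν i) none = 1 := rfl
    rw [e1, mul_one, hn0, hnj]
    congr 1
    refine Finset.sum_congr rfl fun l _ => ?_
    rw [hfr]
    unfold ov
    ring
  have hov : ∀ i, ov F c ψ (ν i) (r + 1) = er i + fr i (r + 1) + n0 i +
      ∑ l ∈ range (r + 1), nj i l * (ov F c ψ (ν i) l - fr i l) := by
    intro i
    have h1 := hid i
    have h2 : dd (Δ i) (bt F (ω i)) (bd F (ν i)) = dd (H (slam F w (ω i)) (r + 1)) (bt F (ω i))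
        (bd F (ν i)) - dd (ψ (r + 1)) (bt F (ω i)) (bd F (ν i)) := by
      rw [hΔ]
      exact dd_sub _ _ _ _
    rw [h2] at h1
    have h3 : ov F c ψ (ν i) (r + 1) = bd F (ν i) (some (c (r + 1))) -
      dd (ψ (r + 1)) (bt F (ν i)) (bd F (ν i)) := rfl
    rw [add_assoc (er i + fr i (r + 1)), ← h1, h3, her, hfr]
    ring
  -- the remainder
  obtain ⟨Rm, hRm⟩ : ∃ Rm : ι → ℝ, Rm = fun i => er i + fr i (r + 1) +
      ∑ l ∈ range (r + 1), nj i l * ((ov F c ψ (ν i) l - ov F c ψ (ν i₀) l) - fr i l) := ⟨_, rfl⟩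
  have hRi : ∀ i, n0 i + ∑ l ∈ range (r + 1), nj i l * ov F c ψ (ν i₀) l =
      ov F c ψ (ν i) (r + 1) - Rm i := by
    intro i
    rw [hov i, hRm]
    have e1 : ∑ l ∈ range (r + 1), nj i l * (ov F c ψ (ν i) l - fr i l) =
        ∑ l ∈ range (r + 1), nj i l * ov F c ψ (ν i₀) l +
        ∑ l ∈ range (r + 1), nj i l * ((ov F c ψ (ν i) l - ov F c ψ (ν i₀) l) - fr i l) := by
      rw [← Finset.sum_add_distrib]
      exact Finset.sum_congr rfl fun l _ => by ring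
    rw [e1]
    ring
  obtain ⟨a₁, ha₁⟩ : ∃ a₁ : ℝ, a₁ = 2 ^ (C₁ * (k + 1)) := ⟨_, rfl⟩
  obtain ⟨a₂, ha₂⟩ : ∃ a₂ : ℝ, a₂ = 2 ^ (1 * (k + 1)) := ⟨_, rfl⟩
  have ha₂1 : 1 ≤ a₂ := by rw [ha₂]; exact one_le_pow₀ (by norm_num)
  obtain ⟨uX, huX⟩ : ∃ uX : ℝ, uX = 2 ^ w * (1 / 2 ^ (gw (r + 1) + X)) := ⟨_, rfl⟩
  have huX0 : 0 ≤ uX := by rw [huX]; positivity
  have hRb : ∀ i, |Rm i| ≤ E * (2 ^ w * (2 ^ (a - w) / 2 ^ g (r + 1))) + E * uX := by
    intro i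
    have h1 : |er i| ≤ E * (2 ^ w * (2 ^ (a - w) / 2 ^ g (r + 1))) := by
      refine (her1 i).trans ?_
      have e1 : (2 : ℝ) ^ a = 2 ^ w * 2 ^ (a - w) := by
        rw [← pow_add]
        congr 1
        omega
      rw [e1]
      have e2 : (2 : ℝ) ^ (C₁ * (k + 1)) * (2 ^ w * 2 ^ (a - w)) / 2 ^ g (r + 1) =
          2 ^ (C₁ * (k + 1)) * (2 ^ w * (2 ^ (a - w) / 2 ^ g (r + 1))) := by ring
      rw [e2]
      refine mul_le_mul_of_nonneg_right ?_ (by positivity)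
      rw [hE]
      refine pow_le_pow_right₀ (by norm_num) ?_
      rw [hCk]
      omega
    have h2 : |fr i (r + 1)| ≤ a₂ * uX := by
      refine (hfr1 i (r + 1) le_rfl).trans (le_of_eq ?_)
      rw [ha₂, huX]
      ring
    have h3 : |∑ l ∈ range (r + 1), nj i l * ((ov F c ψ (ν i) l - ov F c ψ (ν i₀) l) - fr i l)| ≤
        (r + 1) * (2 ^ k * ((1 + a₂) * uX)) := by
      refine (Finset.abs_sum_le_sum_abs _ _).trans ?_
      have h4 : ∀ l ∈ range (r + 1),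
          |nj i l * ((ov F c ψ (ν i) l - ov F c ψ (ν i₀) l) - fr i l)| ≤
            2 ^ k * ((1 + a₂) * uX) := by
        intro l hl
        have hl' : l ≤ r := by
          have := Finset.mem_range.1 hl
          omega
        have h5 : |nj i l| ≤ 2 ^ k * 2 ^ gw l / 2 ^ gw (r + 1) := by
          rw [hnj]
          have := hgrd i l hl'
          rw [hΔi] at this
          exact this
        have h6 : |(ov F c ψ (ν i) l - ov F c ψ (ν i₀) l) - fr i l| ≤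
            (1 + a₂) * (2 ^ w / 2 ^ (gw l + X)) := by
          refine (abs_sub _ _).trans ?_
          have h7 := add_le_add (hnear i l hl') (hfr1 i l (by omega))
          refine h7.trans (le_of_eq ?_)
          rw [ha₂]
          ring
        rw [abs_mul]
        refine (mul_le_mul h5 h6 (abs_nonneg _) (by positivity)).trans (le_of_eq ?_)
        rw [huX, pow_add, pow_add]
        field_simp
      refine (Finset.sum_le_sum h4).trans (le_of_eq ?_)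
      rw [Finset.sum_const, Finset.card_range, nsmul_eq_mul]
      push_cast
      ring
    have h4 : a₂ + (r + 1) * (2 ^ k * (1 + a₂)) ≤ E := by
      have h5 : ((r : ℝ) + 1) ≤ 2 ^ r := by exact_mod_cast Nat.lt_two_pow_self (n := r)
      have h6 : (1 : ℝ) ≤ 2 ^ k := one_le_pow₀ (by norm_num)
      have h7 : a₂ + (r + 1) * (2 ^ k * (1 + a₂)) ≤ 2 ^ r * 2 ^ k * a₂ * 4 := by
        have h8 : (1 : ℝ) ≤ 2 ^ r * 2 ^ k :=
          one_le_mul_of_one_le_of_one_le (one_le_pow₀ (by norm_num)) h6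
        have h9 : a₂ ≤ 2 ^ r * 2 ^ k * a₂ := le_mul_of_one_le_left (by linarith) h8
        have h10 : ((r : ℝ) + 1) * (2 ^ k * (1 + a₂)) ≤ 2 ^ r * (2 ^ k * (a₂ + a₂)) := by
          refine mul_le_mul h5 (mul_le_mul_of_nonneg_left (by linarith) (by positivity))
            (by positivity) (by positivity)
        nlinarith
      refine h7.trans ?_
      rw [hE, ha₂, show (4 : ℝ) = 2 ^ 2 by norm_num, ← pow_add, ← pow_add, ← pow_add]
      refine pow_le_pow_right₀ (by norm_num) ?_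
      rw [hCk]
      have h8 : (r + 4) * (k + 1) = r * (k + 1) + 4 * k + 4 := by ring
      have h9 := hk1 r
      omega
    rw [hRm]
    refine (abs_add_le _ _).trans ?_
    have h5 := abs_add_le (er i) (fr i (r + 1))
    have h6 : (a₂ + (r + 1) * (2 ^ k * (1 + a₂))) * uX ≤ E * uX :=
      mul_le_mul_of_nonneg_right h4 huX0
    have h7 : (a₂ + (r + 1) * (2 ^ k * (1 + a₂))) * uX =
        a₂ * uX + (r + 1) * (2 ^ k * ((1 + a₂) * uX)) := by ring
    rw [h7] at h6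
    linarith
  have hfin : ∑ i, lam i * n0 i + ∑ l ∈ range (r + 1), (∑ i, lam i * nj i l) *
      ov F c ψ (ν i₀) l = ∑ i, lam i * ov F c ψ (ν i) (r + 1) - ∑ i, lam i * Rm i := by
    have e1 : ∑ l ∈ range (r + 1), (∑ i, lam i * nj i l) * ov F c ψ (ν i₀) l =
        ∑ i, lam i * ∑ l ∈ range (r + 1), nj i l * ov F c ψ (ν i₀) l := by
      simp only [Finset.sum_mul, Finset.mul_sum]
      rw [Finset.sum_comm]
      exact Finset.sum_congr rfl fun i _ => Finset.sum_congr rfl fun l _ => by ring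
    rw [e1, ← Finset.sum_add_distrib, ← Finset.sum_sub_distrib]
    refine Finset.sum_congr rfl fun i _ => ?_
    rw [← mul_add, hRi i]
    ring
  have hgoal : ∑ i, lam i * nct c (r + 1) ψ (H (slam F w (ω i)) (r + 1) - ψ (r + 1))
      (bt F (ω i)) + ∑ l ∈ range (r + 1), (∑ i, lam i * ncp c (r + 1) ψ
        (H (slam F w (ω i)) (r + 1) - ψ (r + 1)) (bt F (ω i)) l) * ov F c ψ (ν i₀) l =
      ∑ i, lam i * n0 i + ∑ l ∈ range (r + 1), (∑ i, lam i * nj i l) *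
      ov F c ψ (ν i₀) l := by
    rw [hn0, hnj]
    simp only [hΔi]
  rw [hgoal, hfin]
  have hR2 : |∑ i, lam i * Rm i| ≤
      (∑ i, |lam i|) * (E * (2 ^ w * (2 ^ (a - w) / 2 ^ g (r + 1))) + E * uX) := by
    refine (Finset.abs_sum_le_sum_abs _ _).trans ?_
    rw [Finset.sum_mul]
    refine Finset.sum_le_sum fun i _ => ?_
    rw [abs_mul]
    exact mul_le_mul_of_nonneg_left (hRb i) (abs_nonneg _)
  refine (abs_sub _ _).trans ((add_le_add hS hR2).trans (le_of_eq ?_))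
  rw [huX, ← hE]
  ring

/-! ### The polynomials, for arbitrary weights -/

/-- **The combination of the time components**, a polynomial in the relative time. -/
noncomputable def gA0 {ζ ι : Type} [Fintype ι] (w : ℕ) (c : ℕ → Fin m) (r D : ℕ)
    (ψ : ℕ → MvPolynomial (Option (Fin m)) ℝ) (lam : ι → ℝ)
    (S : ι → ((Fin m → ℝ) × (Fin m → ℝ)) × ζ × ℕ)
    (P : ι → MvPolynomial (Option (Fin m)) ℝ) : Polynomial ℝ :=
  ∑ i, Polynomial.C (lam i) * MvPolynomial.aeval (lc w (S i)) (n0P c r ψ (D + r * D) (P i - ψ r))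

/-- **The combination of the components `j`**, a polynomial in the relative time. -/
noncomputable def gA {ζ ι : Type} [Fintype ι] (w : ℕ) (c : ℕ → Fin m) (r D : ℕ)
    (ψ : ℕ → MvPolynomial (Option (Fin m)) ℝ) (lam : ι → ℝ)
    (S : ι → ((Fin m → ℝ) × (Fin m → ℝ)) × ζ × ℕ)
    (P : ι → MvPolynomial (Option (Fin m)) ℝ) (j : ℕ) : Polynomial ℝ :=
  ∑ i, Polynomial.C (lam i) *
    MvPolynomial.aeval (lc w (S i)) (njP c r ψ (D + r * D) (P i - ψ r) j)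

theorem gA0_deg {ζ ι : Type} [Fintype ι] (w : ℕ) (c : ℕ → Fin m) (r D : ℕ)
    (ψ : ℕ → MvPolynomial (Option (Fin m)) ℝ) (lam : ι → ℝ)
    (S : ι → ((Fin m → ℝ) × (Fin m → ℝ)) × ζ × ℕ)
    (P : ι → MvPolynomial (Option (Fin m)) ℝ) :
    (gA0 w c r D ψ lam S P).natDegree ≤ D + r * D := by
  unfold gA0
  refine Polynomial.natDegree_sum_le_of_forall_le _ _ fun i _ => ?_
  exact (Polynomial.natDegree_C_mul_le _ _).trans
    (Pool.KBX.natDegree_aeval_le _ _ (natDegree_lc _ _) (n0P_deg _ _ _ _ _))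

theorem gA_deg {ζ ι : Type} [Fintype ι] (w : ℕ) (c : ℕ → Fin m) (r D : ℕ)
    (ψ : ℕ → MvPolynomial (Option (Fin m)) ℝ) (lam : ι → ℝ)
    (S : ι → ((Fin m → ℝ) × (Fin m → ℝ)) × ζ × ℕ)
    (P : ι → MvPolynomial (Option (Fin m)) ℝ) (j : ℕ) :
    (gA w c r D ψ lam S P j).natDegree ≤ D + r * D := by
  unfold gA
  refine Polynomial.natDegree_sum_le_of_forall_le _ _ fun i _ => ?_
  exact (Polynomial.natDegree_C_mul_le _ _).trans
    (Pool.KBX.natDegree_aeval_le _ _ (natDegree_lc _ _) (njP_deg _ _ _ _ _ _))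

theorem gA0_eval {ι : Type} [Fintype ι] {F : Fam m J} {w : ℕ} (hw : w ≤ J) {c : ℕ → Fin m}
    {r D : ℕ} (hc : Set.InjOn c (Set.Iio r)) {ψ : ℕ → MvPolynomial (Option (Fin m)) ℝ}
    (hψ : ∀ l, (ψ l).totalDegree ≤ D) (hdep : ∀ l, DepC c l (ψ l)) (lam : ι → ℝ)
    {ω : ι → F.Ω} {ω₀ : F.Ω} (hT : ∀ i, F.T (ω i) = F.T ω₀)
    {P : ι → MvPolynomial (Option (Fin m)) ℝ} (hP : ∀ i, (P i).totalDegree ≤ D)
    (hPd : ∀ i, DepC c r (P i)) :
    (gA0 w c r D ψ lam (fun i => slam F w (ω i)) P).eval (rt F w ω₀) =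
      ∑ i, lam i * nct c r ψ (P i - ψ r) (bt F (ω i)) := by
  unfold gA0
  rw [Polynomial.eval_finsetSum]
  refine Finset.sum_congr rfl fun i _ => ?_
  rw [Polynomial.eval_mul, Polynomial.eval_C, Pool.KBX.eval_aeval_poly, ← rt_congr (hT i)]
  have e1 : (fun o => (lc w (slam F w (ω i)) o).eval (rt F w (ω i))) = bt F (ω i) :=
    funext fun o => eval_lc F hw (ω i) o
  rw [e1, n0P_eval hc hψ hdep ((totalDegree_sub _ _).trans (max_le (hP i) (hψ r)))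
    (fun b b' h1 h2 => by rw [map_sub, map_sub, hPd i b b' h1 h2, hdep r b b' h1 h2])]

theorem gA_eval {ι : Type} [Fintype ι] {F : Fam m J} {w : ℕ} (hw : w ≤ J) {c : ℕ → Fin m}
    {r D : ℕ} (hc : Set.InjOn c (Set.Iio r)) {ψ : ℕ → MvPolynomial (Option (Fin m)) ℝ}
    (hψ : ∀ l, (ψ l).totalDegree ≤ D) (hdep : ∀ l, DepC c l (ψ l)) (lam : ι → ℝ)
    {ω : ι → F.Ω} {ω₀ : F.Ω} (hT : ∀ i, F.T (ω i) = F.T ω₀)
    {P : ι → MvPolynomial (Option (Fin m)) ℝ} (hP : ∀ i, (P i).totalDegree ≤ D)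
    (hPd : ∀ i, DepC c r (P i)) {j : ℕ} (hj : j < r) :
    (gA w c r D ψ lam (fun i => slam F w (ω i)) P j).eval (rt F w ω₀) =
      ∑ i, lam i * ncp c r ψ (P i - ψ r) (bt F (ω i)) j := by
  unfold gA
  rw [Polynomial.eval_finsetSum]
  refine Finset.sum_congr rfl fun i _ => ?_
  rw [Polynomial.eval_mul, Polynomial.eval_C, Pool.KBX.eval_aeval_poly, ← rt_congr (hT i)]
  have e1 : (fun o => (lc w (slam F w (ω i)) o).eval (rt F w (ω i))) = bt F (ω i) :=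
    funext fun o => eval_lc F hw (ω i) o
  rw [e1, njP_eval hc hψ hdep ((totalDegree_sub _ _).trans (max_le (hP i) (hψ r)))
    (fun b b' h1 h2 => by rw [map_sub, map_sub, hPd i b b' h1 h2, hdep r b b' h1 h2]) _ hj]

end Pool.NDD66
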