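import Pool.Agent.H66.NDD.Bal
import Pool.Agent.H66.NDD.Lin

/-!
# The relation of the velocities over one near ball

`row_rel`: two samples `ω`, `ν` with the same charts of the radius `2 ^ (-a)`, the same time and near
heights over the charts `ψ`: the own velocity of the target of `ν` is the value of the covector of
the row label of the line of `ω`, at the point of `ω`, on the own velocities of `ν`. `dd_lin2`: the
linear combination of these relations.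
-/

set_option autoImplicit false

namespace Pool.NDD66

open Finset Real MvPolynomial
open Pool.Agent.H49.Ent Pool.Agent.H32.Dense Pool.STK Pool.KA Pool.KSAT Pool.K2S Pool.PB Pool.S6C
open Pool.GEN Pool.CHT Pool.D2R
open Pool.PB.Trl (rt rt_mem t_rt)

variable {m J : ℕ}

/-- **The derivative of a natural polynomial along the line of `ν`**, at the point of `ω`. -/
theorem rel_gen (m D r : ℕ) : ∃ C : ℕ, 1 ≤ C ∧ ∀ {J : ℕ} {F : Fam m J} {c : ℕ → Fin m}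
    {w a e k q X : ℕ} {g gw : ℕ → ℕ} {A : F.Ω → Prop}
    {G : PtT F → ℕ → MvPolynomial (Option (Fin m)) ℝ}
    {H : LnT F → ℕ → MvPolynomial (Option (Fin m)) ℝ}
    {ψ : ℕ → MvPolynomial (Option (Fin m)) ℝ} {P : MvPolynomial (Option (Fin m)) ℝ} {M κ : ℝ},
    Set.InjOn c (Set.Iio (r + 1)) →
    w ≤ a → a + 1 ≤ J → ChOK F c (r + 1) (fun _ => D) a w e g A G H →
    (∀ l ≤ r, e + g l + C * (k + 1) ≤ J) → (∀ l, (ψ l).totalDegree ≤ D) →
    (∀ l, DepC c l (ψ l)) → (∀ l ≤ r, g l ≤ gw l + q) → P.totalDegree ≤ D → DepC c (r + 1) P →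
    (r + 1) * q + C * (k + 1) ≤ X → ∀ ω ν, A ν → F.t ω = F.t ν →
    (∀ l ≤ r, ∀ τ ∈ Set.Icc (0 : ℝ) 1,
      |(dv w (fun s _ => H s l) (c l) (slam F w ν)).eval τ| ≤ 2 ^ k / 2 ^ g l) →
    (∀ l ≤ r, ∃ κ : ℝ, ∀ b, NBx c (G (ptr F J ν)) g a (F.t ν) l b →
      |eval b (G (ptr F J ν) l) - eval b (ψ l) - κ| ≤ 2 ^ k / 2 ^ gw l) → 0 ≤ M →
    (∀ b, NBx c (G (ptr F J ν)) g a (F.t ν) (r + 1) b →
      |eval b P - eval b (ψ (r + 1)) - κ| ≤ M) →
    (∀ l ≤ r, |(F.x ω (c l) - eval (bt F ω) (ψ l)) - (F.x ν (c l) - eval (bt F ν) (ψ l))| ≤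
      1 / 2 ^ (gw l + X)) →
    |nct c (r + 1) ψ (P - ψ (r + 1)) (bt F ω) +
      ∑ l ∈ range (r + 1), ncp c (r + 1) ψ (P - ψ (r + 1)) (bt F ω) l * ov F c ψ ν l -
      (dd P (bt F ν) (bd F ν) - dd (ψ (r + 1)) (bt F ν) (bd F ν))| ≤
        2 ^ (C * (k + 1)) * 2 ^ a * (2 ^ ((r + 1) * q) * M / 2 ^ X) := by
  classical
  obtain ⟨C₂, hC₂, hpb⟩ := path_box m D r
  obtain ⟨C₃, hC₃, hmv⟩ := tr_move D r
  obtain ⟨C, hC⟩ : ∃ C : ℕ, C = C₂ + (r + 1) * (C₃ * (C₂ + 1)) + 1 := ⟨_, rfl⟩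
  refine ⟨C, by omega, ?_⟩
  intro J F c w a e k q X g gw A G H ψ P M κ hc hwa haJ hrw hJ hψ hdep hg hPd hPp hX ω ν hν ht hdv
    hcmp hM0 hκ hht
  have hCk : C * (k + 1) = C₂ * (k + 1) + (r + 1) * (C₃ * (C₂ + 1)) * (k + 1) + (k + 1) := by
    rw [hC]
    ring
  have haJ' : a ≤ J := by omega
  have hk1 : ∀ n : ℕ, n ≤ n * (k + 1) := fun n => Nat.le_mul_of_pos_right _ (Nat.succ_pos k)
  obtain ⟨k', hk'⟩ : ∃ k' : ℕ, k' = C₂ * (k + 1) := ⟨_, rfl⟩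
  have hkk' : k ≤ k' := by
    rw [hk']
    nlinarith
  have hk2 : C₃ * (k' + 1) ≤ C₃ * (C₂ + 1) * (k + 1) := by
    rw [hk', mul_assoc]
    refine Nat.mul_le_mul_left _ ?_
    nlinarith
  -- the difference
  obtain ⟨Δ, hΔ⟩ : ∃ Δ, Δ = P - ψ (r + 1) := ⟨_, rfl⟩
  have hΔdeg : Δ.totalDegree ≤ D := by
    rw [hΔ]
    exact (totalDegree_sub _ _).trans (max_le hPd (hψ _))
  have hΔdep : DepC c (r + 1) Δ := by
    intro b b' h1 h2
    rw [hΔ, map_sub, map_sub, hPp b b' h1 h2, hdep (r + 1) b b' h1 h2]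
  have hbox : ∀ b, NBx c (G (ptr F J ν)) g a (F.t ν) (r + 1) b →
      |eval b (Δ - MvPolynomial.C κ)| ≤ M := by
    intro b hb
    have h1 := hκ b hb
    rw [hΔ, map_sub, map_sub, eval_C]
    exact h1
  -- the curve
  obtain ⟨p, hp⟩ : ∃ p : Option (Fin m) → Polynomial ℝ, p = lc (a + 1) (slam F (a + 1) ν) :=
    ⟨_, rfl⟩
  obtain ⟨τ₀, hτ₀⟩ : ∃ τ₀ : ℝ, τ₀ = rt F (a + 1) ν := ⟨_, rfl⟩
  have hτ₀m : τ₀ ∈ Set.Icc (0 : ℝ) 1 := by rw [hτ₀]; exact rt_mem F _ _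
  have hpe : (fun o => (p o).eval τ₀) = bt F ν := funext fun o => by
    rw [hp, hτ₀, eval_lc F haJ]
  have hpd : (fun o => (Polynomial.derivative (p o)).eval τ₀) = (1 / 2 ^ (a + 1) : ℝ) • bd F ν := by
    funext o
    rw [hp, der_lc, Polynomial.eval_C]
    rfl
  have hpn : ∀ τ ∈ Set.Icc (0 : ℝ) 1, |(p none).eval τ - F.t ν| ≤ 1 / 2 ^ (a + 1) := by
    intro τ hτ
    have h1 := t_rt F haJ ν
    have h2 : (p none).eval τ = (((slam F (a + 1) ν).2.2 : ℝ) + τ) / 2 ^ (a + 1) := by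
      rw [hp]
      simp only [lc, Polynomial.eval_add, Polynomial.eval_mul, Polynomial.eval_C,
        Polynomial.eval_X]
      ring
    rw [h2, h1, ← sub_div, abs_div, abs_of_pos (show (0 : ℝ) < 2 ^ (a + 1) by positivity)]
    refine div_le_div_of_nonneg_right ?_ (by positivity)
    have h3 := rt_mem F (a + 1) ν
    rw [abs_le]
    constructor <;> linarith [hτ.1, hτ.2, h3.1, h3.2]
  have hph : ∀ l ≤ r, ∀ τ ∈ Set.Icc (0 : ℝ) 1, |(p (some (c l))).eval τ -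
      eval (fun o => (p o).eval τ) (G (ptr F J ν) l)| ≤ 2 ^ k' / 2 ^ g l := by
    intro l hl τ hτ
    obtain ⟨τ', hτ', h2⟩ := lc_coarse F (Nat.le_succ a) haJ ν τ hτ
    have h3 := hpb (k := k) hc haJ' (row_win hwa haJ' hrw) (fun l hl => by
      have := hJ l hl
      rw [hCk] at this
      omega) ν ν hν hν rfl (fun l hl τ hτ => by
      obtain ⟨τ'', hτ'', h4⟩ := lc_coarse F hwa haJ' ν τ hτ
      have h5 := hdv l hl τ'' hτ''
      unfold dv at h5 ⊢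
      rw [Polynomial.eval_sub, Pool.KBX.eval_aeval_poly] at h5 ⊢
      rw [show (fun o => (lc a (slam F a ν) o).eval τ) =
        fun o => (lc w (slam F w ν) o).eval τ'' from funext h4, h4]
      show |_ - eval _ (H (co (a - w) (slam F a ν)) l)| ≤ _
      rw [co_slam F hwa haJ']
      exact h5) τ' hτ' 0 ⟨le_rfl, zero_le_one⟩ l hl
    simp only [zero_mul, add_zero] at h3
    rw [hp, hk', h2]
    have h4 : (fun o => (lc (a + 1) (slam F (a + 1) ν) o).eval τ) =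
        fun o => (lc a (slam F a ν) o).eval τ' := funext h2
    rw [h4]
    exact h3
  -- the direction at the point of `ω`
  obtain ⟨W, hW0, hW⟩ := vec_adapt hc hdep (bt F ω) 1 (fun l => ov F c ψ ν l) (r + 1) le_rfl
  obtain ⟨-, -, -, -, -, -, hnat⟩ := nat_pol hc hψ hdep hΔdeg hΔdep
  have hbtn : bt F ω none = bt F ν none := ht
  obtain ⟨-, hm⟩ := hmv (c := c) (a := a) (k := k') (q := q) (gw := gw) (g := g)
    (χ := G (ptr F J ν)) (ψ := ψ) (Q := Δ - MvPolynomial.C κ) (M := M) (ρ := 1 / 2 ^ X)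
    (t₀ := F.t ν)
    (τ₀ := τ₀) (p := p) (b' := bt F ω) (V' := (1 / 2 ^ (a + 1) : ℝ) • W) hc
    (fun l hl => hg l hl) (fun l => hrw.degG _ l) (fun l => hrw.depG _ l) hψ hdep
    (fun b b' h1 h2 => by rw [map_sub, map_sub, hΔdep b b' h1 h2, eval_C, eval_C])
    ((totalDegree_sub _ _).trans (max_le hΔdeg (by rw [totalDegree_C]; exact Nat.zero_le _)))
    hM0 hbox (fun l hl => by
      obtain ⟨κ', h1⟩ := hcmp l hl
      refine ⟨κ', fun b hb => (h1 b hb).trans ?_⟩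
      exact div_le_div_of_nonneg_right (pow_le_pow_right₀ (by norm_num) hkk') (by positivity))
    (fun o => by rw [hp]; exact natDegree_lc _ _ _) hpn hph (by positivity) (by
      rw [mul_one_div, div_le_one (by positivity)]
      refine pow_le_pow_right₀ (by norm_num) (le_trans ?_ hX)
      rw [hCk]
      have h1 : (r + 1) * (q + C₃ * (k' + 1)) ≤ (r + 1) * q + (r + 1) * (C₃ * (C₂ + 1) * (k + 1)) := by
        rw [mul_add]
        exact Nat.add_le_add_left (Nat.mul_le_mul_left _ hk2) _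
      have h2 : (r + 1) * (C₃ * (C₂ + 1) * (k + 1)) = (r + 1) * (C₃ * (C₂ + 1)) * (k + 1) := by ring
      omega) hτ₀m (by
      rw [hbtn]
      exact (congrFun hpe none).symm) (fun l hl => by
      have h1 := hht l hl
      have h2 : (p (some (c l))).eval τ₀ = F.x ν (c l) := congrFun hpe (some (c l))
      rw [h2, hpe]
      refine h1.trans (le_of_eq ?_)
      rw [pow_add]
      field_simp) (by
      rw [Pi.smul_apply, smul_eq_mul, hW0, mul_one]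
      have h1 := congrFun hpd none
      simp only [Pi.smul_apply, smul_eq_mul] at h1
      rw [h1]
      have e1 : bd F ν none = 1 := rfl
      rw [e1, mul_one]) (fun l hl => by
      have h1 := hW l (by omega)
      have h2 := congrFun hpd (some (c l))
      simp only [Pi.smul_apply, smul_eq_mul] at h2
      rw [h2, hpe, hpd, dd_smul, dd_smul, Pi.smul_apply, smul_eq_mul, ← mul_sub, ← mul_sub, h1]
      rfl)
  rw [hpe, hpd, dd_smul, dd_smul, ← mul_sub, abs_mul,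
    abs_of_pos (show (0 : ℝ) < 1 / 2 ^ (a + 1) by positivity), one_div_mul_eq_div,
    div_le_iff₀ (by positivity : (0 : ℝ) < 2 ^ (a + 1)), dd_sub, dd_sub] at hm
  have hdC : ∀ (x V : Option (Fin m) → ℝ),
      dd (MvPolynomial.C κ : MvPolynomial (Option (Fin m)) ℝ) x V = 0 := by
    intro x V
    unfold dd
    refine Finset.sum_eq_zero fun o _ => ?_
    rw [pderiv_C, map_zero, zero_mul]
  rw [hdC, hdC, sub_zero, sub_zero] at hm
  have hWv : dd Δ (bt F ω) W = nct c (r + 1) ψ Δ (bt F ω) +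
      ∑ l ∈ range (r + 1), ncp c (r + 1) ψ Δ (bt F ω) l * ov F c ψ ν l := by
    rw [hnat, hW0, mul_one]
    congr 1
    exact Finset.sum_congr rfl fun l hl => by rw [hW l (Finset.mem_range.1 hl)]
  have h1 : dd Δ (bt F ν) (bd F ν) = dd P (bt F ν) (bd F ν) -
      dd (ψ (r + 1)) (bt F ν) (bd F ν) := by
    rw [hΔ]
    exact dd_sub _ _ _ _
  rw [← hΔ, ← hWv, ← h1]
  refine hm.trans ?_
  have e2 : (2 : ℝ) ^ ((r + 1) * (q + C₃ * (k' + 1))) * M * (1 / 2 ^ X) * 2 ^ (a + 1) =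
      2 ^ ((r + 1) * (C₃ * (k' + 1)) + 1) * 2 ^ a * (2 ^ ((r + 1) * q) * M / 2 ^ X) := by
    rw [mul_add, pow_add, pow_add, pow_add]
    ring
  rw [e2]
  refine mul_le_mul_of_nonneg_right (mul_le_mul_of_nonneg_right ?_ (by positivity))
    (by positivity)
  refine pow_le_pow_right₀ (by norm_num) ?_
  rw [hCk]
  have h3 : (r + 1) * (C₃ * (k' + 1)) ≤ (r + 1) * (C₃ * (C₂ + 1)) * (k + 1) := by
    rw [mul_assoc]
    exact Nat.mul_le_mul_left _ hk2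
  omega

/-- The first places of a chain. -/
theorem chOK_le {F : Fam m J} {c : ℕ → Fin m} {r r' D w a e : ℕ} {g : ℕ → ℕ} {A : F.Ω → Prop}
    {G : PtT F → ℕ → MvPolynomial (Option (Fin m)) ℝ}
    {H : LnT F → ℕ → MvPolynomial (Option (Fin m)) ℝ} (hr : r' ≤ r)
    (h : ChOK F c r (fun _ => D) a w e g A G H) : ChOK F c r' (fun _ => D) a w e g A G H :=
  { degG := h.degG
    degH := h.degH
    depG := h.depG
    depH := h.depH
    pos := fun ω hω i hi => h.pos ω hω i (hi.trans_le hr)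
    agr := fun ω hω i hi => h.agr ω hω i (hi.trans_le hr)
    lip := fun ω hω i hi => h.lip ω hω i (hi.trans_le hr) }

/-- **The relation of the velocities over one near ball.** -/
theorem row_rel (m D r : ℕ) : ∃ C : ℕ, 1 ≤ C ∧ ∀ {J : ℕ} {F : Fam m J} {c : ℕ → Fin m}
    {w a e k q X : ℕ} {g gw : ℕ → ℕ} {A : F.Ω → Prop}
    {G : PtT F → ℕ → MvPolynomial (Option (Fin m)) ℝ}
    {H : LnT F → ℕ → MvPolynomial (Option (Fin m)) ℝ}
    {ψ : ℕ → MvPolynomial (Option (Fin m)) ℝ}, Set.InjOn c (Set.Iio (r + 2)) →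
    w ≤ a → a + 1 ≤ J → ChOK F c (r + 2) (fun _ => D) a w e g A G H →
    (∀ l ≤ r + 1, e + g l + C * (k + 1) ≤ J) → (∀ l, (ψ l).totalDegree ≤ D) →
    (∀ l, DepC c l (ψ l)) → (∀ l ≤ r, g l ≤ gw l + q) → gw (r + 1) ≤ g (r + 1) →
    (r + 1) * q + C * (k + 1) ≤ X → ∀ ω ν, A ω → A ν →
    (∀ l ≤ r + 1, G (ptr F J ω) l = G (ptr F J ν) l) → F.t ω = F.t ν →
    (∀ l ≤ r + 1, ∀ τ ∈ Set.Icc (0 : ℝ) 1,
      |(dv w (fun s _ => H s l) (c l) (slam F w ν)).eval τ| ≤ 2 ^ k / 2 ^ g l) →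
    (∀ l ≤ r + 1, ∃ κ : ℝ, ∀ b, NBx c (G (ptr F J ν)) g a (F.t ν) l b →
      |eval b (G (ptr F J ν) l) - eval b (ψ l) - κ| ≤ 2 ^ k / 2 ^ gw l) →
    (∀ l ≤ r, |(F.x ω (c l) - eval (bt F ω) (ψ l)) - (F.x ν (c l) - eval (bt F ν) (ψ l))| ≤
      1 / 2 ^ (gw l + X)) →
    |ov F c ψ ν (r + 1) - (nct c (r + 1) ψ (H (slam F w ω) (r + 1) - ψ (r + 1)) (bt F ω) +
      ∑ l ∈ range (r + 1), ncp c (r + 1) ψ (H (slam F w ω) (r + 1) - ψ (r + 1)) (bt F ω) l *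
        ov F c ψ ν l)| ≤ 2 ^ (C * (k + 1)) * 2 ^ a *
      (1 / 2 ^ g (r + 1) + 2 ^ ((r + 1) * q) / 2 ^ (gw (r + 1) + X)) := by
  classical
  obtain ⟨C₁, hC₁, hgrd⟩ := ball_grd m D (r + 1)
  obtain ⟨C₂, hC₂, hgen⟩ := rel_gen m D r
  obtain ⟨C, hC⟩ : ∃ C : ℕ, C = C₁ + C₂ + 1 := ⟨_, rfl⟩
  refine ⟨C, by omega, ?_⟩
  intro J F c w a e k q X g gw A G H ψ hc hwa haJ hrw hJ hψ hdep hg hgr hX ω ν hω hν hGG ht hdv
    hcmp hht
  have hCk : C * (k + 1) = C₁ * (k + 1) + C₂ * (k + 1) + (k + 1) := by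
    rw [hC]
    ring
  have hci : Set.InjOn c (Set.Iio (r + 1)) := hc.mono fun y hy => by
    rw [Set.mem_Iio] at hy ⊢
    omega
  obtain ⟨-, hb2⟩ := hgrd (k := k) hc hwa (by omega) hrw (fun l hl => by
    have := hJ l hl
    rw [hCk] at this
    omega) ω ν hω hν hGG ht hdv (r + 1) le_rfl
  obtain ⟨κ, hκ⟩ := hcmp (r + 1) le_rfl
  have hm := hgen (k := k) (M := 2 ^ (k + 1) / 2 ^ gw (r + 1)) (κ := κ)
    (P := H (slam F w ω) (r + 1)) (X := X) hci hwa haJ (chOK_le (by omega) hrw) (fun l hl => by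
    have := hJ l (by omega)
    rw [hCk] at this
    omega) hψ hdep hg (hrw.degH _ _) (hrw.depH _ _) (by omega) ω ν hν ht (fun l hl =>
      hdv l (by omega)) (fun l hl => hcmp l (by omega)) (by positivity) (fun b hb => by
      have h1 := hκ b hb
      have h2 := hrw.agr ω hω (r + 1) (by omega) b ⟨by rw [ht]; exact hb.1, fun j hj => by
        rw [hGG j (by omega)]
        exact hb.2 j hj⟩
      rw [hGG (r + 1) le_rfl] at h2
      have e1 : eval b (H (slam F w ω) (r + 1)) - eval b (ψ (r + 1)) - κ =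
          (eval b (G (ptr F J ν) (r + 1)) - eval b (ψ (r + 1)) - κ) -
          (eval b (G (ptr F J ν) (r + 1)) - eval b (H (slam F w ω) (r + 1))) := by ring
      rw [e1]
      refine (abs_sub _ _).trans ((add_le_add h1 h2).trans ?_)
      have h3 : (1 : ℝ) / 2 ^ g (r + 1) ≤ 2 ^ k / 2 ^ gw (r + 1) := by
        rw [div_le_div_iff₀ (by positivity) (by positivity), one_mul, ← pow_add]
        exact pow_le_pow_right₀ (by norm_num) (by omega)
      rw [pow_succ]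
      linarith [h3, show (2 : ℝ) ^ k * 2 / 2 ^ gw (r + 1) = 2 ^ k / 2 ^ gw (r + 1) +
        2 ^ k / 2 ^ gw (r + 1) by ring]) hht
  obtain ⟨N, hN⟩ : ∃ N : ℝ, N = nct c (r + 1) ψ (H (slam F w ω) (r + 1) - ψ (r + 1)) (bt F ω) +
    ∑ l ∈ range (r + 1), ncp c (r + 1) ψ (H (slam F w ω) (r + 1) - ψ (r + 1)) (bt F ω) l *
      ov F c ψ ν l := ⟨_, rfl⟩
  rw [← hN] at hm ⊢
  have e1 : ov F c ψ ν (r + 1) - N =
      (bd F ν (some (c (r + 1))) - dd (H (slam F w ω) (r + 1)) (bt F ν) (bd F ν)) -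
      (N - (dd (H (slam F w ω) (r + 1)) (bt F ν) (bd F ν) -
        dd (ψ (r + 1)) (bt F ν) (bd F ν))) := by
    have h2 : ov F c ψ ν (r + 1) = bd F ν (some (c (r + 1))) -
      dd (ψ (r + 1)) (bt F ν) (bd F ν) := rfl
    rw [h2]
    ring
  rw [e1]
  refine (abs_sub _ _).trans ((add_le_add hb2 hm).trans ?_)
  obtain ⟨E, hE⟩ : ∃ E : ℝ, E = 2 ^ (C * (k + 1)) := ⟨_, rfl⟩
  have hE0 : 0 < E := by rw [hE]; positivity
  have h1 : (2 : ℝ) ^ (C₁ * (k + 1)) ≤ E := by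
    rw [hE]
    refine pow_le_pow_right₀ (by norm_num) ?_
    rw [hCk]
    omega
  have h2 : (2 : ℝ) ^ (C₂ * (k + 1)) * 2 ^ a * (2 ^ ((r + 1) * q) *
      (2 ^ (k + 1) / 2 ^ gw (r + 1)) / 2 ^ X) ≤
      E * 2 ^ a * (2 ^ ((r + 1) * q) / 2 ^ (gw (r + 1) + X)) := by
    have e2 : (2 : ℝ) ^ (C₂ * (k + 1)) * 2 ^ a * (2 ^ ((r + 1) * q) *
        (2 ^ (k + 1) / 2 ^ gw (r + 1)) / 2 ^ X) =
        2 ^ (C₂ * (k + 1) + (k + 1)) * 2 ^ a *
          (2 ^ ((r + 1) * q) / 2 ^ (gw (r + 1) + X)) := by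
      rw [pow_add _ (C₂ * (k + 1)), pow_add _ (gw (r + 1))]
      field_simp
    rw [e2]
    refine mul_le_mul_of_nonneg_right (mul_le_mul_of_nonneg_right ?_ (by positivity))
      (by positivity)
    rw [hE]
    refine pow_le_pow_right₀ (by norm_num) ?_
    rw [hCk]
    omega
  have h3 : (2 : ℝ) ^ (C₁ * (k + 1)) * 2 ^ a / 2 ^ g (r + 1) ≤ E * 2 ^ a * (1 / 2 ^ g (r + 1)) := by
    rw [mul_one_div]
    exact div_le_div_of_nonneg_right (mul_le_mul_of_nonneg_right h1 (by positivity))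
      (by positivity)
  rw [← hE]
  refine (add_le_add h3 h2).trans (le_of_eq ?_)
  ring

/-- **The relation for the ball chart of the target**: the natural components of the ball chart, at
the point of `ω`, on the own velocities of `ν`. -/
theorem chart_rel (m D r : ℕ) : ∃ C : ℕ, 1 ≤ C ∧ ∀ {J : ℕ} {F : Fam m J} {c : ℕ → Fin m}
    {w a e k q X : ℕ} {g gw : ℕ → ℕ} {A : F.Ω → Prop}
    {G : PtT F → ℕ → MvPolynomial (Option (Fin m)) ℝ}
    {H : LnT F → ℕ → MvPolynomial (Option (Fin m)) ℝ}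
    {ψ : ℕ → MvPolynomial (Option (Fin m)) ℝ}, Set.InjOn c (Set.Iio (r + 2)) →
    w ≤ a → a + 1 ≤ J → ChOK F c (r + 2) (fun _ => D) a w e g A G H →
    (∀ l ≤ r + 1, e + g l + C * (k + 1) ≤ J) → (∀ l, (ψ l).totalDegree ≤ D) →
    (∀ l, DepC c l (ψ l)) → (∀ l ≤ r, g l ≤ gw l + q) →
    (r + 1) * q + C * (k + 1) ≤ X → ∀ ω ν, A ω → A ν →
    (∀ l ≤ r + 1, G (ptr F J ω) l = G (ptr F J ν) l) → F.t ω = F.t ν →
    (∀ l ≤ r + 1, ∀ τ ∈ Set.Icc (0 : ℝ) 1,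
      |(dv w (fun s _ => H s l) (c l) (slam F w ν)).eval τ| ≤ 2 ^ k / 2 ^ g l) →
    (∀ l ≤ r + 1, ∃ κ : ℝ, ∀ b, NBx c (G (ptr F J ν)) g a (F.t ν) l b →
      |eval b (G (ptr F J ν) l) - eval b (ψ l) - κ| ≤ 2 ^ k / 2 ^ gw l) →
    (∀ l ≤ r, |(F.x ω (c l) - eval (bt F ω) (ψ l)) - (F.x ν (c l) - eval (bt F ν) (ψ l))| ≤
      1 / 2 ^ (gw l + X)) →
    |ov F c ψ ν (r + 1) - (nct c (r + 1) ψ (G (ptr F J ω) (r + 1) - ψ (r + 1)) (bt F ω) +
      ∑ l ∈ range (r + 1), ncp c (r + 1) ψ (G (ptr F J ω) (r + 1) - ψ (r + 1)) (bt F ω) l *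
        ov F c ψ ν l)| ≤ 2 ^ (C * (k + 1)) * 2 ^ a *
      (1 / 2 ^ g (r + 1) + 2 ^ ((r + 1) * q) / 2 ^ (gw (r + 1) + X)) := by
  classical
  obtain ⟨C₁, hC₁, hgrd⟩ := ball_grd m D (r + 1)
  obtain ⟨C₂, hC₂, hgen⟩ := rel_gen m D r
  obtain ⟨C, hC⟩ : ∃ C : ℕ, C = C₁ + C₂ + 1 := ⟨_, rfl⟩
  refine ⟨C, by omega, ?_⟩
  intro J F c w a e k q X g gw A G H ψ hc hwa haJ hrw hJ hψ hdep hg hX ω ν hω hν hGG ht hdv
    hcmp hht
  have hCk : C * (k + 1) = C₁ * (k + 1) + C₂ * (k + 1) + (k + 1) := by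
    rw [hC]
    ring
  have hci : Set.InjOn c (Set.Iio (r + 1)) := hc.mono fun y hy => by
    rw [Set.mem_Iio] at hy ⊢
    omega
  obtain ⟨hb2, -⟩ := hgrd (k := k) hc hwa (by omega) hrw (fun l hl => by
    have := hJ l hl
    rw [hCk] at this
    omega) ω ν hω hν hGG ht hdv (r + 1) le_rfl
  rw [hGG (r + 1) le_rfl]
  obtain ⟨κ, hκ⟩ := hcmp (r + 1) le_rfl
  have hm := hgen (k := k) (M := 2 ^ k / 2 ^ gw (r + 1)) (κ := κ)
    (P := G (ptr F J ν) (r + 1)) (X := X) hci hwa haJ (chOK_le (by omega) hrw) (fun l hl => by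
    have := hJ l (by omega)
    rw [hCk] at this
    omega) hψ hdep hg (hrw.degG _ _) (hrw.depG _ _) (by omega) ω ν hν ht (fun l hl =>
      hdv l (by omega)) (fun l hl => hcmp l (by omega)) (by positivity) hκ hht
  obtain ⟨N, hN⟩ : ∃ N : ℝ, N = nct c (r + 1) ψ (G (ptr F J ν) (r + 1) - ψ (r + 1)) (bt F ω) +
    ∑ l ∈ range (r + 1), ncp c (r + 1) ψ (G (ptr F J ν) (r + 1) - ψ (r + 1)) (bt F ω) l *
      ov F c ψ ν l := ⟨_, rfl⟩
  rw [← hN] at hm ⊢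
  have e1 : ov F c ψ ν (r + 1) - N =
      (bd F ν (some (c (r + 1))) - dd (G (ptr F J ν) (r + 1)) (bt F ν) (bd F ν)) -
      (N - (dd (G (ptr F J ν) (r + 1)) (bt F ν) (bd F ν) -
        dd (ψ (r + 1)) (bt F ν) (bd F ν))) := by
    have h2 : ov F c ψ ν (r + 1) = bd F ν (some (c (r + 1))) -
      dd (ψ (r + 1)) (bt F ν) (bd F ν) := rfl
    rw [h2]
    ring
  rw [e1]
  refine (abs_sub _ _).trans ((add_le_add hb2 hm).trans ?_)
  obtain ⟨E, hE⟩ : ∃ E : ℝ, E = 2 ^ (C * (k + 1)) := ⟨_, rfl⟩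
  have h1 : (2 : ℝ) ^ (C₁ * (k + 1)) ≤ E := by
    rw [hE]
    refine pow_le_pow_right₀ (by norm_num) ?_
    rw [hCk]
    omega
  have h2 : (2 : ℝ) ^ (C₂ * (k + 1)) * 2 ^ a * (2 ^ ((r + 1) * q) *
      (2 ^ k / 2 ^ gw (r + 1)) / 2 ^ X) ≤
      E * 2 ^ a * (2 ^ ((r + 1) * q) / 2 ^ (gw (r + 1) + X)) := by
    have e2 : (2 : ℝ) ^ (C₂ * (k + 1)) * 2 ^ a * (2 ^ ((r + 1) * q) *
        (2 ^ k / 2 ^ gw (r + 1)) / 2 ^ X) =
        2 ^ (C₂ * (k + 1) + k) * 2 ^ a *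
          (2 ^ ((r + 1) * q) / 2 ^ (gw (r + 1) + X)) := by
      rw [pow_add _ (C₂ * (k + 1)), pow_add _ (gw (r + 1))]
      field_simp
    rw [e2]
    refine mul_le_mul_of_nonneg_right (mul_le_mul_of_nonneg_right ?_ (by positivity))
      (by positivity)
    rw [hE]
    refine pow_le_pow_right₀ (by norm_num) ?_
    rw [hCk]
    omega
  have h3 : (2 : ℝ) ^ (C₁ * (k + 1)) * 2 ^ a / 2 ^ g (r + 1) ≤ E * 2 ^ a * (1 / 2 ^ g (r + 1)) := by
    rw [mul_one_div]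
    exact div_le_div_of_nonneg_right (mul_le_mul_of_nonneg_right h1 (by positivity))
      (by positivity)
  rw [← hE]
  refine (add_le_add h3 h2).trans (le_of_eq ?_)
  ring

/-- **The linear combination of the relations**, algebra. -/
theorem lin_alg {ι : Type} [Fintype ι] (i₀ : ι) (lam n0 : ι → ℝ) (nj v : ι → ℕ → ℝ) (R : ℕ)
    {ε ε₀ : ℝ} {β γ : ℕ → ℝ}
    (h1 : ∀ i, |v i R - (n0 i + ∑ l ∈ range R, nj i l * v i l)| ≤ ε₀)
    (h2 : |∑ i, lam i * v i R| ≤ ε) (h3 : ∀ i, ∀ l < R, |v i l - v i₀ l| ≤ β l)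
    (h4 : ∀ i, ∀ l < R, |nj i l| ≤ γ l) :
    |∑ i, lam i * n0 i + ∑ l ∈ range R, (∑ i, lam i * nj i l) * v i₀ l| ≤
      ε + (∑ i, |lam i|) * (ε₀ + ∑ l ∈ range R, γ l * β l) := by
  obtain ⟨Rm, hRm⟩ : ∃ Rm : ι → ℝ, Rm = fun i =>
    (v i R - (n0 i + ∑ l ∈ range R, nj i l * v i l)) +
      ∑ l ∈ range R, nj i l * (v i l - v i₀ l) := ⟨_, rfl⟩
  have hR : ∀ i, n0 i + ∑ l ∈ range R, nj i l * v i₀ l = v i R - Rm i := by
    intro i
    rw [hRm]
    have e1 : ∑ l ∈ range R, nj i l * (v i l - v i₀ l) =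
        ∑ l ∈ range R, nj i l * v i l - ∑ l ∈ range R, nj i l * v i₀ l := by
      rw [← Finset.sum_sub_distrib]
      exact Finset.sum_congr rfl fun l _ => by ring
    simp only [e1]
    ring
  have hRb : ∀ i, |Rm i| ≤ ε₀ + ∑ l ∈ range R, γ l * β l := by
    intro i
    rw [hRm]
    refine (abs_add_le _ _).trans (add_le_add (h1 i) ((Finset.abs_sum_le_sum_abs _ _).trans
      (Finset.sum_le_sum fun l hl => ?_)))
    have hl' := Finset.mem_range.1 hl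
    rw [abs_mul]
    exact mul_le_mul (h4 i l hl') (h3 i l hl') (abs_nonneg _) ((abs_nonneg _).trans (h4 i l hl'))
  have e1 : ∑ i, lam i * n0 i + ∑ l ∈ range R, (∑ i, lam i * nj i l) * v i₀ l =
      ∑ i, lam i * v i R - ∑ i, lam i * Rm i := by
    have e2 : ∑ l ∈ range R, (∑ i, lam i * nj i l) * v i₀ l =
        ∑ i, lam i * ∑ l ∈ range R, nj i l * v i₀ l := by
      simp only [Finset.sum_mul, Finset.mul_sum]
      rw [Finset.sum_comm]
      exact Finset.sum_congr rfl fun i _ => Finset.sum_congr rfl fun l _ => by ring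
    rw [e2, ← Finset.sum_add_distrib, ← Finset.sum_sub_distrib]
    refine Finset.sum_congr rfl fun i _ => ?_
    rw [← mul_add, hR i]
    ring
  rw [e1]
  refine (abs_sub _ _).trans (add_le_add h2 ((Finset.abs_sum_le_sum_abs _ _).trans ?_))
  rw [Finset.sum_mul]
  refine Finset.sum_le_sum fun i _ => ?_
  rw [abs_mul]
  exact mul_le_mul_of_nonneg_left (hRb i) (abs_nonneg _)

end Pool.NDD66
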