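import Pool.Agent.H66.NDD.Nod

/-!
# Two samples of one near ball

`ball_grd`: two samples `ω`, `ν` with the same charts of the radius `2 ^ (-a)` and the same time, not
necessarily of one exact point: the closed polynomials of the row labels of the line of `ω` have, at
the point of `ν`, the velocity of `ν`. `curve_hts`: curves with given heights. `tr_move`: the
derivative of a natural polynomial in the direction of a curve and of the translated curve.
-/

set_option autoImplicit false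

namespace Pool.NDD66

open Finset Real MvPolynomial
open Pool.Agent.H49.Ent Pool.Agent.H32.Dense Pool.STK Pool.KA Pool.KSAT Pool.K2S Pool.PB Pool.S6C
open Pool.GEN Pool.CHT Pool.D2R
open Pool.PB.Trl (rt rt_mem t_rt)

variable {m J : ℕ}

/-- The row labels, with the window of the radius. -/
theorem row_win {F : Fam m J} {c : ℕ → Fin m} {r D w a e : ℕ} {g : ℕ → ℕ} {A : F.Ω → Prop}
    {G : PtT F → ℕ → MvPolynomial (Option (Fin m)) ℝ}
    {H : LnT F → ℕ → MvPolynomial (Option (Fin m)) ℝ} (hwa : w ≤ a) (haJ : a ≤ J)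
    (hch : ChOK F c r (fun _ => D) a w e g A G H) :
    ChOK F c r (fun _ => D) a a e g A G (fun s => H (co (a - w) s)) :=
  { degG := hch.degG
    degH := fun s i => hch.degH _ i
    depG := hch.depG
    depH := fun s i => hch.depH _ i
    pos := hch.pos
    agr := by
      intro ξ hξ i hi b hb
      have h1 := hch.agr ξ hξ i hi b hb
      show |_ - eval b (H (co (a - w) (slam F a ξ)) i)| ≤ _
      rw [co_slam F hwa haJ]
      exact h1
    lip := hch.lip }

/-- **The row label of the line of `ω` along the line of `ν`**, two samples with the same charts. -/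
theorem ball_grd (m D r : ℕ) : ∃ C : ℕ, 1 ≤ C ∧ ∀ {J : ℕ} {F : Fam m J} {c : ℕ → Fin m}
    {w a e k : ℕ} {g : ℕ → ℕ} {A : F.Ω → Prop}
    {G : PtT F → ℕ → MvPolynomial (Option (Fin m)) ℝ}
    {H : LnT F → ℕ → MvPolynomial (Option (Fin m)) ℝ}, Set.InjOn c (Set.Iio (r + 1)) →
    w ≤ a → a ≤ J → ChOK F c (r + 1) (fun _ => D) a w e g A G H →
    (∀ l ≤ r, e + g l + C * (k + 1) ≤ J) → ∀ ω ν, A ω → A ν →
    (∀ l ≤ r, G (ptr F J ω) l = G (ptr F J ν) l) → F.t ω = F.t ν →
    (∀ l ≤ r, ∀ τ ∈ Set.Icc (0 : ℝ) 1,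
      |(dv w (fun s _ => H s l) (c l) (slam F w ν)).eval τ| ≤ 2 ^ k / 2 ^ g l) → ∀ l ≤ r,
    |bd F ν (some (c l)) - dd (G (ptr F J ν) l) (bt F ν) (bd F ν)| ≤
        2 ^ (C * (k + 1)) * 2 ^ a / 2 ^ g l ∧
    |bd F ν (some (c l)) - dd (H (slam F w ω) l) (bt F ν) (bd F ν)| ≤
        2 ^ (C * (k + 1)) * 2 ^ a / 2 ^ g l := by
  classical
  obtain ⟨C₁, hC₁, hpn⟩ := path_nat m D r
  obtain ⟨C₂, hC₂, hbt⟩ := box_two r D D
  obtain ⟨c₂, hc₂⟩ := pow_unbounded_of_one_lt (C₂ + 1) (one_lt_two (α := ℝ))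
  refine ⟨C₁ + c₂, by omega, ?_⟩
  intro J F c w a e k g A G H hc hwa haJ hch hJ ω ν hω hν hGG ht hdv
  have hle : C₁ * (k + 1) ≤ (C₁ + c₂) * (k + 1) := Nat.mul_le_mul_right _ (by omega)
  have hnat := hpn (k := k) hc haJ (row_win hwa haJ hch) (fun l hl => by
    have := hJ l hl
    omega) ν ν hν hν rfl (fun l hl τ hτ => by
    obtain ⟨τ', hτ', h2⟩ := lc_coarse F hwa haJ ν τ hτ
    have h3 := hdv l hl τ' hτ'
    unfold dv at h3 ⊢
    rw [Polynomial.eval_sub, Pool.KBX.eval_aeval_poly] at h3 ⊢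
    rw [show (fun o => (lc a (slam F a ν) o).eval τ) = fun o => (lc w (slam F w ν) o).eval τ' from
      funext h2, h2]
    show |_ - eval _ (H (co (a - w) (slam F a ν)) l)| ≤ _
    rw [co_slam F hwa haJ]
    exact h3)
  intro l hl
  have ha0 : (0 : ℝ) < 2 ^ a := by positivity
  have hg0 : (0 : ℝ) < 2 ^ g l := by positivity
  obtain ⟨E, hE⟩ : ∃ E : ℝ, E = 2 ^ (C₁ * (k + 1)) := ⟨_, rfl⟩
  have hE1 : 1 ≤ E := by
    rw [hE]
    exact one_le_pow₀ (by norm_num)
  have hE0 : 0 < E := by linarith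
  have hEE : (C₂ + 1) * E ≤ 2 ^ ((C₁ + c₂) * (k + 1)) := by
    have e1 : (2 : ℝ) ^ ((C₁ + c₂) * (k + 1)) = 2 ^ (c₂ * (k + 1)) * E := by
      rw [hE, ← pow_add]
      congr 1
      ring
    rw [e1]
    refine mul_le_mul_of_nonneg_right ?_ hE0.le
    exact hc₂.le.trans (pow_le_pow_right₀ (by norm_num) (Nat.le_mul_of_pos_right _ (by omega)))
  obtain ⟨h5, -⟩ := hnat l hl
  rw [← hE] at h5
  refine ⟨h5.trans (div_le_div_of_nonneg_right (mul_le_mul_of_nonneg_right
    (le_trans (by nlinarith) hEE) ha0.le) hg0.le), ?_⟩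
  obtain ⟨Q, hQ⟩ : ∃ Q, Q = G (ptr F J ω) l - H (slam F w ω) l := ⟨_, rfl⟩
  have hQdep : DepC c r Q := by
    intro b b' h1 h2
    rw [hQ, map_sub, map_sub, hch.depG _ l b b' h1 fun j hj => h2 j (by omega),
      hch.depH _ l b b' h1 fun j hj => h2 j (by omega)]
  have hQdeg : Q.totalDegree ≤ D := by
    rw [hQ]
    exact (totalDegree_sub _ _).trans (max_le (hch.degG _ l) (hch.degH _ l))
  have hbox : ∀ b, NBx c (G (ptr F J ν)) g a (bt F ν none) r b → |eval b Q| ≤ 1 / 2 ^ g l := by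
    intro b hb
    rw [hQ, map_sub]
    refine hch.agr ω hω l (by omega) b ⟨?_, fun j hj => ?_⟩
    · rw [ht]
      exact hb.1
    · rw [hGG j (by omega)]
      exact hb.2 j (by omega)
  obtain ⟨h1, -⟩ := hbt (M := 1 / 2 ^ g l) (L := E * 2 ^ a)
    (hc.mono fun y hy => by rw [Set.mem_Iio] at hy ⊢; omega) (fun j => hch.degG (ptr F J ν) j)
    (fun j => hch.depG _ j) hQdep hQdeg (by positivity) (by positivity) hbox
    (fun j hj => hch.pos ν hν j (by omega)) (bd F ν) (by
      have e1 : bd F ν none = 1 := rfl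
      rw [e1, abs_one, mul_div_assoc, div_self ha0.ne', mul_one]
      exact hE1) (fun j hj => by
      have h3 := (hnat j hj.le).1
      rw [← hE] at h3
      exact h3)
  rw [hQ, dd_sub, hGG l hl] at h1
  have h8 : |bd F ν (some (c l)) - dd (H (slam F w ω) l) (bt F ν) (bd F ν)| ≤
      E * 2 ^ a / 2 ^ g l + C₂ * (1 / 2 ^ g l) * (E * 2 ^ a) := by
    have e1 : bd F ν (some (c l)) - dd (H (slam F w ω) l) (bt F ν) (bd F ν) =
        (bd F ν (some (c l)) - dd (G (ptr F J ν) l) (bt F ν) (bd F ν)) +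
        (dd (G (ptr F J ν) l) (bt F ν) (bd F ν) - dd (H (slam F w ω) l) (bt F ν) (bd F ν)) := by
      ring
    rw [e1]
    exact (abs_add_le _ _).trans (add_le_add h5 h1)
  refine h8.trans ?_
  have e1 : E * 2 ^ a / 2 ^ g l + C₂ * (1 / 2 ^ g l) * (E * 2 ^ a) =
      (C₂ + 1) * E * 2 ^ a / 2 ^ g l := by ring
  rw [e1]
  exact div_le_div_of_nonneg_right (mul_le_mul_of_nonneg_right hEE ha0.le) hg0.le

/-- **Curves with given heights.** -/
theorem curve_hts {c : ℕ → Fin m} {i D N : ℕ} (hc : Set.InjOn c (Set.Iio i))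
    {ψ : ℕ → MvPolynomial (Option (Fin m)) ℝ} (hψ : ∀ l, (ψ l).totalDegree ≤ D)
    (hdep : ∀ l, DepC c l (ψ l)) {T : Polynomial ℝ} (hT : T.natDegree ≤ N)
    {h : ℕ → Polynomial ℝ} (hh : ∀ l, (h l).natDegree ≤ N) (k : ℕ) :
    k ≤ i → ∃ p : Option (Fin m) → Polynomial ℝ, (∀ o, (p o).natDegree ≤ N * (D + 1) ^ k) ∧
      p none = T ∧ ∀ l < k, p (some (c l)) = MvPolynomial.aeval p (ψ l) + h l := by
  classical
  induction k with
  | zero =>
    intro _
    refine ⟨fun o => if o = none then T else 0, fun o => ?_, if_pos rfl,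
      fun l hl => absurd hl (Nat.not_lt_zero l)⟩
    rw [pow_zero, mul_one]
    show (if o = none then T else 0).natDegree ≤ N
    split_ifs
    · exact hT
    · rw [Polynomial.natDegree_zero]
      exact Nat.zero_le _
  | succ k ih =>
    intro hi
    obtain ⟨p, h1, h2, h3⟩ := ih (by omega)
    obtain ⟨q, hq⟩ : ∃ q : Option (Fin m) → Polynomial ℝ, q = Function.update p (some (c k))
        (MvPolynomial.aeval p (ψ k) + h k) := ⟨_, rfl⟩
    have hqk : q (some (c k)) = MvPolynomial.aeval p (ψ k) + h k := by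
      rw [hq]
      exact Function.update_self _ _ _
    have hqo : ∀ o, o ≠ some (c k) → q o = p o := by
      intro o ho
      rw [hq]
      exact Function.update_of_ne ho _ _
    have hne : ∀ l < k, (some (c l) : Option (Fin m)) ≠ some (c k) := by
      intro l hl h
      have h7 := hc (show l ∈ Set.Iio i from (hl.trans_le (by omega : k ≤ i)))
        (show k ∈ Set.Iio i from (by omega : k < i)) (Option.some_injective _ h)
      omega
    have hqn : q none = p none := hqo _ (by simp)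
    have hev : ∀ l ≤ k, MvPolynomial.aeval q (ψ l) = MvPolynomial.aeval p (ψ l) := by
      intro l hl
      refine Polynomial.funext fun s => ?_
      rw [Pool.KBX.eval_aeval_poly, Pool.KBX.eval_aeval_poly]
      refine hdep l _ _ ?_ fun l' hl' => ?_
      · show (q none).eval s = (p none).eval s
        rw [hqn]
      · show (q (some (c l'))).eval s = (p (some (c l'))).eval s
        rw [hqo _ (hne l' (by omega))]
    have hDp : 1 ≤ D + 1 := by omega
    refine ⟨q, fun o => ?_, by rw [hqn]; exact h2, fun l hl => ?_⟩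
    · rw [pow_succ, ← mul_assoc]
      by_cases ho : o = some (c k)
      · rw [ho, hqk]
        refine (Polynomial.natDegree_add_le _ _).trans (max_le ?_ ?_)
        · refine (natDegree_aeval_mul (ψ k) p h1 (hψ k)).trans ?_
          rw [mul_comm]
          exact Nat.mul_le_mul_left _ (by omega)
        · refine (hh k).trans ?_
          rw [mul_assoc]
          exact Nat.le_mul_of_pos_right _ (by positivity)
      · rw [hqo o ho]
        exact (h1 o).trans (Nat.le_mul_of_pos_right _ (by omega))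
    · rcases Nat.lt_or_ge l k with h7 | h7
      · rw [hqo _ (hne l h7), hev l h7.le]
        exact h3 l h7
      · have : l = k := by omega
        subst this
        rw [hev l le_rfl, hqk]

/-- **The derivative in the direction of a curve and of the translated curve.** -/
theorem tr_move (D r : ℕ) : ∃ C : ℕ, 1 ≤ C ∧ ∀ {m : ℕ} {c : ℕ → Fin m} {a k q : ℕ}
    {gw g : ℕ → ℕ} {χ ψ : ℕ → MvPolynomial (Option (Fin m)) ℝ}
    {Q : MvPolynomial (Option (Fin m)) ℝ} {M ρ t₀ τ₀ : ℝ} {p : Option (Fin m) → Polynomial ℝ}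
    {b' V' : Option (Fin m) → ℝ}, Set.InjOn c (Set.Iio (r + 1)) →
    (∀ l ≤ r, g l ≤ gw l + q) → (∀ l, (χ l).totalDegree ≤ D) → (∀ l, DepC c l (χ l)) →
    (∀ l, (ψ l).totalDegree ≤ D) → (∀ l, DepC c l (ψ l)) → DepC c (r + 1) Q →
    Q.totalDegree ≤ D → 0 ≤ M → (∀ b, NBx c χ g a t₀ (r + 1) b → |eval b Q| ≤ M) →
    (∀ l ≤ r, ∃ κ : ℝ, ∀ b, NBx c χ g a t₀ l b →
      |eval b (χ l) - eval b (ψ l) - κ| ≤ 2 ^ k / 2 ^ gw l) →
    (∀ o, (p o).natDegree ≤ 1) →
    (∀ τ ∈ Set.Icc (0 : ℝ) 1, |(p none).eval τ - t₀| ≤ 1 / 2 ^ (a + 1)) →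
    (∀ l ≤ r, ∀ τ ∈ Set.Icc (0 : ℝ) 1, |(p (some (c l))).eval τ -
      eval (fun o => (p o).eval τ) (χ l)| ≤ 2 ^ k / 2 ^ g l) → 0 < ρ →
    2 ^ ((r + 1) * (q + C * (k + 1))) * ρ ≤ 1 → τ₀ ∈ Set.Icc (0 : ℝ) 1 →
    b' none = (p none).eval τ₀ →
    (∀ l ≤ r, |(b' (some (c l)) - eval b' (ψ l)) - ((p (some (c l))).eval τ₀ -
      eval (fun o => (p o).eval τ₀) (ψ l))| ≤ ρ / 2 ^ gw l) →
    V' none = (Polynomial.derivative (p none)).eval τ₀ →
    (∀ l ≤ r, V' (some (c l)) - dd (ψ l) b' V' =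
      (Polynomial.derivative (p (some (c l)))).eval τ₀ - dd (ψ l) (fun o => (p o).eval τ₀)
        (fun o => (Polynomial.derivative (p o)).eval τ₀)) →
    |eval b' Q - eval (fun o => (p o).eval τ₀) Q| ≤ 2 ^ ((r + 1) * (q + C * (k + 1))) * M * ρ ∧
    |dd Q b' V' - dd Q (fun o => (p o).eval τ₀)
      (fun o => (Polynomial.derivative (p o)).eval τ₀)| ≤
      2 ^ ((r + 1) * (q + C * (k + 1))) * M * ρ := by
  classical
  obtain ⟨C₁, hC₁, hchg⟩ := hgt_chg D r
  obtain ⟨c₀, D₁, hD₁, hlip⟩ := nbx_lipt (r + 2) (fun _ => D)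
  obtain ⟨N, hN⟩ : ∃ N : ℕ, N = (D + 1) * ((D + 1) * (D + 1) ^ (r + 1)) := ⟨_, rfl⟩
  obtain ⟨C₂, hC₂, hder⟩ := der_one N
  obtain ⟨c₂, hc₂⟩ := pow_unbounded_of_one_lt C₂ (one_lt_two (α := ℝ))
  obtain ⟨C, hC⟩ : ∃ C : ℕ, C = C₁ + c₀ + D₁ + c₂ := ⟨_, rfl⟩
  refine ⟨C, by omega, ?_⟩
  intro m c a k q gw g χ ψ Q M ρ t₀ τ₀ p b' V' hc hg hχ hχd hψ hψd hQd hQ hM hQM hcmp hp hpt hph
    hρ hρ1 hτ₀ hb0 hbb hV0 hV
  have hk1 : ∀ n : ℕ, n ≤ n * (k + 1) := fun n => Nat.le_mul_of_pos_right _ (Nat.succ_pos k)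
  have hCk : C * (k + 1) = C₁ * (k + 1) + c₀ * (k + 1) + D₁ * (k + 1) + c₂ * (k + 1) := by
    rw [hC]
    ring
  obtain ⟨E, hE⟩ : ∃ E : ℝ, E = 2 ^ ((r + 1) * (q + C₁ * (k + 1))) := ⟨_, rfl⟩
  have hE0 : 0 < E := by rw [hE]; positivity
  have hE1 : 1 ≤ E := by rw [hE]; exact one_le_pow₀ (by norm_num)
  obtain ⟨ρ', hρ'⟩ : ∃ ρ' : ℝ, ρ' = E * ρ := ⟨_, rfl⟩
  have hρ'0 : 0 < ρ' := by rw [hρ']; positivity
  have hEle : E ≤ 2 ^ ((r + 1) * (q + C * (k + 1))) := by
    rw [hE]
    refine pow_le_pow_right₀ (by norm_num) (Nat.mul_le_mul_left _ ?_)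
    rw [hCk]
    omega
  have hρ'1 : ρ' ≤ 1 := by
    rw [hρ']
    exact (mul_le_mul_of_nonneg_right hEle hρ.le).trans hρ1
  -- the translated curve
  obtain ⟨θ, hθ⟩ : ∃ θ : ℕ → ℝ, θ = fun l => (b' (some (c l)) - eval b' (ψ l)) -
    ((p (some (c l))).eval τ₀ - eval (fun o => (p o).eval τ₀) (ψ l)) := ⟨_, rfl⟩
  have hθ1 : ∀ l ≤ r, |θ l| ≤ ρ / 2 ^ gw l := fun l hl => by
    rw [hθ]
    exact hbb l hl
  obtain ⟨h, hh⟩ : ∃ h : ℕ → Polynomial ℝ, h = fun l =>
    p (some (c l)) - MvPolynomial.aeval p (ψ l) + Polynomial.C (θ l) := ⟨_, rfl⟩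
  have hhd : ∀ l, (h l).natDegree ≤ D + 1 := by
    intro l
    rw [hh]
    refine (Polynomial.natDegree_add_le _ _).trans (max_le
      ((Polynomial.natDegree_sub_le _ _).trans (max_le ((hp _).trans (by omega)) ?_)) ?_)
    · exact (Pool.KBX.natDegree_aeval_le _ _ hp (hψ l)).trans (by omega)
    · rw [Polynomial.natDegree_C]
      exact Nat.zero_le _
  obtain ⟨p', hp'd, hp'0, hp'l⟩ := curve_hts (D := D) (N := D + 1) hc hψ hψd
    ((hp none).trans (by omega)) hhd (r + 1) le_rfl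
  have hp'e : ∀ l ≤ r, ∀ s, (p' (some (c l))).eval s - eval (fun o => (p' o).eval s) (ψ l) =
      ((p (some (c l))).eval s - eval (fun o => (p o).eval s) (ψ l)) + θ l := by
    intro l hl s
    rw [hp'l l (by omega), hh]
    simp only [Polynomial.eval_add, Polynomial.eval_sub, Polynomial.eval_C,
      Pool.KBX.eval_aeval_poly]
    ring
  -- the point
  have hpt' : ∀ l ≤ r + 1, (p' none).eval τ₀ = b' none ∧
      ∀ j < l, (p' (some (c j))).eval τ₀ = b' (some (c j)) := by
    intro l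
    induction l with
    | zero =>
      intro _
      refine ⟨?_, fun j hj => absurd hj (Nat.not_lt_zero j)⟩
      rw [hp'0, hb0]
    | succ l ih =>
      intro hl
      obtain ⟨i1, i2⟩ := ih (by omega)
      refine ⟨i1, fun j hj => ?_⟩
      rcases Nat.lt_or_ge j l with h7 | h7
      · exact i2 j h7
      · have : j = l := by omega
        subst this
        have h8 := hp'e j (by omega) τ₀
        rw [hψd j (fun o => (p' o).eval τ₀) b' i1 i2] at h8
        rw [hθ] at h8
        simp only at h8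
        linarith
  obtain ⟨i1, i2⟩ := hpt' (r + 1) le_rfl
  -- the values
  obtain ⟨f, hf⟩ : ∃ f : Polynomial ℝ, f = MvPolynomial.aeval p' Q - MvPolynomial.aeval p Q :=
    ⟨_, rfl⟩
  have hfd : f.natDegree ≤ N := by
    rw [hf]
    refine (Polynomial.natDegree_sub_le _ _).trans (max_le ?_ ?_)
    · refine (natDegree_aeval_mul Q p' hp'd hQ).trans ?_
      rw [hN]
      exact Nat.mul_le_mul_right _ (by omega)
    · refine (Pool.KBX.natDegree_aeval_le _ _ hp hQ).trans ?_
      rw [hN]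
      have h1 : 1 ≤ (D + 1) * (D + 1) ^ (r + 1) := Nat.mul_pos (by omega) (by positivity)
      nlinarith
  have hfb : ∀ τ ∈ Set.Icc (0 : ℝ) 1, |f.eval τ| ≤ 2 ^ (c₀ + k * D₁) * M * ρ' := by
    intro τ hτ
    obtain ⟨b, hb⟩ : ∃ b : Option (Fin m) → ℝ, b = fun o => (p o).eval τ := ⟨_, rfl⟩
    obtain ⟨b₁, hb₁⟩ : ∃ b₁ : Option (Fin m) → ℝ, b₁ = fun o => (p' o).eval τ := ⟨_, rfl⟩
    have e0 : b none = (p none).eval τ := by rw [hb]
    have e1 : b₁ none = b none := by
      rw [hb, hb₁]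
      show (p' none).eval τ = (p none).eval τ
      rw [hp'0]
    have hsub : ∀ i, ∀ y, NBx c χ g (a + 1) (b none) i y → NBx c χ g a t₀ i y := by
      intro i y hy
      refine ⟨?_, hy.2⟩
      have h1 := hy.1
      have h2 := hpt τ hτ
      rw [← e0] at h2
      have h3 : (1 : ℝ) / 2 ^ (a + 1) + 1 / 2 ^ (a + 1) = 1 / 2 ^ a := by
        rw [pow_succ]
        field_simp
        norm_num
      calc |y none - t₀| = |(y none - b none) + (b none - t₀)| := by ring_nf
        _ ≤ |y none - b none| + |b none - t₀| := abs_add_le _ _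
        _ ≤ _ := by rw [← h3]; exact add_le_add h1 h2
    have hbh : ∀ l ≤ r, |b (some (c l)) - eval b (χ l)| ≤ 2 ^ k / 2 ^ g l := fun l hl => by
      rw [hb]
      exact hph l hl τ hτ
    have h1 := hchg (c := c) (t := a + 1) (k := k) (q := q) (gw := gw) (gt := g) (χ := χ)
      (ψ := ψ) (t₀ := b none) (ρ := ρ) (b := b) (b' := b₁) hc hg hχ hχd hψ hψd (fun l hl => by
        obtain ⟨κ, hκ⟩ := hcmp l hl
        exact ⟨κ, fun y hy => hκ y (hsub _ y hy)⟩) rfl (by
        rw [e1, sub_self, abs_zero]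
        positivity) hbh hρ (by
        rw [← hE, ← hρ']
        exact hρ'1) (fun l hl => by
        have h2 := hp'e l hl τ
        rw [hb, hb₁]
        show |((p' (some (c l))).eval τ - eval (fun o => (p' o).eval τ) (ψ l)) - _| ≤ _
        rw [h2, add_sub_cancel_left]
        exact hθ1 l hl)
    have h2 := hlip (c := c) (i := r + 1) (G := χ) (Q := Q) (g := g) (a := a + 1) (t := b none)
      (M := M) (ρ := ρ') k (by omega) hc hχ hχd hQd hQ hM hρ'0 hρ'1 (fun y hy =>
        hQM y (hsub _ y hy)) b b₁ rfl (by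
        rw [e1, sub_self, abs_zero]
        positivity) (fun l hl => hbh l (by omega)) (fun l hl => (h1 l (by omega)).trans (by
        refine div_le_div_of_nonneg_right ?_ (by positivity)
        rw [hρ', hE]
        exact mul_le_mul_of_nonneg_right (pow_le_pow_right₀ (by norm_num)
          (Nat.mul_le_mul_right _ (by omega))) hρ.le))
    rw [hf, Polynomial.eval_sub, Pool.KBX.eval_aeval_poly, Pool.KBX.eval_aeval_poly]
    rw [hb, hb₁] at h2
    exact h2
  -- the constants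
  have hfin : C₂ * (2 ^ (c₀ + k * D₁) * M * ρ') ≤ 2 ^ ((r + 1) * (q + C * (k + 1))) * M * ρ := by
    rw [hρ']
    have e1 : C₂ * (2 ^ (c₀ + k * D₁) * M * (E * ρ)) =
        (C₂ * 2 ^ (c₀ + k * D₁) * E) * (M * ρ) := by ring
    have e2 : (2 : ℝ) ^ ((r + 1) * (q + C * (k + 1))) * M * ρ =
        2 ^ ((r + 1) * (q + C * (k + 1))) * (M * ρ) := by ring
    rw [e1, e2]
    refine mul_le_mul_of_nonneg_right ?_ (by positivity)
    have e3 : (2 : ℝ) ^ c₂ * 2 ^ (c₀ + k * D₁) * E ≤ 2 ^ ((r + 1) * (q + C * (k + 1))) := by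
      rw [hE, ← pow_add, ← pow_add]
      refine pow_le_pow_right₀ (by norm_num) ?_
      have h1 : (r + 1) * (q + C * (k + 1)) = (r + 1) * (q + C₁ * (k + 1)) +
          (r + 1) * (c₀ * (k + 1) + D₁ * (k + 1) + c₂ * (k + 1)) := by
        rw [hCk]
        ring
      have h2 : c₀ * (k + 1) + D₁ * (k + 1) + c₂ * (k + 1) ≤
          (r + 1) * (c₀ * (k + 1) + D₁ * (k + 1) + c₂ * (k + 1)) :=
        Nat.le_mul_of_pos_left _ (Nat.succ_pos r)
      have h3 := hk1 c₀
      have h4 := hk1 c₂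
      have h5 : k * D₁ ≤ D₁ * (k + 1) := by nlinarith
      omega
    refine le_trans ?_ e3
    exact mul_le_mul_of_nonneg_right (mul_le_mul_of_nonneg_right hc₂.le (by positivity)) hE0.le
  constructor
  · have h1 := hfb τ₀ hτ₀
    rw [hf, Polynomial.eval_sub, Pool.KBX.eval_aeval_poly, Pool.KBX.eval_aeval_poly,
      hQd (fun o => (p' o).eval τ₀) b' i1 i2] at h1
    refine h1.trans (le_trans ?_ hfin)
    exact le_mul_of_one_le_left (by positivity) hC₂
  · have h1 := hder f _ hfd hfb τ₀ (by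
      rw [abs_of_nonneg hτ₀.1]
      exact hτ₀.2)
    obtain ⟨W, hW⟩ : ∃ W : Option (Fin m) → ℝ, W = fun o =>
      (Polynomial.derivative (p' o)).eval τ₀ := ⟨_, rfl⟩
    obtain ⟨x', hx'⟩ : ∃ x' : Option (Fin m) → ℝ, x' = fun o => (p' o).eval τ₀ := ⟨_, rfl⟩
    have d1 := (der_curve p' (x := x') (V := W) (Z := fun o =>
      (Polynomial.derivative (Polynomial.derivative (p' o))).eval τ₀) (s := τ₀) (fun o => by
      rw [hx']) (fun o => by rw [hW]) (fun _ => rfl))
    have d2 := (der_curve p (x := fun o => (p o).eval τ₀) (V := fun o =>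
      (Polynomial.derivative (p o)).eval τ₀) (Z := fun o =>
      (Polynomial.derivative (Polynomial.derivative (p o))).eval τ₀) (s := τ₀) (fun _ => rfl)
      (fun _ => rfl) (fun _ => rfl))
    rw [hf, Polynomial.derivative_sub, Polynomial.eval_sub, (d1 Q).1, (d2 Q).1] at h1
    refine le_trans (le_of_eq ?_) (h1.trans hfin)
    -- the directions
    have hddx : ∀ (l : ℕ), l ≤ r + 1 → ∀ P : MvPolynomial (Option (Fin m)) ℝ, DepC c l P →
        ∀ U, dd P b' U = dd P x' U := by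
      intro l hl P hP U
      unfold dd
      refine Finset.sum_congr rfl fun o _ => ?_
      rw [depC_pderiv hP o b' x' (by rw [hx']; exact i1.symm) (fun j hj => by
        rw [hx']
        exact (i2 j (by omega)).symm)]
    have hWV : ∀ l < r + 1, V' (some (c l)) = W (some (c l)) := by
      refine adp_eq (ψ := ψ) hψd (x := b') ?_ fun l hl => ?_
      · rw [hV0, hW]
        show _ = (Polynomial.derivative (p' none)).eval τ₀
        rw [hp'0]
      · rw [hV l (by omega), hddx l (by omega) (ψ l) (hψd l) W]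
        have h2 : MvPolynomial.aeval p' (ψ l) + h l = p' (some (c l)) := (hp'l l hl).symm
        have h3 : (Polynomial.derivative (p' (some (c l)))).eval τ₀ = dd (ψ l) x' W +
            (Polynomial.derivative (h l)).eval τ₀ := by
          rw [← h2, Polynomial.derivative_add, Polynomial.eval_add, (d1 (ψ l)).1]
        have h4 : (Polynomial.derivative (h l)).eval τ₀ =
            (Polynomial.derivative (p (some (c l)))).eval τ₀ - dd (ψ l)
              (fun o => (p o).eval τ₀) (fun o => (Polynomial.derivative (p o)).eval τ₀) := by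
          rw [hh]
          simp only [Polynomial.derivative_add, Polynomial.derivative_sub,
            Polynomial.derivative_C, add_zero, Polynomial.eval_sub]
          rw [(d2 (ψ l)).1]
        have h5 : W (some (c l)) = (Polynomial.derivative (p' (some (c l)))).eval τ₀ := by rw [hW]
        rw [h5, h3, h4]
        ring
    have h5 : dd Q b' V' = dd Q x' W := by
      rw [hddx (r + 1) le_rfl Q hQd V']
      exact dd_congr hQd x' (by
        rw [hV0, hW]
        show _ = (Polynomial.derivative (p' none)).eval τ₀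
        rw [hp'0]) hWV
    rw [h5]

end Pool.NDD66
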