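import Pool.Agent.H66.NDD.Rv
import Pool.Agent.H77.STB.Nlc
import Pool.Agent.H82.STB.Nrc

/-!
# The charts and labels of a record on one event

`nd_geo`: the closed balls at the windows `V'` and the nodes at the pairs `(A, V)` of a record, for the
places `≤ r`, on one event, with the comparisons of 77's `Nls`.
-/

set_option autoImplicit false

namespace Pool.NDD66

open Finset Real MvPolynomial
open Pool.Agent.H49.Ent Pool.Agent.H32.Dense Pool.STK Pool.KA Pool.KSAT Pool.K2S Pool.PB Pool.S6C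
open Pool.GEN Pool.CHT Pool.CHX Pool.D2R Pool.PKG
open Pool.FLF (Fam.sub)
open Pool.PB.Trl (rt rt_mem t_rt)
open Pool.ISO (lvN)
open Pool.STB77 (Nls NodW NodF NodWS nodw_all nls_fam relf_h bas_lrg)
open Pool.Z3 (share_ex)
open Pool.ND6 (rec_balI)

variable {m : ℕ}

/-- The radii of the nodes: the closed balls `V'`, then the pairs `(A, V)`. -/
noncomputable def ndA (N' : ℕ) (V' A : ℕ → ℝ) (t q : ℝ) (k : ℕ) : ℝ :=
  if k < N' then t + V' k * q else t + A (k - N') * q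

/-- The windows of the nodes. -/
noncomputable def ndW (N' : ℕ) (V' V : ℕ → ℝ) (t q : ℝ) (k : ℕ) : ℝ :=
  if k < N' then t + V' k * q else t + V (k - N') * q

/-- **All charts and labels of a record on one event**: node `k < N'` = closed ball `(V' k, V' k)`,
node `N' + k` = pair `(A k, V k)` (chart `G`, row label `H`). -/
theorem nd_geo (m r S₀ : ℕ) (hr : 1 ≤ r) (hrm : r < m) (hS₀ : 1 ≤ S₀) :
    ∃ D₁ : ℕ, 1 ≤ D₁ ∧ ∀ (S₂ : ℕ), 1 ≤ S₂ → ∃ D₂ : ℕ, 1 ≤ D₂ ∧ ∀ Dc D Dr : ℕ, D₁ ≤ Dc → D₂ ≤ D →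
    Dc ≤ D → D ≤ Dr →
    ∀ {S : PCl m} {al : ℝ} {g₀ : ℝ → ℝ} {P : List (Fin m) × Fin m → ℝ → ℝ → ℝ}
    {θ : ℝ} {P₂ : ℕ → List (Fin m) × Fin m → ℝ → ℝ → ℝ} {θ₂ Eb e₂ : ℕ → ℝ}
    {c : ℕ → Fin m} {Pt : ℝ → ℝ → ℝ} {rr : ℝ → ℝ} {h Kn g : ℝ} {L T : ℕ → ℝ → ℝ → ℝ}
    {Sl : ℕ → ℝ} {κ : ℕ → Kg} {G : Set ℝ} {N : ℕ} {A V : ℕ → ℝ} {N' : ℕ} {V' : ℕ → ℝ}
    {K ε q t : ℝ}
    (_ : RecG S al g₀ P θ P₂ θ₂ Eb e₂ c Pt rr h Kn g L T Sl κ G S₀ N A V S₂ N' V' K ε q t),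
    0 < N' → (∀ k < N', |V' k| < K) → (∀ k < N, -K ≤ V k ∧ V k ≤ A k ∧ A k ≤ K) →
    ∀ σ κ₀ : ℝ, 0 < σ → 0 < κ₀ → ∃ K₁ : ℝ, 0 < K₁ ∧ Bas S (fun J F A₀ =>
      ∃ (B : F.Ω → Prop) (g : ℕ → ℕ → ℕ)
        (G : ℕ → PtT F → ℕ → MvPolynomial (Option (Fin m)) ℝ)
        (H : ℕ → LnT F → ℕ → MvPolynomial (Option (Fin m)) ℝ), Sub B A₀ ∧
      Pe F.p A₀ ≤ K₁ * Pe F.p B ∧
      Nls F c r D Dr (N' + N) ⌊σ * q * J⌋₊
        (fun j k => ndA N' V' A t q j ≤ ndA N' V' A t q k ∧ ndW N' V' V t q j ≤ ndW N' V' V t q k)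
        (fun k => ⌊ndA N' V' A t q k * J⌋₊) (fun k => ⌊ndW N' V' V t q k * J⌋₊)
        ⌊(Eb r + σ * q) * J⌋₊ ⌊(Eb r + σ * q) * J⌋₊ g ⌊σ * q * J⌋₊ κ₀ B G H ∧
      (∀ k < N' + N, ∀ l ≤ r, (L l (ndA N' V' A t q k) (ndW N' V' V t q k) - σ * q) * J ≤ g k l ∧
        (g k l : ℝ) ≤ L l (ndA N' V' A t q k) (ndW N' V' V t q k) * J) ∧
      (∀ k < N', ∀ ω, B ω → ∀ l ≤ r,
        G k (ptr F J ω) l = H k (slam F ⌊ndW N' V' V t q k * J⌋₊ ω) l) ∧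
      ∀ k < N', (∀ y l, (G k y l).totalDegree ≤ Dc) ∧ ∀ s l, (H k s l).totalDegree ≤ Dc) := by
  classical
  obtain ⟨D₁, hD₁, hwin⟩ := winb_con m r S₀ hr hS₀
  refine ⟨D₁, hD₁, fun S₂ hS₂ => ?_⟩
  obtain ⟨D₂, hD₂, hpair⟩ := Pool.STB82.nodF_pair r S₂ hr hS₂
  refine ⟨D₂, hD₂, ?_⟩
  intro Dc D Dr hDc hDD₂ hcD hDr S al g₀ P θ P₂ θ₂ Eb e₂ c Pt rr h Kn g L T Sl κ G N A V N' V' K ε
    q t R hN0 hV' hAV σ κ₀ hσ hκ₀
  have hD1 : 1 ≤ D := hD₂.trans hDD₂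
  have hq := R.q0
  have ht0 := R.t0
  have ht1 := R.t1
  have hS := R.tmh
  have hc : Set.InjOn c (Set.Iio (r + 1)) := R.inj.mono fun x hx => by
    rw [Set.mem_Iio] at hx ⊢
    omega
  have hK0 : 0 < K := (abs_nonneg _).trans_lt (hV' 0 hN0)
  have hKq : 0 < K * q := mul_pos hK0 hq
  have hEb := (R.tg r hr hrm).Eb0
  obtain ⟨M, hM⟩ : ∃ M, M = N' + N := ⟨_, rfl⟩
  -- the radii and windows
  obtain ⟨AA, hAA⟩ : ∃ AA, AA = ndA N' V' A t q := ⟨_, rfl⟩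
  obtain ⟨WW, hWW⟩ : ∃ WW, WW = ndW N' V' V t q := ⟨_, rfl⟩
  have hAA1 : ∀ k < N', AA k = t + V' k * q := fun k hk => by
    rw [hAA]
    exact if_pos hk
  have hWW1 : ∀ k < N', WW k = t + V' k * q := fun k hk => by
    rw [hWW]
    exact if_pos hk
  have hAA2 : ∀ k, ¬ k < N' → AA k = t + A (k - N') * q := fun k hk => by
    rw [hAA]
    exact if_neg hk
  have hWW2 : ∀ k, ¬ k < N' → WW k = t + V (k - N') * q := fun k hk => by
    rw [hWW]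
    exact if_neg hk
  have hqb : ∀ x : ℝ, -K ≤ x → x ≤ K → t - K * q ≤ t + x * q ∧ t + x * q ≤ t + K * q :=
    fun x h1 h2 => by
      have := mul_le_mul_of_nonneg_right h1 hq.le
      have := mul_le_mul_of_nonneg_right h2 hq.le
      constructor <;> linarith
  have hWA : ∀ k < M, 0 ≤ WW k ∧ WW k ≤ AA k ∧ AA k ≤ t + K * q := by
    intro k hk
    by_cases h1 : k < N'
    · have h2 := abs_lt.1 (hV' k h1)
      have h3 := hqb _ h2.1.le h2.2.le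
      rw [hAA1 k h1, hWW1 k h1]
      exact ⟨by linarith, le_rfl, h3.2⟩
    · obtain ⟨k1, k2, k3⟩ := hAV (k - N') (by omega)
      have h3 := hqb _ k1 (k2.trans k3)
      have h4 := hqb _ (k1.trans k2) k3
      have h5 := mul_le_mul_of_nonneg_right k2 hq.le
      rw [hAA2 k h1, hWW2 k h1]
      exact ⟨by linarith, by linarith, h4.2⟩
  -- the numbers
  obtain ⟨C, C₁, hC₁, hfam⟩ := nls_fam m D r M hD1
  have hC0 : (0 : ℝ) ≤ C := Nat.cast_nonneg C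
  have hC₁0 : 0 < C₁ := by linarith
  have hl2 : 0 < Real.log 2 := Real.log_pos one_lt_two
  obtain ⟨s, hs⟩ : ∃ s, s = σ * q := ⟨_, rfl⟩
  have hs0 : 0 < s := by rw [hs]; exact mul_pos hσ hq
  obtain ⟨α, hα⟩ : ∃ α, α = t + K * q := ⟨_, rfl⟩
  have hα0 : 0 ≤ α := by rw [hα]; linarith
  have hα1 : α < 1 := by rw [hα]; exact ht1
  obtain ⟨σ₁, hσ₁⟩ : ∃ σ₁, σ₁ = s / (8 * (C + 1)) := ⟨_, rfl⟩
  have hσ₁0 : 0 < σ₁ := by rw [hσ₁]; positivity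
  have hσ₁s : 8 * σ₁ ≤ s := by
    rw [hσ₁]
    have h1 : s / (8 * (C + 1)) ≤ s / 8 :=
      div_le_div_of_nonneg_left hs0.le (by norm_num) (by linarith)
    linarith
  have hCσ : C * σ₁ ≤ s / 8 := by
    calc C * σ₁ ≤ (C + 1) * σ₁ := mul_le_mul_of_nonneg_right (by linarith) hσ₁0.le
      _ = s / 8 := by rw [hσ₁]; field_simp
  obtain ⟨ε', hε'⟩ : ∃ ε', ε' = min (s / (8 * (C + 1) * C₁)) ((1 - α) * Real.log 2 / (2 * C₁)) :=
    ⟨_, rfl⟩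
  have hε0 : 0 < ε' := by
    rw [hε']
    exact lt_min (by positivity) (div_pos (mul_pos (by linarith) hl2) (by positivity))
  have hε1 : C * (C₁ * ε') ≤ s / 8 := by
    have h1 : ε' ≤ s / (8 * (C + 1) * C₁) := by rw [hε']; exact min_le_left _ _
    calc C * (C₁ * ε') ≤ (C + 1) * (C₁ * (s / (8 * (C + 1) * C₁))) :=
          mul_le_mul (by linarith) (mul_le_mul_of_nonneg_left h1 hC₁0.le) (by positivity)
            (by linarith)
      _ = s / 8 := by field_simp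
  have hε2 : C₁ * ε' ≤ (1 - α) * Real.log 2 / 2 := by
    have h1 : ε' ≤ (1 - α) * Real.log 2 / (2 * C₁) := by rw [hε']; exact min_le_right _ _
    calc C₁ * ε' ≤ C₁ * ((1 - α) * Real.log 2 / (2 * C₁)) :=
          mul_le_mul_of_nonneg_left h1 hC₁0.le
      _ = _ := by field_simp
  -- the closed balls
  obtain ⟨CB, hCB, hwin⟩ := hwin Dc hDc Dr (hcD.trans hDr)
  obtain ⟨ow, how⟩ : ∃ ow : ℕ → ℝ, ow = fun k => t + V' k * q := ⟨_, rfl⟩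
  have howk : ∀ k, ow k = t + V' k * q := fun k => by rw [how]
  have hgap : ∀ k < N', 0 < t + K * q - ow k := fun k hk => by
    rw [howk]
    have h2 := (abs_lt.1 (hV' k hk)).2
    have := mul_lt_mul_of_pos_right h2 hq
    linarith
  obtain ⟨μg, hμg, hμgk⟩ := fin_pos N' (f := fun k => t + K * q - ow k) hgap
  obtain ⟨K₁, bb, hK₁, hwin⟩ := hwin (S := S) (P := P) (θ := θ) (c := c) (Pt := L r)
    (a := t + K * q) (Eb := Eb r) (ηm := σ₁) (o := ow) (η := fun _ => σ₁) (σ := fun _ => σ₁)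
    (r₀ := fun k => μg / 2) (N' - 1) 0 R.thr R.th0 hS hc (R.lawL r hrm) hEb.le
    (fun k hk => by
      rw [howk]
      have h2 := abs_lt.1 (hV' k (by omega))
      exact rec_balI R hr hrm (k := k) (x := K) (by omega) h2.2 (by linarith) (hV' k (by omega)).le)
    (fun k _ => ⟨hσ₁0, hσ₁0, le_rfl, by positivity, le_rfl⟩)
  -- the pairs
  have hnod : ∀ i, ∃ (K₁ : ℝ) (d : ℕ → ℝ) (ψ : ℝ), i < N → 0 < K₁ ∧ 0 < ψ ∧
      (∀ l ≤ r, 0 < d l ∧ d l ≤ σ₁ ∧ d l < t + A i * q) ∧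
      Bas S (fun J F A₀ => ∃ B : F.Ω → Prop, Sub B A₀ ∧ Pe F.p A₀ ≤ K₁ * Pe F.p B ∧
        NodWS c r D Dr (fun l => L l (t + A i * q) (t + V i * q)) d (t + A i * q) (t + V i * q)
          (Eb r) (Eb r + σ₁) σ₁ ψ J F B) := by
    intro i
    by_cases hi : i < N
    · obtain ⟨K₁, d, ψ, h1, h2, h3, h4⟩ :=
        ((hpair R hrm i hi).1.up hDD₂).2 Dr σ₁ σ₁ hσ₁0 hσ₁0
      refine ⟨K₁, d, ψ, fun _ => ⟨h1, h2, h3, Bas.mono 0 h4 ?_⟩⟩
      rintro J - F A₀ ⟨B, T, TH, k1, k2, k3⟩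
      exact ⟨B, k1, k2, T, TH, k3⟩
    · exact ⟨1, fun _ => 1, 1, fun h => absurd h hi⟩
  choose K₃ d ψ hnod using hnod
  obtain ⟨μ, hμ, hμψ⟩ := fin_pos N (f := ψ) fun i hi => (hnod i hi).2.1
  obtain ⟨K₂, hK₂, hall⟩ := nodw_all (S := S) (c := c) (r := r) (D := D) (Dr := Dr)
    (β := fun i l => L l (t + A i * q) (t + V i * q)) (d := d) (a := fun i => t + A i * q)
    (w := fun i => t + V i * q) (e := Eb r) (E := Eb r + σ₁)
    (η := σ₁) (ψ := ψ) (ψ' := fun _ => μ / 2) N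
    (fun i hi => by have := hμψ i hi; show μ / 2 < ψ i; linarith)
    (fun i hi => ⟨K₃ i, (hnod i hi).1, (hnod i hi).2.2.2⟩)
  obtain ⟨Kf, hKf⟩ : ∃ Kf : ℝ, Kf = (2 ^ (r + 1)) ^ (M * M + M) := ⟨_, rfl⟩
  have hKf0 : 0 < Kf := by rw [hKf]; positivity
  have hKf1 : 1 ≤ Kf := by rw [hKf]; exact one_le_pow₀ (one_le_pow₀ (by norm_num))
  obtain ⟨κc, hκc⟩ : ∃ κc : ℝ, κc = min 1 κ₀ / (2 ^ (r + 1) * Kf) := ⟨_, rfl⟩
  have hκc0 : 0 < κc := by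
    rw [hκc]
    exact div_pos (lt_min one_pos hκ₀) (by positivity)
  have hκc1 : κc * (2 ^ (r + 1)) ^ (M * M + M + 1) ≤ 1 := by
    rw [pow_succ, ← hKf, hκc, mul_comm Kf, div_mul_cancel₀ _ (by positivity)]
    exact min_le_left _ _
  have hκc2 : κc * (2 ^ (r + 1)) ^ (M * M + M) ≤ κ₀ := by
    rw [← hKf, hκc, div_mul_eq_mul_div, div_le_iff₀ (by positivity)]
    have h1 : (1 : ℝ) ≤ 2 ^ (r + 1) := one_le_pow₀ (by norm_num)
    calc min 1 κ₀ * Kf ≤ κ₀ * Kf := mul_le_mul_of_nonneg_right (min_le_right _ _) hKf0.le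
      _ ≤ κ₀ * (2 ^ (r + 1) * Kf) :=
          mul_le_mul_of_nonneg_left (le_mul_of_one_le_left hKf0.le h1) hκ₀.le
  obtain ⟨J₀, hJ₀⟩ := share_ex (ψ := μ / 2) (κ := κc) (by positivity) hκc0
  obtain ⟨J₁, hJ₁⟩ := exists_nat_ge ((2 * C * (C₁ + 3) + 2) / (s / 2))
  obtain ⟨J₂, hJ₂⟩ := exists_nat_ge (C₁ / ((1 - α) * Real.log 2 / 2))
  obtain ⟨J₃, hJ₃⟩ := exists_nat_ge (2 / (μg / 2))
  have hT := bas_lrg (hS.2 ε' hε0) (K₁ * (K₂ * Kf))
  have hpos : Bas S (fun J F A => 0 < Pe F.p A) :=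
    ⟨1, one_pos, 0, fun J _ F A hA => hS.1 1 J F A hA⟩
  refine ⟨K₁ * (K₂ * Kf), by positivity, ?_⟩
  refine Bas.mono (max (max J₀ J₃) (max J₁ J₂))
    (((hwin (κc / K₂) (by positivity)).and (bas_lrg hall K₁)).and (hT.and hpos)) ?_
  rintro J hJ F A₀ ⟨⟨b1, b2⟩, hTm, hA⟩
  have hJ0 : (0 : ℝ) ≤ J := Nat.cast_nonneg J
  have hJJ₀ : J₀ ≤ J := ((le_max_left _ _).trans (le_max_left _ _)).trans hJ
  have hJJ₃ : (J₃ : ℝ) ≤ J := by
    exact_mod_cast ((le_max_right _ _).trans (le_max_left _ _)).trans hJ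
  have hJJ₁ : (J₁ : ℝ) ≤ J := by
    exact_mod_cast ((le_max_left _ _).trans (le_max_right _ _)).trans hJ
  have hJJ₂ : (J₂ : ℝ) ≤ J := by
    exact_mod_cast ((le_max_right _ _).trans (le_max_right _ _)).trans hJ
  have hp := Pe_nonneg F.isLaw
  have hfl : ∀ {x y : ℝ}, x ≤ y → ⌊x * J⌋₊ ≤ ⌊y * J⌋₊ := fun h =>
    Nat.floor_le_floor (mul_le_mul_of_nonneg_right h hJ0)
  have hsJ : 2 * C * (C₁ + 3) + 2 ≤ s / 2 * J := by
    have h3 := hJ₁.trans hJJ₁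
    rw [div_le_iff₀ (by positivity)] at h3
    linarith
  have hsJ1 : 1 ≤ s / 2 * J := by
    have : 0 ≤ 2 * (C : ℝ) * (C₁ + 3) := by positivity
    linarith
  have hμJ : 2 ≤ μg / 2 * J := by
    have h3 := hJ₃.trans hJJ₃
    rw [div_le_iff₀ (by positivity)] at h3
    linarith
  -- the event of the closed balls
  obtain ⟨B₀, gw, Gw, Hw, hB₀, hPB₀, WB⟩ := b1
    (fun k _ => if k < N' then ⌊(t + K * q) * J⌋₊ - ⌊ow k * J⌋₊ else 0) (fun k hk i _ => by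
      rw [if_pos (show k < N' by omega)]
      refine ⟨?_, le_rfl⟩
      have h1 := hμgk k (by omega)
      have h2 : (⌊ow k * (J : ℝ)⌋₊ : ℝ) ≤ ow k * J := Nat.floor_le (mul_nonneg (by
        rw [howk]
        have h2 := abs_lt.1 (hV' k (by omega))
        have h3 := hqb _ h2.1.le h2.2.le
        linarith) hJ0)
      have h3 : ((t + K * q) * J : ℝ) ≤ ⌊(t + K * q) * (J : ℝ)⌋₊ + 1 :=
        (Nat.lt_floor_add_one _).le
      have h4 : ⌊ow k * (J : ℝ)⌋₊ ≤ ⌊(t + K * q) * (J : ℝ)⌋₊ := hfl (by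
        have := hgap k (by omega)
        linarith)
      rw [Nat.cast_sub h4]
      have h5 : μg * J ≤ (t + K * q - ow k) * J := mul_le_mul_of_nonneg_right h1 hJ0
      have h6 : (t + K * q - ow k) * (J : ℝ) = (t + K * q) * J - ow k * J := by ring
      rw [h6] at h5
      linarith)
  obtain ⟨B₁, hB₁, hPB₁, k3⟩ := b2 B₀ hB₀ hPB₀
  have hPA₁ : Pe F.p A₀ ≤ K₁ * K₂ * Pe F.p B₁ := by
    calc Pe F.p A₀ ≤ K₁ * Pe F.p B₀ := hPB₀
      _ ≤ K₁ * (K₂ * Pe F.p B₁) := mul_le_mul_of_nonneg_left hPB₁ hK₁.le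
      _ = _ := by ring
  have hB0 : 0 < Pe F.p B₁ := by
    by_contra hcon
    have h1 : Pe F.p B₁ = 0 := le_antisymm (not_lt.1 hcon) (hp B₁)
    rw [h1, mul_zero] at hPA₁
    linarith
  -- the pairs
  have hex : ∀ i, ∃ (T : PtT F → ℕ → MvPolynomial (Option (Fin m)) ℝ)
      (TH : LnT F → ℕ → MvPolynomial (Option (Fin m)) ℝ), i < N →
      NodW F c r D Dr ⌊(t + A i * q) * J⌋₊ ⌊(t + V i * q) * J⌋₊ ⌊(Eb r + s) * J⌋₊
        ⌊(Eb r + s) * J⌋₊ (fun l => ⌊(L l (t + A i * q) (t + V i * q) - d i l) * J⌋₊)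
        ⌊σ₁ * J⌋₊ κc B₁ T TH := by
    intro i
    by_cases hi : i < N
    · obtain ⟨T, TH, h⟩ := k3 i hi
      refine ⟨T, TH, fun _ => ⟨h.lst.mono le_rfl (fun _ => le_rfl) le_rfl (hfl (by linarith)),
        h.top.mono le_rfl (fun _ => le_rfl) le_rfl (hfl (by linarith)), ?_⟩⟩
      exact h.rlF.mono le_rfl (hJ₀ J hJJ₀)
    · exact ⟨fun _ _ => 0, fun _ _ => 0, fun h => absurd h hi⟩
  choose T TH hT' using hex
  -- the combined list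
  obtain ⟨GG, hGG⟩ : ∃ GG : ℕ → PtT F → ℕ → MvPolynomial (Option (Fin m)) ℝ,
    GG = fun k => if k < N' then Gw k else T (k - N') := ⟨_, rfl⟩
  obtain ⟨HH, hHH⟩ : ∃ HH : ℕ → LnT F → ℕ → MvPolynomial (Option (Fin m)) ℝ,
    HH = fun k => if k < N' then Hw k else TH (k - N') := ⟨_, rfl⟩
  obtain ⟨gg, hgg⟩ : ∃ gg : ℕ → ℕ → ℕ, gg = fun k => if k < N' then gw k else
    fun l => ⌊(L l (t + A (k - N') * q) (t + V (k - N') * q) - d (k - N') l) * J⌋₊ := ⟨_, rfl⟩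
  have hGG1 : ∀ k < N', GG k = Gw k ∧ HH k = Hw k ∧ gg k = gw k := fun k hk => by
    rw [hGG, hHH, hgg]
    exact ⟨if_pos hk, if_pos hk, if_pos hk⟩
  have hGG2 : ∀ k, ¬ k < N' → GG k = T (k - N') ∧ HH k = TH (k - N') ∧
      gg k = fun l => ⌊(L l (t + A (k - N') * q) (t + V (k - N') * q) - d (k - N') l) * J⌋₊ :=
    fun k hk => by
      rw [hGG, hHH, hgg]
      exact ⟨if_neg hk, if_neg hk, if_neg hk⟩
  have hnodes : ∀ k < M, NodW F c r D Dr ⌊AA k * J⌋₊ ⌊WW k * J⌋₊ ⌊(Eb r + s) * J⌋₊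
      ⌊(Eb r + s) * J⌋₊ (gg k) ⌊σ₁ * J⌋₊ κc B₁ (GG k) (HH k) := by
    intro k hk
    by_cases h1 : k < N'
    · obtain ⟨e1, e2, e3⟩ := hGG1 k h1
      rw [hAA1 k h1, hWW1 k h1, e1, e2, e3, ← howk]
      have h2 := (WB.ev k (by omega)).sub hB₁ (κ₁ := 1 / K₂) (κ₂ := κc) (by
        rw [one_div, inv_mul_le_iff₀ hK₂]
        exact hPB₁) hκc0.le (by rw [mul_one_div])
      refine ⟨h2.ball.mono (by omega) (fun _ => hcD) le_rfl (hfl ?_),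
        h2.ball.mono le_rfl (fun _ => hcD) le_rfl (hfl ?_), h2.relb⟩
      · linarith
      · linarith
    · obtain ⟨e1, e2, e3⟩ := hGG2 k h1
      rw [hAA2 k h1, hWW2 k h1, e1, e2, e3]
      exact hT' (k - N') (by omega)
  have hlev : ∀ k < M, ∀ l ≤ r, (L l (AA k) (WW k) - σ₁) * J - 1 ≤ gg k l ∧
      (gg k l : ℝ) ≤ L l (AA k) (WW k) * J := by
    intro k hk l hl
    have hL0 : 0 ≤ L l (AA k) (WW k) := by
      obtain ⟨w1, w2, w3⟩ := hWA k hk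
      have h4 : WW k ≤ L l (WW k) (WW k) := by
        rcases Nat.lt_or_ge (l + 1) m with h6 | h6
        · rw [R.lv_lt h6]
          exact R.thr.low _ _ _ w1 le_rfl (by linarith)
        · have h7 : l = m - 1 := by omega
          rw [h7, R.lv_last (by omega)]
          exact R.tgs.low () _ _ w1 le_rfl (by linarith)
      have h5 := (R.lawL l (by omega)).mono_a (WW k) (AA k) (WW k) w1 le_rfl w2 (by linarith)
      linarith
    by_cases h1 : k < N'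
    · obtain ⟨e1, e2, e3⟩ := hGG1 k h1
      rw [hAA1 k h1, hWW1 k h1, e3, ← howk]
      obtain ⟨h2, h3⟩ := WB.sds k (by omega) l hl
      have h2' : (lvN P c r (L r) l (ow k) (ow k) - σ₁) * J ≤ gw k l := h2
      have h3' : (gw k l : ℝ) ≤ lvN P c r (L r) l (ow k) (ow k) * J := h3
      rw [← R.lv_at hrm hl] at h2' h3'
      exact ⟨by linarith, h3'⟩
    · obtain ⟨e1, e2, e3⟩ := hGG2 k h1
      rw [hAA2 k h1, hWW2 k h1] at hL0 ⊢
      rw [e3]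
      obtain ⟨h2, h3, -⟩ := (hnod (k - N') (by omega)).2.2.1 l hl
      constructor
      · have h4 := Nat.lt_floor_add_one ((L l (t + A (k - N') * q) (t + V (k - N') * q) -
          d (k - N') l) * (J : ℝ))
        have h5 : (L l (t + A (k - N') * q) (t + V (k - N') * q) - σ₁) * J ≤
            (L l (t + A (k - N') * q) (t + V (k - N') * q) - d (k - N') l) * (J : ℝ) :=
          mul_le_mul_of_nonneg_right (by linarith) hJ0
        show _ ≤ ((⌊(L l (t + A (k - N') * q) (t + V (k - N') * q) -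
          d (k - N') l) * (J : ℝ)⌋₊ : ℕ) : ℝ)
        linarith
      · show ((⌊(L l (t + A (k - N') * q) (t + V (k - N') * q) -
          d (k - N') l) * (J : ℝ)⌋₊ : ℕ) : ℝ) ≤ _
        refine (Nat.cast_le.2 (Nat.floor_le_floor (mul_le_mul_of_nonneg_right
          (show L l (t + A (k - N') * q) (t + V (k - N') * q) - d (k - N') l ≤
            L l (t + A (k - N') * q) (t + V (k - N') * q) by linarith) hJ0))).trans ?_
        exact Nat.floor_le (mul_nonneg hL0 hJ0)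
  have hmon : ∀ j < M, ∀ k < M, AA j ≤ AA k → WW j ≤ WW k →
      L r (AA j) (WW j) ≤ L r (AA k) (WW k) := by
    intro j hj k hk h1 h2
    obtain ⟨j1, j2, j3⟩ := hWA j hj
    obtain ⟨w1, w2, w3⟩ := hWA k hk
    have hl := R.lawL r hrm
    exact (hl.mono_a (AA j) (AA k) (WW j) j1 j2 h1 (by linarith)).trans
      (hl.mono_w (AA k) (WW j) (WW k) j1 h2 w2 (by linarith))
  have hflJ : ⌊α * J⌋₊ ≤ J := by
    refine Nat.floor_le_of_le ?_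
    nlinarith
  obtain ⟨s', hs'⟩ : ∃ s' : ℕ, s' = ⌈C₁ * (ε' * J + 1)⌉₊ := ⟨_, rfl⟩
  have hs'1 : C₁ * (ε' * J + 1) ≤ s' := by rw [hs']; exact Nat.le_ceil _
  have hs'2 : (s' : ℝ) ≤ C₁ * (ε' * J + 1) + 1 := by
    rw [hs']
    exact (Nat.ceil_lt_add_one (by positivity)).le
  have hnum : C * (⌊σ₁ * J⌋₊ + (⌊σ₁ * J⌋₊ + 1) + s' + 1) ≤ ⌊s * J⌋₊ := by
    refine Nat.le_floor ?_
    push_cast
    have h1' : (⌊σ₁ * (J : ℝ)⌋₊ : ℝ) ≤ σ₁ * J := Nat.floor_le (by positivity)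
    calc (C : ℝ) * (⌊σ₁ * (J : ℝ)⌋₊ + (⌊σ₁ * (J : ℝ)⌋₊ + 1) + s' + 1) ≤
          C * (σ₁ * J + (σ₁ * J + 1) + (C₁ * (ε' * J + 1) + 1) + 1) :=
          mul_le_mul_of_nonneg_left (by linarith) hC0
      _ = (C * σ₁) * J + (C * σ₁) * J + (C * (C₁ * ε')) * J + C * (C₁ + 3) := by ring
      _ ≤ s / 8 * J + s / 8 * J + s / 8 * J + C * (C₁ + 3) := by
          have h4 := mul_le_mul_of_nonneg_right hε1 hJ0
          have h5 := mul_le_mul_of_nonneg_right hCσ hJ0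
          linarith
      _ ≤ s * J := by
          have h5 : 0 ≤ C * (C₁ + 3) := by positivity
          have h6 : 0 ≤ s * J := by positivity
          linarith
  have hCJ1 : C₁ * (ε' * J + 1) ≤ ((J : ℝ) - (⌊α * (J : ℝ)⌋₊ : ℕ)) * Real.log 2 := by
    have h1 : C₁ ≤ (1 - α) * Real.log 2 / 2 * J := by
      have h3 := hJ₂.trans hJJ₂
      have h4 : 0 < (1 - α) * Real.log 2 / 2 := by
        have := mul_pos (sub_pos.2 hα1) hl2
        linarith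
      rw [div_le_iff₀ h4] at h3
      linarith
    have h2 : (⌊α * (J : ℝ)⌋₊ : ℝ) ≤ α * J := Nat.floor_le (mul_nonneg hα0 hJ0)
    calc C₁ * (ε' * J + 1) = C₁ * ε' * J + C₁ := by ring
      _ ≤ (1 - α) * Real.log 2 / 2 * J + (1 - α) * Real.log 2 / 2 * J :=
          add_le_add (mul_le_mul_of_nonneg_right hε2 hJ0) h1
      _ = (J - α * J) * Real.log 2 := by ring
      _ ≤ _ := mul_le_mul_of_nonneg_right (by linarith) hl2.le
  have hgx : ∀ j < M, ∀ k < M, AA j ≤ AA k ∧ WW j ≤ WW k →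
      gg j r ≤ gg k r + (⌊σ₁ * J⌋₊ + 1) := by
    intro j hj k hk hjk
    have h1 := hmon j hj k hk hjk.1 hjk.2
    have h2 := (hlev j hj r le_rfl).2
    have h3 := (hlev k hk r le_rfl).1
    have h7 := Nat.lt_floor_add_one (σ₁ * (J : ℝ))
    have h8 : L r (AA j) (WW j) * J ≤ L r (AA k) (WW k) * J := mul_le_mul_of_nonneg_right h1 hJ0
    have h9 : (gg j r : ℝ) < ((gg k r + (⌊σ₁ * J⌋₊ + 1) + 1 : ℕ) : ℝ) := by
      push_cast
      linarith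
    have h10 : gg j r < gg k r + (⌊σ₁ * J⌋₊ + 1) + 1 := by exact_mod_cast h9
    omega
  obtain ⟨B', l1, l2, l3⟩ := hfam (F := F) (c := c)
    (R := fun j k => AA j ≤ AA k ∧ WW j ≤ WW k) (a := fun k => ⌊AA k * J⌋₊)
    (w := fun k => ⌊WW k * J⌋₊) (e := ⌊(Eb r + s) * J⌋₊) (E := ⌊(Eb r + s) * J⌋₊) (Dr := Dr)
    (g := gg) (h := ⌊σ₁ * J⌋₊) (x := ⌊σ₁ * J⌋₊ + 1)
    (s := ⌊s * J⌋₊) (s' := s') (Aₘ := ⌊α * J⌋₊) (κ := κc)
    (κ₁ := κ₀) (θ := ε' * J) (B := B₁) (G := GG) (H := HH) hB0 hc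
    (fun k hk => hfl (by rw [hα]; exact (hWA k hk).2.2)) (fun k hk => hfl (hWA k hk).2.1) hflJ
    (fun j hj k hk hjk => ⟨hfl hjk.1, hfl hjk.2, hgx j hj k hk hjk⟩) hDr hnodes hκc0.le
    hκ₀.le hκc1 hκc2 (by positivity)
    (fun B' hB' hP hB'0 => hTm B' (fun ω hω => hB₀ ω (hB₁ ω (hB' ω hω))) (hPA₁.trans (by
      rw [mul_assoc, mul_assoc, mul_assoc]
      refine mul_le_mul_of_nonneg_left (mul_le_mul_of_nonneg_left ?_ hK₂.le) hK₁.le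
      rw [hKf]
      exact hP)) hB'0) hCJ1 hs'1 hnum
  rw [← hKf] at l2
  refine ⟨B', gg, GG, HH, fun ω hω => hB₀ ω (hB₁ ω (l1 ω hω)), ?_, ?_, ?_, ?_, ?_⟩
  · calc Pe F.p A₀ ≤ K₁ * K₂ * Pe F.p B₁ := hPA₁
      _ ≤ K₁ * K₂ * (Kf * Pe F.p B') := mul_le_mul_of_nonneg_left l2 (by positivity)
      _ = _ := by ring
  · rw [← hM, ← hAA, ← hWW, ← hs]
    refine ⟨fun k hk => ?_, l3.uni, l3.two, l3.own, l3.ow⟩
    have h1 := l3.nod k hk
    exact ⟨h1.lst, h1.top, relf_h h1.rlF (hfl (by linarith))⟩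
  · intro k hk l hl
    rw [← hAA, ← hWW, ← hs]
    rw [← hM] at hk
    obtain ⟨h1, h2⟩ := hlev k hk l hl
    refine ⟨?_, h2⟩
    have h3 : (L l (AA k) (WW k) - s) * (J : ℝ) =
        (L l (AA k) (WW k) - σ₁) * J - (s - σ₁) * J := by ring
    have h4 : 1 ≤ (s - σ₁) * (J : ℝ) := by
      have h5 : s / 2 * (J : ℝ) ≤ (s - σ₁) * J := mul_le_mul_of_nonneg_right (by linarith) hJ0
      linarith
    linarith
  · intro k hk ω hω l hl
    rw [← hWW]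
    obtain ⟨e1, e2, e3⟩ := hGG1 k hk
    rw [e1, e2, hWW1 k hk, ← howk]
    exact (WB.ev k (by omega)).cls ω (hB₁ ω (l1 ω hω)) l (by omega)
  · intro k hk
    obtain ⟨e1, e2, e3⟩ := hGG1 k hk
    rw [e1, e2]
    exact ⟨(WB.ev k (by omega)).ball.degG, (WB.ev k (by omega)).ball.degH⟩

end Pool.NDD66
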