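import Pool.Agent.H95.CRT.Eqn
import Pool.Agent.H23.D2.Fam

/-!
# The gradient of a row label at a point of its line

`row_grd`: a chain of two-sided labels of the radius `2 ^ (-a)` and the window `2 ^ (-w)`, two
samples `ω`, `ν` of one exact point: the closed polynomials of the line of `ω` have the velocity of
`ν`, up to `2 ^ a / 2 ^ (g l)`.
-/

set_option autoImplicit false

namespace Pool.NDD66

open Finset Real MvPolynomial
open Pool.Agent.H49.Ent Pool.Agent.H32.Dense Pool.STK Pool.KA Pool.KSAT Pool.K2S Pool.PB Pool.S6C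
open Pool.GEN Pool.CHT Pool.D2R
open Pool.PB.Trl (rt rt_mem t_rt)

variable {m J : ℕ}

/-- The relative time of the longer window. -/
theorem lc_coarse (F : Fam m J) {w a : ℕ} (hw : w ≤ a) (ha : a ≤ J) (ν : F.Ω) (τ : ℝ)
    (hτ : τ ∈ Set.Icc (0 : ℝ) 1) : ∃ τ' ∈ Set.Icc (0 : ℝ) 1, ∀ o : Option (Fin m),
    (lc a (slam F a ν) o).eval τ = (lc w (slam F w ν) o).eval τ' := by
  obtain ⟨n, hn⟩ : ∃ n : ℕ, n = (slam F a ν).2.2 := ⟨_, rfl⟩
  have h1 := slam_coarse F hw ha ν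
  have h2 : (slam F w ν).2.2 = n / 2 ^ (a - w) := by rw [h1, hn]
  have hq : (0 : ℝ) < 2 ^ (a - w) := by positivity
  have h3 := Nat.div_add_mod n (2 ^ (a - w))
  have h4 := Nat.mod_lt n (show 0 < 2 ^ (a - w) by positivity)
  have h3' : (2 : ℝ) ^ (a - w) * ((n / 2 ^ (a - w) : ℕ) : ℝ) + ((n % 2 ^ (a - w) : ℕ) : ℝ) = n := by
    exact_mod_cast h3
  have h4' : ((n % 2 ^ (a - w) : ℕ) : ℝ) + 1 ≤ 2 ^ (a - w) := by exact_mod_cast h4
  have h5 : (0 : ℝ) ≤ ((n % 2 ^ (a - w) : ℕ) : ℝ) := Nat.cast_nonneg _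
  refine ⟨(((n % 2 ^ (a - w) : ℕ) : ℝ) + τ) / 2 ^ (a - w), ⟨by
    have := hτ.1
    positivity, by
    rw [div_le_one hq]
    linarith [hτ.2]⟩, fun o => ?_⟩
  have e1 : (((slam F w ν).2.2 : ℝ) + (((n % 2 ^ (a - w) : ℕ) : ℝ) + τ) / 2 ^ (a - w)) / 2 ^ w =
      (((slam F a ν).2.2 : ℝ) + τ) / 2 ^ a := by
    rw [h2, ← hn]
    have e2 : (2 : ℝ) ^ a = 2 ^ (a - w) * 2 ^ w := by
      rw [← pow_add]
      congr 1
      omega
    rw [e2]
    field_simp
    linarith
  rw [eval_lc', eval_lc', e1]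
  cases o with
  | none => rfl
  | some j =>
    rw [h1]
    rfl

/-- **The gradient of the row label at a point of its line**: the velocities of the lines through
one exact point are on the closed polynomials of the row labels. -/
theorem row_grd (m D r : ℕ) : ∃ C : ℕ, 1 ≤ C ∧ ∀ {J : ℕ} {F : Fam m J} {c : ℕ → Fin m}
    {w a e k : ℕ} {g : ℕ → ℕ} {A : F.Ω → Prop}
    {G : PtT F → ℕ → MvPolynomial (Option (Fin m)) ℝ}
    {H : LnT F → ℕ → MvPolynomial (Option (Fin m)) ℝ}, Set.InjOn c (Set.Iio (r + 1)) →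
    w ≤ a → a ≤ J → ChOK F c (r + 1) (fun _ => D) a w e g A G H →
    (∀ l ≤ r, e + g l + C * (k + 1) ≤ J) → ∀ ω ν, A ω → A ν → ptr F J ω = ptr F J ν →
    (∀ l ≤ r, ∀ τ ∈ Set.Icc (0 : ℝ) 1,
      |(dv w (fun s _ => H s l) (c l) (slam F w ν)).eval τ| ≤ 2 ^ k / 2 ^ g l) → ∀ l ≤ r,
    |bd F ν (some (c l)) - dd (H (slam F w ω) l) (bt F ω) (bd F ν)| ≤
        2 ^ (C * (k + 1)) * 2 ^ a / 2 ^ g l := by
  obtain ⟨C, hC, hcrt⟩ := Pool.CRT95.crt_eq m D r
  refine ⟨C, hC, ?_⟩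
  intro J F c w a e k g A G H hc hwa haJ hch hJ ω ν hω hν hpt hdv l hl
  have hco : ∀ ξ, co (a - w) (slam F a ξ) = slam F w ξ := fun ξ => co_slam F hwa haJ ξ
  have hch' : ChOK F c (r + 1) (fun _ => D) a a e g A G (fun s => H (co (a - w) s)) :=
    { degG := hch.degG
      degH := fun s i => hch.degH _ i
      depG := hch.depG
      depH := fun s i => hch.depH _ i
      pos := hch.pos
      agr := by
        intro ξ hξ i hi b hb
        have h1 := hch.agr ξ hξ i hi b hb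
        show |_ - eval b (H (co (a - w) (slam F a ξ)) i)| ≤ _
        rw [hco]
        exact h1
      lip := hch.lip }
  have h1 := (hcrt hc haJ hch' hJ ω ν hω hν hpt (fun l hl τ hτ => by
    obtain ⟨τ', hτ', h2⟩ := lc_coarse F hwa haJ ν τ hτ
    have h3 := hdv l hl τ' hτ'
    unfold dv at h3 ⊢
    rw [Polynomial.eval_sub, Pool.KBX.eval_aeval_poly] at h3 ⊢
    rw [show (fun o => (lc a (slam F a ν) o).eval τ) = fun o => (lc w (slam F w ν) o).eval τ' from
      funext h2, h2]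
    show |_ - eval _ (H (co (a - w) (slam F a ν)) l)| ≤ _
    rw [hco]
    exact h3) l hl).1
  rw [hco] at h1
  exact h1

end Pool.NDD66
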