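import Pool.Agent.H66.NDD.Geo
import Pool.Agent.H54.ND.Sup

/-!
# Gradients of the labels in natural units

`grd_last`: the derivative in the last direction of a polynomial small on a natural box. `ncp_bd`: the
natural gradients in the frame of earlier charts. `dv_win`: the own path in the whole window.
-/

set_option autoImplicit false

namespace Pool.NDD66

open Finset Real MvPolynomial
open Pool.Agent.H49.Ent Pool.Agent.H32.Dense Pool.STK Pool.KA Pool.KSAT Pool.K2S Pool.PB Pool.S6C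
open Pool.GEN Pool.CHT Pool.CHX Pool.D2R Pool.PKG
open Pool.PB.Trl (rt rt_mem t_rt)
open Pool.STB77 (opt)

variable {m J : ℕ}

/-- **The derivative in the last direction** of a polynomial small on a natural box. -/
theorem grd_last (r K D : ℕ) : ∃ C : ℝ, 1 ≤ C ∧ ∀ {m : ℕ} {c : ℕ → Fin m}
    {χ : ℕ → MvPolynomial (Option (Fin m)) ℝ} {Q : MvPolynomial (Option (Fin m)) ℝ}
    {g : ℕ → ℕ} {a : ℕ} {M : ℝ} {x : Option (Fin m) → ℝ}, Set.InjOn c (Set.Iio (r + 1)) →
    (∀ l, (χ l).totalDegree ≤ K) → (∀ l, DepC c l (χ l)) → DepC c (r + 1) Q →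
    Q.totalDegree ≤ D → 0 ≤ M → (∀ b, NBx c χ g a (x none) (r + 1) b → |eval b Q| ≤ M) →
    (∀ l ≤ r, |x (some (c l)) - eval x (χ l)| ≤ 1 / 2 ^ g l) →
    |eval x (pderiv (some (c r)) Q)| ≤ C * M * 2 ^ g r := by
  classical
  obtain ⟨C, hC, hbt⟩ := box_two (r + 1) K D
  refine ⟨C, hC, ?_⟩
  intro m c χ Q g a M x hc hχ hdep hQ hQd hM hbox hx
  have hdd : ∀ Q : MvPolynomial (Option (Fin m)) ℝ,
      dd Q x (Pi.single (some (c r)) 1) = eval x (pderiv (some (c r)) Q) := by
    intro Q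
    unfold dd
    rw [Finset.sum_eq_single (some (c r))]
    · rw [Pi.single_eq_same, mul_one]
    · intro o _ ho
      rw [Pi.single_eq_of_ne ho, mul_zero]
    · intro h
      exact absurd (Finset.mem_univ _) h
  have hne : ∀ l < r, (some (c l) : Option (Fin m)) ≠ some (c r) := fun l hl h => by
    have h1 := hc (show l ∈ Set.Iio (r + 1) from Set.mem_Iio.2 (by omega))
      (show r ∈ Set.Iio (r + 1) from Set.mem_Iio.2 (by omega)) (Option.some_injective _ h)
    omega
  have hz : ∀ l ≤ r, dd (χ l) x (Pi.single (some (c r)) 1) = 0 := by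
    intro l hl
    rw [dd_congr (hdep l) x (V := 0) (by
      rw [Pi.single_eq_of_ne (by simp)]
      rfl) (fun j hj => by
        rw [Pi.single_eq_of_ne (hne j (by omega))]
        rfl)]
    unfold dd
    exact Finset.sum_eq_zero fun o _ => by rw [Pi.zero_apply, mul_zero]
  obtain ⟨h1, -⟩ := hbt (M := M) (L := 2 ^ g r) hc hχ hdep hQ hQd hM (by positivity) hbox
    (fun l hl => hx l (by omega)) (Pi.single (some (c r)) 1) (by
      rw [Pi.single_eq_of_ne (by simp), abs_zero]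
      positivity) (fun l hl => by
      rw [hz l (by omega), sub_zero]
      by_cases h : l = r
      · subst h
        rw [Pi.single_eq_same, abs_one, div_self (by positivity)]
      · rw [Pi.single_eq_of_ne (hne l (by omega)), abs_zero]
        positivity)
  rw [hdd] at h1
  exact h1

/-- **The natural gradients in the frame of earlier charts** `ψ`. -/
theorem ncp_bd (r K D : ℕ) : ∃ C : ℕ, 1 ≤ C ∧ ∀ {m : ℕ} {c : ℕ → Fin m}
    {χ ψ : ℕ → MvPolynomial (Option (Fin m)) ℝ} {Q : MvPolynomial (Option (Fin m)) ℝ}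
    {g gw : ℕ → ℕ} {a k q : ℕ} {M : ℝ} {x : Option (Fin m) → ℝ}, Set.InjOn c (Set.Iio (r + 1)) →
    (∀ l, (χ l).totalDegree ≤ K) → (∀ l, DepC c l (χ l)) →
    (∀ l, (ψ l).totalDegree ≤ K) → (∀ l, DepC c l (ψ l)) → DepC c (r + 1) Q →
    Q.totalDegree ≤ D → 0 ≤ M → (∀ b, NBx c χ g a (x none) (r + 1) b → |eval b Q| ≤ M) →
    (∀ l ≤ r, |x (some (c l)) - eval x (χ l)| ≤ 1 / 2 ^ g l) →
    (∀ l ≤ r, g l ≤ gw l + q) →
    (∀ l ≤ r, ∃ κ : ℝ, ∀ b, NBx c χ g a (x none) l b →
      |eval b (χ l) - eval b (ψ l) - κ| ≤ 2 ^ k / 2 ^ gw l) → ∀ j ≤ r,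
    |ncp c (r + 1) ψ Q x j| ≤ 2 ^ ((r + 2) * (q + C * (k + 1))) * M * 2 ^ g j := by
  classical
  have hCs := fun i : ℕ => box_two i K (max K D)
  choose Cs hCs1 hbt using hCs
  obtain ⟨C₃, hC₃⟩ : ∃ C₃ : ℝ, C₃ = ∑ i ∈ range (r + 2), Cs i := ⟨_, rfl⟩
  have hCsC : ∀ i ≤ r + 1, Cs i ≤ C₃ := by
    intro i hi
    rw [hC₃]
    exact Finset.single_le_sum (f := Cs) (fun j _ => by linarith [hCs1 j])
      (Finset.mem_range.2 (by omega))
  have hC₃1 : 1 ≤ C₃ := (hCs1 0).trans (hCsC 0 (by omega))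
  obtain ⟨cC, hcC⟩ := pow_unbounded_of_one_lt (C₃ + 1) (one_lt_two (α := ℝ))
  refine ⟨cC + 1, by omega, ?_⟩
  intro m c χ ψ Q g gw a k q M x hc hχ hχd hψ hψd hQ hQd hM hbox hx hg hcmp j hj
  obtain ⟨W, hW0, hW⟩ := vec_adapt hc hψd x 0 (fun l => if l = j then 1 else 0) (r + 1) le_rfl
  rw [ncp_eq hψd hQ hW0 (fun l hl => hW l hl)]
  obtain ⟨E, hE⟩ : ∃ E : ℝ, E = 2 ^ (q + (cC + 1) * (k + 1)) := ⟨_, rfl⟩
  have hE0 : 0 < E := by rw [hE]; positivity
  have hE1 : 1 ≤ E := by rw [hE]; exact one_le_pow₀ (by norm_num)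
  have hEC : 1 + C₃ * 2 ^ (k + q) ≤ E := by
    have h1 : (1 : ℝ) ≤ 2 ^ (k + q) := one_le_pow₀ (by norm_num)
    calc 1 + C₃ * 2 ^ (k + q) ≤ 2 ^ (k + q) + C₃ * 2 ^ (k + q) := by linarith
      _ = (C₃ + 1) * 2 ^ (k + q) := by ring
      _ ≤ 2 ^ cC * 2 ^ (k + q) := mul_le_mul_of_nonneg_right hcC.le (by positivity)
      _ = 2 ^ (cC + (k + q)) := (pow_add _ _ _).symm
      _ ≤ E := by
          rw [hE]
          refine pow_le_pow_right₀ (by norm_num) ?_
          have : cC + k ≤ (cC + 1) * (k + 1) := by nlinarith [Nat.zero_le (cC * k)]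
          omega
  have hV : ∀ l ≤ r, |W (some (c l)) - dd (χ l) x W| ≤ E ^ (l + 1) * 2 ^ g j / 2 ^ g l := by
    intro l
    induction l using Nat.strong_induction_on with
    | _ l ih =>
      intro hl
      obtain ⟨κ, hκ⟩ := hcmp l hl
      have hcl : Set.InjOn c (Set.Iio l) := hc.mono fun y hy => by
        rw [Set.mem_Iio] at hy ⊢
        omega
      obtain ⟨R, hR⟩ : ∃ R : MvPolynomial (Option (Fin m)) ℝ, R = χ l - ψ l - C κ := ⟨_, rfl⟩
      have hRd : R.totalDegree ≤ max K D := by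
        rw [hR]
        refine (totalDegree_sub _ _).trans (max_le ((totalDegree_sub _ _).trans
          (max_le ((hχ l).trans (le_max_left _ _)) ((hψ l).trans (le_max_left _ _)))) ?_)
        rw [totalDegree_C]
        exact Nat.zero_le _
      have hRp : DepC c l R := fun b b' h1 h2 => by
        rw [hR, map_sub, map_sub, map_sub, map_sub, eval_C, eval_C, hχd l b b' h1 h2,
          hψd l b b' h1 h2]
      obtain ⟨h1, -⟩ := hbt l (M := 2 ^ k / 2 ^ gw l) (L := E ^ l * 2 ^ g j) hcl hχ hχd hRp hRd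
        (by positivity) (by positivity) (fun b hb => by
          rw [hR, map_sub, map_sub, eval_C]
          exact hκ b hb) (fun i hi => hx i (by omega)) W (by
          rw [hW0, abs_zero]
          positivity) (fun i hi => by
          refine (ih i hi (by omega)).trans ?_
          refine div_le_div_of_nonneg_right (mul_le_mul_of_nonneg_right
            (pow_le_pow_right₀ hE1 (by omega)) (by positivity)) (by positivity))
      have h2 : dd R x W = dd (χ l) x W - dd (ψ l) x W := by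
        rw [hR, dd_sub, dd_sub]
        have h3 : dd (C κ : MvPolynomial (Option (Fin m)) ℝ) x W = 0 := by
          unfold dd
          exact Finset.sum_eq_zero fun o _ => by rw [pderiv_C, map_zero, zero_mul]
        rw [h3, sub_zero]
      have h3 := hW l (by omega)
      have e1 : W (some (c l)) - dd (χ l) x W = (if l = j then 1 else 0) - dd R x W := by
        rw [h2, ← h3]
        ring
      rw [e1]
      have hp1 : (0 : ℝ) < 2 ^ g j / 2 ^ g l := by positivity
      have h4 : |(if l = j then (1 : ℝ) else 0)| ≤ E ^ l * (2 ^ g j / 2 ^ g l) := by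
        split_ifs with h
        · rw [h, div_self (by positivity), abs_one, mul_one]
          exact one_le_pow₀ hE1
        · rw [abs_zero]
          positivity
      have h5 : Cs l * (2 ^ k / 2 ^ gw l) * (E ^ l * 2 ^ g j) ≤
          C₃ * 2 ^ (k + q) * (E ^ l * (2 ^ g j / 2 ^ g l)) := by
        have h6 : (2 : ℝ) ^ k / 2 ^ gw l ≤ 2 ^ (k + q) / 2 ^ g l := by
          rw [div_le_div_iff₀ (by positivity) (by positivity), ← pow_add, ← pow_add]
          refine pow_le_pow_right₀ (by norm_num) ?_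
          have := hg l hl
          omega
        calc Cs l * (2 ^ k / 2 ^ gw l) * (E ^ l * 2 ^ g j) ≤
              C₃ * (2 ^ (k + q) / 2 ^ g l) * (E ^ l * 2 ^ g j) :=
              mul_le_mul_of_nonneg_right (mul_le_mul (hCsC l (by omega)) h6 (by positivity)
                (by linarith)) (by positivity)
          _ = _ := by ring
      calc |(if l = j then (1 : ℝ) else 0) - dd R x W| ≤
            |(if l = j then (1 : ℝ) else 0)| + |dd R x W| := abs_sub _ _
        _ ≤ E ^ l * (2 ^ g j / 2 ^ g l) + C₃ * 2 ^ (k + q) * (E ^ l * (2 ^ g j / 2 ^ g l)) :=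
            add_le_add h4 (h1.trans h5)
        _ = (1 + C₃ * 2 ^ (k + q)) * (E ^ l * (2 ^ g j / 2 ^ g l)) := by ring
        _ ≤ E * (E ^ l * (2 ^ g j / 2 ^ g l)) := mul_le_mul_of_nonneg_right hEC (by positivity)
        _ = _ := by ring
  obtain ⟨h1, -⟩ := hbt (r + 1) (M := M) (L := E ^ (r + 1) * 2 ^ g j) hc hχ hχd hQ
    (hQd.trans (le_max_right _ _)) hM (by positivity) hbox (fun l hl => hx l (by omega)) W (by
      rw [hW0, abs_zero]
      positivity) (fun l hl => (hV l (by omega)).trans (div_le_div_of_nonneg_right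
        (mul_le_mul_of_nonneg_right (pow_le_pow_right₀ hE1 (by omega)) (by positivity))
        (by positivity)))
  refine h1.trans ?_
  have e1 : (2 : ℝ) ^ ((r + 2) * (q + (cC + 1) * (k + 1))) = E * E ^ (r + 1) := by
    rw [hE, ← pow_succ', ← pow_mul, mul_comm]
  rw [e1]
  have h2 : Cs (r + 1) ≤ E := (hCsC _ le_rfl).trans (by
    have h3 : (1 : ℝ) ≤ 2 ^ (k + q) := one_le_pow₀ (by norm_num)
    nlinarith)
  calc Cs (r + 1) * M * (E ^ (r + 1) * 2 ^ g j) ≤ E * M * (E ^ (r + 1) * 2 ^ g j) :=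
        mul_le_mul_of_nonneg_right (mul_le_mul_of_nonneg_right h2 hM) (by positivity)
    _ = _ := by ring

/-- The line of a sample in the relative time of a window. -/
theorem lc_opt (F : Fam m J) (w : ℕ) (ω : F.Ω) (τ : ℝ) (o : Option (Fin m)) :
    (lc w (slam F w ω) o).eval τ = opt F ω ((((slam F w ω).2.2 : ℝ) + τ) / 2 ^ w) o := by
  rw [← Pool.STB77.lnp_eval]
  cases o
  · show (Polynomial.C (((slam F w ω).2.2 : ℝ) / 2 ^ w) +
      Polynomial.C (1 / 2 ^ w) * Polynomial.X).eval τ = (Polynomial.C (((slam F w ω).2.2 : ℝ) /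
      2 ^ w) + Polynomial.C (1 / 2 ^ w) * Polynomial.X).eval τ
    rfl
  · rename_i k
    show (Polynomial.C ((slam F w ω).1.1 k) + Polynomial.C ((slam F w ω).1.2 k) *
      (Polynomial.C (((slam F w ω).2.2 : ℝ) / 2 ^ w) +
      Polynomial.C (1 / 2 ^ w) * Polynomial.X)).eval τ =
      (Polynomial.C ((slam F w ω).1.1 k + ((slam F w ω).2.2 : ℝ) / 2 ^ w *
      (slam F w ω).1.2 k) + Polynomial.C ((slam F w ω).1.2 k / 2 ^ w) * Polynomial.X).eval τ
    simp only [Polynomial.eval_add, Polynomial.eval_mul, Polynomial.eval_C, Polynomial.eval_X]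
    ring

/-- The times of the window. -/
theorem win_tm (F : Fam m J) {w : ℕ} (hw : w ≤ J) (ω : F.Ω) {τ : ℝ} (hτ : τ ∈ Set.Icc (0 : ℝ) 1) :
    |(((slam F w ω).2.2 : ℝ) + τ) / 2 ^ w - F.t ω| ≤ 1 / 2 ^ w := by
  have h1 := rt_mem F w ω
  have h2 : (0 : ℝ) < 2 ^ w := by positivity
  rw [t_rt F hw ω, ← sub_div, abs_div, abs_of_pos h2]
  refine div_le_div_of_nonneg_right ?_ h2.le
  have e1 : ((slam F w ω).2.2 : ℝ) + τ - (((slam F w ω).2.2 : ℝ) + rt F w ω) = τ - rt F w ω := by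
    ring
  rw [e1, abs_le]
  constructor <;> linarith [hτ.1, hτ.2, h1.1, h1.2]

/-- **The own path in the whole window.** -/
theorem dv_win {F : Fam m J} {c : ℕ → Fin m} {w : ℕ} (hw : w ≤ J)
    {H : LnT F → ℕ → MvPolynomial (Option (Fin m)) ℝ} {ω : F.Ω} {l : ℕ} {M : ℝ}
    (h : ∀ t, |t - F.t ω| ≤ 1 / 2 ^ w →
      |opt F ω t (some (c l)) - eval (opt F ω t) (H (slam F w ω) l)| ≤ M) {τ : ℝ}
    (hτ : τ ∈ Set.Icc (0 : ℝ) 1) :
    |(dv w (fun s _ => H s l) (c l) (slam F w ω)).eval τ| ≤ M := by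
  have h1 := h _ (win_tm F hw ω hτ)
  unfold dv
  rw [Polynomial.eval_sub, Pool.KBX.eval_aeval_poly, lc_opt]
  have e1 : (fun o => (lc w (slam F w ω) o).eval τ) =
      opt F ω ((((slam F w ω).2.2 : ℝ) + τ) / 2 ^ w) := funext fun o => lc_opt F w ω τ o
  rw [e1]
  exact h1

end Pool.NDD66
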