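import Pool.Agent.H66.NDD.Gva

/-!
# The geometry of the near-dead and near-alive steps

`NdGm`: the closed charts of the windows `W ≤ T ≤ X`, the row label of the pair `(X, W)`, and their
comparisons, on one event. `grt_ev`, `grx_ev`: the gradients of the row label against the closed charts
by chains of nodes.
-/

set_option autoImplicit false

namespace Pool.NDD66

open Finset Real MvPolynomial
open Pool.Agent.H49.Ent Pool.Agent.H32.Dense Pool.STK Pool.KA Pool.KSAT Pool.K2S Pool.PB Pool.S6C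
open Pool.GEN Pool.CHT Pool.CHX Pool.D2R Pool.PKG
open Pool.PB.Trl (rt rt_mem t_rt)
open Pool.STB77 (opt Nls)

variable {m J : ℕ}

/-- **The geometry of the near-dead and near-alive steps** on an event `A`, places `0, 1, 2` and the
target `3`: closed charts `Gw = H`, `Gt = Ht`, `Gx = Hx` of the windows `W`, `T`, `X` (degree `Dc`,
levels `gw`, `gt`, `gx`), the row label `Hr` of the pair `(X, W)` (degree `D`, level `gr` of the
target). -/
structure NdGm (F : Fam m J) (c : ℕ → Fin m) (Dc D E W T X k : ℕ) (gw gt gx : ℕ → ℕ) (gr : ℕ)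
    (Th ThX : ℝ) (γ : ℕ → ℝ) (A : F.Ω → Prop)
    (Gw Gt Gx : PtT F → ℕ → MvPolynomial (Option (Fin m)) ℝ)
    (H Ht Hx Hr : LnT F → ℕ → MvPolynomial (Option (Fin m)) ℝ) : Prop where
  okw : ChOK F c 4 (fun _ => Dc) W W E gw A Gw H
  okt : ChOK F c 4 (fun _ => Dc) T T E gt A Gt Ht
  okx : ChOK F c 4 (fun _ => Dc) X X E gx A Gx Hx
  clw : ∀ ω, A ω → ∀ l ≤ 3, Gw (ptr F J ω) l = H (slam F W ω) l
  clt : ∀ ω, A ω → ∀ l ≤ 3, Gt (ptr F J ω) l = Ht (slam F T ω) l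
  clx : ∀ ω, A ω → ∀ l ≤ 3, Gx (ptr F J ω) l = Hx (slam F X ω) l
  rdg : ∀ s l, (Hr s l).totalDegree ≤ D
  rdp : ∀ s l, DepC c l (Hr s l)
  /-- the closed labels of `W` on the boxes of `T` and of `X`, those of `T` on the boxes of `X`. -/
  cwt : ∀ ω, A ω → ∀ l ≤ 3, ∀ b, NBx c (Gt (ptr F J ω)) gt T (F.t ω) l b →
    |eval b (Gt (ptr F J ω) l) - eval b (H (slam F W ω) l)| ≤ 2 ^ k / 2 ^ gw l
  cwx : ∀ ω, A ω → ∀ l ≤ 3, ∀ b, NBx c (Gx (ptr F J ω)) gx X (F.t ω) l b →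
    |eval b (Gx (ptr F J ω) l) - eval b (H (slam F W ω) l)| ≤ 2 ^ k / 2 ^ gw l
  ctx : ∀ ω, A ω → ∀ l ≤ 3, ∀ b, NBx c (Gx (ptr F J ω)) gx X (F.t ω) l b →
    |eval b (Gx (ptr F J ω) l) - eval b (Gt (ptr F J ω) l)| ≤ 2 ^ k / 2 ^ gt l
  /-- the row label on the boxes of `X`. -/
  crx : ∀ ω, A ω → ∀ b, NBx c (Gx (ptr F J ω)) gx X (F.t ω) 3 b →
    |eval b (Gx (ptr F J ω) 3) - eval b (Hr (slam F W ω) 3)| ≤ 2 ^ k / 2 ^ gr
  /-- the own paths over the closed labels, and over the row label, in the whole windows. -/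
  pw : ∀ ω, A ω → ∀ l ≤ 3, ∀ τ ∈ Set.Icc (0 : ℝ) 1,
    |(dv W (fun s _ => H s l) (c l) (slam F W ω)).eval τ| ≤ 2 ^ k / 2 ^ gw l
  pt : ∀ ω, A ω → ∀ l ≤ 3, ∀ τ ∈ Set.Icc (0 : ℝ) 1,
    |(dv T (fun s _ => Ht s l) (c l) (slam F T ω)).eval τ| ≤ 2 ^ k / 2 ^ gt l
  px : ∀ ω, A ω → ∀ l ≤ 3, ∀ τ ∈ Set.Icc (0 : ℝ) 1,
    |(dv X (fun s _ => Hx s l) (c l) (slam F X ω)).eval τ| ≤ 2 ^ k / 2 ^ gx l
  pr : ∀ ω, A ω → ∀ τ ∈ Set.Icc (0 : ℝ) 1,
    |(dv W (fun s _ => Hr s 3) (c 3) (slam F W ω)).eval τ| ≤ 2 ^ k / 2 ^ gr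
  /-- the gradient of the row label over the closed chart of `T`, along the line in the window `T`. -/
  grt : ∀ ω, A ω → ∀ τ ∈ Set.Icc (0 : ℝ) 1,
    |eval (fun o => (lc T (slam F T ω) o).eval τ) (pderiv (some (c 2))
      (Hr (slam F W ω) 3 - Gt (ptr F J ω) 3))| ≤ Th * 2 ^ gt 2 / 2 ^ gt 3
  grt0 : ∀ ω, A ω → |eval (bt F ω) (pderiv (some (c 2))
      (Hr (slam F W ω) 3 - Gt (ptr F J ω) 3))| ≤ Th * 2 ^ gt 2 / 2 ^ gt 3
  /-- the gradient of the closed chart of `X` over the row label. -/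
  grx : ∀ ω, A ω → |eval (bt F ω) (pderiv (some (c 2))
      (Gx (ptr F J ω) 3 - Hr (slam F W ω) 3))| ≤ ThX * 2 ^ gt 2 / 2 ^ gt 3
  /-- the natural gradients of the row label in the frame of the window `W`. -/
  grw : ∀ ω, A ω → ∀ l ≤ 2, |ncp c 3 (H (slam F W ω)) (Hr (slam F W ω) 3 - H (slam F W ω) 3)
    (bt F ω) l| ≤ γ l

/-- One step of the chain: the gradient in the direction `c 2` of a small polynomial. -/
theorem grd_node (D : ℕ) : ∃ C : ℕ, ∀ {m J : ℕ} {F : Fam m J} {c : ℕ → Fin m} {r Dr M s : ℕ}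
    {R : ℕ → ℕ → Prop} {a w : ℕ → ℕ} {e E : ℕ} {g : ℕ → ℕ → ℕ} {h : ℕ} {κ : ℝ} {B : F.Ω → Prop}
    {G : ℕ → PtT F → ℕ → MvPolynomial (Option (Fin m)) ℝ}
    {H : ℕ → LnT F → ℕ → MvPolynomial (Option (Fin m)) ℝ},
    Nls F c 3 D Dr M s R a w e E g h κ B G H → Set.InjOn c (Set.Iio 3) → ∀ k < M, ∀ ω, B ω →
    ∀ (Q : MvPolynomial (Option (Fin m)) ℝ) (x : ℝ), Q.totalDegree ≤ D → DepC c 3 Q → 0 ≤ x →
    (∀ b, NBx c (G k (ptr F J ω)) (g k) (a k) (F.t ω) 3 b → |eval b Q| ≤ x) →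
    |eval (bt F ω) (pderiv (some (c 2)) Q)| ≤ 2 ^ C * 2 ^ g k 2 * x := by
  obtain ⟨C, hC, hl⟩ := grd_last 2 D D
  obtain ⟨C', hC'⟩ := pow_unbounded_of_one_lt C (one_lt_two (α := ℝ))
  refine ⟨C', ?_⟩
  intro m J F c r Dr M s R a w e E g h κ B G H N hc k hk ω hω Q x hQ hQd hx hbox
  have hn := (N.nod k hk).lst
  have h1 := hl (M := x) (g := g k) (a := a k) (x := bt F ω) hc (fun l => hn.degG _ l)
    (fun l => hn.depG _ l) hQd hQ hx hbox (fun l hl => hn.pos ω hω l (by omega))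
  refine h1.trans ?_
  calc C * x * 2 ^ g k 2 ≤ 2 ^ C' * x * 2 ^ g k 2 :=
        mul_le_mul_of_nonneg_right (mul_le_mul_of_nonneg_right hC'.le hx) (by positivity)
    _ = _ := by ring

/-- **The gradient of a row label over a closed chart**, by a chain of nodes. -/
theorem grt_ev (D : ℕ) : ∃ C : ℕ, ∀ {m J : ℕ} {F : Fam m J} {c : ℕ → Fin m} {Dr M s : ℕ}
    {R : ℕ → ℕ → Prop} {a w : ℕ → ℕ} {e E : ℕ} {g : ℕ → ℕ → ℕ} {h : ℕ} {κ : ℝ} {B : F.Ω → Prop}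
    {G : ℕ → PtT F → ℕ → MvPolynomial (Option (Fin m)) ℝ}
    {H : ℕ → LnT F → ℕ → MvPolynomial (Option (Fin m)) ℝ},
    Nls F c 3 D Dr M s R a w e E g h κ B G H → Set.InjOn c (Set.Iio 3) →
    ∀ (n ip : ℕ) (nd : ℕ → ℕ), ip < M → (∀ i ≤ n, nd i < M) → (∀ i < n, R (nd i) (nd (i + 1))) →
    R ip (nd n) → ∀ ω, B ω →
    |eval (bt F ω) (pderiv (some (c 2)) (H ip (slam F (w ip) ω) 3 - G (nd 0) (ptr F J ω) 3))| ≤
      2 ^ C * 2 ^ s * (2 ^ g (nd n) 2 / 2 ^ g ip 3 +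
        ∑ i ∈ range n, 2 ^ g (nd (i + 1)) 2 / 2 ^ g (nd i) 3) := by
  obtain ⟨C, hC⟩ := grd_node D
  refine ⟨C, ?_⟩
  intro m J F c Dr M s R a w e E g h κ B G H N hc n ip nd hip hnd hR hRn ω hω
  have hdG : ∀ i ≤ n, (G (nd i) (ptr F J ω) 3).totalDegree ≤ D := fun i hi =>
    (N.nod _ (hnd i hi)).lst.degG _ 3
  have hpG : ∀ i ≤ n, DepC c 3 (G (nd i) (ptr F J ω) 3) := fun i hi =>
    (N.nod _ (hnd i hi)).lst.depG _ 3
  have hdep : ∀ {P Q : MvPolynomial (Option (Fin m)) ℝ}, DepC c 3 P → DepC c 3 Q →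
      DepC c 3 (P - Q) := fun hP hQ b b' h1 h2 => by
    rw [map_sub, map_sub, hP b b' h1 h2, hQ b b' h1 h2]
  -- the first step
  have h1 := hC (r := 3) N hc (nd n) (hnd n le_rfl) ω hω
    (H ip (slam F (w ip) ω) 3 - G (nd n) (ptr F J ω) 3) (2 ^ s / 2 ^ g ip 3)
    ((totalDegree_sub _ _).trans (max_le ((N.nod ip hip).lst.degH _ 3) (hdG n le_rfl)))
    (hdep ((N.nod ip hip).lst.depH _ 3) (hpG n le_rfl)) (by positivity) (fun b hb => by
      rw [map_sub]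
      exact N.two ip hip (nd n) (hnd n le_rfl) hRn ω hω 3 le_rfl b hb)
  -- the chain
  have h2 : ∀ j ≤ n, |eval (bt F ω) (pderiv (some (c 2)) (G (nd j) (ptr F J ω) 3 -
      G (nd 0) (ptr F J ω) 3))| ≤ 2 ^ C * 2 ^ s *
        ∑ i ∈ range j, 2 ^ g (nd (i + 1)) 2 / 2 ^ g (nd i) 3 := by
    intro j
    induction j with
    | zero =>
      intro _
      rw [sub_self, map_zero, map_zero, abs_zero, Finset.sum_range_zero, mul_zero]
    | succ j ih =>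
      intro hj
      have h3 := ih (by omega)
      have h4 := hC (r := 3) N hc (nd (j + 1)) (hnd _ hj) ω hω
        (G (nd (j + 1)) (ptr F J ω) 3 - G (nd j) (ptr F J ω) 3) (2 ^ s / 2 ^ g (nd j) 3)
        ((totalDegree_sub _ _).trans (max_le (hdG _ hj) (hdG _ (by omega))))
        (hdep (hpG _ hj) (hpG _ (by omega))) (by positivity) (fun b hb => by
          rw [map_sub]
          exact N.uni (nd j) (hnd _ (by omega)) (nd (j + 1)) (hnd _ hj) (hR j (by omega)) ω hω 3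
            le_rfl b hb)
      have e1 : eval (bt F ω) (pderiv (some (c 2)) (G (nd (j + 1)) (ptr F J ω) 3 -
          G (nd 0) (ptr F J ω) 3)) =
          eval (bt F ω) (pderiv (some (c 2)) (G (nd (j + 1)) (ptr F J ω) 3 -
            G (nd j) (ptr F J ω) 3)) +
          eval (bt F ω) (pderiv (some (c 2)) (G (nd j) (ptr F J ω) 3 -
            G (nd 0) (ptr F J ω) 3)) := by
        rw [← map_add, ← map_add]
        congr 2
        ring
      rw [e1, Finset.sum_range_succ, mul_add]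
      refine (abs_add_le _ _).trans ?_
      have e2 : (2 : ℝ) ^ C * 2 ^ g (nd (j + 1)) 2 * (2 ^ s / 2 ^ g (nd j) 3) =
          2 ^ C * 2 ^ s * (2 ^ g (nd (j + 1)) 2 / 2 ^ g (nd j) 3) := by ring
      rw [e2] at h4
      linarith
  have h3 := h2 n le_rfl
  have e1 : eval (bt F ω) (pderiv (some (c 2)) (H ip (slam F (w ip) ω) 3 -
      G (nd 0) (ptr F J ω) 3)) =
      eval (bt F ω) (pderiv (some (c 2)) (H ip (slam F (w ip) ω) 3 - G (nd n) (ptr F J ω) 3)) +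
      eval (bt F ω) (pderiv (some (c 2)) (G (nd n) (ptr F J ω) 3 -
        G (nd 0) (ptr F J ω) 3)) := by
    rw [← map_add, ← map_add]
    congr 2
    ring
  rw [e1, mul_add]
  refine (abs_add_le _ _).trans ?_
  have e2 : (2 : ℝ) ^ C * 2 ^ g (nd n) 2 * (2 ^ s / 2 ^ g ip 3) =
      2 ^ C * 2 ^ s * (2 ^ g (nd n) 2 / 2 ^ g ip 3) := by ring
  rw [e2] at h1
  linarith

/-- **The gradient of a closed chart over a row label**, by a chain of nodes. -/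
theorem grx_ev (D : ℕ) : ∃ C : ℕ, ∀ {m J : ℕ} {F : Fam m J} {c : ℕ → Fin m} {Dr M s : ℕ}
    {R : ℕ → ℕ → Prop} {a w : ℕ → ℕ} {e E : ℕ} {g : ℕ → ℕ → ℕ} {h : ℕ} {κ : ℝ} {B : F.Ω → Prop}
    {G : ℕ → PtT F → ℕ → MvPolynomial (Option (Fin m)) ℝ}
    {H : ℕ → LnT F → ℕ → MvPolynomial (Option (Fin m)) ℝ},
    Nls F c 3 D Dr M s R a w e E g h κ B G H → Set.InjOn c (Set.Iio 3) →
    ∀ (n : ℕ) (nx : ℕ → ℕ), (∀ i ≤ n, nx i < M) → (∀ i < n, R (nx i) (nx (i + 1))) →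
    ∀ ω, B ω →
    |eval (bt F ω) (pderiv (some (c 2)) (H (nx n) (slam F (w (nx n)) ω) 3 -
      H (nx 0) (slam F (w (nx 0)) ω) 3))| ≤ 2 ^ C * 2 ^ s *
        ∑ i ∈ range n, (2 ^ g (nx (i + 1)) 2 / 2 ^ g (nx i) 3 +
          2 ^ g (nx (i + 1)) 2 / 2 ^ g (nx (i + 1)) 3) := by
  obtain ⟨C, hC⟩ := grd_node D
  refine ⟨C, ?_⟩
  intro m J F c Dr M s R a w e E g h κ B G H N hc n nx hnx hR ω hω
  have hdH : ∀ i ≤ n, (H (nx i) (slam F (w (nx i)) ω) 3).totalDegree ≤ D := fun i hi =>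
    (N.nod _ (hnx i hi)).lst.degH _ 3
  have hpH : ∀ i ≤ n, DepC c 3 (H (nx i) (slam F (w (nx i)) ω) 3) := fun i hi =>
    (N.nod _ (hnx i hi)).lst.depH _ 3
  have hdep : ∀ {P Q : MvPolynomial (Option (Fin m)) ℝ}, DepC c 3 P → DepC c 3 Q →
      DepC c 3 (P - Q) := fun hP hQ b b' h1 h2 => by
    rw [map_sub, map_sub, hP b b' h1 h2, hQ b b' h1 h2]
  have h2s : (1 : ℝ) ≤ 2 ^ s := one_le_pow₀ (by norm_num)
  have h2 : ∀ j ≤ n, |eval (bt F ω) (pderiv (some (c 2)) (H (nx j) (slam F (w (nx j)) ω) 3 -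
      H (nx 0) (slam F (w (nx 0)) ω) 3))| ≤ 2 ^ C * 2 ^ s *
        ∑ i ∈ range j, (2 ^ g (nx (i + 1)) 2 / 2 ^ g (nx i) 3 +
          2 ^ g (nx (i + 1)) 2 / 2 ^ g (nx (i + 1)) 3) := by
    intro j
    induction j with
    | zero =>
      intro _
      rw [sub_self, map_zero, map_zero, abs_zero, Finset.sum_range_zero, mul_zero]
    | succ j ih =>
      intro hj
      have h3 := ih (by omega)
      have h4 := hC (r := 3) N hc (nx (j + 1)) (hnx _ hj) ω hω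
        (H (nx (j + 1)) (slam F (w (nx (j + 1))) ω) 3 - H (nx j) (slam F (w (nx j)) ω) 3)
        (2 ^ s / 2 ^ g (nx j) 3 + 1 / 2 ^ g (nx (j + 1)) 3)
        ((totalDegree_sub _ _).trans (max_le (hdH _ hj) (hdH _ (by omega))))
        (hdep (hpH _ hj) (hpH _ (by omega))) (by positivity) (fun b hb => by
          rw [map_sub]
          have k1 := N.two (nx j) (hnx _ (by omega)) (nx (j + 1)) (hnx _ hj) (hR j (by omega)) ω
            hω 3 le_rfl b hb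
          have k2 := (N.nod _ (hnx _ hj)).top.agr ω hω 3 (by omega) b hb
          have e1 : eval b (H (nx (j + 1)) (slam F (w (nx (j + 1))) ω) 3) -
              eval b (H (nx j) (slam F (w (nx j)) ω) 3) =
              -(eval b (H (nx j) (slam F (w (nx j)) ω) 3) -
                eval b (G (nx (j + 1)) (ptr F J ω) 3)) -
              (eval b (G (nx (j + 1)) (ptr F J ω) 3) -
                eval b (H (nx (j + 1)) (slam F (w (nx (j + 1))) ω) 3)) := by ring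
          rw [e1]
          refine (abs_sub _ _).trans ?_
          rw [abs_neg]
          exact add_le_add k1 k2)
      have e1 : eval (bt F ω) (pderiv (some (c 2)) (H (nx (j + 1)) (slam F (w (nx (j + 1))) ω) 3 -
          H (nx 0) (slam F (w (nx 0)) ω) 3)) =
          eval (bt F ω) (pderiv (some (c 2)) (H (nx (j + 1)) (slam F (w (nx (j + 1))) ω) 3 -
            H (nx j) (slam F (w (nx j)) ω) 3)) +
          eval (bt F ω) (pderiv (some (c 2)) (H (nx j) (slam F (w (nx j)) ω) 3 -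
            H (nx 0) (slam F (w (nx 0)) ω) 3)) := by
        rw [← map_add, ← map_add]
        congr 2
        ring
      rw [e1, Finset.sum_range_succ, mul_add]
      refine (abs_add_le _ _).trans ?_
      have e2 : (2 : ℝ) ^ C * 2 ^ g (nx (j + 1)) 2 *
          (2 ^ s / 2 ^ g (nx j) 3 + 1 / 2 ^ g (nx (j + 1)) 3) ≤
          2 ^ C * 2 ^ s * (2 ^ g (nx (j + 1)) 2 / 2 ^ g (nx j) 3 +
          2 ^ g (nx (j + 1)) 2 / 2 ^ g (nx (j + 1)) 3) := by
        have k1 : (1 : ℝ) / 2 ^ g (nx (j + 1)) 3 ≤ 2 ^ s / 2 ^ g (nx (j + 1)) 3 :=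
          div_le_div_of_nonneg_right h2s (by positivity)
        calc (2 : ℝ) ^ C * 2 ^ g (nx (j + 1)) 2 *
              (2 ^ s / 2 ^ g (nx j) 3 + 1 / 2 ^ g (nx (j + 1)) 3) ≤
              2 ^ C * 2 ^ g (nx (j + 1)) 2 *
              (2 ^ s / 2 ^ g (nx j) 3 + 2 ^ s / 2 ^ g (nx (j + 1)) 3) :=
              mul_le_mul_of_nonneg_left (by linarith) (by positivity)
          _ = _ := by ring
      linarith
  exact h2 n le_rfl

/-- Quotients of powers with real exponents. -/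
theorem pow_quo {p q : ℕ} {x : ℝ} (h : (p : ℝ) ≤ q + x) : (2 : ℝ) ^ p / 2 ^ q ≤ 2 ^ x := by
  rw [div_le_iff₀ (by positivity), ← Real.rpow_natCast, ← Real.rpow_natCast,
    ← Real.rpow_add (by norm_num)]
  exact Real.rpow_le_rpow_of_exponent_le (by norm_num) (by linarith)

end Pool.NDD66
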