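import Pool.Agent.H66.NDD.Gvb

/-!
# `NdGm` on an event

`gm_t1`, `gm_t2`, `gm_t3`: the gradients by the chains of nodes. `gm_of`: `NdGm` from the comparisons
of the nodes.
-/

set_option autoImplicit false

namespace Pool.NDD66

open Finset Real MvPolynomial
open Pool.Agent.H49.Ent Pool.Agent.H32.Dense Pool.STK Pool.KA Pool.KSAT Pool.K2S Pool.PB Pool.S6C
open Pool.GEN Pool.CHT Pool.CHX Pool.D2R Pool.PKG
open Pool.FLF (Fam.sub)
open Pool.PB.Trl (rt rt_mem t_rt)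
open Pool.STB77 (opt Nls bas_lrg relf_h)

variable {m J : ℕ}

/-- **The gradient of the row label over the chart of `T`**. -/
theorem gm_t1 (D : ℕ) : ∃ C : ℕ, ∀ {m J : ℕ} {F : Fam m J} {c : ℕ → Fin m} {Dr M s : ℕ}
    {R : ℕ → ℕ → Prop} {a w : ℕ → ℕ} {e E : ℕ} {g : ℕ → ℕ → ℕ} {h : ℕ} {κ : ℝ} {B : F.Ω → Prop}
    {G : ℕ → PtT F → ℕ → MvPolynomial (Option (Fin m)) ℝ}
    {H : ℕ → LnT F → ℕ → MvPolynomial (Option (Fin m)) ℝ},
    Nls F c 3 D Dr M s R a w e E g h κ B G H → Set.InjOn c (Set.Iio 3) →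
    ∀ {n ip it : ℕ} {nd : ℕ → ℕ} {Y : ℝ}, ip < M → (∀ i ≤ n, nd i < M) → nd 0 = it →
    (∀ i < n, R (nd i) (nd (i + 1))) → R ip (nd n) → 0 ≤ Y →
    (2 : ℝ) ^ g (nd n) 2 / 2 ^ g ip 3 ≤ Y →
    (∀ i < n, (2 : ℝ) ^ g (nd (i + 1)) 2 / 2 ^ g (nd i) 3 ≤ Y) → ∀ ω, B ω →
    |eval (bt F ω) (pderiv (some (c 2)) (H ip (slam F (w ip) ω) 3 - G it (ptr F J ω) 3))| ≤
      2 ^ (C + n + 1 + s) * Y := by
  obtain ⟨C, hgt⟩ := grt_ev D
  refine ⟨C, ?_⟩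
  intro m J F c Dr M s R a w e E g h κ B G H N hc n ip it nd Y hip hnd hnd0 hR hRn hY h1 h2 ω hω
  have h3 := hgt N hc n ip nd hip hnd hR hRn ω hω
  rw [hnd0] at h3
  refine h3.trans ?_
  have h4 : ∑ i ∈ range n, (2 : ℝ) ^ g (nd (i + 1)) 2 / 2 ^ g (nd i) 3 ≤ n * Y := by
    refine (Finset.sum_le_sum fun i hi => h2 i (Finset.mem_range.1 hi)).trans (le_of_eq ?_)
    rw [Finset.sum_const, Finset.card_range, nsmul_eq_mul]
  have h5 : ((n : ℝ) + 1) ≤ 2 ^ (n + 1) := by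
    exact_mod_cast (Nat.lt_two_pow_self (n := n + 1)).le
  calc (2 : ℝ) ^ C * 2 ^ s * (2 ^ g (nd n) 2 / 2 ^ g ip 3 +
        ∑ i ∈ range n, 2 ^ g (nd (i + 1)) 2 / 2 ^ g (nd i) 3) ≤ 2 ^ C * 2 ^ s * (Y + n * Y) :=
        mul_le_mul_of_nonneg_left (add_le_add h1 h4) (by positivity)
    _ = 2 ^ C * 2 ^ s * (((n : ℝ) + 1) * Y) := by ring
    _ ≤ 2 ^ C * 2 ^ s * (2 ^ (n + 1) * Y) :=
        mul_le_mul_of_nonneg_left (mul_le_mul_of_nonneg_right h5 hY) (by positivity)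
    _ = _ := by ring

/-- **The gradient of the chart of `X` over the row label**. -/
theorem gm_t2 (D : ℕ) : ∃ C : ℕ, ∀ {m J : ℕ} {F : Fam m J} {c : ℕ → Fin m} {Dr M s : ℕ}
    {R : ℕ → ℕ → Prop} {a w : ℕ → ℕ} {e E : ℕ} {g : ℕ → ℕ → ℕ} {h : ℕ} {κ : ℝ} {B : F.Ω → Prop}
    {G : ℕ → PtT F → ℕ → MvPolynomial (Option (Fin m)) ℝ}
    {H : ℕ → LnT F → ℕ → MvPolynomial (Option (Fin m)) ℝ},
    Nls F c 3 D Dr M s R a w e E g h κ B G H → Set.InjOn c (Set.Iio 3) →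
    ∀ {n ip ix : ℕ} {nx : ℕ → ℕ} {Y : ℝ}, (∀ i ≤ n, nx i < M) → nx 0 = ip → nx n = ix →
    (∀ i < n, R (nx i) (nx (i + 1))) → 0 ≤ Y →
    (∀ i < n, (2 : ℝ) ^ g (nx (i + 1)) 2 / 2 ^ g (nx i) 3 ≤ Y) →
    (∀ i < n, (2 : ℝ) ^ g (nx (i + 1)) 2 / 2 ^ g (nx (i + 1)) 3 ≤ Y) → ∀ ω, B ω →
    G ix (ptr F J ω) 3 = H ix (slam F (w ix) ω) 3 →
    |eval (bt F ω) (pderiv (some (c 2)) (G ix (ptr F J ω) 3 - H ip (slam F (w ip) ω) 3))| ≤
      2 ^ (C + n + 1 + s) * Y := by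
  obtain ⟨C, hgx⟩ := grx_ev D
  refine ⟨C, ?_⟩
  intro m J F c Dr M s R a w e E g h κ B G H N hc n ip ix nx Y hnx hnx0 hnxn hR hY h1 h2 ω hω hcl
  have h3 := hgx N hc n nx hnx hR ω hω
  rw [hnx0, hnxn, ← hcl] at h3
  refine h3.trans ?_
  have h4 : ∑ i ∈ range n, ((2 : ℝ) ^ g (nx (i + 1)) 2 / 2 ^ g (nx i) 3 +
      2 ^ g (nx (i + 1)) 2 / 2 ^ g (nx (i + 1)) 3) ≤ n * (2 * Y) := by
    refine (Finset.sum_le_sum fun i hi => (add_le_add (h1 i (Finset.mem_range.1 hi))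
      (h2 i (Finset.mem_range.1 hi)))).trans (le_of_eq ?_)
    rw [Finset.sum_const, Finset.card_range, nsmul_eq_mul]
    ring
  have h5 : (n : ℝ) ≤ 2 ^ n := by
    exact_mod_cast (Nat.lt_two_pow_self (n := n)).le
  calc (2 : ℝ) ^ C * 2 ^ s * ∑ i ∈ range n, (2 ^ g (nx (i + 1)) 2 / 2 ^ g (nx i) 3 +
        2 ^ g (nx (i + 1)) 2 / 2 ^ g (nx (i + 1)) 3) ≤ 2 ^ C * 2 ^ s * (n * (2 * Y)) :=
        mul_le_mul_of_nonneg_left h4 (by positivity)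
    _ ≤ 2 ^ C * 2 ^ s * (2 ^ n * (2 * Y)) :=
        mul_le_mul_of_nonneg_left (mul_le_mul_of_nonneg_right h5 (by positivity)) (by positivity)
    _ = _ := by ring

/-- **The natural gradients of the row label in the frame of `W`**. -/
theorem gm_t3 (D : ℕ) : ∃ C : ℕ, 1 ≤ C ∧ ∀ {m J : ℕ} {F : Fam m J} {c : ℕ → Fin m} {Dr M s : ℕ}
    {R : ℕ → ℕ → Prop} {a w : ℕ → ℕ} {e E : ℕ} {g : ℕ → ℕ → ℕ} {h : ℕ} {κ : ℝ} {B : F.Ω → Prop}
    {G : ℕ → PtT F → ℕ → MvPolynomial (Option (Fin m)) ℝ}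
    {H : ℕ → LnT F → ℕ → MvPolynomial (Option (Fin m)) ℝ},
    Nls F c 3 D Dr M s R a w e E g h κ B G H → Set.InjOn c (Set.Iio 3) →
    ∀ {ip iw Q : ℕ}, ip < M → iw < M → R iw ip → w ip = w iw → (∀ l ≤ 2, g ip l ≤ g iw l + Q) →
    g iw 3 ≤ g ip 3 → ∀ ω, B ω → ∀ l ≤ 2,
    |ncp c 3 (H iw (slam F (w iw) ω)) (H ip (slam F (w iw) ω) 3 -
      H iw (slam F (w iw) ω) 3) (bt F ω) l| ≤
      2 ^ (5 * Q + C * (s + 1)) * 2 ^ g iw l / 2 ^ g iw 3 := by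
  obtain ⟨C, hC, hncp⟩ := ncp_bd 2 D D
  refine ⟨4 * C + 1, by omega, ?_⟩
  intro m J F c Dr M s R a w e E g h κ B G H N hc ip iw Q hip hiw hR hww hQ h3 ω hω l hl
  have ni := N.nod ip hip
  have nw := N.nod iw hiw
  have hd : DepC c 3 (H ip (slam F (w iw) ω) 3 - H iw (slam F (w iw) ω) 3) :=
    fun b b' h1 h2 => by
      rw [map_sub, map_sub, ni.lst.depH _ 3 b b' h1 h2, nw.lst.depH _ 3 b b' h1 h2]
  have h1 := hncp (m := m) (c := c) (χ := G ip (ptr F J ω)) (ψ := H iw (slam F (w iw) ω))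
    (Q := H ip (slam F (w iw) ω) 3 - H iw (slam F (w iw) ω) 3) (g := g ip) (gw := g iw)
    (a := a ip) (k := s) (q := Q) (M := 2 ^ (s + 1) / 2 ^ g iw 3) (x := bt F ω) hc
    (fun l => ni.lst.degG _ l) (fun l => ni.lst.depG _ l) (fun l => nw.lst.degH _ l)
    (fun l => nw.lst.depH _ l) hd
    ((totalDegree_sub _ _).trans (max_le (ni.lst.degH _ 3) (nw.lst.degH _ 3))) (by positivity)
    (fun b hb => by
      rw [map_sub]
      have k1 := ni.top.agr ω hω 3 (by omega) b hb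
      rw [hww] at k1
      have k2 := N.two iw hiw ip hip hR ω hω 3 le_rfl b hb
      have e1 : eval b (H ip (slam F (w iw) ω) 3) - eval b (H iw (slam F (w iw) ω) 3) =
          -(eval b (G ip (ptr F J ω) 3) - eval b (H ip (slam F (w iw) ω) 3)) -
          (eval b (H iw (slam F (w iw) ω) 3) - eval b (G ip (ptr F J ω) 3)) := by ring
      rw [e1]
      refine (abs_sub _ _).trans ?_
      rw [abs_neg]
      have k4 : (1 : ℝ) / 2 ^ g ip 3 ≤ 2 ^ s / 2 ^ g iw 3 :=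
        (div_le_div_of_nonneg_left zero_le_one (by positivity)
          (pow_le_pow_right₀ (by norm_num) h3)).trans
          (div_le_div_of_nonneg_right (one_le_pow₀ (by norm_num)) (by positivity))
      rw [pow_succ, mul_two, add_div]
      exact add_le_add (k1.trans k4) k2) (fun l hl => ni.lst.pos ω hω l (by omega)) hQ
    (fun l hl => ⟨0, fun b hb => by
      rw [sub_zero]
      have k2 := N.two iw hiw ip hip hR ω hω l (by omega) b hb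
      rw [abs_sub_comm]
      exact k2⟩) l hl
  refine h1.trans ?_
  calc (2 : ℝ) ^ ((2 + 2) * (Q + C * (s + 1))) * (2 ^ (s + 1) / 2 ^ g iw 3) * 2 ^ g ip l ≤
        2 ^ ((2 + 2) * (Q + C * (s + 1))) * (2 ^ (s + 1) / 2 ^ g iw 3) * 2 ^ (g iw l + Q) :=
        mul_le_mul_of_nonneg_left (pow_le_pow_right₀ (by norm_num) (hQ l hl)) (by positivity)
    _ = 2 ^ ((2 + 2) * (Q + C * (s + 1)) + (s + 1) + Q) * 2 ^ g iw l / 2 ^ g iw 3 := by
        rw [pow_add _ (g iw l), pow_add _ _ Q, pow_add _ _ (s + 1)]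
        ring
    _ ≤ _ := by
        refine div_le_div_of_nonneg_right (mul_le_mul_of_nonneg_right
          (pow_le_pow_right₀ (by norm_num) ?_) (by positivity)) (by positivity)
        have e1 : (2 + 2) * (Q + C * (s + 1)) + (s + 1) + Q =
            5 * Q + (4 * C + 1) * (s + 1) := by ring
        rw [e1]

/-- **`NdGm` from the comparisons of the nodes.** -/
theorem gm_of {F : Fam m J} {c : ℕ → Fin m} {D Dr M s : ℕ}
    {R : ℕ → ℕ → Prop} {a w : ℕ → ℕ} {e E : ℕ} {g : ℕ → ℕ → ℕ} {h : ℕ} {κ : ℝ}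
    {B₀ B : F.Ω → Prop} {G : ℕ → PtT F → ℕ → MvPolynomial (Option (Fin m)) ℝ}
    {H : ℕ → LnT F → ℕ → MvPolynomial (Option (Fin m)) ℝ}
    (N : Nls F c 3 D Dr M s R a w e E g h κ B₀ G H) (hB : Sub B B₀)
    {Dc E' W T X k gr iw it ix ip : ℕ} {Th ThX : ℝ} {γ : ℕ → ℝ} (hiw : iw < M) (hit : it < M)
    (hix : ix < M) (hip : ip < M) (hRwt : R iw it) (hRwx : R iw ix) (hRtx : R it ix)
    (hRpx : R ip ix) (hXJ : X ≤ J) (hTJ : T ≤ J) (hWJ : W ≤ J)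
    (haw : a iw = W) (hww : w iw = W) (hat : a it = T) (hwt : w it = T) (hax : a ix = X)
    (hwx : w ix = X) (hwp : w ip = W) (hs : s ≤ k) (hE : E ≤ E') (hgr : gr ≤ g ip 3)
    (hclw : ∀ ω, B₀ ω → ∀ l ≤ 3, G iw (ptr F J ω) l = H iw (slam F W ω) l)
    (hclt : ∀ ω, B₀ ω → ∀ l ≤ 3, G it (ptr F J ω) l = H it (slam F T ω) l)
    (hclx : ∀ ω, B₀ ω → ∀ l ≤ 3, G ix (ptr F J ω) l = H ix (slam F X ω) l)
    (hdeg : ∀ j, j = iw ∨ j = it ∨ j = ix → (∀ y l, (G j y l).totalDegree ≤ Dc) ∧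
      ∀ s l, (H j s l).totalDegree ≤ Dc)
    (hgrt : ∀ ω, B ω → ∀ τ ∈ Set.Icc (0 : ℝ) 1,
      |eval (fun o => (lc T (slam F T ω) o).eval τ) (pderiv (some (c 2))
        (H ip (slam F W ω) 3 - G it (ptr F J ω) 3))| ≤ Th * 2 ^ g it 2 / 2 ^ g it 3)
    (hgrx : ∀ ω, B ω → |eval (bt F ω) (pderiv (some (c 2))
        (G ix (ptr F J ω) 3 - H ip (slam F W ω) 3))| ≤ ThX * 2 ^ g it 2 / 2 ^ g it 3)
    (hgrw : ∀ ω, B ω → ∀ l ≤ 2, |ncp c 3 (H iw (slam F W ω)) (H ip (slam F W ω) 3 -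
      H iw (slam F W ω) 3) (bt F ω) l| ≤ γ l) :
    NdGm F c Dc D E' W T X k (g iw) (g it) (g ix) gr Th ThX γ B (G iw) (G it) (G ix) (H iw) (H it)
      (H ix) (H ip) := by
  have hsk : (2 : ℝ) ^ s ≤ 2 ^ k := pow_le_pow_right₀ (by norm_num) hs
  have hbs : ∀ {x : ℝ} {y : ℕ}, x ≤ 2 ^ s / 2 ^ y → x ≤ 2 ^ k / 2 ^ y :=
    fun h => h.trans (div_le_div_of_nonneg_right hsk (by positivity))
  have hok : ∀ (j Y : ℕ), j < M → j = iw ∨ j = it ∨ j = ix → a j = Y → w j = Y →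
      ChOK F c 4 (fun _ => Dc) Y Y E' (g j) B (G j) (H j) := by
    intro j Y hj hj3 h1 h2
    have h5 := ((N.nod j hj).top.sub hB).mono (le_refl (3 + 1)) (fun _ => le_refl D) le_rfl hE
    rw [h1, h2] at h5
    exact ⟨fun y l => (hdeg j hj3).1 y l, fun s l => (hdeg j hj3).2 s l, h5.depG, h5.depH, h5.pos,
      h5.agr, h5.lip⟩
  have hdv : ∀ (j Y l : ℕ), j < M → w j = Y → Y ≤ J → l ≤ 3 → ∀ ω, B ω →
      ∀ τ ∈ Set.Icc (0 : ℝ) 1,
      |(dv Y (fun s _ => H j s l) (c l) (slam F Y ω)).eval τ| ≤ 2 ^ k / 2 ^ g j l := by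
    intro j Y l hj h1 hY hl ω hω τ hτ
    refine dv_win hY (fun t' ht' => ?_) hτ
    have h2 := N.ow j hj ω (hB ω hω) l hl t' (by rw [h1]; exact ht')
    rw [h1] at h2
    exact hbs h2
  have hni := N.nod ip hip
  refine ⟨hok iw W hiw (Or.inl rfl) haw hww, hok it T hit (Or.inr (Or.inl rfl)) hat hwt,
    hok ix X hix (Or.inr (Or.inr rfl)) hax hwx, fun ω hω => hclw ω (hB ω hω),
    fun ω hω => hclt ω (hB ω hω), fun ω hω => hclx ω (hB ω hω), fun s l => hni.lst.degH s l,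
    fun s l => hni.lst.depH s l, ?_, ?_, ?_, ?_, fun ω hω l hl => hdv iw W l hiw hww hWJ hl ω hω,
    fun ω hω l hl => hdv it T l hit hwt hTJ hl ω hω,
    fun ω hω l hl => hdv ix X l hix hwx hXJ hl ω hω, ?_, hgrt, ?_, hgrx, hgrw⟩
  · intro ω hω l hl b hb
    rw [abs_sub_comm]
    have h1 := N.two iw hiw it hit hRwt ω (hB ω hω) l hl b (by rw [hat]; exact hb)
    rw [hww] at h1
    exact hbs h1
  · intro ω hω l hl b hb
    rw [abs_sub_comm]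
    have h1 := N.two iw hiw ix hix hRwx ω (hB ω hω) l hl b (by rw [hax]; exact hb)
    rw [hww] at h1
    exact hbs h1
  · intro ω hω l hl b hb
    exact hbs (N.uni it hit ix hix hRtx ω (hB ω hω) l hl b (by rw [hax]; exact hb))
  · intro ω hω b hb
    rw [abs_sub_comm]
    have h1 := N.two ip hip ix hix hRpx ω (hB ω hω) 3 le_rfl b (by rw [hax]; exact hb)
    rw [hwp] at h1
    exact (hbs h1).trans (div_le_div_of_nonneg_left (by positivity) (by positivity)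
      (pow_le_pow_right₀ (by norm_num) hgr))
  · intro ω hω τ hτ
    refine (hdv ip W 3 hip hwp hWJ le_rfl ω hω τ hτ).trans
      (div_le_div_of_nonneg_left (by positivity) (by positivity)
      (pow_le_pow_right₀ (by norm_num) hgr))
  · intro ω hω
    have h1 := hgrt ω hω (rt F T ω) (rt_mem F T ω)
    have e1 : (fun o => (lc T (slam F T ω) o).eval (rt F T ω)) = bt F ω :=
      funext fun o => eval_lc F hTJ ω o
    rw [e1] at h1
    exact h1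

end Pool.NDD66
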