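import Pool.Agent.H66.NDD.Gvc

/-!
# The geometry of the near-dead and near-alive steps at a record

`nd_gev`: `NdGm` for the windows `w ≤ t ≤ x` of a record, on one event, with the comparisons `Nls` of all
nodes.
-/

set_option autoImplicit false

namespace Pool.NDD66

open Finset Real MvPolynomial
open Pool.Agent.H49.Ent Pool.Agent.H32.Dense Pool.STK Pool.KA Pool.KSAT Pool.K2S Pool.PB Pool.S6C
open Pool.GEN Pool.CHT Pool.CHX Pool.D2R Pool.PKG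
open Pool.FLF (Fam.sub)
open Pool.PB.Trl (rt rt_mem t_rt)
open Pool.STB77 (opt Nls bas_lrg relf_h)

variable {m : ℕ}

/-- **The geometry of the near-dead and near-alive steps at a record.** Closed windows
`vw ≤ vt ≤ vx` (units `q`), the pairs `(at i, vt)`, `0 < i ≤ n`, from `at 0 = vt` to `at n = vx`, and
`(vx, wt i)`, `i < n'`, from `wt 0 = vw` to `wt n' = vx`, steps at most `δ`. -/
theorem nd_gev (m S₀ : ℕ) (hm : 4 ≤ m) (hS₀ : 1 ≤ S₀) :
    ∃ D₁ : ℕ, 1 ≤ D₁ ∧ ∀ (S₂ : ℕ), 1 ≤ S₂ → ∃ D₂ : ℕ, 1 ≤ D₂ ∧ ∀ Dc D Dr : ℕ, D₁ ≤ Dc → D₂ ≤ D →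
    Dc ≤ D → D ≤ Dr →
    ∀ {S : PCl m} {al : ℝ} {g₀ : ℝ → ℝ} {P : List (Fin m) × Fin m → ℝ → ℝ → ℝ}
    {θ : ℝ} {P₂ : ℕ → List (Fin m) × Fin m → ℝ → ℝ → ℝ} {θ₂ Eb e₂ : ℕ → ℝ}
    {c : ℕ → Fin m} {Pt : ℝ → ℝ → ℝ} {rr : ℝ → ℝ} {h Kn g : ℝ} {L T : ℕ → ℝ → ℝ → ℝ}
    {Sl : ℕ → ℝ} {κ : ℕ → Kg} {G : Set ℝ} {N : ℕ} {A V : ℕ → ℝ} {N' : ℕ} {V' : ℕ → ℝ}
    {K ε q t : ℝ}
    (_ : RecG S al g₀ P θ P₂ θ₂ Eb e₂ c Pt rr h Kn g L T Sl κ G S₀ N A V S₂ N' V' K ε q t),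
    0 ≤ ε → (∀ k < N', |V' k| < K) → (∀ k < N, -K ≤ V k ∧ V k ≤ A k ∧ A k ≤ K) →
    Sl 1 = 1 → κ 2 = .thin → κ 3 = .stp → Sl 2 + 1 ≤ Sl 3 →
    ∀ {vw vt vx δ : ℝ} {iw it ix n n' : ℕ} {av wv : ℕ → ℝ} {ja jw : ℕ → ℕ},
    vw ≤ vt → vt ≤ vx → (Sl 3 - 2) * (vt - vw) ≤ vx - vt → 0 ≤ δ →
    iw < N' → it < N' → ix < N' → V' iw = vw → V' it = vt → V' ix = vx →
    av 0 = vt → av n = vx → (∀ i < n, av i ≤ av (i + 1) ∧ av (i + 1) ≤ av i + δ) →
    (∀ i, 0 < i → i ≤ n → ja i < N ∧ A (ja i) = av i ∧ V (ja i) = vt) →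
    0 < n' → wv 0 = vw → wv n' = vx → (∀ i < n', wv i ≤ wv (i + 1) ∧ wv (i + 1) ≤ wv i + δ) →
    (∀ i < n', jw i < N ∧ A (jw i) = vx ∧ V (jw i) = wv i) →
    ∀ σ κ₀ : ℝ, 0 < σ → 3 * ε + σ ≤ 2 * (vx - vw) → 0 < κ₀ → ∃ K₁ : ℝ, 0 < K₁ ∧
    Bas S (fun J F A₀ => ∃ (B : F.Ω → Prop) (g : ℕ → ℕ → ℕ) (gr : ℕ)
        (G : ℕ → PtT F → ℕ → MvPolynomial (Option (Fin m)) ℝ)
        (H : ℕ → LnT F → ℕ → MvPolynomial (Option (Fin m)) ℝ), Sub B A₀ ∧
      Pe F.p A₀ ≤ K₁ * Pe F.p B ∧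
      Nls F c 3 D Dr (N' + N) ⌊σ * q * J⌋₊
        (fun j k => ndA N' V' A t q j ≤ ndA N' V' A t q k ∧ ndW N' V' V t q j ≤ ndW N' V' V t q k)
        (fun k => ⌊ndA N' V' A t q k * J⌋₊) (fun k => ⌊ndW N' V' V t q k * J⌋₊)
        ⌊(Eb 3 + σ * q) * J⌋₊ ⌊(Eb 3 + σ * q) * J⌋₊ g ⌊σ * q * J⌋₊ κ₀ B G H ∧
      (∀ k < N' + N, ∀ l ≤ 3, (L l (ndA N' V' A t q k) (ndW N' V' V t q k) - σ * q) * J ≤ g k l ∧
        (g k l : ℝ) ≤ L l (ndA N' V' A t q k) (ndW N' V' V t q k) * J) ∧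
      (∀ k < N', ∀ ω, B ω → ∀ l ≤ 3,
        G k (ptr F J ω) l = H k (slam F ⌊ndW N' V' V t q k * J⌋₊ ω) l) ∧
      (∀ k < N', (∀ y l, (G k y l).totalDegree ≤ Dc) ∧ ∀ s l, (H k s l).totalDegree ≤ Dc) ∧
      (L 3 (t + vx * q) (t + vw * q) - σ * q) * J ≤ gr ∧
      (gr : ℝ) ≤ L 3 (t + vx * q) (t + vw * q) * J ∧ g iw 3 ≤ gr ∧ gr ≤ g ix 3 ∧
      NdGm F c Dc D ⌊(Eb 3 + σ * q) * J⌋₊ ⌊(t + vw * q) * J⌋₊ ⌊(t + vt * q) * J⌋₊
        ⌊(t + vx * q) * J⌋₊ ⌊σ * q * J⌋₊ (g iw) (g it) (g ix) gr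
        (2 ^ ((δ + 6 * ε + σ) * q * J))
        (2 ^ ((-(vx - vt) + (Sl 3 - Sl 2 - 1) * (vt - vw) + (Sl 2 - 1) * δ + 6 * ε + σ) * q * J))
        (fun l => 2 ^ ((5 * (vx - vw) + 15 * ε + σ) * q * J) * 2 ^ g iw l / 2 ^ g iw 3)
        B (G iw) (G it) (G ix) (H iw) (H it) (H ix) (H (N' + jw 0))) := by
  classical
  obtain ⟨D₁, hD₁, hgeo⟩ := nd_geo m 3 S₀ (by norm_num) (by omega) hS₀
  refine ⟨D₁, hD₁, fun S₂ hS₂ => ?_⟩
  obtain ⟨D₂, hD₂, hgeo⟩ := hgeo S₂ hS₂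
  refine ⟨D₂, hD₂, ?_⟩
  intro Dc D Dr hDc hDD₂ hcD hDr S al g₀ P θ P₂ θ₂ Eb e₂ c Pt rr h Kn g L T Sl κ G N A V N' V' K ε
    q t R hε hV' hAV hs1 hk2 hk3 hs23 vw vt vx δ iw it ix n n' av wv ja jw hwt htx hX hδ hiw hit
    hix eiw eit eix hav0 havn hav hja hn' hwv0 hwvn hwv hjw σ κ₀ hσ hσX hκ₀
  have hq := R.q0
  have hS := R.tmh
  have hc4 : Set.InjOn c (Set.Iio 4) := R.inj.mono fun x hx => by
    rw [Set.mem_Iio] at hx ⊢
    omega
  have hc3 : Set.InjOn c (Set.Iio 3) := hc4.mono fun x hx => by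
    rw [Set.mem_Iio] at hx ⊢
    omega
  have hN0 : 0 < N' := by omega
  -- the constants of the gradients
  obtain ⟨C₁, hgt⟩ := gm_t1 D
  obtain ⟨C₂, hgx⟩ := gm_t2 D
  obtain ⟨C₃, hC₃, hncp⟩ := gm_t3 D
  obtain ⟨C₄, hC₄, hrem⟩ := Pool.D2R.rem_fam m D 1
  have hl2 : 0 < Real.log 2 := Real.log_pos one_lt_two
  obtain ⟨CC, hCC⟩ : ∃ CC : ℝ, CC = 4 * C₃ + 8 := ⟨_, rfl⟩
  have hC₃r : (1 : ℝ) ≤ C₃ := by exact_mod_cast hC₃
  have hCC0 : 0 < CC := by rw [hCC]; linarith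
  obtain ⟨σ₁, hσ₁⟩ : ∃ σ₁ : ℝ, σ₁ = σ / (4 * CC) := ⟨_, rfl⟩
  have hσ₁0 : 0 < σ₁ := by rw [hσ₁]; positivity
  have hσ₁C : CC * σ₁ = σ / 4 := by rw [hσ₁]; field_simp
  have hσ₁σ : 32 * σ₁ ≤ σ := by
    have h1 : 8 * σ₁ ≤ CC * σ₁ := mul_le_mul_of_nonneg_right (by rw [hCC]; linarith) hσ₁0.le
    linarith
  -- the nodes
  obtain ⟨K₁, hK₁, hgeo⟩ := hgeo Dc D Dr hDc hDD₂ hcD hDr R hN0 hV' hAV σ₁ (κ₀ / 2) hσ₁0
    (by positivity)
  have hKq : ∀ x : ℝ, -K ≤ x → x ≤ K → t - K * q ≤ t + x * q ∧ t + x * q ≤ t + K * q :=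
    fun x h1 h2 => by
      have := mul_le_mul_of_nonneg_right h1 hq.le
      have := mul_le_mul_of_nonneg_right h2 hq.le
      constructor <;> linarith
  have hiwK := abs_lt.1 (eiw ▸ hV' iw hiw)
  have hitK := abs_lt.1 (eit ▸ hV' it hit)
  have hixK := abs_lt.1 (eix ▸ hV' ix hix)
  have hvx1 : t + vx * q < 1 := by
    have := mul_lt_mul_of_pos_right hixK.2 hq
    linarith [R.t1]
  -- the levels of the nodes
  obtain ⟨L2, hL2⟩ : ∃ L2, L2 = L 2 t t := ⟨_, rfl⟩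
  obtain ⟨L3, hL3⟩ : ∃ L3, L3 = L 3 t t := ⟨_, rfl⟩
  have hdx : ∀ x : ℝ, -K ≤ x → x ≤ K → |t + x * q - t| ≤ K * q := fun x h1 h2 => by
    have e1 : t + x * q - t = x * q := by ring
    rw [e1, abs_mul, abs_of_pos hq]
    exact mul_le_mul_of_nonneg_right (abs_le.2 ⟨h1, h2⟩) hq.le
  have hdL : ∀ l < m, ∀ x : ℝ, -K ≤ x → x ≤ K →
      |L l (t + x * q) (t + x * q) - L l t t - Sl l * (x * q)| ≤ ε * q := fun l hl x h1 h2 => by
    have h3 := R.dL l hl (t + x * q) (hdx x h1 h2)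
    have e1 : t + x * q - t = x * q := by ring
    rw [e1] at h3
    exact h3
  have hdT : ∀ l < m, ∀ x : ℝ, -K ≤ x → x ≤ K →
      |T l (t + x * q) (t + x * q) - L l t t - Sl l * (x * q)| ≤ ε * q := fun l hl x h1 h2 => by
    have h3 := R.dT l hl (t + x * q) (hdx x h1 h2)
    have e1 : t + x * q - t = x * q := by ring
    rw [e1] at h3
    exact h3
  have hkd2 : ∀ a w : ℝ, t - K * q ≤ w → w ≤ a → a ≤ t + K * q →
      L 2 a w ≤ T 2 w w + (a - w) + ε * q := by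
    have h1 := R.kd 2 (by omega)
    rw [hk2] at h1
    exact h1.2
  have hkd3 : ∀ a w : ℝ, t - K * q ≤ w → w ≤ a → a ≤ t + K * q →
      T 3 w w + 2 * (a - w) ≤ T 3 a w + ε * q := by
    have h1 := R.kd 3 (by omega)
    rw [hk3] at h1
    exact h1.2
  -- closed windows
  have hcl : ∀ k < N', ∀ v : ℝ, V' k = v → ndA N' V' A t q k = t + v * q ∧
      ndW N' V' V t q k = t + v * q := fun k hk v hv => by
    unfold ndA ndW
    rw [if_pos hk, if_pos hk, hv]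
    exact ⟨rfl, rfl⟩
  have hpr : ∀ k < N, ndA N' V' A t q (N' + k) = t + A k * q ∧
      ndW N' V' V t q (N' + k) = t + V k * q := fun k hk => by
    unfold ndA ndW
    rw [if_neg (by omega), if_neg (by omega), Nat.add_sub_cancel_left]
    exact ⟨rfl, rfl⟩
  -- (u): upper bounds of the levels of `c 2`, (n): lower bounds of the levels of `c 3`
  have hup : ∀ k < N, L 2 (t + A k * q) (t + V k * q) ≤
      L2 + (Sl 2 * V k + (A k - V k) + 2 * ε) * q := fun k hk => by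
    obtain ⟨k1, k2, k3⟩ := hAV k hk
    have h1 := hkd2 (t + A k * q) (t + V k * q) (hKq _ k1 (k2.trans k3)).1 (by
      have := mul_le_mul_of_nonneg_right k2 hq.le
      linarith) (hKq _ (k1.trans k2) k3).2
    have h2 := (abs_le.1 (hdT 2 (by omega) (V k) k1 (k2.trans k3))).2
    rw [← hL2] at h2
    linarith
  have hlo : ∀ k < N, L3 + (Sl 3 * V k + 2 * (A k - V k) - 2 * ε) * q ≤
      L 3 (t + A k * q) (t + V k * q) := fun k hk => by
    obtain ⟨k1, k2, k3⟩ := hAV k hk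
    have h1 := hkd3 (t + A k * q) (t + V k * q) (hKq _ k1 (k2.trans k3)).1 (by
      have := mul_le_mul_of_nonneg_right k2 hq.le
      linarith) (hKq _ (k1.trans k2) k3).2
    have h2 := (abs_le.1 (hdT 3 (by omega) (V k) k1 (k2.trans k3))).1
    have h3 := (R.TL k hk 3 (by omega)).1
    rw [← hL3] at h2
    linarith
  have hupc : ∀ v : ℝ, -K ≤ v → v ≤ K → L 2 (t + v * q) (t + v * q) ≤
      L2 + (Sl 2 * v + ε) * q := fun v h1 h2 => by
    have h3 := (abs_le.1 (hdL 2 (by omega) v h1 h2)).2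
    rw [← hL2] at h3
    linarith
  have hloc : ∀ v : ℝ, -K ≤ v → v ≤ K → L3 + (Sl 3 * v - ε) * q ≤
      L 3 (t + v * q) (t + v * q) := fun v h1 h2 => by
    have h3 := (abs_le.1 (hdL 3 (by omega) v h1 h2)).1
    rw [← hL3] at h3
    linarith
  have hloc2 : ∀ v : ℝ, -K ≤ v → v ≤ K → L2 + (Sl 2 * v - ε) * q ≤
      L 2 (t + v * q) (t + v * q) := fun v h1 h2 => by
    have h3 := (abs_le.1 (hdL 2 (by omega) v h1 h2)).1
    rw [← hL2] at h3
    linarith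
  have hupc3 : ∀ v : ℝ, -K ≤ v → v ≤ K → L 3 (t + v * q) (t + v * q) ≤
      L3 + (Sl 3 * v + ε) * q := fun v h1 h2 => by
    have h3 := (abs_le.1 (hdL 3 (by omega) v h1 h2)).2
    rw [← hL3] at h3
    linarith
  have hs2 : 1 < Sl 2 := by
    have h1 := R.kd 2 (by omega)
    rw [hk2] at h1
    exact h1.1
  obtain ⟨jj1, jj2, jj3⟩ := hjw 0 hn'
  have hlpw : L 3 (t + vw * q) (t + vw * q) + σ * q ≤ L 3 (t + vx * q) (t + vw * q) := by
    have a3 := hkd3 (t + vx * q) (t + vw * q) (hKq vw hiwK.1.le hiwK.2.le).1 (by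
      have := mul_le_mul_of_nonneg_right (hwt.trans htx) hq.le
      linarith) (hKq vx hixK.1.le hixK.2.le).2
    have a4 := (R.TL (jw 0) jj1 3 (by omega)).1
    rw [jj2, jj3, hwv0] at a4
    have a5 := (abs_le.1 (hdT 3 (by omega) vw hiwK.1.le hiwK.2.le)).1
    have a6 := (abs_le.1 (hdL 3 (by omega) vw hiwK.1.le hiwK.2.le)).2
    have a7 : (3 * ε + σ) * q ≤ 2 * (vx - vw) * q := mul_le_mul_of_nonneg_right hσX hq.le
    linarith
  have hxw : ∀ l ≤ 2, L l (t + vx * q) (t + vw * q) ≤ L l (t + vw * q) (t + vw * q) +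
      ((vx - vw) + 3 * ε) * q := by
    intro l hl
    have hεq : 0 ≤ ε * q := mul_nonneg hε hq.le
    have hwx : t + vw * q ≤ t + vx * q := by
      have := mul_le_mul_of_nonneg_right (hwt.trans htx) hq.le
      linarith
    have hlow : ∀ l < m, Sl l = 1 → L l (t + vx * q) (t + vw * q) ≤
        L l (t + vw * q) (t + vw * q) + ((vx - vw) + 3 * ε) * q := by
      intro l hl hs
      have k1 := (R.lawL l hl).mono_w (t + vx * q) (t + vw * q) (t + vx * q)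
        (by linarith [(hKq vw hiwK.1.le hiwK.2.le).1, R.t0]) hwx le_rfl hvx1.le
      have k2 := (abs_le.1 (hdL l hl vx hixK.1.le hixK.2.le)).2
      have k3 := (abs_le.1 (hdL l hl vw hiwK.1.le hiwK.2.le)).1
      rw [hs] at k2 k3
      linarith
    have hthin : L 2 (t + vx * q) (t + vw * q) ≤
        L 2 (t + vw * q) (t + vw * q) + ((vx - vw) + 3 * ε) * q := by
      have k1 := hkd2 (t + vx * q) (t + vw * q) (hKq vw hiwK.1.le hiwK.2.le).1 hwx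
        (hKq vx hixK.1.le hixK.2.le).2
      have k2 := R.TLc iw hiw 2 (by omega)
      rw [eiw] at k2
      linarith
    rcases Nat.lt_or_ge l 2 with h | h
    · rcases Nat.lt_or_ge l 1 with h' | h'
      · have : l = 0 := by omega
        subst this
        exact hlow 0 (by omega) R.s0
      · have : l = 1 := by omega
        subst this
        exact hlow 1 (by omega) hs1
    · have : l = 2 := by omega
      subst this
      exact hthin
  -- the large `J`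
  obtain ⟨α, hα⟩ : ∃ α, α = t + vt * q := ⟨_, rfl⟩
  have hα1 : α < 1 := by
    rw [hα]
    have := mul_le_mul_of_nonneg_right htx hq.le
    linarith
  obtain ⟨ε', hε'⟩ : ∃ ε', ε' = min (σ₁ * q / (2 * C₄)) ((1 - α) * Real.log 2 / (2 * C₄)) :=
    ⟨_, rfl⟩
  have hε0 : 0 < ε' := by
    rw [hε']
    exact lt_min (by positivity) (div_pos (mul_pos (by linarith) hl2) (by positivity))
  have hC₄0 : 0 < C₄ := by linarith
  have hε1 : C₄ * ε' ≤ σ₁ * q / 2 := by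
    have h1 : ε' ≤ σ₁ * q / (2 * C₄) := by rw [hε']; exact min_le_left _ _
    calc C₄ * ε' ≤ C₄ * (σ₁ * q / (2 * C₄)) := mul_le_mul_of_nonneg_left h1 hC₄0.le
      _ = _ := by field_simp
  have hε2 : C₄ * ε' ≤ (1 - α) * Real.log 2 / 2 := by
    have h1 : ε' ≤ (1 - α) * Real.log 2 / (2 * C₄) := by rw [hε']; exact min_le_right _ _
    calc C₄ * ε' ≤ C₄ * ((1 - α) * Real.log 2 / (2 * C₄)) := mul_le_mul_of_nonneg_left h1 hC₄0.le
      _ = _ := by field_simp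
  obtain ⟨CJ, hCJ⟩ : ∃ CJ : ℝ, CJ = (C₁ : ℝ) + C₂ + 4 * C₃ + C₄ * 4 + n + n' + 20 := ⟨_, rfl⟩
  obtain ⟨J₁, hJ₁⟩ := exists_nat_ge (CJ / (σ₁ * q))
  obtain ⟨J₂, hJ₂⟩ := exists_nat_ge (2 * C₄ / ((1 - α) * Real.log 2))
  have hT := bas_lrg (hS.2 ε' hε0) K₁
  have hpos : Bas S (fun J F A => 0 < Pe F.p A) :=
    ⟨1, one_pos, 0, fun J _ F A hA => hS.1 1 J F A hA⟩
  refine ⟨K₁ * 2, by positivity, ?_⟩
  refine Bas.mono (max J₁ J₂) (hgeo.and (hT.and hpos)) ?_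
  rintro J hJ F A₀ ⟨⟨B₀, g, GG, HH, hB₀, hPB₀, N₀, hlev, hclo, hdeg⟩, hTm, hA⟩
  have hJ0 : (0 : ℝ) ≤ J := Nat.cast_nonneg J
  have hJJ₁ : (J₁ : ℝ) ≤ J := by exact_mod_cast (le_max_left _ _).trans hJ
  have hJJ₂ : (J₂ : ℝ) ≤ J := by exact_mod_cast (le_max_right _ _).trans hJ
  have hσJ : CJ ≤ σ₁ * q * J := by
    have h3 := hJ₁.trans hJJ₁
    rw [div_le_iff₀ (by positivity)] at h3
    linarith
  have hfl : ∀ {x y : ℝ}, x ≤ y → ⌊x * J⌋₊ ≤ ⌊y * J⌋₊ := fun h =>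
    Nat.floor_le_floor (mul_le_mul_of_nonneg_right h hJ0)
  have hp := Pe_nonneg F.isLaw
  have hB0 : 0 < Pe F.p B₀ := by
    by_contra hcon
    have h1 : Pe F.p B₀ = 0 := le_antisymm (not_lt.1 hcon) (hp B₀)
    rw [h1, mul_zero] at hPB₀
    linarith
  obtain ⟨RR, hRR⟩ : ∃ RR : ℕ → ℕ → Prop, RR = fun j k =>
    ndA N' V' A t q j ≤ ndA N' V' A t q k ∧ ndW N' V' V t q j ≤ ndW N' V' V t q k := ⟨_, rfl⟩
  rw [← hRR] at N₀
  -- the numbers of the floors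
  obtain ⟨s₁, hs₁⟩ : ∃ s₁ : ℕ, s₁ = ⌊σ₁ * q * J⌋₊ := ⟨_, rfl⟩
  have hs₁r : (s₁ : ℝ) ≤ σ₁ * q * J := by
    rw [hs₁]
    exact Nat.floor_le (by positivity)
  have hs₁σ : s₁ ≤ ⌊σ * q * J⌋₊ := by
    rw [hs₁, mul_assoc, mul_assoc σ]
    exact Nat.floor_le_floor (mul_le_mul_of_nonneg_right (by linarith) (by positivity))
  rw [← hs₁] at N₀
  obtain ⟨W, hW⟩ : ∃ W : ℕ, W = ⌊(t + vw * q) * J⌋₊ := ⟨_, rfl⟩
  obtain ⟨TT, hTT⟩ : ∃ TT : ℕ, TT = ⌊(t + vt * q) * J⌋₊ := ⟨_, rfl⟩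
  obtain ⟨X, hXX⟩ : ∃ X : ℕ, X = ⌊(t + vx * q) * J⌋₊ := ⟨_, rfl⟩
  have hvq : ∀ {x y : ℝ}, x ≤ y → t + x * q ≤ t + y * q := fun h => by
    have := mul_le_mul_of_nonneg_right h hq.le
    linarith
  have hWT : W ≤ TT := by rw [hW, hTT]; exact hfl (hvq hwt)
  have hXJ : X ≤ J := by
    rw [hXX]
    refine Nat.floor_le_of_le ?_
    calc (t + vx * q) * (J : ℝ) ≤ 1 * J := mul_le_mul_of_nonneg_right hvx1.le hJ0
      _ = J := one_mul _
  have hTX : TT ≤ X := by rw [hXX, hTT]; exact hfl (hvq htx)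
  have hTJ : TT ≤ J := hTX.trans hXJ
  have hWJ : W ≤ J := hWT.trans hTJ
  -- the nodes
  obtain ⟨ip, hip⟩ : ∃ ip, ip = N' + jw 0 := ⟨_, rfl⟩
  obtain ⟨j1, j2, j3⟩ := hjw 0 hn'
  have hipN : ip < N' + N := by omega
  have hipA : ndA N' V' A t q ip = t + vx * q ∧ ndW N' V' V t q ip = t + vw * q := by
    have h1 := hpr (jw 0) j1
    rw [hip, h1.1, h1.2, j2, j3, hwv0]
    exact ⟨rfl, rfl⟩
  obtain ⟨iwA, iwW⟩ := hcl iw hiw vw eiw
  obtain ⟨itA, itW⟩ := hcl it hit vt eit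
  obtain ⟨ixA, ixW⟩ := hcl ix hix vx eix
  obtain ⟨nd, hnd⟩ : ∃ nd : ℕ → ℕ, nd = fun i => if i = 0 then it else N' + ja i := ⟨_, rfl⟩
  have hnd0 : nd 0 = it := by rw [hnd]; exact if_pos rfl
  have hndA : ∀ i ≤ n, nd i < N' + N ∧ ndA N' V' A t q (nd i) = t + av i * q ∧
      ndW N' V' V t q (nd i) = t + vt * q := by
    intro i hi
    rcases Nat.eq_zero_or_pos i with h0 | h0
    · rw [h0, hnd0, hav0]
      exact ⟨by omega, itA, itW⟩
    · obtain ⟨k1, k2, k3⟩ := hja i h0 hi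
      have e1 : nd i = N' + ja i := by rw [hnd]; exact if_neg (by omega)
      have h1 := hpr (ja i) k1
      rw [e1, h1.1, h1.2, k2, k3]
      exact ⟨by omega, rfl, rfl⟩
  obtain ⟨nx, hnx⟩ : ∃ nx : ℕ → ℕ, nx = fun i => if i < n' then N' + jw i else ix := ⟨_, rfl⟩
  have hnx0 : nx 0 = ip := by rw [hnx, hip]; exact if_pos hn'
  have hnxn : nx n' = ix := by rw [hnx]; exact if_neg (lt_irrefl _)
  have hnxA : ∀ i ≤ n', nx i < N' + N ∧ ndA N' V' A t q (nx i) = t + vx * q ∧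
      ndW N' V' V t q (nx i) = t + wv i * q := by
    intro i hi
    rcases Nat.lt_or_ge i n' with h0 | h0
    · obtain ⟨k1, k2, k3⟩ := hjw i h0
      have e1 : nx i = N' + jw i := by rw [hnx]; exact if_pos h0
      have h1 := hpr (jw i) k1
      rw [e1, h1.1, h1.2, k2, k3]
      exact ⟨by omega, rfl, rfl⟩
    · have e0 : i = n' := by omega
      rw [e0, hnxn, hwvn]
      exact ⟨by omega, ixA, ixW⟩
  have havt : ∀ i ≤ n, vt ≤ av i := by
    intro i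
    induction i with
    | zero => exact fun _ => hav0.ge
    | succ i ih => exact fun hi => (ih (by omega)).trans (hav i (by omega)).1
  have hwvw : ∀ i ≤ n', vw ≤ wv i := by
    intro i
    induction i with
    | zero => exact fun _ => hwv0.ge
    | succ i ih => exact fun hi => (ih (by omega)).trans (hwv i (by omega)).1
  have hwvx : ∀ i ≤ n', wv i ≤ vx := by
    intro i hi
    have h1 : ∀ d ≤ n' - i, wv i ≤ wv (i + d) := by
      intro d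
      induction d with
      | zero => exact fun _ => le_rfl
      | succ d ih => exact fun hd => (ih (by omega)).trans (hwv (i + d) (by omega)).1
    have h2 := h1 (n' - i) le_rfl
    rwa [Nat.add_sub_cancel' hi, hwvn] at h2
  -- the levels
  have hUL : ∀ k < N' + N, ∀ a v : ℝ, ndA N' V' A t q k = t + a * q →
      ndW N' V' V t q k = t + v * q →
      (g k 2 : ℝ) ≤ (L2 + (Sl 2 * v + (a - v) + 2 * ε) * q) * J ∧
      (L3 + (Sl 3 * v + 2 * (a - v) - 2 * ε) * q - σ₁ * q) * J ≤ g k 3 := by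
    intro k hk a v ha hv
    have h2 := (hlev k hk 2 (by norm_num)).2
    have h3 := (hlev k hk 3 le_rfl).1
    rw [ha, hv] at h2 h3
    have key : L 2 (t + a * q) (t + v * q) ≤ L2 + (Sl 2 * v + (a - v) + 2 * ε) * q ∧
        L3 + (Sl 3 * v + 2 * (a - v) - 2 * ε) * q ≤ L 3 (t + a * q) (t + v * q) := by
      by_cases hkN : k < N'
      · obtain ⟨e1, e2⟩ := hcl k hkN (V' k) rfl
        have h4 := abs_lt.1 (hV' k hkN)
        have ea : a = V' k := mul_right_cancel₀ hq.ne' (by linarith)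
        have ev : v = V' k := mul_right_cancel₀ hq.ne' (by linarith)
        have hεq : 0 ≤ ε * q := mul_nonneg hε hq.le
        have h5 := hupc (V' k) h4.1.le h4.2.le
        have h6 := hloc (V' k) h4.1.le h4.2.le
        rw [ea, ev]
        constructor
        · linarith
        · linarith
      · obtain ⟨e1, e2⟩ := hpr (k - N') (by omega)
        rw [Nat.add_sub_cancel' (by omega)] at e1 e2
        have ea : a = A (k - N') := mul_right_cancel₀ hq.ne' (by linarith)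
        have ev : v = V (k - N') := mul_right_cancel₀ hq.ne' (by linarith)
        rw [ea, ev]
        exact ⟨hup (k - N') (by omega), hlo (k - N') (by omega)⟩
    exact ⟨h2.trans (mul_le_mul_of_nonneg_right key.1 hJ0),
      (mul_le_mul_of_nonneg_right (by linarith [key.2]) hJ0).trans h3⟩
  have hgt2 : (L2 + (Sl 2 * vt - ε) * q - σ₁ * q) * J ≤ g it 2 := by
    have h1 := (hlev it (by omega) 2 (by norm_num)).1
    rw [itA, itW] at h1
    exact (mul_le_mul_of_nonneg_right (by linarith [hloc2 vt hitK.1.le hitK.2.le]) hJ0).trans h1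
  have hgt3 : (g it 3 : ℝ) ≤ (L3 + (Sl 3 * vt + ε) * q) * J := by
    have h1 := (hlev it (by omega) 3 le_rfl).2
    rw [itA, itW] at h1
    exact h1.trans (mul_le_mul_of_nonneg_right (hupc3 vt hitK.1.le hitK.2.le) hJ0)
  have hexp : ∀ k < N' + N, ∀ j < N' + N, ∀ a v a' v' x : ℝ,
      ndA N' V' A t q k = t + a * q → ndW N' V' V t q k = t + v * q →
      ndA N' V' A t q j = t + a' * q → ndW N' V' V t q j = t + v' * q →
      Sl 2 * (v - vt) + (a - v) - Sl 3 * (v' - vt) - 2 * (a' - v') ≤ x →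
      (2 : ℝ) ^ g k 2 / 2 ^ g j 3 ≤ 2 ^ ((x + 6 * ε + 2 * σ₁) * q * J) *
        (2 ^ g it 2 / 2 ^ g it 3) := by
    intro k hk j hj a v a' v' x h1 h2 h3 h4 hx
    have h5 := (hUL k hk a v h1 h2).1
    have h6 := (hUL j hj a' v' h3 h4).2
    have h7 : ((g k 2 + g it 3 : ℕ) : ℝ) ≤ ((g j 3 + g it 2 : ℕ) : ℝ) +
        (x + 6 * ε + 2 * σ₁) * q * J := by
      push_cast
      have h8 : (Sl 2 * (v - vt) + (a - v) - Sl 3 * (v' - vt) - 2 * (a' - v')) * (q * J) ≤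
          x * (q * J) := mul_le_mul_of_nonneg_right hx (by positivity)
      have e1 : (L2 + (Sl 2 * v + (a - v) + 2 * ε) * q) * (J : ℝ) +
          (L3 + (Sl 3 * vt + ε) * q) * J =
          (L3 + (Sl 3 * v' + 2 * (a' - v') - 2 * ε) * q - σ₁ * q) * J +
          (L2 + (Sl 2 * vt - ε) * q - σ₁ * q) * J +
          ((Sl 2 * (v - vt) + (a - v) - Sl 3 * (v' - vt) - 2 * (a' - v')) * (q * J) +
          (6 * ε + 2 * σ₁) * (q * J)) := by ring
      have e2 : (x + 6 * ε + 2 * σ₁) * q * (J : ℝ) = x * (q * J) +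
          (6 * ε + 2 * σ₁) * (q * J) := by ring
      rw [e2]
      linarith
    have h9 := pow_quo h7
    rw [pow_add, pow_add, div_le_iff₀ (by positivity)] at h9
    rw [div_le_iff₀ (by positivity)]
    have e3 : (2 : ℝ) ^ ((x + 6 * ε + 2 * σ₁) * q * J) * (2 ^ g it 2 / 2 ^ g it 3) * 2 ^ g j 3 =
        2 ^ ((x + 6 * ε + 2 * σ₁) * q * J) * (2 ^ g j 3 * 2 ^ g it 2) / 2 ^ g it 3 := by ring
    rw [e3, le_div_iff₀ (by positivity)]
    exact h9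
  -- the gradient over the chart of `T`
  have hN2 : ∀ y : ℕ, (y : ℝ) ≤ 2 ^ y := fun y => by
    exact_mod_cast (Nat.lt_two_pow_self (n := y)).le
  have hC0 : ∀ y : ℕ, (0 : ℝ) ≤ y := fun y => Nat.cast_nonneg y
  have hσqJ : 0 ≤ σ₁ * q * (J : ℝ) := by positivity
  have hCa : (C₁ : ℝ) + n + 1 ≤ σ₁ * q * J := by
    have h1 := hC0 C₂
    have h2 := hC0 n'
    rw [hCJ] at hσJ
    linarith
  have hCb : (C₂ : ℝ) + n' + 1 ≤ σ₁ * q * J := by
    have h1 := hC0 C₁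
    have h2 := hC0 n
    rw [hCJ] at hσJ
    linarith
  have hCc : 4 * (C₃ : ℝ) + 20 ≤ σ₁ * q * J := by
    have h1 := hC0 C₁
    have h2 := hC0 n
    have h3 := hC0 C₂
    have h4 := hC0 n'
    rw [hCJ] at hσJ
    linarith
  have hCd : 4 * C₄ ≤ σ₁ * q * J := by
    have h1 := hC0 C₁
    have h2 := hC0 n
    have h3 := hC0 C₂
    have h4 := hC0 n'
    rw [hCJ] at hσJ
    linarith
  obtain ⟨Mt, hMt⟩ : ∃ Mt : ℝ, Mt = 2 ^ g it 2 / 2 ^ g it 3 := ⟨_, rfl⟩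
  have hMt0 : 0 < Mt := by rw [hMt]; positivity
  have hrp : ∀ {x y : ℝ}, x ≤ y → (2 : ℝ) ^ x ≤ 2 ^ y := fun h =>
    Real.rpow_le_rpow_of_exponent_le (by norm_num) h
  have hrp0 : ∀ x : ℝ, (0 : ℝ) < 2 ^ x := fun x => Real.rpow_pos_of_pos (by norm_num) x
  have hip0 : ⌊ndW N' V' V t q ip * (J : ℝ)⌋₊ = W := by rw [hipA.2, hW]
  have hiw0 : ⌊ndW N' V' V t q iw * (J : ℝ)⌋₊ = W := by rw [iwW, hW]
  have hT1 : ∀ ω, B₀ ω → |eval (bt F ω) (pderiv (some (c 2)) (HH ip (slam F W ω) 3 -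
      GG it (ptr F J ω) 3))| ≤ 2 ^ ((δ + 6 * ε + 4 * σ₁) * q * J) * Mt := by
    intro ω hω
    have h1 := hgt N₀ hc3 (n := n) (ip := ip) (it := it) (nd := nd)
      (Y := 2 ^ ((δ + 6 * ε + 2 * σ₁) * q * J) * Mt) hipN (fun i hi => (hndA i hi).1) hnd0
      (fun i hi => by
      obtain ⟨-, a1, a2⟩ := hndA i hi.le
      obtain ⟨-, a3, a4⟩ := hndA (i + 1) hi
      rw [hRR]
      show ndA N' V' A t q (nd i) ≤ ndA N' V' A t q (nd (i + 1)) ∧
        ndW N' V' V t q (nd i) ≤ ndW N' V' V t q (nd (i + 1))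
      rw [a1, a2, a3, a4]
      exact ⟨hvq (hav i hi).1, le_rfl⟩) (by
      obtain ⟨-, a1, a2⟩ := hndA n le_rfl
      rw [hRR]
      show ndA N' V' A t q ip ≤ ndA N' V' A t q (nd n) ∧
        ndW N' V' V t q ip ≤ ndW N' V' V t q (nd n)
      rw [a1, a2, hipA.1, hipA.2, havn]
      exact ⟨le_rfl, hvq hwt⟩) (mul_pos (hrp0 _) hMt0).le (by
      obtain ⟨k0, a1, a2⟩ := hndA n le_rfl
      rw [hMt]
      refine hexp (nd n) k0 ip hipN vx vt vx vw δ (by rw [a1, havn]) a2 hipA.1 hipA.2 ?_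
      have e1 : Sl 2 * (vt - vt) + (vx - vt) - Sl 3 * (vw - vt) - 2 * (vx - vw) =
        (Sl 3 - 2) * (vt - vw) - (vx - vt) := by ring
      rw [e1]
      linarith) (fun i hi' => by
      obtain ⟨k0, a1, a2⟩ := hndA i hi'.le
      obtain ⟨k1, a3, a4⟩ := hndA (i + 1) hi'
      rw [hMt]
      refine hexp (nd (i + 1)) k1 (nd i) k0 (av (i + 1)) vt (av i) vt δ a3 a4 a1 a2 ?_
      have h4 := (hav i hi').2
      have h5 := havt i hi'.le
      linarith) ω hω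
    rw [hip0] at h1
    refine h1.trans ?_
    rw [← mul_assoc]
    refine mul_le_mul_of_nonneg_right ?_ hMt0.le
    rw [← Real.rpow_natCast, ← Real.rpow_add (by norm_num)]
    refine hrp ?_
    push_cast
    linarith
  -- the gradient of the chart of `X`
  have hT2 : ∀ ω, B₀ ω → |eval (bt F ω) (pderiv (some (c 2)) (GG ix (ptr F J ω) 3 -
      HH ip (slam F W ω) 3))| ≤ 2 ^ ((-(vx - vt) + (Sl 3 - Sl 2 - 1) * (vt - vw) +
        (Sl 2 - 1) * δ + 6 * ε + 4 * σ₁) * q * J) * Mt := by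
    intro ω hω
    obtain ⟨Z, hZ⟩ : ∃ Z : ℝ, Z = -(vx - vt) + (Sl 3 - Sl 2 - 1) * (vt - vw) +
        (Sl 2 - 1) * δ := ⟨_, rfl⟩
    rw [← hZ]
    have hSδ : 0 ≤ (Sl 2 - 1) * δ := mul_nonneg (by linarith) hδ
    have h1 := hgx N₀ hc3 (n := n') (ip := ip) (ix := ix) (nx := nx)
      (Y := 2 ^ ((Z + 6 * ε + 2 * σ₁) * q * J) * Mt) (fun i hi => (hnxA i hi).1) hnx0 hnxn
      (fun i hi => by
      obtain ⟨-, a1, a2⟩ := hnxA i hi.le
      obtain ⟨-, a3, a4⟩ := hnxA (i + 1) hi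
      rw [hRR]
      show ndA N' V' A t q (nx i) ≤ ndA N' V' A t q (nx (i + 1)) ∧
        ndW N' V' V t q (nx i) ≤ ndW N' V' V t q (nx (i + 1))
      rw [a1, a2, a3, a4]
      exact ⟨le_rfl, hvq (hwv i hi).1⟩) (mul_pos (hrp0 _) hMt0).le (fun i hi' => by
      obtain ⟨k0, a1, a2⟩ := hnxA i hi'.le
      obtain ⟨k1, a3, a4⟩ := hnxA (i + 1) hi'
      have b1 := (hwv i hi').2
      have b2 := hwvw i hi'.le
      rw [hMt]
      refine hexp (nx (i + 1)) k1 (nx i) k0 vx (wv (i + 1)) vx (wv i) Z a3 a4 a1 a2 ?_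
      have c1 : (Sl 2 - 1) * (wv (i + 1) - wv i) ≤ (Sl 2 - 1) * δ :=
        mul_le_mul_of_nonneg_left (by linarith) (by linarith)
      have c2 : 0 ≤ (Sl 3 - Sl 2 - 1) * (wv i - vw) := mul_nonneg (by linarith) (by linarith)
      have e1 : Sl 2 * (wv (i + 1) - vt) + (vx - wv (i + 1)) - Sl 3 * (wv i - vt) -
          2 * (vx - wv i) = -(vx - vt) + (Sl 3 - Sl 2 - 1) * (vt - vw) +
          (Sl 2 - 1) * (wv (i + 1) - wv i) - (Sl 3 - Sl 2 - 1) * (wv i - vw) := by ring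
      rw [e1, hZ]
      linarith) (fun i hi' => by
      obtain ⟨k1, a3, a4⟩ := hnxA (i + 1) hi'
      have b3 := hwvw (i + 1) hi'
      rw [hMt]
      refine hexp (nx (i + 1)) k1 (nx (i + 1)) k1 vx (wv (i + 1)) vx (wv (i + 1)) Z a3 a4 a3
        a4 ?_
      have c2 : 0 ≤ (Sl 3 - Sl 2 - 1) * (wv (i + 1) - vw) :=
        mul_nonneg (by linarith) (by linarith)
      have e1 : Sl 2 * (wv (i + 1) - vt) + (vx - wv (i + 1)) - Sl 3 * (wv (i + 1) - vt) -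
          2 * (vx - wv (i + 1)) = -(vx - vt) + (Sl 3 - Sl 2 - 1) * (vt - vw) -
          (Sl 3 - Sl 2 - 1) * (wv (i + 1) - vw) := by ring
      rw [e1, hZ]
      linarith) ω hω (hclo ix hix ω hω 3 le_rfl)
    rw [hip0] at h1
    refine h1.trans ?_
    rw [← mul_assoc]
    refine mul_le_mul_of_nonneg_right ?_ hMt0.le
    rw [← Real.rpow_natCast, ← Real.rpow_add (by norm_num)]
    refine hrp ?_
    push_cast
    linarith
  have hiwN : iw < N' + N := by omega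
  have hitN : it < N' + N := by omega
  have hixN : ix < N' + N := by omega
  have hRip : RR iw ip := by
    rw [hRR]
    show ndA N' V' A t q iw ≤ ndA N' V' A t q ip ∧ ndW N' V' V t q iw ≤ ndW N' V' V t q ip
    rw [iwA, iwW, hipA.1, hipA.2]
    exact ⟨hvq (hwt.trans htx), le_rfl⟩
  -- the natural gradients in the frame of `W`
  obtain ⟨Q, hQ⟩ : ∃ Q : ℕ, Q = ⌈((vx - vw) + 3 * ε + σ₁) * q * J⌉₊ := ⟨_, rfl⟩
  have hQ0 : 0 ≤ ((vx - vw) + 3 * ε + σ₁) * q * (J : ℝ) :=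
    mul_nonneg (mul_nonneg (by linarith) hq.le) hJ0
  have hQ1 : (Q : ℝ) ≤ ((vx - vw) + 3 * ε + σ₁) * q * J + 1 := by
    rw [hQ]
    exact (Nat.ceil_lt_add_one hQ0).le
  have hipQ : ∀ l ≤ 2, g ip l ≤ g iw l + Q := fun l hl => by
    have h1 := (hlev ip hipN l (by omega)).2
    have h2 := (hlev iw hiwN l (by omega)).1
    rw [hipA.1, hipA.2] at h1
    rw [iwA, iwW] at h2
    have h3 := mul_le_mul_of_nonneg_right (hxw l hl) hJ0
    have h4 := Nat.le_ceil (((vx - vw) + 3 * ε + σ₁) * q * (J : ℝ))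
    rw [← hQ] at h4
    have e1 : (L l (t + vw * q) (t + vw * q) + ((vx - vw) + 3 * ε) * q) * (J : ℝ) =
        (L l (t + vw * q) (t + vw * q) - σ₁ * q) * J + ((vx - vw) + 3 * ε + σ₁) * q * J := by
      ring
    have h5 : (g ip l : ℝ) ≤ ((g iw l + Q : ℕ) : ℝ) := by
      push_cast
      linarith
    exact_mod_cast h5
  have hgwp : g iw 3 ≤ g ip 3 := by
    have a1 := (hlev iw hiwN 3 le_rfl).2
    have a2 := (hlev ip hipN 3 le_rfl).1
    have a9 : σ₁ * q ≤ σ * q := mul_le_mul_of_nonneg_right (by linarith) hq.le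
    rw [iwA, iwW] at a1
    rw [hipA.1, hipA.2] at a2
    exact_mod_cast a1.trans ((mul_le_mul_of_nonneg_right (by linarith) hJ0).trans a2)
  have hT3 : ∀ ω, B₀ ω → ∀ l ≤ 2, |ncp c 3 (HH iw (slam F W ω)) (HH ip (slam F W ω) 3 -
      HH iw (slam F W ω) 3) (bt F ω) l| ≤
      2 ^ ((5 * (vx - vw) + 15 * ε + σ) * q * J) * 2 ^ g iw l / 2 ^ g iw 3 := by
    intro ω hω l hl
    have h1 := hncp N₀ hc3 (ip := ip) (iw := iw) (Q := Q) hipN hiwN hRip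
      (by rw [hip0, hiw0]) hipQ hgwp ω hω l hl
    rw [hiw0] at h1
    refine h1.trans (div_le_div_of_nonneg_right (mul_le_mul_of_nonneg_right ?_ (by positivity))
      (by positivity))
    rw [← Real.rpow_natCast]
    refine hrp ?_
    push_cast
    have h3 : (C₃ : ℝ) * (s₁ + 1) ≤ C₃ * (σ₁ * q * J) + C₃ := by
      have := mul_le_mul_of_nonneg_left hs₁r (hC0 C₃)
      linarith
    have h4 : (4 * (C₃ : ℝ) + 8) * σ₁ * (q * (J : ℝ)) = σ / 4 * (q * J) := by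
      rw [← hCC, hσ₁C]
    have h7 : 0 ≤ σ * (q * (J : ℝ)) := by positivity
    have h8 : 0 ≤ (C₃ : ℝ) * (σ₁ * q * J) := by positivity
    linarith
  -- the event
  obtain ⟨M₀, hM₀⟩ : ∃ M₀ : ℝ, M₀ = 2 ^ ((δ + 6 * ε + 4 * σ₁) * q * J) * Mt := ⟨_, rfl⟩
  have hM₀0 : 0 < M₀ := by rw [hM₀]; exact mul_pos (hrp0 _) hMt0
  obtain ⟨PP, hPP⟩ : ∃ PP : LnT F → Polynomial ℝ, PP = fun S =>
    MvPolynomial.aeval (lc TT S) (pderiv (some (c 2)) (HH ip (co (TT - W) S) 3 - HH it S 3)) :=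
    ⟨_, rfl⟩
  have hPPe : ∀ ω, B₀ ω → ∀ τ : ℝ, (PP (slam F TT ω)).eval τ =
      eval (fun o => (lc TT (slam F TT ω) o).eval τ) (pderiv (some (c 2))
        (HH ip (slam F W ω) 3 - GG it (ptr F J ω) 3)) := by
    intro ω hω τ
    have h1 := hclo it hit ω hω 3 le_rfl
    rw [itW, ← hTT] at h1
    rw [hPP]
    show (MvPolynomial.aeval (lc TT (slam F TT ω)) (pderiv (some (c 2))
      (HH ip (co (TT - W) (slam F TT ω)) 3 - HH it (slam F TT ω) 3))).eval τ = _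
    rw [Pool.KBX.eval_aeval_poly, co_slam F hWT hTJ ω, h1]
  have hnip := N₀.nod ip hipN
  have hnit := N₀.nod it hitN
  obtain ⟨B, hB, hPB, hBr⟩ := hrem J F B₀ hB0 TT (fun _ => PP) (fun _ => M₀) (ε' * J) hTJ
    (fun i _ S => by
      rw [hPP]
      refine Pool.KBX.natDegree_aeval_le _ _ (natDegree_lc _ _) (totalDegree_pdσ
        ((totalDegree_sub _ _).trans (max_le (hnip.lst.degH _ 3) (hnit.lst.degH _ 3))) _))
    (fun _ _ => hM₀0) (by positivity) (hTm B₀ hB₀ hPB₀ hB0) (by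
      have h1 : C₄ ≤ (1 - α) * Real.log 2 / 2 * J := by
        have h3 := hJ₂.trans hJJ₂
        rw [div_le_iff₀ (mul_pos (by linarith) hl2)] at h3
        linarith
      have h2 : (TT : ℝ) ≤ α * J := by
        rw [hTT, hα]
        exact Nat.floor_le (mul_nonneg (by linarith [(hKq vt hitK.1.le hitK.2.le).1, R.t0]) hJ0)
      calc C₄ * (ε' * J + 1) = C₄ * ε' * J + C₄ := by ring
        _ ≤ (1 - α) * Real.log 2 / 2 * J + (1 - α) * Real.log 2 / 2 * J :=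
            add_le_add (mul_le_mul_of_nonneg_right hε2 hJ0) h1
        _ = (J - α * J) * Real.log 2 := by ring
        _ ≤ _ := mul_le_mul_of_nonneg_right (by linarith) hl2.le)
    (fun ω hω i _ => by
      show |(PP (slam F TT ω)).eval (rt F TT ω)| ≤ M₀
      rw [hPPe ω hω]
      have e1 : (fun o => (lc TT (slam F TT ω) o).eval (rt F TT ω)) = bt F ω :=
        funext fun o => eval_lc F hTJ ω o
      rw [e1, hM₀]
      exact hT1 ω hω)
  have hexpC : Real.exp (C₄ * (ε' * J + 1)) ≤ 2 ^ (2 * σ₁ * q * J) := by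
    have h1 : C₄ * (ε' * J + 1) ≤ σ₁ * q / 2 * J + σ₁ * q * J / 4 := by
      calc C₄ * (ε' * J + 1) = C₄ * ε' * J + C₄ := by ring
        _ ≤ _ := add_le_add (mul_le_mul_of_nonneg_right hε1 hJ0) (by linarith)
    have h2 : (1 : ℝ) / 2 ≤ Real.log 2 := by
      have := Real.log_two_gt_d9
      linarith
    have h3 : C₄ * (ε' * J + 1) ≤ Real.log 2 * (2 * σ₁ * q * J) := by
      have h4 := mul_le_mul_of_nonneg_right h2 (show 0 ≤ 2 * σ₁ * q * (J : ℝ) by positivity)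
      linarith
    calc Real.exp (C₄ * (ε' * J + 1)) ≤ Real.exp (Real.log 2 * (2 * σ₁ * q * J)) :=
          Real.exp_le_exp.2 h3
      _ = 2 ^ (2 * σ₁ * q * J) := by
          rw [Real.rpow_def_of_pos (by norm_num)]
  have hsσ : (2 : ℝ) ^ s₁ ≤ 2 ^ ⌊σ * q * (J : ℝ)⌋₊ := pow_le_pow_right₀ (by norm_num) hs₁σ
  have hbs : ∀ {x : ℝ} {y : ℕ}, x ≤ 2 ^ s₁ / 2 ^ y → x ≤ 2 ^ ⌊σ * q * (J : ℝ)⌋₊ / 2 ^ y :=
    fun h => h.trans (div_le_div_of_nonneg_right hsσ (by positivity))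
  have hEm : ⌊(Eb 3 + σ₁ * q) * (J : ℝ)⌋₊ ≤ ⌊(Eb 3 + σ * q) * (J : ℝ)⌋₊ := hfl (by
    have := mul_le_mul_of_nonneg_right (show σ₁ ≤ σ by linarith) hq.le
    linarith)
  have hRwt : RR iw it := by
    rw [hRR]
    show ndA N' V' A t q iw ≤ ndA N' V' A t q it ∧ ndW N' V' V t q iw ≤ ndW N' V' V t q it
    rw [iwA, iwW, itA, itW]
    exact ⟨hvq hwt, hvq hwt⟩
  have hRwx : RR iw ix := by
    rw [hRR]
    show ndA N' V' A t q iw ≤ ndA N' V' A t q ix ∧ ndW N' V' V t q iw ≤ ndW N' V' V t q ix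
    rw [iwA, iwW, ixA, ixW]
    exact ⟨hvq (hwt.trans htx), hvq (hwt.trans htx)⟩
  have hRtx : RR it ix := by
    rw [hRR]
    show ndA N' V' A t q it ≤ ndA N' V' A t q ix ∧ ndW N' V' V t q it ≤ ndW N' V' V t q ix
    rw [itA, itW, ixA, ixW]
    exact ⟨hvq htx, hvq htx⟩
  have hRpx : RR ip ix := by
    rw [hRR]
    show ndA N' V' A t q ip ≤ ndA N' V' A t q ix ∧ ndW N' V' V t q ip ≤ ndW N' V' V t q ix
    rw [hipA.1, hipA.2, ixA, ixW]
    exact ⟨le_rfl, hvq (hwt.trans htx)⟩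
  -- the level of the row label
  obtain ⟨gr, hgr⟩ : ∃ gr : ℕ, gr = min (g ip 3) (g ix 3) := ⟨_, rfl⟩
  have hgrp : gr ≤ g ip 3 := by rw [hgr]; exact min_le_left _ _
  have hgrx : gr ≤ g ix 3 := by rw [hgr]; exact min_le_right _ _
  have hLpx : L 3 (t + vx * q) (t + vw * q) ≤ L 3 (t + vx * q) (t + vx * q) :=
    (R.lawL 3 (by omega)).mono_w (t + vx * q) (t + vw * q) (t + vx * q)
      (by linarith [(hKq vw hiwK.1.le hiwK.2.le).1, R.t0]) (hvq (hwt.trans htx)) le_rfl hvx1.le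
  have hgrl : (L 3 (t + vx * q) (t + vw * q) - σ₁ * q) * (J : ℝ) ≤ gr := by
    rw [hgr]
    push_cast
    refine le_min ?_ ?_
    · have h1 := (hlev ip hipN 3 le_rfl).1
      rw [hipA.1, hipA.2] at h1
      exact h1
    · have h1 := (hlev ix hixN 3 le_rfl).1
      rw [ixA, ixW] at h1
      exact (mul_le_mul_of_nonneg_right (by linarith) hJ0).trans h1
  have hgru : (gr : ℝ) ≤ L 3 (t + vx * q) (t + vw * q) * J := by
    have h1 := (hlev ip hipN 3 le_rfl).2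
    rw [hipA.1, hipA.2] at h1
    exact (show (gr : ℝ) ≤ g ip 3 by exact_mod_cast hgrp).trans h1
  have hgwr : g iw 3 ≤ gr := by
    have a1 := (hlev iw hiwN 3 le_rfl).2
    rw [iwA, iwW] at a1
    have a9 : σ₁ * q ≤ σ * q := mul_le_mul_of_nonneg_right (by linarith) hq.le
    exact_mod_cast a1.trans ((mul_le_mul_of_nonneg_right (by linarith) hJ0).trans hgrl)
  have hσqJ' : σ₁ * q * (J : ℝ) ≤ σ * q * J := by
    have := mul_le_mul_of_nonneg_right (show σ₁ ≤ σ by linarith) (show 0 ≤ q * (J : ℝ) by positivity)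
    linarith
  refine ⟨B, g, gr, GG, HH, fun ω hω => hB₀ ω (hB ω hω), ?_, ?_, ?_, ?_, hdeg, ?_, hgru, hgwr,
    hgrx, ?_⟩
  · calc Pe F.p A₀ ≤ K₁ * Pe F.p B₀ := hPB₀
      _ ≤ K₁ * (2 * Pe F.p B) := mul_le_mul_of_nonneg_left (by linarith) hK₁.le
      _ = _ := by ring
  · rw [← hRR]
    refine ⟨fun k hk => ?_, ?_, ?_, ?_, ?_⟩
    · have h1 := (N₀.nod k hk).sub hB (κ₁ := 1 / 2) (κ₂ := κ₀) (by linarith) hκ₀.le (by linarith)
      exact ⟨h1.lst.mono le_rfl (fun _ => le_rfl) le_rfl hEm,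
        h1.top.mono le_rfl (fun _ => le_rfl) le_rfl hEm, relf_h h1.rlF hs₁σ⟩
    · exact fun j hj k hk hjk ω hω l hl b hb => hbs (N₀.uni j hj k hk hjk ω (hB ω hω) l hl b hb)
    · exact fun j hj k hk hjk ω hω l hl b hb => hbs (N₀.two j hj k hk hjk ω (hB ω hω) l hl b hb)
    · exact fun k hk ha ω hω l hl t ht => hbs (N₀.own k hk ha ω (hB ω hω) l hl t ht)
    · exact fun k hk ω hω l hl t ht => hbs (N₀.ow k hk ω (hB ω hω) l hl t ht)
  · intro k hk l hl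
    obtain ⟨h1, h2⟩ := hlev k hk l hl
    refine ⟨le_trans ?_ h1, h2⟩
    exact mul_le_mul_of_nonneg_right (by
      have := mul_le_mul_of_nonneg_right (show σ₁ ≤ σ by linarith) hq.le
      linarith) hJ0
  · exact fun k hk ω hω => hclo k hk ω (hB ω hω)
  · refine le_trans (mul_le_mul_of_nonneg_right ?_ hJ0) hgrl
    have := mul_le_mul_of_nonneg_right (show σ₁ ≤ σ by linarith) hq.le
    linarith
  rw [← hW, ← hTT, ← hXX, ← hip]
  have hThle : (2 : ℝ) ^ (2 * σ₁ * q * (J : ℝ)) * M₀ ≤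
      2 ^ ((δ + 6 * ε + σ) * q * J) * 2 ^ g it 2 / 2 ^ g it 3 := by
    rw [hM₀, hMt, ← mul_assoc, ← Real.rpow_add (by norm_num), mul_div_assoc]
    refine mul_le_mul_of_nonneg_right (hrp ?_) (by positivity)
    have := mul_le_mul_of_nonneg_right hσ₁σ (show 0 ≤ q * (J : ℝ) by positivity)
    linarith
  have hgrt : ∀ ω, B ω → ∀ τ ∈ Set.Icc (0 : ℝ) 1,
      |eval (fun o => (lc TT (slam F TT ω) o).eval τ) (pderiv (some (c 2))
        (HH ip (slam F W ω) 3 - GG it (ptr F J ω) 3))| ≤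
        2 ^ ((δ + 6 * ε + σ) * q * J) * 2 ^ g it 2 / 2 ^ g it 3 := by
    intro ω hω τ hτ
    have h1 := hBr ω hω 0 (by norm_num) τ hτ
    rw [hPPe ω (hB ω hω)] at h1
    exact h1.trans ((mul_le_mul_of_nonneg_right hexpC hM₀0.le).trans hThle)
  have hfc : ∀ k < N', ∀ v : ℝ, ∀ Y : ℕ, ndA N' V' A t q k = t + v * q →
      ndW N' V' V t q k = t + v * q → Y = ⌊(t + v * q) * (J : ℝ)⌋₊ →
      ⌊ndA N' V' A t q k * (J : ℝ)⌋₊ = Y ∧ ⌊ndW N' V' V t q k * (J : ℝ)⌋₊ = Y :=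
    fun k hk v Y h1 h2 h3 => by rw [h1, h2, h3]; exact ⟨rfl, rfl⟩
  obtain ⟨w1, w2⟩ := hfc iw hiw vw W iwA iwW hW
  obtain ⟨t1, t2⟩ := hfc it hit vt TT itA itW hTT
  obtain ⟨x1, x2⟩ := hfc ix hix vx X ixA ixW hXX
  exact gm_of N₀ hB hiwN hitN hixN hipN hRwt hRwx hRtx hRpx hXJ hTJ hWJ w1 w2 t1 t2 x1 x2 hip0
    hs₁σ hEm hgrp (fun ω hω l hl => by
      have h1 := hclo iw hiw ω hω l hl
      rwa [w2] at h1) (fun ω hω l hl => by
      have h1 := hclo it hit ω hω l hl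
      rwa [t2] at h1) (fun ω hω l hl => by
      have h1 := hclo ix hix ω hω l hl
      rwa [x2] at h1) (fun j hj => by
      rcases hj with h | h | h
      · rw [h]; exact hdeg iw hiw
      · rw [h]; exact hdeg it hit
      · rw [h]; exact hdeg ix hix) hgrt (fun ω hω => by
      refine (hT2 ω (hB ω hω)).trans ?_
      rw [hMt, mul_div_assoc]
      refine mul_le_mul_of_nonneg_right (hrp ?_) (by positivity)
      have := mul_le_mul_of_nonneg_right hσ₁σ (show 0 ≤ q * (J : ℝ) by positivity)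
      linarith) (fun ω hω => hT3 ω (hB ω hω))

end Pool.NDD66
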