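import Pool.Agent.H66.NDD.Rrl

/-!
# The linear relation of finitely many lines, over one near ball

`NrB`: two samples of one near ball. `lin_ev`: the relation of finitely many lines with weights, as
polynomials in the time. `pr_ev`: the relation of a pair of lines, weights `1`, `-1`.
-/

set_option autoImplicit false

namespace Pool.NDD66

open Finset Real MvPolynomial
open Pool.Agent.H49.Ent Pool.Agent.H32.Dense Pool.STK Pool.KA Pool.KSAT Pool.K2S Pool.PB Pool.S6C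
open Pool.GEN Pool.CHT Pool.D2R
open Pool.PB.Trl (rt rt_mem t_rt)

variable {m J : ℕ}

/-- **Two samples `ω`, `ν` of one near ball**: the charts `G` of the radius `2 ^ (-a)` are the same,
the times are the same, the heights over the charts `ψ` are near. -/
structure NrB (F : Fam m J) (c : ℕ → Fin m) (r w a k X : ℕ) (g gw : ℕ → ℕ) (A : F.Ω → Prop)
    (G : PtT F → ℕ → MvPolynomial (Option (Fin m)) ℝ)
    (H : LnT F → ℕ → MvPolynomial (Option (Fin m)) ℝ)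
    (ψ : ℕ → MvPolynomial (Option (Fin m)) ℝ) (ω ν : F.Ω) : Prop where
  hω : A ω
  hν : A ν
  chg : ∀ l ≤ r + 1, G (ptr F J ω) l = G (ptr F J ν) l
  tim : F.T ω = F.T ν
  dvn : ∀ l ≤ r + 1, ∀ τ ∈ Set.Icc (0 : ℝ) 1,
    |(dv w (fun s _ => H s l) (c l) (slam F w ν)).eval τ| ≤ 2 ^ k / 2 ^ g l
  cmp : ∀ l ≤ r + 1, ∃ κ : ℝ, ∀ b, NBx c (G (ptr F J ν)) g a (F.t ν) l b →
    |eval b (G (ptr F J ν) l) - eval b (ψ l) - κ| ≤ 2 ^ k / 2 ^ gw l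
  hgt : ∀ l ≤ r, |(F.x ω (c l) - eval (bt F ω) (ψ l)) - (F.x ν (c l) - eval (bt F ν) (ψ l))| ≤
    1 / 2 ^ (gw l + X)

theorem NrB.t {F : Fam m J} {c : ℕ → Fin m} {r w a k X : ℕ} {g gw : ℕ → ℕ} {A : F.Ω → Prop}
    {G : PtT F → ℕ → MvPolynomial (Option (Fin m)) ℝ}
    {H : LnT F → ℕ → MvPolynomial (Option (Fin m)) ℝ}
    {ψ : ℕ → MvPolynomial (Option (Fin m)) ℝ} {ω ν : F.Ω}
    (h : NrB F c r w a k X g gw A G H ψ ω ν) : F.t ω = F.t ν := by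
  unfold Fam.t
  rw [h.tim]

/-- **The relation of finitely many lines.** -/
theorem lin_ev (m D r : ℕ) : ∃ C : ℕ, 1 ≤ C ∧ ∀ {J : ℕ} {F : Fam m J} {c : ℕ → Fin m}
    {w a e k q X B : ℕ} {g gw : ℕ → ℕ} {A : F.Ω → Prop}
    {G : PtT F → ℕ → MvPolynomial (Option (Fin m)) ℝ}
    {H : LnT F → ℕ → MvPolynomial (Option (Fin m)) ℝ}
    {ψ : ℕ → MvPolynomial (Option (Fin m)) ℝ} {ι : Type} [Fintype ι] {lam : ι → ℝ}
    {ω ν : ι → F.Ω} {ω₀ : F.Ω} {ε : ℝ} (i₀ : ι), Set.InjOn c (Set.Iio (r + 2)) →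
    w ≤ a → a + 1 ≤ J → ChOK F c (r + 2) (fun _ => D) a w e g A G H →
    (∀ l ≤ r + 1, e + g l + C * (k + 1) ≤ J) → (∀ l, (ψ l).totalDegree ≤ D) →
    (∀ l, DepC c l (ψ l)) → (∀ l ≤ r, g l ≤ gw l + q) → gw (r + 1) ≤ g (r + 1) →
    (r + 1) * q + C * (k + 1) ≤ X → (∀ i, NrB F c r w a k X g gw A G H ψ (ω i) (ν i)) →
    (∀ i, F.T (ω i) = F.T ω₀) → |∑ i, lam i * ov F c ψ (ν i) (r + 1)| ≤ ε →
    (∀ i, ∀ l ≤ r, |ov F c ψ (ν i) l - ov F c ψ (ν i₀) l| ≤ 2 ^ w / 2 ^ (gw l + B)) →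
    (∀ i, ∀ l ≤ r, |ncp c (r + 1) ψ (H (slam F w (ω i)) (r + 1) - ψ (r + 1)) (bt F (ω i)) l| ≤
      2 ^ k * 2 ^ gw l / 2 ^ gw (r + 1)) →
    |(gA0 w c (r + 1) D ψ lam (fun i => slam F w (ω i))
        (fun i => H (slam F w (ω i)) (r + 1))).eval (rt F w ω₀) +
      ∑ l ∈ range (r + 1), (gA w c (r + 1) D ψ lam (fun i => slam F w (ω i))
        (fun i => H (slam F w (ω i)) (r + 1)) l).eval (rt F w ω₀) * ov F c ψ (ν i₀) l| ≤
      ε + (∑ i, |lam i|) * (2 ^ (C * (k + 1)) * (2 ^ a *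
        (1 / 2 ^ g (r + 1) + 2 ^ ((r + 1) * q) / 2 ^ (gw (r + 1) + X)) +
          2 ^ w / 2 ^ (gw (r + 1) + B))) := by
  classical
  obtain ⟨C₁, hC₁, hrel⟩ := row_rel m D r
  obtain ⟨C, hC⟩ : ∃ C : ℕ, C = C₁ + r + 1 := ⟨_, rfl⟩
  refine ⟨C, by omega, ?_⟩
  intro J F c w a e k q X B g gw A G H ψ ι _ lam ω ν ω₀ ε i₀ hc hwa haJ hrw hJ hψ hdep hg hgr hX
    hN hT hS hnear hgrd
  have hCk : C * (k + 1) = C₁ * (k + 1) + r * (k + 1) + (k + 1) := by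
    rw [hC]
    ring
  have hci : Set.InjOn c (Set.Iio (r + 1)) := hc.mono fun y hy => by
    rw [Set.mem_Iio] at hy ⊢
    omega
  have hwJ : w ≤ J := by omega
  have h1 := lin_alg i₀ lam (fun i => nct c (r + 1) ψ (H (slam F w (ω i)) (r + 1) - ψ (r + 1))
      (bt F (ω i))) (fun i l => ncp c (r + 1) ψ (H (slam F w (ω i)) (r + 1) - ψ (r + 1))
      (bt F (ω i)) l) (fun i l => ov F c ψ (ν i) l) (r + 1) (ε := ε)
      (ε₀ := 2 ^ (C₁ * (k + 1)) * 2 ^ a *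
        (1 / 2 ^ g (r + 1) + 2 ^ ((r + 1) * q) / 2 ^ (gw (r + 1) + X)))
      (β := fun l => 2 ^ w / 2 ^ (gw l + B)) (γ := fun l => 2 ^ k * 2 ^ gw l / 2 ^ gw (r + 1))
      (fun i => hrel hc hwa haJ hrw (fun l hl => by
        have := hJ l hl
        rw [hCk] at this
        omega) hψ hdep hg hgr (by omega) (ω i) (ν i) (hN i).hω (hN i).hν (hN i).chg (hN i).t
        (hN i).dvn (hN i).cmp (hN i).hgt) hS (fun i l hl => hnear i l (by omega))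
      (fun i l hl => hgrd i l (by omega))
  rw [gA0_eval hwJ hci hψ hdep lam hT (fun i => hrw.degH _ _) (fun i => hrw.depH _ _)]
  have e1 : ∑ l ∈ range (r + 1), (gA w c (r + 1) D ψ lam (fun i => slam F w (ω i))
        (fun i => H (slam F w (ω i)) (r + 1)) l).eval (rt F w ω₀) * ov F c ψ (ν i₀) l =
      ∑ l ∈ range (r + 1), (∑ i, lam i * ncp c (r + 1) ψ
        (H (slam F w (ω i)) (r + 1) - ψ (r + 1)) (bt F (ω i)) l) * ov F c ψ (ν i₀) l := by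
    refine Finset.sum_congr rfl fun l hl => ?_
    rw [gA_eval hwJ hci hψ hdep lam hT (fun i => hrw.degH _ _) (fun i => hrw.depH _ _)
      (Finset.mem_range.1 hl)]
  rw [e1]
  refine h1.trans (add_le_add le_rfl (mul_le_mul_of_nonneg_left ?_
    (Finset.sum_nonneg fun i _ => abs_nonneg _)))
  obtain ⟨E, hE⟩ : ∃ E : ℝ, E = 2 ^ (C * (k + 1)) := ⟨_, rfl⟩
  have h2 : (2 : ℝ) ^ (C₁ * (k + 1)) ≤ E := by
    rw [hE]
    refine pow_le_pow_right₀ (by norm_num) ?_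
    rw [hCk]
    omega
  have h3 : ∑ l ∈ range (r + 1), (2 : ℝ) ^ k * 2 ^ gw l / 2 ^ gw (r + 1) *
      (2 ^ w / 2 ^ (gw l + B)) ≤ E * (2 ^ w / 2 ^ (gw (r + 1) + B)) := by
    have e2 : ∀ l ∈ range (r + 1), (2 : ℝ) ^ k * 2 ^ gw l / 2 ^ gw (r + 1) *
        (2 ^ w / 2 ^ (gw l + B)) = 2 ^ k * (2 ^ w / 2 ^ (gw (r + 1) + B)) := by
      intro l _
      rw [pow_add, pow_add]
      field_simp
    rw [Finset.sum_congr rfl e2, Finset.sum_const, Finset.card_range, nsmul_eq_mul, ← mul_assoc]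
    refine mul_le_mul_of_nonneg_right ?_ (by positivity)
    have h4 : ((r + 1 : ℕ) : ℝ) ≤ 2 ^ (r + 1) := by
      exact_mod_cast (Nat.lt_two_pow_self (n := r + 1)).le
    calc ((r + 1 : ℕ) : ℝ) * 2 ^ k ≤ 2 ^ (r + 1) * 2 ^ k :=
          mul_le_mul_of_nonneg_right h4 (by positivity)
      _ ≤ E := by
          rw [hE, ← pow_add]
          refine pow_le_pow_right₀ (by norm_num) ?_
          rw [hCk]
          nlinarith [Nat.zero_le (C₁ * (k + 1)), Nat.zero_le (r * k)]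
  rw [← hE]
  have h4 : (2 : ℝ) ^ (C₁ * (k + 1)) * 2 ^ a *
      (1 / 2 ^ g (r + 1) + 2 ^ ((r + 1) * q) / 2 ^ (gw (r + 1) + X)) ≤ E * (2 ^ a *
      (1 / 2 ^ g (r + 1) + 2 ^ ((r + 1) * q) / 2 ^ (gw (r + 1) + X))) := by
    rw [mul_assoc]
    exact mul_le_mul_of_nonneg_right h2 (by positivity)
  calc _ ≤ E * (2 ^ a * (1 / 2 ^ g (r + 1) + 2 ^ ((r + 1) * q) / 2 ^ (gw (r + 1) + X))) +
        E * (2 ^ w / 2 ^ (gw (r + 1) + B)) := add_le_add h4 h3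
    _ = _ := by ring

/-- Near own paths have near own velocities. -/
theorem ov_near (D : ℕ) : ∃ C : ℕ, 1 ≤ C ∧ ∀ {m J : ℕ} {F : Fam m J} {c : ℕ → Fin m} {w : ℕ}
    {ψ : ℕ → MvPolynomial (Option (Fin m)) ℝ} {ν ν' : F.Ω} {l : ℕ} {κ δ : ℝ}, w ≤ J →
    (∀ l, (ψ l).totalDegree ≤ D) → rt F w ν = rt F w ν' →
    (∀ τ ∈ Set.Icc (0 : ℝ) 1, |(op w c ψ (slam F w ν) l).eval τ -
      (op w c ψ (slam F w ν') l).eval τ - κ| ≤ δ) →
    |ov F c ψ ν l - ov F c ψ ν' l| ≤ 2 ^ C * 2 ^ w * δ := by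
  obtain ⟨C₁, hC₁, hder⟩ := der_one (D + 1)
  obtain ⟨c₁, hc₁⟩ := pow_unbounded_of_one_lt C₁ (one_lt_two (α := ℝ))
  refine ⟨c₁ + 1, by omega, ?_⟩
  intro m J F c w ψ ν ν' l κ δ hwJ hψ hrt h
  have hδ : 0 ≤ δ := (abs_nonneg _).trans (h 0 ⟨le_rfl, zero_le_one⟩)
  obtain ⟨f, hf⟩ : ∃ f : Polynomial ℝ, f = op w c ψ (slam F w ν) l - op w c ψ (slam F w ν') l -
    Polynomial.C κ := ⟨_, rfl⟩
  have hfd : f.natDegree ≤ D + 1 := by
    rw [hf]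
    refine (Polynomial.natDegree_sub_C).le.trans ((Polynomial.natDegree_sub_le _ _).trans
      (max_le (op_deg w c hψ _ _) (op_deg w c hψ _ _)))
  have h1 := hder f δ hfd (fun τ hτ => by
    rw [hf]
    simp only [Polynomial.eval_sub, Polynomial.eval_C]
    exact h τ hτ) (rt F w ν) (by
    have := rt_mem F w ν
    rw [abs_of_nonneg this.1]
    exact this.2)
  have h2 : (Polynomial.derivative f).eval (rt F w ν) =
      1 / 2 ^ w * (ov F c ψ ν l - ov F c ψ ν' l) := by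
    rw [hf]
    simp only [Polynomial.derivative_sub, Polynomial.derivative_C, sub_zero, Polynomial.eval_sub]
    rw [op_der hwJ c ψ ν l, hrt, op_der hwJ c ψ ν' l]
    ring
  rw [h2, abs_mul, abs_of_pos (show (0 : ℝ) < 1 / 2 ^ w by positivity), one_div_mul_eq_div,
    div_le_iff₀ (by positivity)] at h1
  refine h1.trans ?_
  have h3 : C₁ ≤ 2 ^ (c₁ + 1) := hc₁.le.trans (pow_le_pow_right₀ (by norm_num) (by omega))
  calc C₁ * δ * 2 ^ w ≤ 2 ^ (c₁ + 1) * δ * 2 ^ w :=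
        mul_le_mul_of_nonneg_right (mul_le_mul_of_nonneg_right h3 hδ) (by positivity)
    _ = _ := by ring

/-- The weights of a pair. -/
def prl (i : Fin 2) : ℝ := if i = 0 then -1 else 1

/-- **The relation of a pair of lines**: the lines `ν 0`, `ν 1` have near own paths, up to the
constant of the target. -/
theorem pr_ev (m D r : ℕ) : ∃ C : ℕ, 1 ≤ C ∧ ∀ {J : ℕ} {F : Fam m J} {c : ℕ → Fin m}
    {w a e k q X B : ℕ} {g gw : ℕ → ℕ} {A : F.Ω → Prop}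
    {G : PtT F → ℕ → MvPolynomial (Option (Fin m)) ℝ}
    {H : LnT F → ℕ → MvPolynomial (Option (Fin m)) ℝ}
    {ψ : ℕ → MvPolynomial (Option (Fin m)) ℝ} {ω ν : Fin 2 → F.Ω} {δ : ℝ},
    Set.InjOn c (Set.Iio (r + 2)) →
    w ≤ a → a + 1 ≤ J → ChOK F c (r + 2) (fun _ => D) a w e g A G H →
    (∀ l ≤ r + 1, e + g l + C * (k + 1) ≤ J) → (∀ l, (ψ l).totalDegree ≤ D) →
    (∀ l, DepC c l (ψ l)) → (∀ l ≤ r, g l ≤ gw l + q) → gw (r + 1) ≤ g (r + 1) →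
    (r + 1) * q + C * (k + 1) ≤ X → (∀ i, NrB F c r w a k X g gw A G H ψ (ω i) (ν i)) →
    F.T (ω 1) = F.T (ω 0) →
    (∀ l ≤ r, ∀ τ ∈ Set.Icc (0 : ℝ) 1, |(op w c ψ (slam F w (ν 1)) l).eval τ -
      (op w c ψ (slam F w (ν 0)) l).eval τ| ≤ 1 / 2 ^ (gw l + B + C)) →
    (∃ κ : ℝ, ∀ τ ∈ Set.Icc (0 : ℝ) 1, |(op w c ψ (slam F w (ν 1)) (r + 1)).eval τ -
      (op w c ψ (slam F w (ν 0)) (r + 1)).eval τ - κ| ≤ δ) →
    (∀ i, ∀ l ≤ r, |ncp c (r + 1) ψ (H (slam F w (ω i)) (r + 1) - ψ (r + 1)) (bt F (ω i)) l| ≤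
      2 ^ k * 2 ^ gw l / 2 ^ gw (r + 1)) →
    |(gA0 w c (r + 1) D ψ prl (fun i => slam F w (ω i))
        (fun i => H (slam F w (ω i)) (r + 1))).eval (rt F w (ω 0)) +
      ∑ l ∈ range (r + 1), (gA w c (r + 1) D ψ prl (fun i => slam F w (ω i))
        (fun i => H (slam F w (ω i)) (r + 1)) l).eval (rt F w (ω 0)) * ov F c ψ (ν 0) l| ≤
      2 ^ (C * (k + 1)) * (2 ^ w * δ + 2 ^ a *
        (1 / 2 ^ g (r + 1) + 2 ^ ((r + 1) * q) / 2 ^ (gw (r + 1) + X)) +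
          2 ^ w / 2 ^ (gw (r + 1) + B)) := by
  classical
  obtain ⟨C₁, hC₁, hlin⟩ := lin_ev m D r
  obtain ⟨C₂, hC₂, hov⟩ := ov_near D
  obtain ⟨C, hC⟩ : ∃ C : ℕ, C = C₁ + C₂ + 1 := ⟨_, rfl⟩
  refine ⟨C, by omega, ?_⟩
  intro J F c w a e k q X B g gw A G H ψ ω ν δ hc hwa haJ hrw hJ hψ hdep hg hgr hX hN hT hx hn
    hgrd
  have hCk : C * (k + 1) = C₁ * (k + 1) + C₂ * (k + 1) + (k + 1) := by
    rw [hC]
    ring
  have hwJ : w ≤ J := by omega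
  have hTν : ∀ i, F.T (ν i) = F.T (ω 0) := by
    intro i
    rw [← (hN i).tim]
    fin_cases i
    · rfl
    · exact hT
  have hTω : ∀ i, F.T (ω i) = F.T (ω 0) := by
    intro i
    fin_cases i
    · rfl
    · exact hT
  have hrt : rt F w (ν 1) = rt F w (ν 0) := rt_congr ((hTν 1).trans (hTν 0).symm)
  obtain ⟨κ, hκ⟩ := hn
  have hδ0 : 0 ≤ δ := (abs_nonneg _).trans (hκ 0 ⟨le_rfl, zero_le_one⟩)
  have h2C : (1 : ℝ) ≤ 2 ^ (C₂ + C₂) := one_le_pow₀ (by norm_num)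
  have hv : ∀ l ≤ r, |ov F c ψ (ν 1) l - ov F c ψ (ν 0) l| ≤ 2 ^ w / 2 ^ (gw l + B) := by
    intro l hl
    refine (hov (κ := 0) (δ := 1 / 2 ^ (gw l + B + C)) hwJ hψ hrt (fun τ hτ => by
      rw [sub_zero]
      exact hx l hl τ hτ)).trans ?_
    have e1 : (2 : ℝ) ^ C₂ * 2 ^ w * (1 / 2 ^ (gw l + B + C)) =
        2 ^ w / 2 ^ (gw l + B) * (2 ^ C₂ / 2 ^ C) := by
      rw [pow_add _ (gw l + B) C]
      field_simp
    rw [e1]
    refine mul_le_of_le_one_right (by positivity) ?_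
    rw [div_le_one (by positivity)]
    exact pow_le_pow_right₀ (by norm_num) (by omega)
  have hv3 := hov (κ := κ) (δ := δ) hwJ hψ hrt hκ
  have hsum : ∀ f : Fin 2 → ℝ, ∑ i, prl i * f i = f 1 - f 0 := by
    intro f
    rw [Fin.sum_univ_two]
    unfold prl
    rw [if_pos rfl, if_neg (by decide)]
    ring
  have hlam : ∑ i, |prl i| = 2 := by
    rw [Fin.sum_univ_two]
    unfold prl
    rw [if_pos rfl, if_neg (by decide), abs_neg, abs_one]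
    norm_num
  have h1 := hlin (B := B) (lam := prl) (ω₀ := ω 0) (ε := 2 ^ C₂ * 2 ^ w * δ) 0 hc hwa haJ hrw
    (fun l hl => by
      have := hJ l hl
      rw [hCk] at this
      omega) hψ hdep hg hgr (by omega) hN hTω (by
      rw [hsum (fun i => ov F c ψ (ν i) (r + 1))]
      exact hv3) (fun i l hl => by
      fin_cases i
      · show |ov F c ψ (ν 0) l - ov F c ψ (ν 0) l| ≤ _
        rw [sub_self, abs_zero]
        positivity
      · exact hv l hl) hgrd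
  rw [hlam] at h1
  refine h1.trans ?_
  obtain ⟨E, hE⟩ : ∃ E : ℝ, E = 2 ^ (C * (k + 1)) := ⟨_, rfl⟩
  have hE0 : 0 < E := by rw [hE]; positivity
  have h2 : (2 : ℝ) ^ C₂ ≤ E := by
    rw [hE]
    refine pow_le_pow_right₀ (by norm_num) ?_
    rw [hCk]
    have : C₂ ≤ C₂ * (k + 1) := Nat.le_mul_of_pos_right _ (Nat.succ_pos k)
    omega
  have h3 : 2 * (2 : ℝ) ^ (C₁ * (k + 1)) ≤ E := by
    rw [hE, mul_comm, ← pow_succ]
    refine pow_le_pow_right₀ (by norm_num) ?_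
    rw [hCk]
    omega
  rw [← hE]
  obtain ⟨R, hR⟩ : ∃ R : ℝ, R = 2 ^ a *
    (1 / 2 ^ g (r + 1) + 2 ^ ((r + 1) * q) / 2 ^ (gw (r + 1) + X)) +
      2 ^ w / 2 ^ (gw (r + 1) + B) := ⟨_, rfl⟩
  have hR0 : 0 ≤ R := by rw [hR]; positivity
  have e1 : E * (2 ^ w * δ + 2 ^ a * (1 / 2 ^ g (r + 1) + 2 ^ ((r + 1) * q) /
      2 ^ (gw (r + 1) + X)) + 2 ^ w / 2 ^ (gw (r + 1) + B)) = E * (2 ^ w * δ) + E * R := by
    rw [hR]
    ring
  rw [e1, ← hR]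
  have h4 : 2 ^ C₂ * 2 ^ w * δ ≤ E * (2 ^ w * δ) := by
    rw [mul_assoc]
    exact mul_le_mul_of_nonneg_right h2 (by positivity)
  have h5 : 2 * ((2 : ℝ) ^ (C₁ * (k + 1)) * R) ≤ E * R := by
    rw [← mul_assoc]
    exact mul_le_mul_of_nonneg_right h3 hR0
  exact add_le_add h4 h5

end Pool.NDD66
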