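import Pool.Agent.H66.NDD.Grd
import Pool.Agent.H73.D2.Rdp

/-!
# The velocity of a ball chart at two samples of one exact point

`moved_close`: two samples `ω`, `ν` of one exact point: the derivative of a ball chart in the
direction of `ν` is the same at both, up to `2 ^ w / 2 ^ (g l + X)`. `node_der`: the derivative of a
polynomial which is small at nodes.
-/

set_option autoImplicit false

namespace Pool.NDD66

open Finset Real MvPolynomial
open Pool.Agent.H49.Ent Pool.Agent.H32.Dense Pool.STK Pool.KA Pool.KSAT Pool.K2S Pool.PB Pool.S6C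
open Pool.GEN Pool.CHT Pool.D2R
open Pool.PB.Trl (rt rt_mem t_rt)

variable {m J : ℕ}

/-- **A polynomial and its derivative at two samples of one exact point.** -/
theorem moved_gen (m D r : ℕ) : ∃ C : ℕ, 1 ≤ C ∧ ∀ {J : ℕ} {F : Fam m J} {c : ℕ → Fin m}
    {w e e' k X : ℕ} {g : ℕ → ℕ} {A : F.Ω → Prop}
    {G : PtT F → ℕ → MvPolynomial (Option (Fin m)) ℝ}
    {H : LnT F → ℕ → MvPolynomial (Option (Fin m)) ℝ}, Set.InjOn c (Set.Iio (r + 1)) →
    w ≤ J → ChOK F c (r + 1) (fun _ => D) w w e g A G H →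
    (∀ l ≤ r, e + g l + C * (k + 1) ≤ J) →
    (∀ l ≤ r, e' + g l + X + C * (k + 1) ≤ J) → ∀ ω ν, A ω → A ν → ptr F J ω = ptr F J ν →
    (∀ l ≤ r, ∀ τ ∈ Set.Icc (0 : ℝ) 1,
      |(dv w (fun s _ => H s l) (c l) (slam F w ν)).eval τ| ≤ 2 ^ k / 2 ^ g l) → ∀ l ≤ r,
    ∀ P : MvPolynomial (Option (Fin m)) ℝ, P.totalDegree ≤ D → DepC c l P →
    (∀ b, NBx c (G (ptr F J ω)) g w (F.t ω) l b → ∀ j < l,
      |eval b (pderiv (some (c j)) P)| ≤ 2 ^ (e' + nlp g j l)) →
    |eval (bt F ω) P - eval (bt F ν) P| ≤ 1 / 2 ^ (g l + X) ∧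
    |dd P (bt F ω) (bd F ν) - dd P (bt F ν) (bd F ν)| ≤
        2 ^ (C * (k + 1)) * 2 ^ w / 2 ^ (g l + X) := by
  classical
  obtain ⟨C₁, hC₁, hpb⟩ := path_box m D r
  obtain ⟨c₀, D₁, hD₁, hdil⟩ := nbx_dil (r + 2) (fun _ => D)
  obtain ⟨C₂, hC₂, hder⟩ := der_one D
  obtain ⟨c₂, hc₂⟩ := pow_unbounded_of_one_lt C₂ (one_lt_two (α := ℝ))
  obtain ⟨C, hC⟩ : ∃ C : ℕ, C = C₁ + c₀ + C₁ * D₁ + m + 1 + c₂ := ⟨_, rfl⟩
  refine ⟨C, by omega, ?_⟩
  intro J F c w e e' k X g A G H hc hwJ hch hJe hJ ω ν hω hν hpt hdv l hl P hPd hPp hPl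
  obtain ⟨hT, htn, hx⟩ := bt_near hpt
  have hFt : F.t ω = F.t ν := htn
  have hCm : C * (k + 1) = C₁ * (k + 1) + c₀ * (k + 1) + C₁ * D₁ * (k + 1) + (m + 1) * (k + 1) +
      c₂ * (k + 1) := by
    rw [hC]
    ring
  have hk1 : ∀ n : ℕ, n ≤ n * (k + 1) := fun n => Nat.le_mul_of_pos_right _ (Nat.succ_pos k)
  have hJ₁ : ∀ l ≤ r, e + g l + C₁ * (k + 1) ≤ J := by
    intro l hl
    have h1 := hJe l hl
    rw [hCm] at h1
    omega
  obtain ⟨δ, hδ⟩ : ∃ δ : Option (Fin m) → ℝ, δ = fun o => bt F ω o - bt F ν o := ⟨_, rfl⟩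
  have hδ0 : δ none = 0 := by
    rw [hδ]
    show bt F ω none - bt F ν none = 0
    rw [htn, sub_self]
  have hδj : ∀ j, |δ (some j)| ≤ 1 / 2 ^ J := by
    intro j
    rw [hδ]
    exact hx j
  have hbn : ∀ τ ∈ Set.Icc (0 : ℝ) 1, |(lc w (slam F w ν) none).eval τ - F.t ν| ≤ 1 / 2 ^ w := by
    intro τ hτ
    have h1 := t_rt F hwJ ν
    have h2 : (lc w (slam F w ν) none).eval τ = (((slam F w ν).2.2 : ℝ) + τ) / 2 ^ w := by
      simp only [lc, Polynomial.eval_add, Polynomial.eval_mul, Polynomial.eval_C,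
        Polynomial.eval_X]
      ring
    rw [h2, h1, ← sub_div, abs_div, abs_of_pos (show (0 : ℝ) < 2 ^ w by positivity)]
    refine div_le_div_of_nonneg_right ?_ (by positivity)
    have h3 := rt_mem F w ν
    rw [abs_le]
    constructor <;> linarith [hτ.1, hτ.2, h3.1, h3.2]
  -- the derivative along the segment
  have h3 : ∀ τ ∈ Set.Icc (0 : ℝ) 1, ∀ u ∈ Set.Icc (0 : ℝ) 1,
      |dd P (fun o => (lc w (slam F w ν) o).eval τ + u * δ o) δ| ≤ 1 / 2 ^ (g l + X) := by
    intro τ hτ u hu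
    unfold dd
    refine (Finset.abs_sum_le_sum_abs _ _).trans ?_
    have h4 : ∀ o ∈ (Finset.univ : Finset (Option (Fin m))),
        |eval (fun o => (lc w (slam F w ν) o).eval τ + u * δ o) (pderiv o P) * δ o| ≤
          1 / 2 ^ (g l + X + (m + 1)) := by
      intro o _
      have hpos : (0 : ℝ) ≤ 1 / 2 ^ (g l + X + (m + 1)) := by positivity
      cases o with
      | none =>
        rw [hδ0, mul_zero, abs_zero]
        exact hpos
      | some i =>
        by_cases hi : ∃ j < l, c j = i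
        · obtain ⟨j, hj, rfl⟩ := hi
          have h5 := hdil (c := c) (i := l) (G := G (ptr F J ν))
            (Q := pderiv (some (c j)) P) (g := g) (a := w) (t := F.t ν)
            (M := 2 ^ (e' + nlp g j l)) (C₁ * (k + 1)) (by omega)
            (hc.mono fun x hx => by rw [Set.mem_Iio] at hx ⊢; omega) (hch.degG _) (hch.depG _)
            (DepC.pderiv hPp j) (totalDegree_pdσ hPd _) (by positivity)
            (fun b' hb' => by
              rw [← hpt, ← hFt] at hb'
              exact hPl b' hb' j hj)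
            (fun o => (lc w (slam F w ν) o).eval τ + u * δ o) (by
              show |(lc w (slam F w ν) none).eval τ + u * δ none - F.t ν| ≤ _
              rw [hδ0, mul_zero, add_zero]
              exact hbn τ hτ) (fun i hi => by
                have h6 := hpb hc hwJ hch hJ₁ ω ν hω hν hpt hdv τ hτ u hu i (by omega)
                rw [hpt] at h6
                rw [hδ]
                exact h6)
          rw [abs_mul]
          refine (mul_le_mul h5 (hδj _) (abs_nonneg _) (by positivity)).trans ?_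
          rw [← pow_add, mul_one_div, div_le_div_iff₀ (by positivity) (by positivity),
            one_mul, ← pow_add]
          refine pow_le_pow_right₀ (by norm_num) ?_
          obtain ⟨i, hi1, hi2⟩ := Finset.exists_mem_eq_sup (Finset.Icc j l)
            ⟨j, Finset.mem_Icc.2 ⟨le_rfl, hj.le⟩⟩ g
          have hi3 := (Finset.mem_Icc.1 hi1).2
          have h6 := hJ i (by omega)
          have h7 : nlp g j l = (Finset.Icc j l).sup g - g l := rfl
          have h8 : g l ≤ (Finset.Icc j l).sup g :=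
            Finset.le_sup (f := g) (Finset.mem_Icc.2 ⟨hj.le, le_rfl⟩)
          rw [hi2] at h7 h8
          rw [hCm] at h6
          have h9 := hk1 c₀
          have h10 := hk1 (m + 1)
          have h11 : C₁ * (k + 1) * D₁ = C₁ * D₁ * (k + 1) := by ring
          omega
        · rw [pd_zero hPp (fun j hj h' => hi ⟨j, hj, h'⟩), zero_mul, abs_zero]
          exact hpos
    refine (Finset.sum_le_sum h4).trans ?_
    rw [Finset.sum_const, Finset.card_univ, Fintype.card_option, Fintype.card_fin,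
      nsmul_eq_mul, mul_one_div, pow_add _ (g l + X), div_le_div_iff₀ (by positivity)
        (by positivity), one_mul]
    have h5 : (((m + 1 : ℕ)) : ℝ) ≤ 2 ^ (m + 1) := by
      have := Nat.lt_two_pow_self (n := m + 1)
      exact_mod_cast this.le
    calc ((m + 1 : ℕ) : ℝ) * 2 ^ (g l + X) ≤ 2 ^ (m + 1) * 2 ^ (g l + X) :=
          mul_le_mul_of_nonneg_right h5 (by positivity)
      _ = _ := mul_comm _ _
  -- the two curves
  obtain ⟨p, hp⟩ : ∃ p : Option (Fin m) → Polynomial ℝ, p = fun o =>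
      lc w (slam F w ν) o + Polynomial.C (δ o) := ⟨_, rfl⟩
  have hpe : ∀ o s, (p o).eval s = (lc w (slam F w ν) o).eval s + δ o := by
    intro o s
    rw [hp]
    simp only [Polynomial.eval_add, Polynomial.eval_C]
  have hpd : ∀ o, (p o).natDegree ≤ 1 := by
    intro o
    rw [hp]
    refine (Polynomial.natDegree_add_le _ _).trans (max_le (natDegree_lc _ _ _) ?_)
    rw [Polynomial.natDegree_C]
    exact Nat.zero_le _
  have hx0 : ∀ o, (p o).eval (rt F w ν) = bt F ω o := by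
    intro o
    rw [hpe, eval_lc F hwJ, hδ]
    ring
  have hx0' : ∀ o, (lc w (slam F w ν) o).eval (rt F w ν) = bt F ν o := fun o => by
    rw [eval_lc F hwJ]
  have hdp' : ∀ o, Polynomial.derivative (lc w (slam F w ν) o) =
      Polynomial.C (1 / 2 ^ w * bd F ν o) := fun o => der_lc F w ν o
  have hdp : ∀ o, Polynomial.derivative (p o) = Polynomial.C (1 / 2 ^ w * bd F ν o) := by
    intro o
    rw [hp]
    simp only [Polynomial.derivative_add, Polynomial.derivative_C, add_zero]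
    exact hdp' o
  have hcv := (der_curve p (x := bt F ω) (V := (1 / 2 ^ w : ℝ) • bd F ν) (Z := 0)
    (s := rt F w ν) hx0 (fun o => by rw [hdp, Polynomial.eval_C]; rfl) (fun o => by
      rw [hdp, Polynomial.derivative_C, Polynomial.eval_zero]; rfl) P).1
  have hcv' := (der_curve (lc w (slam F w ν)) (x := bt F ν) (V := (1 / 2 ^ w : ℝ) • bd F ν)
    (Z := 0) (s := rt F w ν) hx0' (fun o => by rw [hdp', Polynomial.eval_C]; rfl) (fun o => by
      rw [hdp', Polynomial.derivative_C, Polynomial.eval_zero]; rfl) P).1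
  obtain ⟨q, hq⟩ : ∃ q : Polynomial ℝ, q = MvPolynomial.aeval p P -
      MvPolynomial.aeval (lc w (slam F w ν)) P := ⟨_, rfl⟩
  have hqd : q.natDegree ≤ D := by
    rw [hq]
    exact (Polynomial.natDegree_sub_le _ _).trans (max_le
      (Pool.KBX.natDegree_aeval_le _ _ hpd hPd)
      (Pool.KBX.natDegree_aeval_le _ _ (natDegree_lc _ _) hPd))
  have hqb : ∀ τ ∈ Set.Icc (0 : ℝ) 1, |q.eval τ| ≤ 1 / 2 ^ (g l + X) := by
    intro τ hτ
    have h1 := mv_seg P (fun o => (lc w (slam F w ν) o).eval τ) δ (h3 τ hτ) 1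
      ⟨zero_le_one, le_rfl⟩
    rw [hq, Polynomial.eval_sub, Pool.KBX.eval_aeval_poly, Pool.KBX.eval_aeval_poly]
    have e1 : (fun o => (p o).eval τ) = fun o => (lc w (slam F w ν) o).eval τ + 1 * δ o := by
      funext o
      rw [hpe, one_mul]
    rw [e1]
    exact h1
  have hrt := rt_mem F w ν
  have hd := hder q _ hqd hqb (rt F w ν) (by
    rw [abs_of_nonneg hrt.1]
    exact hrt.2)
  rw [hq, Polynomial.derivative_sub, Polynomial.eval_sub, hcv, hcv', dd_smul, dd_smul, ← mul_sub,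
    abs_mul, abs_of_pos (show (0 : ℝ) < 1 / 2 ^ w by positivity), one_div_mul_eq_div,
    div_le_iff₀ (by positivity : (0 : ℝ) < 2 ^ w)] at hd
  refine ⟨?_, hd.trans ?_⟩
  · have h1 := mv_seg P (fun o => (lc w (slam F w ν) o).eval (rt F w ν)) δ (h3 _ hrt) 1
      ⟨zero_le_one, le_rfl⟩
    have e1 : (fun o => (lc w (slam F w ν) o).eval (rt F w ν) + 1 * δ o) = bt F ω := by
      funext o
      rw [hx0', hδ]
      ring
    have e2 : (fun o => (lc w (slam F w ν) o).eval (rt F w ν)) = bt F ν := funext hx0'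
    rw [e1, e2] at h1
    exact h1
  have e2 : C₂ * (1 / 2 ^ (g l + X)) * 2 ^ w = C₂ * 2 ^ w / 2 ^ (g l + X) := by ring
  rw [e2]
  refine div_le_div_of_nonneg_right (mul_le_mul_of_nonneg_right (hc₂.le.trans ?_) (by positivity))
    (by positivity)
  refine pow_le_pow_right₀ (by norm_num) ?_
  rw [hCm]
  have := hk1 c₂
  omega

/-- **The velocity of a ball chart at two samples of one exact point.** -/
theorem moved_close (m D r : ℕ) : ∃ C : ℕ, 1 ≤ C ∧ ∀ {J : ℕ} {F : Fam m J} {c : ℕ → Fin m}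
    {w e k X : ℕ} {g : ℕ → ℕ} {A : F.Ω → Prop}
    {G : PtT F → ℕ → MvPolynomial (Option (Fin m)) ℝ}
    {H : LnT F → ℕ → MvPolynomial (Option (Fin m)) ℝ}, Set.InjOn c (Set.Iio (r + 1)) →
    w ≤ J → ChOK F c (r + 1) (fun _ => D) w w e g A G H →
    (∀ l ≤ r, e + g l + X + C * (k + 1) ≤ J) → ∀ ω ν, A ω → A ν → ptr F J ω = ptr F J ν →
    (∀ l ≤ r, ∀ τ ∈ Set.Icc (0 : ℝ) 1,
      |(dv w (fun s _ => H s l) (c l) (slam F w ν)).eval τ| ≤ 2 ^ k / 2 ^ g l) → ∀ l ≤ r,
    |dd (G (ptr F J ω) l) (bt F ω) (bd F ν) - dd (G (ptr F J ω) l) (bt F ν) (bd F ν)| ≤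
        2 ^ (C * (k + 1)) * 2 ^ w / 2 ^ (g l + X) := by
  obtain ⟨C, hC, h⟩ := moved_gen m D r
  refine ⟨C, hC, ?_⟩
  intro J F c w e k X g A G H hc hwJ hch hJ ω ν hω hν hpt hdv l hl
  exact (h hc hwJ hch (fun l hl => by
    have := hJ l hl
    omega) hJ ω ν hω hν hpt hdv l hl _ (hch.degG _ l) (hch.depG _ l) fun b hb j hj =>
      hch.lip ω hω l (by omega) b hb j hj).2

/-- **The derivative of a polynomial which is small at nodes.** -/
theorem node_der (K : ℕ) : ∃ C : ℝ, 1 ≤ C ∧ ∀ (P : Polynomial ℝ), P.natDegree ≤ K →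
    ∀ (x : Fin (K + 1) → ℝ) {s η y : ℝ}, 0 < s → (∀ i j, i ≠ j → s ≤ |x i - x j|) →
    (∀ i, x i ∈ Set.Icc (0 : ℝ) 1) → 0 ≤ η → (∀ i, |P.eval (x i)| ≤ η) →
    y ∈ Set.Icc (0 : ℝ) 1 → |P.derivative.eval y| ≤ C * (1 / s) ^ K * η := by
  obtain ⟨C, hC, hder⟩ := der_one K
  refine ⟨C * (K + 1), one_le_mul_of_one_le_of_one_le hC (by
    have : (0 : ℝ) ≤ K := Nat.cast_nonneg K
    linarith), ?_⟩
  intro P hP x s η y hs hx hx01 hη h hy
  have h1 : ∀ t ∈ Set.Icc (0 : ℝ) 1, |P.eval t| ≤ (K + 1) * η * (1 / s) ^ K := by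
    intro t ht
    refine Pool.D2G30.lag_bound P hP x hs hx (fun i => ?_) hη h
    have := hx01 i
    rw [abs_le]
    constructor <;> linarith [ht.1, ht.2, this.1, this.2]
  refine (hder P _ hP h1 y (by
    rw [abs_of_nonneg hy.1]
    exact hy.2)).trans (le_of_eq ?_)
  ring

end Pool.NDD66
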