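import Pool.Agent.H66.NDD.Mov
import Pool.Agent.H23.D2.Fib
import Pool.Agent.H64.AO.Pol

/-!
# Divided differences of gradients, as polynomials in the time

`nct`, `ncp`: the natural components of a covector. `nat_pol`: they are polynomials. `dA0`, `dA`: the
divided differences of the natural components of row labels of finitely many lines, as polynomials in
the relative time; they are functions of the lines.
-/

set_option autoImplicit false

namespace Pool.NDD66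

open Finset Real MvPolynomial
open Pool.Agent.H49.Ent Pool.Agent.H32.Dense Pool.STK Pool.KA Pool.KSAT Pool.K2S Pool.PB Pool.S6C
open Pool.GEN Pool.CHT Pool.D2R
open Pool.PB.Trl (rt rt_mem t_rt)
open Pool.TT37 (pj)

variable {m J : ℕ}

open Classical in
/-- **The natural time component** of the covector `dQ` at the point `x`, for the charts `ψ`. -/
noncomputable def nct (c : ℕ → Fin m) (r : ℕ) (ψ : ℕ → MvPolynomial (Option (Fin m)) ℝ)
    (Q : MvPolynomial (Option (Fin m)) ℝ) (x : Option (Fin m) → ℝ) : ℝ :=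
  if h : ∃ W : Option (Fin m) → ℝ, W none = 1 ∧ ∀ l < r, W (some (c l)) - dd (ψ l) x W = 0
    then dd Q x h.choose else 0

theorem nct_eq {c : ℕ → Fin m} {r : ℕ} {ψ : ℕ → MvPolynomial (Option (Fin m)) ℝ}
    (hdep : ∀ l, DepC c l (ψ l)) {Q : MvPolynomial (Option (Fin m)) ℝ} (hQ : DepC c r Q)
    {x W : Option (Fin m) → ℝ} (h0 : W none = 1)
    (h : ∀ l < r, W (some (c l)) - dd (ψ l) x W = 0) :
    nct c r ψ Q x = dd Q x W := by
  classical
  have hex : ∃ W : Option (Fin m) → ℝ, W none = 1 ∧ ∀ l < r, W (some (c l)) - dd (ψ l) x W = 0 :=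
    ⟨W, h0, h⟩
  unfold nct
  rw [dif_pos hex]
  obtain ⟨h1, h2⟩ := hex.choose_spec
  exact dd_congr hQ x (h1.trans h0.symm) (adp_eq hdep (h1.trans h0.symm) fun l hl => by
    rw [h2 l hl, h l hl])

/-- **The natural components as polynomials.** -/
theorem nat_pol {c : ℕ → Fin m} {r D : ℕ} (hc : Set.InjOn c (Set.Iio r))
    {ψ : ℕ → MvPolynomial (Option (Fin m)) ℝ} (hψ : ∀ l, (ψ l).totalDegree ≤ D)
    (hdep : ∀ l, DepC c l (ψ l)) {Δ : MvPolynomial (Option (Fin m)) ℝ} (hΔ : Δ.totalDegree ≤ D)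
    (hΔd : DepC c r Δ) : ∃ (n0 : MvPolynomial (Option (Fin m)) ℝ)
      (nj : ℕ → MvPolynomial (Option (Fin m)) ℝ),
      n0.totalDegree ≤ D + r * D ∧ (∀ j, (nj j).totalDegree ≤ D + r * D) ∧
      (∀ x, nct c r ψ Δ x = eval x n0) ∧ (∀ x, ∀ j < r, ncp c r ψ Δ x j = eval x (nj j)) ∧
      ∀ x W, dd Δ x W = nct c r ψ Δ x * W none +
        ∑ j ∈ range r, ncp c r ψ Δ x j * (W (some (c j)) - dd (ψ j) x W) := by
  classical
  obtain ⟨n0, nj, h1, h2, h3⟩ := nat_cov D hψ hdep r hc D (fun o => pderiv o Δ)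
    (fun o => totalDegree_pdσ hΔ o) (fun k hk b => pd_zero hΔd hk b)
  have h3' : ∀ x W, dd Δ x W = eval x n0 * W none +
      ∑ j ∈ range r, eval x (nj j) * (W (some (c j)) - dd (ψ j) x W) := h3
  have hn0 : ∀ x, nct c r ψ Δ x = eval x n0 := by
    intro x
    obtain ⟨W, hW0, hW⟩ := vec_adapt hc hdep x 1 (fun _ => 0) r le_rfl
    rw [nct_eq hdep hΔd hW0 hW, h3', hW0, mul_one, Finset.sum_eq_zero, add_zero]
    intro j hj
    rw [hW j (Finset.mem_range.1 hj), mul_zero]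
  have hnj : ∀ x, ∀ j < r, ncp c r ψ Δ x j = eval x (nj j) := by
    intro x j hj
    obtain ⟨W, hW0, hW⟩ := vec_adapt hc hdep x 0 (fun l => if l = j then 1 else 0) r le_rfl
    rw [ncp_eq hdep hΔd hW0 hW, h3', hW0, mul_zero, zero_add, Finset.sum_eq_single j]
    · rw [hW j hj, if_pos rfl, mul_one]
    · intro b hb hbj
      rw [hW b (Finset.mem_range.1 hb), if_neg hbj, mul_zero]
    · intro h
      exact absurd (Finset.mem_range.2 hj) h
  refine ⟨n0, nj, h1, h2, hn0, hnj, fun x W => ?_⟩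
  rw [h3', hn0]
  congr 1
  refine Finset.sum_congr rfl fun j hj => ?_
  rw [hnj x j (Finset.mem_range.1 hj)]

/-- **The last natural component** is the derivative in the direction of the last coordinate. -/
theorem ncp_last {c : ℕ → Fin m} {r : ℕ} (hc : Set.InjOn c (Set.Iio (r + 1)))
    {ψ : ℕ → MvPolynomial (Option (Fin m)) ℝ} (hdep : ∀ l, DepC c l (ψ l))
    {Δ : MvPolynomial (Option (Fin m)) ℝ} (hΔd : DepC c (r + 1) Δ) (x : Option (Fin m) → ℝ) :
    ncp c (r + 1) ψ Δ x r = eval x (pderiv (some (c r)) Δ) := by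
  classical
  have hdd : ∀ Q : MvPolynomial (Option (Fin m)) ℝ,
      dd Q x (Pi.single (some (c r)) 1) = eval x (pderiv (some (c r)) Q) := by
    intro Q
    unfold dd
    rw [Finset.sum_eq_single (some (c r))]
    · rw [Pi.single_eq_same, mul_one]
    · intro o _ ho
      rw [Pi.single_eq_of_ne ho, mul_zero]
    · intro h
      exact absurd (Finset.mem_univ _) h
  rw [ncp_eq hdep hΔd (W := Pi.single (some (c r)) 1) (Pi.single_eq_of_ne (by simp) _), hdd]
  intro l hl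
  rw [hdd, pd_zero (hdep l) (fun j hj h => by
    have h1 := hc (show j ∈ Set.Iio (r + 1) by rw [Set.mem_Iio]; omega)
      (show r ∈ Set.Iio (r + 1) by rw [Set.mem_Iio]; omega) h
    omega), sub_zero]
  by_cases h : l = r
  · rw [if_pos h, h, Pi.single_eq_same]
  · rw [if_neg h, Pi.single_eq_of_ne]
    intro h2
    exact h (hc (show l ∈ Set.Iio (r + 1) from hl) (show r ∈ Set.Iio (r + 1) by
      rw [Set.mem_Iio]; omega) (Option.some_injective _ h2))

/-! ### The weights -/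

/-- **The weights of the divided difference.** -/
noncomputable def mu {K : ℕ} (h : Fin (K + 2) → ℝ) (i : Fin (K + 2)) : ℝ := pj h 0 / pj h i

/-- The sum of the weights. -/
noncomputable def Lam {K : ℕ} (h : Fin (K + 2) → ℝ) : ℝ := ∑ i, |mu h i|

theorem mu_le {K : ℕ} {h : Fin (K + 2) → ℝ} {s S : ℝ} (hs : 0 < s)
    (h1 : ∀ i j, i ≠ j → s ≤ |h i - h j|) (h2 : ∀ i j, |h i - h j| ≤ S) (i : Fin (K + 2)) :
    |mu h i| ≤ (S / s) ^ (K + 1) := by
  classical
  have hpj : ∀ j : Fin (K + 2), pj h j = ∏ k ∈ Finset.univ.erase j, (h j - h k) := by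
    intro j
    unfold pj
    rw [← Finset.mul_prod_erase _ _ (Finset.mem_univ j), if_pos rfl, one_mul]
    exact Finset.prod_congr rfl fun k hk => if_neg (Finset.ne_of_mem_erase hk)
  have hcard : ∀ j : Fin (K + 2), (Finset.univ.erase j).card = K + 1 := by
    intro j
    rw [Finset.card_erase_of_mem (Finset.mem_univ j), Finset.card_univ, Fintype.card_fin]
    rfl
  have h3 : |pj h 0| ≤ S ^ (K + 1) := by
    rw [hpj, Finset.abs_prod, ← hcard 0]
    exact (Finset.prod_le_prod (fun _ _ => abs_nonneg _) fun k _ => h2 0 k).trans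
      (le_of_eq (Finset.prod_const S))
  have h4 : s ^ (K + 1) ≤ |pj h i| := by
    rw [hpj, Finset.abs_prod, ← hcard i]
    exact (le_of_eq (Finset.prod_const s).symm).trans
      (Finset.prod_le_prod (fun _ _ => hs.le) fun k hk => h1 i k (Finset.ne_of_mem_erase hk).symm)
  unfold mu
  rw [abs_div, div_pow]
  exact div_le_div₀ ((abs_nonneg _).trans h3) h3 (by positivity) h4

theorem Lam_le {K : ℕ} {h : Fin (K + 2) → ℝ} {s S : ℝ} (hs : 0 < s)
    (h1 : ∀ i j, i ≠ j → s ≤ |h i - h j|) (h2 : ∀ i j, |h i - h j| ≤ S) :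
    Lam h ≤ (K + 2) * (S / s) ^ (K + 1) := by
  unfold Lam
  refine (Finset.sum_le_sum fun i _ => mu_le hs h1 h2 i).trans (le_of_eq ?_)
  rw [Finset.sum_const, Finset.card_univ, Fintype.card_fin, nsmul_eq_mul]
  push_cast
  ring

theorem Lam_one {K : ℕ} {h : Fin (K + 2) → ℝ} (hh : Function.Injective h) : 1 ≤ Lam h := by
  unfold Lam
  have h1 : |mu h 0| = 1 := by
    unfold mu
    rw [div_self (Pool.TT37.pj_ne h hh 0), abs_one]
  rw [← h1]
  exact Finset.single_le_sum (f := fun i => |mu h i|) (fun _ _ => abs_nonneg _)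
    (Finset.mem_univ 0)

/-! ### The polynomials of the tuple of lines -/

open Classical in
/-- The polynomial of the time component. -/
noncomputable def n0P (c : ℕ → Fin m) (r : ℕ) (ψ : ℕ → MvPolynomial (Option (Fin m)) ℝ) (K : ℕ)
    (Δ : MvPolynomial (Option (Fin m)) ℝ) : MvPolynomial (Option (Fin m)) ℝ :=
  if h : ∃ n0 : MvPolynomial (Option (Fin m)) ℝ, n0.totalDegree ≤ K ∧
    ∀ x, nct c r ψ Δ x = eval x n0 then h.choose else 0

open Classical in
/-- The polynomial of the component `j`. -/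
noncomputable def njP (c : ℕ → Fin m) (r : ℕ) (ψ : ℕ → MvPolynomial (Option (Fin m)) ℝ) (K : ℕ)
    (Δ : MvPolynomial (Option (Fin m)) ℝ) (j : ℕ) : MvPolynomial (Option (Fin m)) ℝ :=
  if h : ∃ n : MvPolynomial (Option (Fin m)) ℝ, n.totalDegree ≤ K ∧
    ∀ x, ncp c r ψ Δ x j = eval x n then h.choose else 0

theorem n0P_deg (c : ℕ → Fin m) (r : ℕ) (ψ : ℕ → MvPolynomial (Option (Fin m)) ℝ) (K : ℕ)
    (Δ : MvPolynomial (Option (Fin m)) ℝ) : (n0P c r ψ K Δ).totalDegree ≤ K := by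
  classical
  unfold n0P
  split_ifs with h
  · exact h.choose_spec.1
  · rw [totalDegree_zero]
    exact Nat.zero_le _

theorem njP_deg (c : ℕ → Fin m) (r : ℕ) (ψ : ℕ → MvPolynomial (Option (Fin m)) ℝ) (K : ℕ)
    (Δ : MvPolynomial (Option (Fin m)) ℝ) (j : ℕ) : (njP c r ψ K Δ j).totalDegree ≤ K := by
  classical
  unfold njP
  split_ifs with h
  · exact h.choose_spec.1
  · rw [totalDegree_zero]
    exact Nat.zero_le _

theorem n0P_eval {c : ℕ → Fin m} {r D : ℕ} (hc : Set.InjOn c (Set.Iio r))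
    {ψ : ℕ → MvPolynomial (Option (Fin m)) ℝ} (hψ : ∀ l, (ψ l).totalDegree ≤ D)
    (hdep : ∀ l, DepC c l (ψ l)) {Δ : MvPolynomial (Option (Fin m)) ℝ} (hΔ : Δ.totalDegree ≤ D)
    (hΔd : DepC c r Δ) (x : Option (Fin m) → ℝ) :
    eval x (n0P c r ψ (D + r * D) Δ) = nct c r ψ Δ x := by
  classical
  obtain ⟨n0, nj, h1, -, h2, -, -⟩ := nat_pol hc hψ hdep hΔ hΔd
  have hex : ∃ n0 : MvPolynomial (Option (Fin m)) ℝ, n0.totalDegree ≤ D + r * D ∧
    ∀ x, nct c r ψ Δ x = eval x n0 := ⟨n0, h1, h2⟩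
  unfold n0P
  rw [dif_pos hex]
  exact (hex.choose_spec.2 x).symm

theorem njP_eval {c : ℕ → Fin m} {r D : ℕ} (hc : Set.InjOn c (Set.Iio r))
    {ψ : ℕ → MvPolynomial (Option (Fin m)) ℝ} (hψ : ∀ l, (ψ l).totalDegree ≤ D)
    (hdep : ∀ l, DepC c l (ψ l)) {Δ : MvPolynomial (Option (Fin m)) ℝ} (hΔ : Δ.totalDegree ≤ D)
    (hΔd : DepC c r Δ) (x : Option (Fin m) → ℝ) {j : ℕ} (hj : j < r) :
    eval x (njP c r ψ (D + r * D) Δ j) = ncp c r ψ Δ x j := by
  classical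
  obtain ⟨n0, nj, -, h1, -, h2, -⟩ := nat_pol hc hψ hdep hΔ hΔd
  have hex : ∃ n : MvPolynomial (Option (Fin m)) ℝ, n.totalDegree ≤ D + r * D ∧
    ∀ x, ncp c r ψ Δ x j = eval x n := ⟨nj j, h1 j, fun x => h2 x j hj⟩
  unfold njP
  rw [dif_pos hex]
  exact (hex.choose_spec.2 x).symm

/-- **The divided difference of the time components**, a polynomial in the relative time. -/
noncomputable def dA0 {ζ : Type} {K : ℕ} (w : ℕ) (c : ℕ → Fin m) (r D : ℕ)
    (ψ : ℕ → MvPolynomial (Option (Fin m)) ℝ) (h : Fin (K + 2) → ℝ)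
    (S : Fin (K + 2) → ((Fin m → ℝ) × (Fin m → ℝ)) × ζ × ℕ)
    (P : Fin (K + 2) → MvPolynomial (Option (Fin m)) ℝ) : Polynomial ℝ :=
  ∑ i, Polynomial.C (mu h i) * MvPolynomial.aeval (lc w (S i)) (n0P c r ψ (D + r * D) (P i - ψ r))

/-- **The divided difference of the components `j`**, a polynomial in the relative time. -/
noncomputable def dA {ζ : Type} {K : ℕ} (w : ℕ) (c : ℕ → Fin m) (r D : ℕ)
    (ψ : ℕ → MvPolynomial (Option (Fin m)) ℝ) (h : Fin (K + 2) → ℝ)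
    (S : Fin (K + 2) → ((Fin m → ℝ) × (Fin m → ℝ)) × ζ × ℕ)
    (P : Fin (K + 2) → MvPolynomial (Option (Fin m)) ℝ) (j : ℕ) : Polynomial ℝ :=
  ∑ i, Polynomial.C (mu h i) *
    MvPolynomial.aeval (lc w (S i)) (njP c r ψ (D + r * D) (P i - ψ r) j)

theorem dA0_deg {ζ : Type} {K : ℕ} (w : ℕ) (c : ℕ → Fin m) (r D : ℕ)
    (ψ : ℕ → MvPolynomial (Option (Fin m)) ℝ) (h : Fin (K + 2) → ℝ)
    (S : Fin (K + 2) → ((Fin m → ℝ) × (Fin m → ℝ)) × ζ × ℕ)
    (P : Fin (K + 2) → MvPolynomial (Option (Fin m)) ℝ) :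
    (dA0 w c r D ψ h S P).natDegree ≤ D + r * D := by
  unfold dA0
  refine Polynomial.natDegree_sum_le_of_forall_le _ _ fun i _ => ?_
  exact (Polynomial.natDegree_C_mul_le _ _).trans
    (Pool.KBX.natDegree_aeval_le _ _ (natDegree_lc _ _) (n0P_deg _ _ _ _ _))

theorem dA_deg {ζ : Type} {K : ℕ} (w : ℕ) (c : ℕ → Fin m) (r D : ℕ)
    (ψ : ℕ → MvPolynomial (Option (Fin m)) ℝ) (h : Fin (K + 2) → ℝ)
    (S : Fin (K + 2) → ((Fin m → ℝ) × (Fin m → ℝ)) × ζ × ℕ)
    (P : Fin (K + 2) → MvPolynomial (Option (Fin m)) ℝ) (j : ℕ) :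
    (dA w c r D ψ h S P j).natDegree ≤ D + r * D := by
  unfold dA
  refine Polynomial.natDegree_sum_le_of_forall_le _ _ fun i _ => ?_
  exact (Polynomial.natDegree_C_mul_le _ _).trans
    (Pool.KBX.natDegree_aeval_le _ _ (natDegree_lc _ _) (njP_deg _ _ _ _ _ _))

/-- The relative time only depends on the time. -/
theorem rt_congr {F : Fam m J} {w : ℕ} {ω ν : F.Ω} (h : F.T ω = F.T ν) : rt F w ω = rt F w ν := by
  unfold rt
  rw [h]

theorem dA0_eval {K : ℕ} {F : Fam m J} {w : ℕ} (hw : w ≤ J) {c : ℕ → Fin m} {r D : ℕ}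
    (hc : Set.InjOn c (Set.Iio r)) {ψ : ℕ → MvPolynomial (Option (Fin m)) ℝ}
    (hψ : ∀ l, (ψ l).totalDegree ≤ D) (hdep : ∀ l, DepC c l (ψ l)) (h : Fin (K + 2) → ℝ)
    {ω : Fin (K + 2) → F.Ω} (hT : ∀ i, F.T (ω i) = F.T (ω 0))
    {P : Fin (K + 2) → MvPolynomial (Option (Fin m)) ℝ} (hP : ∀ i, (P i).totalDegree ≤ D)
    (hPd : ∀ i, DepC c r (P i)) :
    (dA0 w c r D ψ h (fun i => slam F w (ω i)) P).eval (rt F w (ω 0)) =
      ∑ i, mu h i * nct c r ψ (P i - ψ r) (bt F (ω i)) := by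
  unfold dA0
  rw [Polynomial.eval_finsetSum]
  refine Finset.sum_congr rfl fun i _ => ?_
  rw [Polynomial.eval_mul, Polynomial.eval_C, Pool.KBX.eval_aeval_poly, ← rt_congr (hT i)]
  have e1 : (fun o => (lc w (slam F w (ω i)) o).eval (rt F w (ω i))) = bt F (ω i) :=
    funext fun o => eval_lc F hw (ω i) o
  rw [e1, n0P_eval hc hψ hdep ((totalDegree_sub _ _).trans (max_le (hP i) (hψ r)))
    (fun b b' h1 h2 => by rw [map_sub, map_sub, hPd i b b' h1 h2, hdep r b b' h1 h2])]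

theorem dA_eval {K : ℕ} {F : Fam m J} {w : ℕ} (hw : w ≤ J) {c : ℕ → Fin m} {r D : ℕ}
    (hc : Set.InjOn c (Set.Iio r)) {ψ : ℕ → MvPolynomial (Option (Fin m)) ℝ}
    (hψ : ∀ l, (ψ l).totalDegree ≤ D) (hdep : ∀ l, DepC c l (ψ l)) (h : Fin (K + 2) → ℝ)
    {ω : Fin (K + 2) → F.Ω} (hT : ∀ i, F.T (ω i) = F.T (ω 0))
    {P : Fin (K + 2) → MvPolynomial (Option (Fin m)) ℝ} (hP : ∀ i, (P i).totalDegree ≤ D)
    (hPd : ∀ i, DepC c r (P i)) {j : ℕ} (hj : j < r) :
    (dA w c r D ψ h (fun i => slam F w (ω i)) P j).eval (rt F w (ω 0)) =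
      ∑ i, mu h i * ncp c r ψ (P i - ψ r) (bt F (ω i)) j := by
  unfold dA
  rw [Polynomial.eval_finsetSum]
  refine Finset.sum_congr rfl fun i _ => ?_
  rw [Polynomial.eval_mul, Polynomial.eval_C, Pool.KBX.eval_aeval_poly, ← rt_congr (hT i)]
  have e1 : (fun o => (lc w (slam F w (ω i)) o).eval (rt F w (ω i))) = bt F (ω i) :=
    funext fun o => eval_lc F hw (ω i) o
  rw [e1, njP_eval hc hψ hdep ((totalDegree_sub _ _).trans (max_le (hP i) (hψ r)))
    (fun b b' h1 h2 => by rw [map_sub, map_sub, hPd i b b' h1 h2, hdep r b b' h1 h2]) _ hj]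

end Pool.NDD66
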