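import Pool.Agent.H66.NDD.Ddx

/-!
# The own path of the target at a node

`nbx_lipt`: the increments of a polynomial on a natural box, the time included. `hgt_chg`: near
heights over one system of charts are near heights over another one. `node_q`: two samples `μ`, `μ₀`
of near lines at near times, one coordinate differs by `h`; the charts of the target on a smaller
ball agree: the own path of the target along the line of `μ` at the time of `μ₀` is a polynomial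
in `h`, which only depends on `μ₀`.
-/

set_option autoImplicit false

namespace Pool.NDD66

open Finset Real MvPolynomial
open Pool.Agent.H49.Ent Pool.Agent.H32.Dense Pool.STK Pool.KA Pool.KSAT Pool.K2S Pool.PB Pool.S6C
open Pool.GEN Pool.CHT Pool.D2R
open Pool.PB.Trl (rt rt_mem t_rt)

variable {m J : ℕ}

/-- **The increments** of a polynomial on a natural box, the time included. -/
theorem nbx_lipt (r : ℕ) (K : ℕ → ℕ) : ∃ c₀ D₁ : ℕ, 1 ≤ D₁ ∧ ∀ {m : ℕ} {c : ℕ → Fin m} {i : ℕ}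
    {G : ℕ → MvPolynomial (Option (Fin m)) ℝ} {Q : MvPolynomial (Option (Fin m)) ℝ}
    {g : ℕ → ℕ} {a : ℕ} {t M ρ : ℝ} (n : ℕ), i < r → Set.InjOn c (Set.Iio i) →
    (∀ l, (G l).totalDegree ≤ K l) → (∀ l, DepC c l (G l)) → DepC c i Q →
    Q.totalDegree ≤ K i → 0 ≤ M → 0 < ρ → ρ ≤ 1 →
    (∀ b, NBx c G g a t i b → |eval b Q| ≤ M) → ∀ b b' : Option (Fin m) → ℝ,
      b none = t → |b' none - t| ≤ ρ / 2 ^ a →
      (∀ l < i, |b (some (c l)) - eval b (G l)| ≤ 2 ^ n / 2 ^ g l) →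
      (∀ l < i, |(b' (some (c l)) - eval b' (G l)) - (b (some (c l)) - eval b (G l))| ≤
        ρ / 2 ^ g l) → |eval b' Q - eval b Q| ≤ 2 ^ (c₀ + n * D₁) * M * ρ := by
  obtain ⟨D, hD⟩ : ∃ D, D = ∑ i ∈ range r, K i * dga K i := ⟨_, rfl⟩
  obtain ⟨C, hC, h⟩ := Pool.Agent.H40.SLP.lip_one D
  obtain ⟨cC, hcC⟩ := pow_unbounded_of_one_lt C (one_lt_two (α := ℝ))
  obtain ⟨c₀, D₁, hD₁, hdil⟩ := nbx_dil r K
  refine ⟨c₀ + D₁ + cC, D₁, hD₁, ?_⟩
  intro m c i G Q g a t M ρ n hi hc hdeg hdep hQ hQd hM0 hρ hρ1 hM b b' hb0 hb0' hb hbb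
  have hDi : K i * dga K i ≤ D := by
    rw [hD]
    exact Finset.single_le_sum (f := fun i => K i * dga K i) (fun _ _ => Nat.zero_le _)
      (mem_range.2 hi)
  obtain ⟨p, h1, h2, h3, h4, h5⟩ := curve_all hc hdeg hdep b b' i le_rfl
  obtain ⟨f, hf⟩ : ∃ f : Polynomial ℝ, f = (MvPolynomial.aeval p Q).comp
      (Polynomial.C (1 / ρ) * Polynomial.X) := ⟨_, rfl⟩
  have hfe : ∀ s, f.eval s = eval (fun o => (p o).eval (s / ρ)) Q := by
    intro s
    have e1 : (Polynomial.C (1 / ρ) * Polynomial.X).eval s = s / ρ := by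
      simp only [Polynomial.eval_mul, Polynomial.eval_C, Polynomial.eval_X]
      ring
    rw [hf, Polynomial.eval_comp, e1, Pool.KBX.eval_aeval_poly]
  have hfd : f.natDegree ≤ D := by
    rw [hf]
    refine Polynomial.natDegree_comp_le.trans ?_
    calc (MvPolynomial.aeval p Q).natDegree *
          (Polynomial.C (1 / ρ : ℝ) * Polynomial.X).natDegree ≤ D * 1 :=
          Nat.mul_le_mul ((natDegree_aeval_mul Q p h1 hQd).trans hDi)
            ((Polynomial.natDegree_C_mul_le _ _).trans Polynomial.natDegree_X_le)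
      _ = D := mul_one _
  have h6 := h f (2 ^ (c₀ + (n + 1) * D₁) * M) hfd (by
    intro τ hτ
    rw [hfe]
    have hs0 : 0 ≤ τ / ρ := div_nonneg hτ.1 hρ.le
    have hs1 : τ / ρ * ρ ≤ 1 := by
      rw [div_mul_cancel₀ _ hρ.ne']
      exact hτ.2
    refine hdil (n + 1) hi hc hdeg hdep hQ hQd hM0 hM _ ?_ fun l hl => ?_
    · show |(p none).eval (τ / ρ) - t| ≤ _
      have e1 : (p none).eval (τ / ρ) - t = τ / ρ * (b' none - t) := by
        rw [h2, hb0]; ring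
      rw [e1, abs_mul, abs_of_nonneg hs0]
      calc τ / ρ * |b' none - t| ≤ τ / ρ * (ρ / 2 ^ a) := mul_le_mul_of_nonneg_left hb0' hs0
        _ = (τ / ρ * ρ) / 2 ^ a := by ring
        _ ≤ 1 / 2 ^ a := div_le_div_of_nonneg_right hs1 (by positivity)
    · show |(p (some (c l))).eval (τ / ρ) - eval (fun o => (p o).eval (τ / ρ)) (G l)| ≤ _
      rw [h3 l hl, add_sub_cancel_left]
      refine (abs_add_le _ _).trans ?_
      rw [abs_mul, abs_of_nonneg hs0]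
      have h7 : τ / ρ * |(b' (some (c l)) - eval b' (G l)) - (b (some (c l)) - eval b (G l))| ≤
          1 / 2 ^ g l := by
        calc _ ≤ τ / ρ * (ρ / 2 ^ g l) := mul_le_mul_of_nonneg_left (hbb l hl) hs0
          _ = (τ / ρ * ρ) / 2 ^ g l := by ring
          _ ≤ 1 / 2 ^ g l := div_le_div_of_nonneg_right hs1 (by positivity)
      have h8 : (1 : ℝ) / 2 ^ g l ≤ 2 ^ n / 2 ^ g l :=
        div_le_div_of_nonneg_right (one_le_pow₀ (by norm_num)) (by positivity)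
      have h9 : (2 : ℝ) ^ (n + 1) / 2 ^ g l = 2 ^ n / 2 ^ g l + 2 ^ n / 2 ^ g l := by ring
      rw [h9]
      linarith [hb l hl]) ρ 0 (by rw [abs_of_pos hρ]; linarith) (by simp)
  rw [hfe, hfe, div_self hρ.ne', zero_div, sub_zero, abs_of_pos hρ] at h6
  have e0 : eval (fun o => (p o).eval 0) Q = eval b Q := hQ _ _ (by
    show (p none).eval 0 = b none
    rw [h2]; ring) h4
  have e1 : eval (fun o => (p o).eval 1) Q = eval b' Q := hQ _ _ (by
    show (p none).eval 1 = b' none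
    rw [h2]; ring) h5
  rw [e0, e1] at h6
  refine h6.trans (mul_le_mul_of_nonneg_right ?_ hρ.le)
  rw [← mul_assoc]
  refine mul_le_mul_of_nonneg_right ?_ hM0
  calc C * 2 ^ (c₀ + (n + 1) * D₁) ≤ 2 ^ cC * 2 ^ (c₀ + (n + 1) * D₁) :=
        mul_le_mul_of_nonneg_right hcC.le (by positivity)
    _ = _ := by
      rw [← pow_add]
      congr 1
      ring

/-- **Near heights over one system of charts** are near heights over another one. -/
theorem hgt_chg (D r : ℕ) : ∃ C : ℕ, 1 ≤ C ∧ ∀ {m : ℕ} {c : ℕ → Fin m} {t k q : ℕ}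
    {gw gt : ℕ → ℕ} {χ ψ : ℕ → MvPolynomial (Option (Fin m)) ℝ} {t₀ ρ : ℝ}
    {b b' : Option (Fin m) → ℝ}, Set.InjOn c (Set.Iio (r + 1)) →
    (∀ l ≤ r, gt l ≤ gw l + q) → (∀ l, (χ l).totalDegree ≤ D) → (∀ l, DepC c l (χ l)) →
    (∀ l, (ψ l).totalDegree ≤ D) → (∀ l, DepC c l (ψ l)) →
    (∀ l ≤ r, ∃ κ : ℝ, ∀ b, NBx c χ gt t t₀ l b →
      |eval b (χ l) - eval b (ψ l) - κ| ≤ 2 ^ k / 2 ^ gw l) →
    b none = t₀ → |b' none - t₀| ≤ ρ / 2 ^ t →
    (∀ l ≤ r, |b (some (c l)) - eval b (χ l)| ≤ 2 ^ k / 2 ^ gt l) → 0 < ρ →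
    2 ^ ((r + 1) * (q + C * (k + 1))) * ρ ≤ 1 →
    (∀ l ≤ r, |(b' (some (c l)) - eval b' (ψ l)) - (b (some (c l)) - eval b (ψ l))| ≤
      ρ / 2 ^ gw l) → ∀ l ≤ r,
    |(b' (some (c l)) - eval b' (χ l)) - (b (some (c l)) - eval b (χ l))| ≤
      2 ^ ((l + 1) * (q + C * (k + 1))) * ρ / 2 ^ gt l := by
  obtain ⟨c₀, D₁, hD₁, hlip⟩ := nbx_lipt (r + 1) (fun _ => D)
  refine ⟨c₀ + D₁ + 2, by omega, ?_⟩
  intro m c t k q gw gt χ ψ t₀ ρ b b' hc hg hχ hχd hψ hψd hcmp hb0 hb0' hb hρ hρ1 hbb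
  obtain ⟨κ, hκ⟩ : ∃ κ, κ = (c₀ + D₁ + 2) * (k + 1) := ⟨_, rfl⟩
  rw [← hκ] at hρ1 ⊢
  have hκ1 : c₀ + k * D₁ + k + 1 ≤ κ := by
    rw [hκ]
    nlinarith [Nat.zero_le (c₀ * k), Nat.zero_le (D₁ * k)]
  intro l
  induction l using Nat.strong_induction_on with
  | _ l ih =>
    intro hl
    obtain ⟨ρ', hρ'⟩ : ∃ ρ' : ℝ, ρ' = 2 ^ (l * (q + κ)) * ρ := ⟨_, rfl⟩
    have hp1 : (1 : ℝ) ≤ 2 ^ (l * (q + κ)) := one_le_pow₀ (by norm_num)
    have hρ'0 : 0 < ρ' := by rw [hρ']; positivity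
    have hρ'1 : ρ' ≤ 1 := by
      rw [hρ']
      refine le_trans (mul_le_mul_of_nonneg_right (pow_le_pow_right₀ (by norm_num)
        (Nat.mul_le_mul_right _ (by omega : l ≤ r + 1))) hρ.le) hρ1
    have hρρ : ρ ≤ ρ' := by rw [hρ']; exact le_mul_of_one_le_left hρ.le hp1
    obtain ⟨κl, hκl⟩ := hcmp l hl
    have h1 := hlip (c := c) (i := l) (G := χ) (Q := χ l - ψ l - C κl) (g := gt) (a := t) (t := t₀)
      (M := 2 ^ k / 2 ^ gw l) (ρ := ρ') k (by omega)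
      (hc.mono fun x hx => by rw [Set.mem_Iio] at hx ⊢; omega) hχ hχd (fun y y' h1 h2 => by
        rw [map_sub, map_sub, map_sub, map_sub, hχd l y y' h1 h2, hψd l y y' h1 h2, eval_C, eval_C])
      ((totalDegree_sub _ _).trans (max_le ((totalDegree_sub _ _).trans (max_le (hχ l) (hψ l))) (by
        rw [totalDegree_C]
        exact Nat.zero_le _))) (by positivity) hρ'0 hρ'1
      (fun y hy => by
        rw [map_sub, map_sub, eval_C]
        exact hκl y hy) b b' hb0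
      (hb0'.trans (div_le_div_of_nonneg_right hρρ (by positivity)))
      (fun j hj => hb j (by omega)) (fun j hj => (ih j hj (by omega)).trans
        (div_le_div_of_nonneg_right (by
          rw [hρ']
          exact mul_le_mul_of_nonneg_right (pow_le_pow_right₀ (by norm_num)
            (Nat.mul_le_mul_right _ (by omega))) hρ.le) (by positivity)))
    rw [map_sub, map_sub, map_sub, map_sub, eval_C, eval_C] at h1
    have h2 := hbb l hl
    have e1 : (b' (some (c l)) - eval b' (χ l)) - (b (some (c l)) - eval b (χ l)) =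
        ((b' (some (c l)) - eval b' (ψ l)) - (b (some (c l)) - eval b (ψ l))) -
        (eval b' (χ l) - eval b' (ψ l) - κl - (eval b (χ l) - eval b (ψ l) - κl)) := by ring
    rw [e1]
    refine (abs_sub _ _).trans ((add_le_add h2 h1).trans ?_)
    have hgq : (1 : ℝ) / 2 ^ gw l ≤ 2 ^ q / 2 ^ gt l := by
      rw [div_le_div_iff₀ (by positivity) (by positivity), one_mul, ← pow_add]
      exact pow_le_pow_right₀ (by norm_num) (by have := hg l hl; omega)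
    have h3 : ρ / 2 ^ gw l + 2 ^ (c₀ + k * D₁) * (2 ^ k / 2 ^ gw l) * ρ' ≤
        2 ^ κ * ρ' * (1 / 2 ^ gw l) := by
      have h4 : ρ / 2 ^ gw l ≤ ρ' * (1 / 2 ^ gw l) := by
        rw [mul_one_div]
        exact div_le_div_of_nonneg_right hρρ (by positivity)
      have h5 : (2 : ℝ) ^ (c₀ + k * D₁) * (2 ^ k / 2 ^ gw l) * ρ' =
          2 ^ (c₀ + k * D₁ + k) * ρ' * (1 / 2 ^ gw l) := by
        rw [pow_add _ (c₀ + k * D₁) k]
        ring
      have h6 : (1 : ℝ) + 2 ^ (c₀ + k * D₁ + k) ≤ 2 ^ κ := by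
        have h7 : (1 : ℝ) ≤ 2 ^ (c₀ + k * D₁ + k) := one_le_pow₀ (by norm_num)
        have h8 : (2 : ℝ) ^ (c₀ + k * D₁ + k + 1) ≤ 2 ^ κ := pow_le_pow_right₀ (by norm_num) hκ1
        rw [pow_succ] at h8
        linarith
      rw [h5]
      have h7 : (1 + 2 ^ (c₀ + k * D₁ + k)) * (ρ' * (1 / 2 ^ gw l)) ≤
          2 ^ κ * (ρ' * (1 / 2 ^ gw l)) := mul_le_mul_of_nonneg_right h6 (by positivity)
      calc _ ≤ ρ' * (1 / 2 ^ gw l) + 2 ^ (c₀ + k * D₁ + k) * ρ' * (1 / 2 ^ gw l) := by linarith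
        _ = (1 + 2 ^ (c₀ + k * D₁ + k)) * (ρ' * (1 / 2 ^ gw l)) := by ring
        _ ≤ _ := h7
        _ = _ := by ring
    refine h3.trans ?_
    have h4 : 2 ^ κ * ρ' * (1 / 2 ^ gw l) ≤ 2 ^ κ * ρ' * (2 ^ q / 2 ^ gt l) :=
      mul_le_mul_of_nonneg_left hgq (by positivity)
    refine h4.trans (le_of_eq ?_)
    rw [hρ', show (l + 1) * (q + κ) = l * (q + κ) + κ + q by ring, pow_add, pow_add]
    ring

/-- **The own path of the target at a node.** -/
theorem node_q (D r : ℕ) : ∃ C : ℕ, 1 ≤ C ∧ ∀ {m J : ℕ} {F : Fam m J} {c : ℕ → Fin m}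
    {w t k q B : ℕ} {gw gt : ℕ → ℕ} {χ ψ : ℕ → MvPolynomial (Option (Fin m)) ℝ}
    {χ' : MvPolynomial (Option (Fin m)) ℝ} {h : ℝ} {μ₀ μ : F.Ω},
    Set.InjOn c (Set.Iio (r + 2)) → w ≤ J → w ≤ t → t ≤ w + q → (∀ l ≤ r, gt l ≤ gw l + q) →
    (∀ l, (χ l).totalDegree ≤ D) → (∀ l, DepC c l (χ l)) →
    (∀ l, (ψ l).totalDegree ≤ D) → (∀ l, DepC c l (ψ l)) →
    χ'.totalDegree ≤ D → DepC c (r + 1) χ' →
    (∀ l ≤ r, |F.x μ₀ (c l) - eval (bt F μ₀) (χ l)| ≤ 1 / 2 ^ gt l) →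
    |F.x μ (c (r + 1)) - eval (bt F μ) χ'| ≤ 1 / 2 ^ gt (r + 1) →
    (∀ l ≤ r + 1, ∃ κ : ℝ, ∀ b, NBx c χ gt t (F.t μ₀) l b →
      |eval b (χ l) - eval b (ψ l) - κ| ≤ 2 ^ k / 2 ^ gw l) →
    (∀ b, NBx c χ gt t (F.t μ₀) (r + 1) b →
      |eval b χ' - eval b (χ (r + 1))| ≤ 2 ^ k / 2 ^ gt (r + 1)) →
    (slam F w μ).2.2 = (slam F w μ₀).2.2 → |rt F w μ - rt F w μ₀| ≤ 1 / 2 ^ B →
    (∀ l ≤ r, ∀ τ ∈ Set.Icc (0 : ℝ) 1, |(op w c ψ (slam F w μ) l).eval τ -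
      (op w c ψ (slam F w μ₀) l).eval τ - (if l = r then h else 0)| ≤ 1 / 2 ^ (gw l + B)) →
    (∀ l ≤ r + 1, ∃ κ : ℝ, ∀ τ ∈ Set.Icc (0 : ℝ) 1,
      |(op w c ψ (slam F w μ) l).eval τ - κ| ≤ 2 ^ k / 2 ^ gw l) →
    |h| ≤ 2 ^ k / 2 ^ gt r → (r + 2) * q + C * (k + 1) ≤ B →
    |(op w c ψ (slam F w μ) (r + 1)).eval (rt F w μ₀) -
      eval (Function.update (bt F μ₀) (some (c r)) (bt F μ₀ (some (c r)) + h))
        (χ (r + 1) - ψ (r + 1))| ≤
      2 ^ (C * (k + 1)) * (1 / 2 ^ gt (r + 1) + 2 ^ ((r + 2) * q) / 2 ^ (gw (r + 1) + B)) := by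
  classical
  obtain ⟨C₁, hC₁, hchg⟩ := hgt_chg D r
  obtain ⟨C₂, hC₂, hl1⟩ := Pool.Agent.H40.SLP.lip_one (D + 1)
  obtain ⟨c₂, hc₂⟩ := pow_unbounded_of_one_lt C₂ (one_lt_two (α := ℝ))
  obtain ⟨c₀, D₁, hD₁, hlip⟩ := nbx_lipt (r + 2) (fun _ => D)
  obtain ⟨c₃, D₃, hD₃, hdil⟩ := nbx_dil (r + 2) (fun _ => D)
  obtain ⟨C, hC⟩ : ∃ C : ℕ, C = (r + 1) * (2 * C₁) + c₂ + c₀ + 2 * D₁ + c₃ + 3 * D₃ + 6 := ⟨_, rfl⟩
  refine ⟨C, by omega, ?_⟩
  intro m J F c w t k q B gw gt χ ψ χ' h μ₀ μ hc hwJ hwt htq hg hχ hχd hψ hψd hχ' hχ'd hpos0 hpos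
    hcmp hcode hT1 hrt hnear hown hh hB
  have hci : Set.InjOn c (Set.Iio (r + 1)) := hc.mono fun y hy => by
    rw [Set.mem_Iio] at hy ⊢
    omega
  have hk1 : ∀ n : ℕ, n ≤ n * (k + 1) := fun n => Nat.le_mul_of_pos_right _ (Nat.succ_pos k)
  have hCk : C * (k + 1) = (r + 1) * (2 * C₁ * (k + 1)) + c₂ * (k + 1) + c₀ * (k + 1) +
      2 * D₁ * (k + 1) + c₃ * (k + 1) + 3 * D₃ * (k + 1) + 6 * (k + 1) := by
    rw [hC]
    ring
  obtain ⟨b₀, hb₀⟩ : ∃ b₀, b₀ = bt F μ₀ := ⟨_, rfl⟩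
  obtain ⟨b', hb'⟩ : ∃ b', b' = Function.update b₀ (some (c r)) (b₀ (some (c r)) + h) := ⟨_, rfl⟩
  obtain ⟨b, hb⟩ : ∃ b, b = bt F μ := ⟨_, rfl⟩
  have hb'n : b' none = F.t μ₀ := by
    rw [hb', Function.update_of_ne (by simp), hb₀]
    rfl
  have hcl : ∀ l ≤ r + 1, l ≠ r → (some (c l) : Option (Fin m)) ≠ some (c r) := by
    intro l hl hlr h2
    exact hlr (hc (show l ∈ Set.Iio (r + 2) by rw [Set.mem_Iio]; omega)
      (show r ∈ Set.Iio (r + 2) by rw [Set.mem_Iio]; omega) (Option.some_injective _ h2))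
  have hb'l : ∀ l ≤ r + 1, l ≠ r → b' (some (c l)) = b₀ (some (c l)) := by
    intro l hl hlr
    rw [hb', Function.update_of_ne (hcl l hl hlr)]
  have hb'r : b' (some (c r)) = b₀ (some (c r)) + h := by
    rw [hb', Function.update_self]
  have hev : ∀ l ≤ r, ∀ Q : MvPolynomial (Option (Fin m)) ℝ, DepC c l Q →
      eval b' Q = eval b₀ Q := by
    intro l hl Q hQ
    refine hQ _ _ ?_ fun j hj => ?_
    · rw [hb', Function.update_of_ne (by simp)]
    · exact hb'l j (by omega) (by omega)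
  -- the times
  have hbn : b none - F.t μ₀ = (rt F w μ - rt F w μ₀) / 2 ^ w := by
    have h1 := t_rt F hwJ μ
    have h2 := t_rt F hwJ μ₀
    have h3 : b none = F.t μ := by rw [hb]; rfl
    rw [h3, h1, h2, hT1]
    ring
  obtain ⟨u, hu⟩ : ∃ u : ℝ, u = 2 ^ (c₂ + k + 1) / 2 ^ B := ⟨_, rfl⟩
  obtain ⟨ρ, hρ⟩ : ∃ ρ : ℝ, ρ = 2 ^ q * u := ⟨_, rfl⟩
  have hu0 : 0 < u := by rw [hu]; positivity
  have hρ0 : 0 < ρ := by rw [hρ]; positivity
  have huρ : u ≤ ρ := by rw [hρ]; exact le_mul_of_one_le_left hu0.le (one_le_pow₀ (by norm_num))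
  have hBu : (1 : ℝ) / 2 ^ B ≤ u := by
    rw [hu]
    exact div_le_div_of_nonneg_right (one_le_pow₀ (by norm_num)) (by positivity)
  have hbt0 : |b none - F.t μ₀| ≤ ρ / 2 ^ t := by
    rw [hbn, abs_div, abs_of_pos (show (0 : ℝ) < 2 ^ w by positivity), hρ]
    have h1 : (1 : ℝ) / 2 ^ w ≤ 2 ^ q / 2 ^ t := by
      rw [div_le_div_iff₀ (by positivity) (by positivity), one_mul, ← pow_add]
      exact pow_le_pow_right₀ (by norm_num) (by omega)
    calc |rt F w μ - rt F w μ₀| / 2 ^ w ≤ u * (1 / 2 ^ w) := by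
          rw [mul_one_div]
          exact div_le_div_of_nonneg_right (hrt.trans hBu) (by positivity)
      _ ≤ u * (2 ^ q / 2 ^ t) := mul_le_mul_of_nonneg_left h1 hu0.le
      _ = _ := by ring
  -- increments of the own paths
  have hopd : ∀ (s : LnT F) (l : ℕ), (op w c ψ s l).natDegree ≤ D + 1 := fun s l => op_deg w c hψ s l
  have hrt1 : ∀ ξ : F.Ω, |rt F w ξ| ≤ 2 := fun ξ => by
    have := rt_mem F w ξ
    rw [abs_of_nonneg this.1]
    linarith [this.2]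
  have hinc : ∀ l ≤ r + 1, |(op w c ψ (slam F w μ) l).eval (rt F w μ) -
      (op w c ψ (slam F w μ) l).eval (rt F w μ₀)| ≤ 2 ^ (c₂ + k) / 2 ^ B / 2 ^ gw l := by
    intro l hl
    obtain ⟨κl, hκl⟩ := hown l hl
    have h1 := hl1 (op w c ψ (slam F w μ) l - Polynomial.C κl) _
      ((Polynomial.natDegree_sub_C).le.trans (hopd (slam F w μ) l)) (fun τ hτ => by
        rw [Polynomial.eval_sub, Polynomial.eval_C]
        exact hκl τ hτ) (rt F w μ) (rt F w μ₀) (hrt1 _) (hrt1 _)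
    simp only [Polynomial.eval_sub, Polynomial.eval_C, sub_sub_sub_cancel_right] at h1
    refine h1.trans ?_
    calc C₂ * (2 ^ k / 2 ^ gw l) * |rt F w μ - rt F w μ₀| ≤
          2 ^ c₂ * (2 ^ k / 2 ^ gw l) * (1 / 2 ^ B) := by
          refine mul_le_mul (mul_le_mul_of_nonneg_right hc₂.le (by positivity)) hrt (abs_nonneg _)
            (by positivity)
      _ = _ := by
          rw [pow_add]
          ring
  have hhψ : ∀ l ≤ r, |(b (some (c l)) - eval b (ψ l)) - (b' (some (c l)) - eval b' (ψ l))| ≤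
      u / 2 ^ gw l := by
    intro l hl
    have h1 : b (some (c l)) - eval b (ψ l) = (op w c ψ (slam F w μ) l).eval (rt F w μ) := by
      rw [op_at hwJ, hb]
      rfl
    have h2 : b₀ (some (c l)) - eval b₀ (ψ l) = (op w c ψ (slam F w μ₀) l).eval (rt F w μ₀) := by
      rw [op_at hwJ, hb₀]
      rfl
    have h3 : b' (some (c l)) - eval b' (ψ l) =
        (op w c ψ (slam F w μ₀) l).eval (rt F w μ₀) + (if l = r then h else 0) := by
      rw [hev l hl _ (hψd l), ← h2]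
      by_cases hlr : l = r
      · rw [if_pos hlr, hlr, hb'r]
        ring
      · rw [if_neg hlr, hb'l l (by omega) hlr]
        ring
    rw [h1, h3]
    have h4 := hnear l hl (rt F w μ₀) (rt_mem F w _)
    have h5 := hinc l (by omega)
    have e1 : (op w c ψ (slam F w μ) l).eval (rt F w μ) -
        ((op w c ψ (slam F w μ₀) l).eval (rt F w μ₀) + (if l = r then h else 0)) =
        ((op w c ψ (slam F w μ) l).eval (rt F w μ) - (op w c ψ (slam F w μ) l).eval (rt F w μ₀)) +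
        ((op w c ψ (slam F w μ) l).eval (rt F w μ₀) -
        (op w c ψ (slam F w μ₀) l).eval (rt F w μ₀) - (if l = r then h else 0)) := by ring
    rw [e1]
    refine (abs_add_le _ _).trans ((add_le_add h5 h4).trans ?_)
    rw [hu]
    have e2 : (1 : ℝ) / 2 ^ (gw l + B) = 1 / 2 ^ B / 2 ^ gw l := by
      rw [pow_add, div_div]
      congr 1
      ring
    rw [e2, ← add_div, ← add_div]
    refine div_le_div_of_nonneg_right (div_le_div_of_nonneg_right ?_ (by positivity))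
      (by positivity)
    have h6 : (1 : ℝ) ≤ 2 ^ (c₂ + k) := one_le_pow₀ (by norm_num)
    rw [pow_succ]
    linarith
  -- the heights over the smaller charts
  have hκ : 2 ^ ((r + 1) * (q + C₁ * ((k + 1) + 1))) * ρ ≤ 1 ∧
      2 ^ ((r + 1) * (q + C₁ * ((k + 1) + 1))) * ρ ≤
      2 ^ ((r + 2) * q) * 2 ^ ((r + 1) * (2 * C₁ * (k + 1)) + c₂ * (k + 1) + 2 * (k + 1)) /
        2 ^ B := by
    have h1 : (2 : ℝ) ^ ((r + 1) * (q + C₁ * ((k + 1) + 1))) * ρ =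
        2 ^ ((r + 1) * (q + C₁ * ((k + 1) + 1)) + q + (c₂ + k + 1)) / 2 ^ B := by
      rw [hρ, hu, pow_add _ _ (c₂ + k + 1), pow_add _ _ q]
      ring
    have h2 : (r + 1) * (q + C₁ * ((k + 1) + 1)) + q + (c₂ + k + 1) ≤
        (r + 2) * q + ((r + 1) * (2 * C₁ * (k + 1)) + c₂ * (k + 1) + 2 * (k + 1)) := by
      have h3 : (r + 1) * (q + C₁ * ((k + 1) + 1)) = (r + 1) * q + (r + 1) * (C₁ * ((k + 1) + 1)) :=
        by ring
      have h4 : C₁ * ((k + 1) + 1) ≤ 2 * C₁ * (k + 1) := by nlinarith [Nat.zero_le (C₁ * k)]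
      have h5 := Nat.mul_le_mul_left (r + 1) h4
      have h6 := hk1 c₂
      have h7 : (r + 2) * q = (r + 1) * q + q := by ring
      omega
    rw [h1]
    constructor
    · rw [div_le_one (by positivity)]
      refine pow_le_pow_right₀ (by norm_num) (h2.trans (le_trans ?_ hB))
      rw [hCk]
      omega
    · refine div_le_div_of_nonneg_right ?_ (by positivity)
      rw [← pow_add]
      exact pow_le_pow_right₀ (by norm_num) h2
  have hbχ : ∀ l ≤ r, |b' (some (c l)) - eval b' (χ l)| ≤ 2 ^ (k + 1) / 2 ^ gt l := by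
    intro l hl
    have h1 := hpos0 l hl
    have h2 : (1 : ℝ) ≤ 2 ^ k := one_le_pow₀ (by norm_num)
    rw [hev l hl _ (hχd l)]
    by_cases hlr : l = r
    · subst hlr
      rw [hb'r]
      have e1 : b₀ (some (c l)) + h - eval b₀ (χ l) = (F.x μ₀ (c l) - eval (bt F μ₀) (χ l)) + h := by
        rw [hb₀]
        show F.x μ₀ (c l) + h - _ = _
        ring
      rw [e1]
      refine (abs_add_le _ _).trans ((add_le_add h1 hh).trans ?_)
      rw [← add_div]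
      refine div_le_div_of_nonneg_right ?_ (by positivity)
      rw [pow_succ]
      linarith
    · rw [hb'l l (by omega) hlr, hb₀]
      refine le_trans h1 (div_le_div_of_nonneg_right (one_le_pow₀ (by norm_num)) (by positivity))
  have hcc : ∀ l ≤ r, |(b (some (c l)) - eval b (χ l)) - (b' (some (c l)) - eval b' (χ l))| ≤
      2 ^ ((l + 1) * (q + C₁ * ((k + 1) + 1))) * ρ / 2 ^ gt l :=
    hchg (c := c) (t := t) (k := k + 1) (q := q) (gw := gw) (gt := gt) (t₀ := F.t μ₀) hci hg hχ hχd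
      hψ hψd (fun l hl => by
        obtain ⟨κl, hκl⟩ := hcmp l (by omega)
        exact ⟨κl, fun y hy => (hκl y hy).trans
          (div_le_div_of_nonneg_right (pow_le_pow_right₀ (by norm_num) (by omega))
            (by positivity))⟩)
      hb'n hbt0 hbχ hρ0 hκ.1 (fun l hl => (hhψ l hl).trans
        (div_le_div_of_nonneg_right huρ (by positivity)))
  obtain ⟨ρ₂, hρ₂⟩ : ∃ ρ₂ : ℝ, ρ₂ = 2 ^ ((r + 1) * (q + C₁ * ((k + 1) + 1))) * ρ := ⟨_, rfl⟩
  have hρρ₂ : ρ ≤ ρ₂ := by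
    rw [hρ₂]
    exact le_mul_of_one_le_left hρ0.le (one_le_pow₀ (by norm_num))
  have hρ₂1 : ρ₂ ≤ 1 := by rw [hρ₂]; exact hκ.1
  have hρ₂0 : 0 < ρ₂ := hρ0.trans_le hρρ₂
  have hcc2 : ∀ l ≤ r, |(b (some (c l)) - eval b (χ l)) - (b' (some (c l)) - eval b' (χ l))| ≤
      ρ₂ / 2 ^ gt l := by
    intro l hl
    refine (hcc l hl).trans (div_le_div_of_nonneg_right ?_ (by positivity))
    rw [hρ₂]
    exact mul_le_mul_of_nonneg_right (pow_le_pow_right₀ (by norm_num)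
      (Nat.mul_le_mul_right _ (by omega))) hρ0.le
  -- the target
  obtain ⟨κN, hκN⟩ := hcmp (r + 1) le_rfl
  have hQ := hlip (c := c) (i := r + 1) (G := χ) (Q := χ (r + 1) - ψ (r + 1) - MvPolynomial.C κN)
    (g := gt) (a := t)
    (t := F.t μ₀) (M := 2 ^ k / 2 ^ gw (r + 1)) (ρ := ρ₂) (k + 1) (by omega) hci hχ hχd
    (fun y y' h1 h2 => by
      rw [map_sub, map_sub, map_sub, map_sub, hχd (r + 1) y y' h1 h2, hψd (r + 1) y y' h1 h2,
        eval_C, eval_C])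
    ((totalDegree_sub _ _).trans (max_le ((totalDegree_sub _ _).trans (max_le (hχ _) (hψ _))) (by
      rw [totalDegree_C]
      exact Nat.zero_le _))) (by positivity) hρ₂0 hρ₂1
    (fun y hy => by
      rw [map_sub, map_sub, eval_C]
      exact hκN y hy) b' b hb'n
    (hbt0.trans (div_le_div_of_nonneg_right hρρ₂ (by positivity)))
    (fun l hl => hbχ l (by omega)) (fun l hl => hcc2 l (by omega))
  rw [map_sub _ _ (MvPolynomial.C κN), map_sub _ _ (MvPolynomial.C κN), eval_C, eval_C,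
    sub_sub_sub_cancel_right] at hQ
  have hcd := hdil (c := c) (i := r + 1) (G := χ) (Q := χ' - χ (r + 1)) (g := gt) (a := t)
    (t := F.t μ₀) (M := 2 ^ k / 2 ^ gt (r + 1)) (k + 2) (by omega) hci hχ hχd
    (fun y y' h1 h2 => by
      rw [map_sub, map_sub, hχd (r + 1) y y' h1 h2, hχ'd y y' h1 h2])
    ((totalDegree_sub _ _).trans (max_le hχ' (hχ _))) (by positivity)
    (fun y hy => by
      rw [map_sub]
      exact hcode y hy) b
    (hbt0.trans (div_le_div_of_nonneg_right (hρρ₂.trans hρ₂1) (by positivity)))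
    (fun l hl => by
      have h1 := hbχ l (by omega)
      have h2 := hcc2 l (by omega)
      have e1 : b (some (c l)) - eval b (χ l) = ((b (some (c l)) - eval b (χ l)) -
          (b' (some (c l)) - eval b' (χ l))) + (b' (some (c l)) - eval b' (χ l)) := by ring
      rw [e1]
      refine (abs_add_le _ _).trans ((add_le_add h2 h1).trans ?_)
      rw [← add_div]
      refine div_le_div_of_nonneg_right ?_ (by positivity)
      have h3 : (1 : ℝ) ≤ 2 ^ (k + 1) := one_le_pow₀ (by norm_num)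
      have h4 : (2 : ℝ) ^ (k + 2) = 2 ^ (k + 1) + 2 ^ (k + 1) := by ring
      rw [h4]
      linarith)
  -- the sum
  have h1 : (op w c ψ (slam F w μ) (r + 1)).eval (rt F w μ) =
      (F.x μ (c (r + 1)) - eval b χ') + eval b (χ' - χ (r + 1)) +
        eval b (χ (r + 1) - ψ (r + 1)) := by
    rw [op_at hwJ, map_sub, map_sub, hb]
    ring
  have h2 := hinc (r + 1) le_rfl
  have h3 : (op w c ψ (slam F w μ) (r + 1)).eval (rt F w μ₀) - eval b' (χ (r + 1) - ψ (r + 1)) =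
      (F.x μ (c (r + 1)) - eval b χ') + eval b (χ' - χ (r + 1)) +
      (eval b (χ (r + 1) - ψ (r + 1)) - eval b' (χ (r + 1) - ψ (r + 1))) -
      ((op w c ψ (slam F w μ) (r + 1)).eval (rt F w μ) -
        (op w c ψ (slam F w μ) (r + 1)).eval (rt F w μ₀)) := by
    rw [h1]
    ring
  rw [← hb₀, ← hb', h3]
  rw [← hb] at hpos
  refine (abs_sub _ _).trans ((add_le_add ((abs_add_le _ _).trans (add_le_add ((abs_add_le _ _).trans
    (add_le_add hpos hcd)) hQ)) h2).trans ?_)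
  obtain ⟨E, hE⟩ : ∃ E : ℝ, E = 2 ^ (C * (k + 1)) := ⟨_, rfl⟩
  have hg1 : (0 : ℝ) < 1 / 2 ^ gt (r + 1) := by positivity
  have hEc : (1 : ℝ) + 2 ^ (c₃ + (k + 2) * D₃) * 2 ^ k ≤ E := by
    have h4 : (1 : ℝ) ≤ 2 ^ (c₃ + (k + 2) * D₃) * 2 ^ k :=
      one_le_mul_of_one_le_of_one_le (one_le_pow₀ (by norm_num)) (one_le_pow₀ (by norm_num))
    have h5 : (2 : ℝ) ^ (c₃ + (k + 2) * D₃) * 2 ^ k * 2 ≤ E := by
      rw [hE, ← pow_add, ← pow_succ]
      refine pow_le_pow_right₀ (by norm_num) ?_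
      rw [hCk]
      have h6 : (k + 2) * D₃ ≤ 3 * D₃ * (k + 1) := by nlinarith [Nat.zero_le (D₃ * k)]
      have h7 := hk1 c₃
      omega
    linarith
  have hA : 1 / 2 ^ gt (r + 1) + 2 ^ (c₃ + (k + 2) * D₃) * (2 ^ k / 2 ^ gt (r + 1)) ≤
      E * (1 / 2 ^ gt (r + 1)) := by
    calc _ = (1 + 2 ^ (c₃ + (k + 2) * D₃) * 2 ^ k) * (1 / 2 ^ gt (r + 1)) := by ring
      _ ≤ _ := mul_le_mul_of_nonneg_right hEc hg1.le
  obtain ⟨v, hv⟩ : ∃ v : ℝ, v = 2 ^ ((r + 2) * q) / 2 ^ (gw (r + 1) + B) := ⟨_, rfl⟩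
  have hv0 : 0 < v := by rw [hv]; positivity
  have hBv : 1 / 2 ^ B / 2 ^ gw (r + 1) ≤ v := by
    rw [hv, div_div, ← pow_add, add_comm B]
    exact div_le_div_of_nonneg_right (one_le_pow₀ (by norm_num)) (by positivity)
  have hX : 2 ^ (c₂ + k) / 2 ^ B / 2 ^ gw (r + 1) ≤ 2 ^ (c₂ + k) * v := by
    calc (2 : ℝ) ^ (c₂ + k) / 2 ^ B / 2 ^ gw (r + 1) =
          2 ^ (c₂ + k) * (1 / 2 ^ B / 2 ^ gw (r + 1)) := by ring
      _ ≤ _ := mul_le_mul_of_nonneg_left hBv (by positivity)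
  obtain ⟨n₁, hn₁⟩ : ∃ n₁ : ℕ, n₁ = (r + 1) * (2 * C₁ * (k + 1)) + c₂ * (k + 1) + 2 * (k + 1) :=
    ⟨_, rfl⟩
  have hY : 2 ^ (c₀ + (k + 1) * D₁) * (2 ^ k / 2 ^ gw (r + 1)) * ρ₂ ≤
      2 ^ (c₀ + (k + 1) * D₁ + k + n₁) * v := by
    have h4 := hκ.2
    rw [← hρ₂, ← hn₁] at h4
    calc 2 ^ (c₀ + (k + 1) * D₁) * (2 ^ k / 2 ^ gw (r + 1)) * ρ₂ ≤
          2 ^ (c₀ + (k + 1) * D₁) * (2 ^ k / 2 ^ gw (r + 1)) *
            (2 ^ ((r + 2) * q) * 2 ^ n₁ / 2 ^ B) := mul_le_mul_of_nonneg_left h4 (by positivity)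
      _ = _ := by
        rw [hv, pow_add _ _ n₁, pow_add _ _ k, pow_add _ (gw (r + 1)) B]
        field_simp
  have hZ : (2 : ℝ) ^ (c₀ + (k + 1) * D₁ + k + n₁) + 2 ^ (c₂ + k) ≤ E := by
    have h4 : (2 : ℝ) ^ (c₂ + k) ≤ 2 ^ (c₀ + (k + 1) * D₁ + k + n₁) := by
      refine pow_le_pow_right₀ (by norm_num) ?_
      rw [hn₁]
      have := hk1 c₂
      omega
    have h5 : (2 : ℝ) ^ (c₀ + (k + 1) * D₁ + k + n₁) * 2 ≤ E := by
      rw [hE, ← pow_succ]
      refine pow_le_pow_right₀ (by norm_num) ?_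
      rw [hCk, hn₁]
      have h6 : (k + 1) * D₁ ≤ 2 * D₁ * (k + 1) := by nlinarith [Nat.zero_le (D₁ * (k + 1))]
      have h7 := hk1 c₀
      omega
    linarith
  rw [← hE, ← hv]
  have hW : 2 ^ (c₀ + (k + 1) * D₁ + k + n₁) * v + 2 ^ (c₂ + k) * v ≤ E * v := by
    rw [← add_mul]
    exact mul_le_mul_of_nonneg_right hZ hv0.le
  rw [mul_add]
  linarith

end Pool.NDD66
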