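import Pool.Agent.H54.ND.Cfg2
import Pool.Agent.H30.TC.Few
import Pool.Agent.H68.OWN.Jd

/-!
# Few bits from a pair of copies

`few_pair`: if two copies of an integer vector over `y` are near off a small event, then the vector
has few bits given `y`. `y_few`: the near data of a configuration are few given the time, the near
data of the own line and the directions of the other lines.
-/

set_option autoImplicit false

namespace Pool.NDD66

open Finset Real
open Pool.Agent.H49.Ent Pool.Agent.H32.Dense Pool.STK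
open Pool.BFL (Pb)
open Pool.K2S (cpn)
open Pool.CLU (cpn_law cpn_pos cpn_marg marg_cpn)
open Pool.H52.TIE (CH_cpn CH_cpn_zero)
open Pool.ND54 (cpn_tail cfg cfg_law cfg_pos cfg_one)

section

variable {Ω R T Λ X U Y S Z N' : Type} [Fintype Ω]

/-- **Few bits from a pair of copies.** -/
theorem few_pair {p : Ω → ℝ} (hp : IsLaw p) (y : Ω → Y) {ι : Type} [Fintype ι] (X : Ω → ι → ℤ)
    {B D c : ℝ} (hB : 0 ≤ B) (hD : 0 ≤ D) (hX : ∀ ω, 0 < p ω → ∀ i, |(X ω i : ℝ)| ≤ B)
    (hc : ∀ i, Pb (cpn p y 1) (fun v => ¬ |(X (v 1) i : ℝ) - X (v 0) i| ≤ D) ≤ c) :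
    CH p X y ≤ Fintype.card ι *
      (Real.log 2 + (c * Real.log (2 * B + 1) + Real.log (2 * D + 1))) := by
  classical
  have hQ := cpn_law hp y 1
  have Q0 := hQ.nonneg
  refine (Pool.OWN68.CH_pis hp.nonneg X y).trans ?_
  refine (Finset.sum_le_sum (g := fun _ => Real.log 2 + (c * Real.log (2 * B + 1) +
    Real.log (2 * D + 1))) fun i _ => ?_).trans (le_of_eq (by
      rw [Finset.sum_const, Finset.card_univ, nsmul_eq_mul]))
  have h1 : CH p (fun ω => X ω i) y ≤ CH (cpn p y 1) (fun v => X (v 1) i) (fun v => X (v 0) i) := by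
    have h2 := cpn_tail hp y (fun ω => X ω i) 1
    rw [Nat.cast_one, one_mul] at h2
    refine h2.trans ((CH_mono_left Q0 fun w w' _ _ h => ?_).trans
      (CH_mono_cond Q0 fun w w' _ _ h => ?_))
    · have h3 : X (w 1) i = X (w' 1) i := (Prod.ext_iff.1 h).1
      funext j
      have h4 : j = 0 := Subsingleton.elim _ _
      rw [h4]
      exact h3
    · have h3 : w 0 = w' 0 := h
      show X (w 0) i = X (w' 0) i
      rw [h3]
  refine h1.trans ((Pool.TC.CH_near1 hQ (fun v => X (v 1) i) (fun v => X (v 0) i)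
    (fun v => ¬ |(X (v 1) i : ℝ) - X (v 0) i| ≤ D) hB hD (fun v hv =>
      hX _ ((cpn_pos hp.nonneg y 1 v hv).1 1) i) (fun v _ h => ?_)).trans ?_)
  · rw [not_not] at h
    exact h
  · have h3 : 0 ≤ Real.log (2 * B + 1) := Real.log_nonneg (by linarith)
    have h4 := mul_le_mul_of_nonneg_right (hc i) h3
    show _ ≤ Real.log 2 + (c * Real.log (2 * B + 1) + Real.log (2 * D + 1))
    linarith

/-- **The near data of a configuration**: `x` of every line is few given the near position and the
near direction, the near position is a function of the point and few given the time and `x`. -/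
theorem y_few {p : Ω → ℝ} (hp : IsLaw p) (r : Ω → R) (l : Ω → Λ) (m k : ℕ) (t : Ω → T)
    (x : Ω → X) (ud : Ω → U) (pn : Ω → S) (tn : Ω → N') {e₁ e₂ : ℝ}
    (hpr : Det p r pn) (h1 : CH p x (fun ω => (pn ω, ud ω)) ≤ e₁)
    (h2 : CH p pn (fun ω => (t ω, x ω)) ≤ e₂) :
    CH (cfg p r l m k) (fun v => (t (v 0 0), fun (j : Fin (m + 1)) => x (v j 0)))
      (fun v => ((t (v 0 0), x (v 0 0)), fun (j : Fin m) =>
        (ud (v j.succ 0), fun (i : Fin k) => tn (v j.succ i.succ)))) ≤ e₂ + m * e₁ := by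
  classical
  have hc := cfg_law hp r l m k
  have c0 := hc.nonneg
  obtain ⟨W, hW⟩ : ∃ W : (Fin (m + 1) → Fin (k + 1) → Ω) → _, W = fun v =>
    ((t (v 0 0), x (v 0 0)), fun (j : Fin m) =>
        (ud (v j.succ 0), fun (i : Fin k) => tn (v j.succ i.succ))) := ⟨_, rfl⟩
  rw [← hW]
  -- the position first
  have a1 : CH (cfg p r l m k) (fun v => pn (v 0 0)) W ≤ e₂ := by
    have h3 : CH (cfg p r l m k) (fun v => pn (v 0 0)) W ≤
        CH (cfg p r l m k) (fun v => pn (v 0 0)) (fun v => (t (v 0 0), x (v 0 0))) :=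
      CH_mono_cond c0 fun v v' _ _ h => by
        rw [hW] at h
        exact (Prod.ext_iff.1 h).1
    have h4 : CH (cfg p r l m k) (fun v => pn (v 0 0)) (fun v => (t (v 0 0), x (v 0 0))) =
        CH p pn (fun ω => (t ω, x ω)) := (cfg_one hp r l m k 0 0).CH pn (fun ω => (t ω, x ω))
    linarith
  -- the other lines
  have a2 : CH (cfg p r l m k) (fun v => fun (j : Fin m) => x (v j.succ 0))
      (fun v => (pn (v 0 0), W v)) ≤ m * e₁ := by
    refine (Pool.KS3.CH_pi_le c0 (fun v : Fin (m + 1) → Fin (k + 1) → Ω =>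
      fun (j : Fin m) => x (v j.succ 0)) (fun v => (pn (v 0 0), W v))).trans ?_
    refine (Finset.sum_le_sum (g := fun _ => e₁) fun j _ => ?_).trans (le_of_eq (by
      rw [Finset.sum_const, Finset.card_univ, Fintype.card_fin, nsmul_eq_mul]))
    · have h6 : CH (cfg p r l m k) (fun v => x (v j.succ 0)) (fun v => (pn (v 0 0), W v)) ≤
          CH (cfg p r l m k) (fun v => x (v j.succ 0)) (fun v => (pn (v j.succ 0),
            ud (v j.succ 0))) := by
        refine CH_mono_cond c0 fun v v' hv hv' h => ?_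
        have g1 := Prod.ext_iff.1 h
        have g2 : W v = W v' := g1.2
        rw [hW] at g2
        have g3 := congrFun (Prod.ext_iff.1 g2).2 j
        have p1 := cfg_pos hp r l hv
        have p2 := cfg_pos hp r l hv'
        refine Prod.ext ?_ (Prod.ext_iff.1 g3).1
        show pn (v j.succ 0) = pn (v' j.succ 0)
        rw [hpr _ _ (p1.1 j.succ 0) (p1.1 0 0) (p1.2.2 j.succ),
          hpr _ _ (p2.1 j.succ 0) (p2.1 0 0) (p2.2.2 j.succ)]
        exact g1.1
      have h7 : CH (cfg p r l m k) (fun v => x (v j.succ 0)) (fun v => (pn (v j.succ 0),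
          ud (v j.succ 0))) = CH p x (fun ω => (pn ω, ud ω)) :=
        (cfg_one hp r l m k j.succ 0).CH x (fun ω => (pn ω, ud ω))
      linarith
  have a3 : CH (cfg p r l m k) (fun v => (t (v 0 0), fun (j : Fin (m + 1)) => x (v j 0))) W ≤
      CH (cfg p r l m k) (fun v => ((fun (j : Fin m) => x (v j.succ 0)), pn (v 0 0))) W := by
    have h8 := CH_le_add c0 (fun v => (t (v 0 0), fun (j : Fin (m + 1)) => x (v j 0)))
      (fun v => ((fun (j : Fin m) => x (v j.succ 0)), pn (v 0 0))) W
    have h9 : CH (cfg p r l m k) (fun v => (t (v 0 0), fun (j : Fin (m + 1)) => x (v j 0)))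
        (fun v => (((fun (j : Fin m) => x (v j.succ 0)), pn (v 0 0)), W v)) = 0 := by
      refine CH_eq_zero c0 fun v v' _ _ h => ?_
      have g1 := Prod.ext_iff.1 h
      have g2 := congrFun (Prod.ext_iff.1 g1.1).1
      have g3 : W v = W v' := g1.2
      rw [hW] at g3
      have g4 := Prod.ext_iff.1 (Prod.ext_iff.1 g3).1
      refine Prod.ext g4.1 ?_
      funext j
      refine Fin.cases g4.2 (fun j => ?_) j
      exact g2 j
    linarith
  have a4 := CH_chain c0 (fun v => fun (j : Fin m) => x (v j.succ 0)) (fun v => pn (v 0 0)) W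
  linarith

end

end Pool.NDD66
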