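import Pool.Agent.H66.NDD.Rlq

/-!
# A polynomial from its derivative at nodes

`Qk y x₀ k`: the antiderivative, zero at `x₀`, of the Lagrange polynomial of the node `y k`. `quad`:
`q x - q x₀ = ∑ k, Qk y x₀ k x * q' (y k)` for `q` of degree at most `D`, `D` nodes. `Qk_le`: the
bound. `quad_err`: the same with errors.
-/

set_option autoImplicit false

namespace Pool.NDD66

open Finset Real
open Polynomial

/-- An antiderivative. -/
noncomputable def aP (p : ℝ[X]) : ℝ[X] :=
  ∑ n ∈ range (p.natDegree + 1), C (p.coeff n / (n + 1)) * X ^ (n + 1)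

theorem aP_der (p : ℝ[X]) : derivative (aP p) = p := by
  unfold aP
  rw [derivative_sum]
  conv_rhs => rw [p.as_sum_range_C_mul_X_pow]
  refine Finset.sum_congr rfl fun n _ => ?_
  rw [derivative_C_mul_X_pow]
  have h : ((n : ℝ) + 1) ≠ 0 := by positivity
  have e1 : p.coeff n / (n + 1) * ((n + 1 : ℕ) : ℝ) = p.coeff n := by
    push_cast
    field_simp
  rw [e1, Nat.add_sub_cancel]

theorem aP_deg (p : ℝ[X]) : (aP p).natDegree ≤ p.natDegree + 1 := by
  unfold aP
  refine natDegree_sum_le_of_forall_le _ _ fun n hn => ?_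
  refine (natDegree_C_mul_X_pow_le _ _).trans ?_
  have := Finset.mem_range.1 hn
  omega

/-- **The weights of the quadrature.** -/
noncomputable def Qk {D : ℕ} (y : Fin D → ℝ) (x₀ : ℝ) (k : Fin D) : ℝ[X] :=
  aP (Lagrange.basis Finset.univ y k) - C ((aP (Lagrange.basis Finset.univ y k)).eval x₀)

theorem Qk_der {D : ℕ} (y : Fin D → ℝ) (x₀ : ℝ) (k : Fin D) :
    derivative (Qk y x₀ k) = Lagrange.basis Finset.univ y k := by
  unfold Qk
  rw [derivative_sub, derivative_C, sub_zero, aP_der]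

theorem Qk_zero {D : ℕ} (y : Fin D → ℝ) (x₀ : ℝ) (k : Fin D) : (Qk y x₀ k).eval x₀ = 0 := by
  unfold Qk
  rw [eval_sub, eval_C, sub_self]

theorem bas_deg {D : ℕ} (y : Fin D → ℝ) (k : Fin D) :
    (Lagrange.basis Finset.univ y k).natDegree ≤ D - 1 := by
  unfold Lagrange.basis
  refine (natDegree_prod_le _ _).trans ?_
  calc ∑ j ∈ Finset.univ.erase k, (Lagrange.basisDivisor (y k) (y j)).natDegree ≤
        ∑ _j ∈ (Finset.univ : Finset (Fin D)).erase k, 1 := by
        refine Finset.sum_le_sum fun j _ => ?_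
        unfold Lagrange.basisDivisor
        refine (natDegree_C_mul_le _ _).trans ?_
        exact natDegree_sub_C.le.trans natDegree_X_le
    _ = D - 1 := by
        rw [Finset.sum_const, Finset.card_erase_of_mem (Finset.mem_univ k), Finset.card_univ,
          Fintype.card_fin, smul_eq_mul, mul_one]

theorem Qk_deg {D : ℕ} (y : Fin D → ℝ) (x₀ : ℝ) (k : Fin D) : (Qk y x₀ k).natDegree ≤ D := by
  unfold Qk
  rw [natDegree_sub_C]
  refine (aP_deg _).trans ?_
  have h1 := bas_deg y k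
  have h2 := k.2
  omega

/-- **A polynomial from its derivative at nodes.** -/
theorem quad {D : ℕ} {y : Fin D → ℝ} (hy : Function.Injective y) (x₀ : ℝ) {q : ℝ[X]}
    (hq : q.natDegree ≤ D) (x : ℝ) :
    q.eval x - q.eval x₀ = ∑ k, (Qk y x₀ k).eval x * (derivative q).eval (y k) := by
  classical
  have hdeg : (derivative q).degree < ((Finset.univ : Finset (Fin D)).card : WithBot ℕ) := by
    rw [Finset.card_univ, Fintype.card_fin]
    by_cases h0 : q = 0
    · rw [h0, derivative_zero, degree_zero]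
      exact WithBot.bot_lt_coe _
    · exact (degree_derivative_lt h0).trans_le (degree_le_of_natDegree_le hq)
  have hint := Lagrange.eq_interpolate (s := (Finset.univ : Finset (Fin D))) (v := y)
    (hy.injOn) hdeg
  rw [Lagrange.interpolate_apply] at hint
  obtain ⟨P, hP⟩ : ∃ P : ℝ[X], P = q - ∑ k, C ((derivative q).eval (y k)) * Qk y x₀ k -
      C (q.eval x₀) := ⟨_, rfl⟩
  have hPd : derivative P = 0 := by
    rw [hP, derivative_sub, derivative_sub, derivative_C, sub_zero, derivative_sum, sub_eq_zero]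
    conv_lhs => rw [hint]
    refine Finset.sum_congr rfl fun k _ => ?_
    rw [derivative_mul, derivative_C, zero_mul, zero_add, Qk_der]
  have hP0 : P.eval x₀ = 0 := by
    rw [hP, eval_sub, eval_sub, eval_C, eval_finsetSum, Finset.sum_eq_zero, sub_zero, sub_self]
    intro k _
    rw [eval_mul, Qk_zero, mul_zero]
  have hPC := eq_C_of_natDegree_eq_zero (natDegree_eq_zero_of_derivative_eq_zero hPd)
  have hPx : P.eval x = 0 := by
    rw [hPC, eval_C]
    rw [hPC, eval_C] at hP0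
    exact hP0
  rw [hP, eval_sub, eval_sub, eval_C, eval_finsetSum] at hPx
  have e1 : ∑ k, (Qk y x₀ k).eval x * (derivative q).eval (y k) =
      ∑ k, (C ((derivative q).eval (y k)) * Qk y x₀ k).eval x := by
    refine Finset.sum_congr rfl fun k _ => ?_
    rw [eval_mul, eval_C, mul_comm]
  rw [e1]
  linarith

theorem bas_le {D : ℕ} {y : Fin D → ℝ} {s S x : ℝ} (hs : 0 < s)
    (h1 : ∀ i j, i ≠ j → s ≤ |y i - y j|) (h2 : ∀ j, |x - y j| ≤ S) (k : Fin D) :
    |(Lagrange.basis Finset.univ y k).eval x| ≤ (S / s) ^ (D - 1) := by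
  have hcard : (Finset.univ.erase k).card = D - 1 := by
    rw [Finset.card_erase_of_mem (Finset.mem_univ k), Finset.card_univ, Fintype.card_fin]
  unfold Lagrange.basis
  rw [eval_prod, Finset.abs_prod, ← hcard]
  refine (Finset.prod_le_prod (fun _ _ => abs_nonneg _) fun j hj => ?_).trans
    (le_of_eq (Finset.prod_const (S / s)))
  unfold Lagrange.basisDivisor
  rw [eval_mul, eval_C, eval_sub, eval_X, eval_C, abs_mul, abs_inv, inv_mul_eq_div]
  exact div_le_div₀ ((abs_nonneg _).trans (h2 j)) (h2 j) hs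
    (h1 k j (Finset.ne_of_mem_erase hj).symm)

/-- **The bound of the weights.** -/
theorem Qk_le {D : ℕ} {y : Fin D → ℝ} {s S x x₀ : ℝ} (hs : 0 < s)
    (h1 : ∀ i j, i ≠ j → s ≤ |y i - y j|) (h2 : ∀ j, |x - y j| ≤ S) (h3 : ∀ j, |x₀ - y j| ≤ S)
    (k : Fin D) : |(Qk y x₀ k).eval x| ≤ (S / s) ^ (D - 1) * |x - x₀| := by
  have hS : ∀ z ∈ Set.uIcc x₀ x, ∀ j, |z - y j| ≤ S := by
    intro z hz j
    have h4 := h2 j
    have h5 := h3 j
    rw [abs_le] at h4 h5 ⊢
    rcases Set.mem_uIcc.1 hz with h6 | h6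
    · constructor <;> linarith [h6.1, h6.2]
    · constructor <;> linarith [h6.1, h6.2]
  have h4 := Convex.norm_image_sub_le_of_norm_deriv_le (f := fun z => (Qk y x₀ k).eval z)
    (C := (S / s) ^ (D - 1)) (s := Set.uIcc x₀ x) (x := x₀) (y := x)
    (fun z _ => (Qk y x₀ k).differentiable z) (fun z hz => by
      rw [Polynomial.deriv, Qk_der, Real.norm_eq_abs]
      exact bas_le hs h1 (hS z hz) k) (convex_uIcc x₀ x) Set.left_mem_uIcc Set.right_mem_uIcc
  rw [Real.norm_eq_abs, Real.norm_eq_abs, Qk_zero, sub_zero] at h4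
  exact h4

/-- **The quadrature with errors.** -/
theorem quad_err {D : ℕ} {y : Fin D → ℝ} (hy : Function.Injective y) {x x₀ nx n₀ η η₀ η' : ℝ}
    {Cv : Fin D → ℝ} {q : ℝ[X]} (hq : q.natDegree ≤ D) (h : |nx - q.eval x| ≤ η)
    (h₀ : |n₀ - q.eval x₀| ≤ η₀) (hC : ∀ k, |Cv k - (derivative q).eval (y k)| ≤ η') :
    |nx - n₀ - ∑ k, (Qk y x₀ k).eval x * Cv k| ≤
      η + η₀ + (∑ k, |(Qk y x₀ k).eval x|) * η' := by
  have h1 := quad hy x₀ hq x
  have e1 : nx - n₀ - ∑ k, (Qk y x₀ k).eval x * Cv k = (nx - q.eval x) - (n₀ - q.eval x₀) -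
      ∑ k, (Qk y x₀ k).eval x * (Cv k - (derivative q).eval (y k)) := by
    have e2 : ∑ k, (Qk y x₀ k).eval x * (Cv k - (derivative q).eval (y k)) =
        ∑ k, (Qk y x₀ k).eval x * Cv k - ∑ k, (Qk y x₀ k).eval x * (derivative q).eval (y k) := by
      rw [← Finset.sum_sub_distrib]
      exact Finset.sum_congr rfl fun k _ => by ring
    rw [e2, ← h1]
    ring
  rw [e1]
  refine (abs_sub _ _).trans (add_le_add ((abs_sub _ _).trans (add_le_add h h₀)) ?_)
  refine (Finset.abs_sum_le_sum_abs _ _).trans ?_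
  rw [Finset.sum_mul]
  refine Finset.sum_le_sum fun k _ => ?_
  rw [abs_mul]
  exact mul_le_mul_of_nonneg_left (hC k) (abs_nonneg _)

/-- **The polynomial at a node**: the value of the first line plus the quadrature with the
derivatives of the auxiliary lines. -/
noncomputable def qN {D : ℕ} (y : Fin D → ℝ) (x₀ n₀ : ℝ) (Cv : Fin D → ℝ) : ℝ[X] :=
  C n₀ + ∑ k, C (Cv k) * Qk y x₀ k

theorem qN_deg {D : ℕ} (y : Fin D → ℝ) (x₀ n₀ : ℝ) (Cv : Fin D → ℝ) :
    (qN y x₀ n₀ Cv).natDegree ≤ D := by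
  unfold qN
  refine (natDegree_add_le _ _).trans (max_le ?_ ?_)
  · rw [natDegree_C]
    exact Nat.zero_le _
  · refine natDegree_sum_le_of_forall_le _ _ fun k _ => ?_
    exact (natDegree_C_mul_le _ _).trans (Qk_deg y x₀ k)

theorem qN_eval {D : ℕ} (y : Fin D → ℝ) (x₀ n₀ : ℝ) (Cv : Fin D → ℝ) (x : ℝ) :
    (qN y x₀ n₀ Cv).eval x = n₀ + ∑ k, (Qk y x₀ k).eval x * Cv k := by
  unfold qN
  rw [eval_add, eval_C, eval_finsetSum]
  congr 1
  refine Finset.sum_congr rfl fun k _ => ?_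
  rw [eval_mul, eval_C, mul_comm]

end Pool.NDD66
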