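import Pool.Agent.H66.NDD.Tup

/-!
# The relation at the common time

`nbx_der`: the derivative of a polynomial on a natural box in the direction of the last coordinate.
`one_q`: the target and the derivative of its row label at a sample, in terms of the values and the
derivative of its chart at a near point of the same height. `quad`: a polynomial of degree at most
`D` from its derivative at `D` nodes.
-/

set_option autoImplicit false

namespace Pool.NDD66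

open Finset Real MvPolynomial
open Pool.Agent.H49.Ent Pool.Agent.H32.Dense Pool.STK Pool.KA Pool.KSAT Pool.K2S Pool.PB Pool.S6C
open Pool.GEN Pool.CHT Pool.D2R
open Pool.PB.Trl (rt rt_mem t_rt)

variable {m J : ℕ}

/-- **The derivative on a natural box** in the direction of the last coordinate. -/
theorem nbx_der (D r : ℕ) : ∃ C : ℕ, ∀ {m : ℕ} {c : ℕ → Fin m} {g : ℕ → ℕ} {a : ℕ} {t M : ℝ}
    {χ : ℕ → MvPolynomial (Option (Fin m)) ℝ} {Q : MvPolynomial (Option (Fin m)) ℝ},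
    Set.InjOn c (Set.Iio (r + 1)) → (∀ l, (χ l).totalDegree ≤ D) → (∀ l, DepC c l (χ l)) →
    DepC c (r + 1) Q → Q.totalDegree ≤ D → 0 ≤ M →
    (∀ b, NBx c χ g a t (r + 1) b → |eval b Q| ≤ M) → ∀ b, NBx c χ g (a + 1) t (r + 1) b →
    |eval b (pderiv (some (c r)) Q)| ≤ 2 ^ C * M * 2 ^ g r := by
  classical
  obtain ⟨C, hC, hbt⟩ := box_two (r + 1) D D
  obtain ⟨c₀, hc₀⟩ := pow_unbounded_of_one_lt C (one_lt_two (α := ℝ))
  refine ⟨c₀, ?_⟩
  intro m c g a t M χ Q hc hχ hχd hQ hQd hM hbd b hb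
  have hsingle : ∀ P : MvPolynomial (Option (Fin m)) ℝ,
      dd P b (Pi.single (some (c r)) (1 / 2 ^ g r)) =
        eval b (pderiv (some (c r)) P) * (1 / 2 ^ g r) := by
    intro P
    unfold dd
    rw [Finset.sum_eq_single (some (c r))]
    · rw [Pi.single_eq_same]
    · intro o _ ho
      rw [Pi.single_eq_of_ne ho, mul_zero]
    · intro h
      exact absurd (Finset.mem_univ _) h
  have hW : ∀ l < r + 1, (Pi.single (some (c r)) (1 / 2 ^ g r) : Option (Fin m) → ℝ)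
      (some (c l)) - dd (χ l) b (Pi.single (some (c r)) (1 / 2 ^ g r)) =
      if l = r then 1 / 2 ^ g r else 0 := by
    intro l hl
    rw [hsingle, pd_zero (hχd l) (fun j hj h => by
      have h1 := hc (show j ∈ Set.Iio (r + 1) by rw [Set.mem_Iio]; omega)
        (show r ∈ Set.Iio (r + 1) by rw [Set.mem_Iio]; omega) h
      omega), zero_mul, sub_zero]
    by_cases h : l = r
    · rw [if_pos h, h, Pi.single_eq_same]
    · rw [if_neg h, Pi.single_eq_of_ne]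
      intro h2
      exact h (hc (show l ∈ Set.Iio (r + 1) from hl) (show r ∈ Set.Iio (r + 1) by
        rw [Set.mem_Iio]; omega) (Option.some_injective _ h2))
  have h1 := (hbt (M := M) (L := 1) (a := a + 1) (x := b) hc hχ hχd hQ hQd hM one_pos
    (fun b' hb' => hbd b' ⟨by
      have h2 := hb'.1
      have h3 := hb.1
      have h4 : (1 : ℝ) / 2 ^ (a + 1) + 1 / 2 ^ (a + 1) = 1 / 2 ^ a := by
        rw [pow_succ]
        field_simp
        norm_num
      rw [← h4]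
      have e1 : b' none - t = (b' none - b none) + (b none - t) := by ring
      rw [e1]
      exact (abs_add_le _ _).trans (add_le_add h2 h3), hb'.2⟩) (fun l hl => hb.2 l hl)
    (Pi.single (some (c r)) (1 / 2 ^ g r)) (by
      rw [Pi.single_eq_of_ne (by simp), abs_zero]
      positivity) (fun l hl => by
      rw [hW l hl]
      split_ifs with h
      · rw [h, abs_of_pos (by positivity)]
      · rw [abs_zero]
        positivity)).1
  rw [hsingle, mul_one, abs_mul, abs_of_pos (show (0 : ℝ) < 1 / 2 ^ g r by positivity),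
    mul_one_div, div_le_iff₀ (by positivity)] at h1
  refine h1.trans (mul_le_mul_of_nonneg_right (mul_le_mul_of_nonneg_right hc₀.le hM)
    (by positivity))

/-- **The target at a sample** from its chart at a near point with the same heights. -/
theorem one_q (D r : ℕ) : ∃ C : ℕ, 1 ≤ C ∧ ∀ {m J : ℕ} {F : Fam m J} {c : ℕ → Fin m}
    {w t k q B : ℕ} {gw gt : ℕ → ℕ} {χ ψ : ℕ → MvPolynomial (Option (Fin m)) ℝ}
    {R : MvPolynomial (Option (Fin m)) ℝ} {y : ℝ} {μ : F.Ω} {b : Option (Fin m) → ℝ},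
    Set.InjOn c (Set.Iio (r + 2)) → t ≤ w + q → (∀ l ≤ r, gt l ≤ gw l + q) →
    (∀ l, (χ l).totalDegree ≤ D) → (∀ l, DepC c l (χ l)) →
    (∀ l, (ψ l).totalDegree ≤ D) → (∀ l, DepC c l (ψ l)) →
    (∀ l ≤ r + 1, |F.x μ (c l) - eval (bt F μ) (χ l)| ≤ 1 / 2 ^ gt l) →
    (∀ l ≤ r + 1, ∃ κ : ℝ, ∀ b, NBx c χ gt t (F.t μ) l b →
      |eval b (χ l) - eval b (ψ l) - κ| ≤ 2 ^ k / 2 ^ gw l) →
    |b none - F.t μ| ≤ 1 / 2 ^ (w + B) →
    (∀ l < r, |(b (some (c l)) - eval b (ψ l)) - (F.x μ (c l) - eval (bt F μ) (ψ l))| ≤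
      1 / 2 ^ (gw l + B)) →
    |(b (some (c r)) + y - eval b (ψ r)) - (F.x μ (c r) - eval (bt F μ) (ψ r))| ≤
      1 / 2 ^ (gw r + B) →
    (r + 2) * q + C * (k + 1) ≤ B →
    |eval (bt F μ) (pderiv (some (c r)) (R - χ (r + 1)))| ≤ 2 ^ k * 2 ^ gt r / 2 ^ gt (r + 1) →
    |F.x μ (c (r + 1)) - eval (bt F μ) (ψ (r + 1)) -
      eval (Function.update b (some (c r)) (b (some (c r)) + y)) (χ (r + 1) - ψ (r + 1))| ≤
      2 ^ (C * (k + 1)) * (1 / 2 ^ gt (r + 1) + 2 ^ ((r + 2) * q) / 2 ^ (gw (r + 1) + B)) ∧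
    |eval (bt F μ) (pderiv (some (c r)) (R - ψ (r + 1))) -
      eval (Function.update b (some (c r)) (b (some (c r)) + y))
        (pderiv (some (c r)) (χ (r + 1) - ψ (r + 1)))| ≤
      2 ^ (C * (k + 1)) * 2 ^ gt r *
        (1 / 2 ^ gt (r + 1) + 2 ^ ((r + 2) * q) / 2 ^ (gw (r + 1) + B)) := by
  classical
  obtain ⟨C₁, hC₁, hchg⟩ := hgt_chg D r
  obtain ⟨c₀, D₁, hD₁, hlip⟩ := nbx_lipt (r + 2) (fun _ => D)
  obtain ⟨c₅, hder⟩ := nbx_der D r
  obtain ⟨C, hC⟩ : ∃ C : ℕ, C = (r + 1) * C₁ + c₀ + D₁ + c₅ + 4 := ⟨_, rfl⟩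
  refine ⟨C, by omega, ?_⟩
  intro m J F c w t k q B gw gt χ ψ R y μ b hc htq hg hχ hχd hψ hψd hpos hcmp hbn hbl hbr hB hR
  have hci : Set.InjOn c (Set.Iio (r + 1)) := hc.mono fun y hy => by
    rw [Set.mem_Iio] at hy ⊢
    omega
  have hk1 : ∀ n : ℕ, n ≤ n * (k + 1) := fun n => Nat.le_mul_of_pos_right _ (Nat.succ_pos k)
  have hCk : C * (k + 1) = (r + 1) * (C₁ * (k + 1)) + c₀ * (k + 1) + D₁ * (k + 1) +
      c₅ * (k + 1) + 4 * (k + 1) := by
    rw [hC]
    ring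
  obtain ⟨b', hb'⟩ : ∃ b', b' = Function.update b (some (c r)) (b (some (c r)) + y) := ⟨_, rfl⟩
  have hcl : ∀ l ≤ r + 1, l ≠ r → (some (c l) : Option (Fin m)) ≠ some (c r) := by
    intro l hl hlr h2
    exact hlr (hc (show l ∈ Set.Iio (r + 2) by rw [Set.mem_Iio]; omega)
      (show r ∈ Set.Iio (r + 2) by rw [Set.mem_Iio]; omega) (Option.some_injective _ h2))
  have hb'l : ∀ l ≤ r + 1, l ≠ r → b' (some (c l)) = b (some (c l)) := by
    intro l hl hlr
    rw [hb', Function.update_of_ne (hcl l hl hlr)]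
  have hb'r : b' (some (c r)) = b (some (c r)) + y := by
    rw [hb', Function.update_self]
  have hb'n : b' none = b none := by rw [hb', Function.update_of_ne (by simp)]
  have hev : ∀ l ≤ r, ∀ Q : MvPolynomial (Option (Fin m)) ℝ, DepC c l Q →
      eval b' Q = eval b Q := by
    intro l hl Q hQ
    exact hQ _ _ hb'n fun j hj => hb'l j (by omega) (by omega)
  obtain ⟨b₁, hb₁⟩ : ∃ b₁, b₁ = bt F μ := ⟨_, rfl⟩
  have hb₁n : b₁ none = F.t μ := by rw [hb₁]; rfl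
  have hb₁l : ∀ l, b₁ (some (c l)) = F.x μ (c l) := fun l => by rw [hb₁]; rfl
  rw [← hb₁] at hR ⊢
  simp only [← hb₁] at hpos hbl hbr
  -- the distances
  obtain ⟨ρ, hρ⟩ : ∃ ρ : ℝ, ρ = 2 ^ (q + 1) / 2 ^ B := ⟨_, rfl⟩
  have hρ0 : 0 < ρ := by rw [hρ]; positivity
  have hBρ : (1 : ℝ) / 2 ^ B ≤ ρ := by
    rw [hρ]
    exact div_le_div_of_nonneg_right (one_le_pow₀ (by norm_num)) (by positivity)
  have ht1 : |b' none - F.t μ| ≤ ρ / 2 ^ (t + 1) := by
    rw [hb'n]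
    refine hbn.trans ?_
    rw [hρ, div_div, div_le_div_iff₀ (by positivity) (by positivity), one_mul, ← pow_add,
      ← pow_add]
    exact pow_le_pow_right₀ (by norm_num) (by omega)
  have ht0 : |b' none - F.t μ| ≤ ρ / 2 ^ t := ht1.trans (div_le_div_of_nonneg_left hρ0.le
    (by positivity) (pow_le_pow_right₀ (by norm_num) (by omega)))
  have hψh : ∀ l ≤ r, |(b' (some (c l)) - eval b' (ψ l)) - (b₁ (some (c l)) - eval b₁ (ψ l))| ≤
      ρ / 2 ^ gw l := by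
    intro l hl
    have h0 : (1 : ℝ) / 2 ^ (gw l + B) ≤ ρ / 2 ^ gw l := by
      rw [pow_add, mul_comm, ← div_div]
      exact div_le_div_of_nonneg_right hBρ (by positivity)
    rw [hev l hl _ (hψd l), hb₁l]
    by_cases hlr : l = r
    · subst hlr
      rw [hb'r]
      exact hbr.trans h0
    · rw [hb'l l (by omega) hlr]
      exact (hbl l (by omega)).trans h0
  have hκ : 2 ^ ((r + 1) * (q + C₁ * (k + 1))) * ρ ≤ 2 ^ ((r + 2) * q) *
      2 ^ ((r + 1) * (C₁ * (k + 1)) + 1) / 2 ^ B := by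
    refine le_of_eq ?_
    rw [hρ, ← mul_div_assoc, ← pow_add, ← pow_add]
    congr 2
    ring
  have hκ1 : 2 ^ ((r + 1) * (q + C₁ * (k + 1))) * ρ ≤ 1 := by
    refine hκ.trans ?_
    rw [div_le_one (by positivity), ← pow_add]
    refine pow_le_pow_right₀ (by norm_num) (le_trans ?_ hB)
    rw [hCk]
    have := hk1 4
    omega
  have h1k : (1 : ℝ) ≤ 2 ^ k := one_le_pow₀ (by norm_num)
  have hpos' : ∀ l ≤ r, |b₁ (some (c l)) - eval b₁ (χ l)| ≤ 2 ^ k / 2 ^ gt l := fun l hl => by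
    rw [hb₁l]
    exact (hpos l (by omega)).trans (div_le_div_of_nonneg_right h1k (by positivity))
  have hcc := hchg (c := c) (t := t) (k := k) (q := q) (gw := gw) (gt := gt) (t₀ := F.t μ) hci hg
    hχ hχd hψ hψd (fun l hl => hcmp l (by omega)) hb₁n ht0 hpos' hρ0 hκ1 hψh
  obtain ⟨ρ₂, hρ₂⟩ : ∃ ρ₂ : ℝ, ρ₂ = 2 ^ ((r + 1) * (q + C₁ * (k + 1))) * ρ := ⟨_, rfl⟩
  have hρρ₂ : ρ ≤ ρ₂ := by
    rw [hρ₂]
    exact le_mul_of_one_le_left hρ0.le (one_le_pow₀ (by norm_num))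
  have hρ₂1 : ρ₂ ≤ 1 := by rw [hρ₂]; exact hκ1
  have hρ₂0 : 0 < ρ₂ := hρ0.trans_le hρρ₂
  have hcc2 : ∀ l ≤ r, |(b' (some (c l)) - eval b' (χ l)) - (b₁ (some (c l)) - eval b₁ (χ l))| ≤
      ρ₂ / 2 ^ gt l := by
    intro l hl
    refine (hcc l hl).trans (div_le_div_of_nonneg_right ?_ (by positivity))
    rw [hρ₂]
    exact mul_le_mul_of_nonneg_right (pow_le_pow_right₀ (by norm_num)
      (Nat.mul_le_mul_right _ (by omega))) hρ0.le
  obtain ⟨κN, hκN⟩ := hcmp (r + 1) le_rfl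
  obtain ⟨Q, hQ⟩ : ∃ Q, Q = χ (r + 1) - ψ (r + 1) - MvPolynomial.C κN := ⟨_, rfl⟩
  have hQd : Q.totalDegree ≤ D := by
    rw [hQ]
    exact (totalDegree_sub _ _).trans (max_le ((totalDegree_sub _ _).trans
      (max_le (hχ _) (hψ _))) (by
      rw [totalDegree_C]
      exact Nat.zero_le _))
  have hQp : DepC c (r + 1) Q := fun y y' h1 h2 => by
    rw [hQ, map_sub, map_sub, map_sub, map_sub, hχd (r + 1) y y' h1 h2, hψd (r + 1) y y' h1 h2,
      eval_C, eval_C]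
  have hQb : ∀ y, NBx c χ gt t (F.t μ) (r + 1) y → |eval y Q| ≤ 2 ^ k / 2 ^ gw (r + 1) := by
    intro y hy
    rw [hQ, map_sub, map_sub, eval_C]
    exact hκN y hy
  have hQe : ∀ y, eval y Q = eval y (χ (r + 1) - ψ (r + 1)) - κN := fun y => by
    rw [hQ, map_sub, eval_C]
  have hQdr : ∀ y, eval y (pderiv (some (c r)) Q) =
      eval y (pderiv (some (c r)) (χ (r + 1) - ψ (r + 1))) := fun y => by
    rw [hQ, map_sub, pderiv_C, sub_zero]
  have hv := hlip (c := c) (i := r + 1) (G := χ) (Q := Q) (g := gt) (a := t) (t := F.t μ)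
    (M := 2 ^ k / 2 ^ gw (r + 1)) (ρ := ρ₂) k (by omega) hci hχ hχd hQp hQd (by positivity) hρ₂0
    hρ₂1 hQb b₁ b' hb₁n (ht0.trans (div_le_div_of_nonneg_right hρρ₂ (by positivity)))
    (fun l hl => hpos' l (by omega)) (fun l hl => hcc2 l (by omega))
  rw [hQe, hQe, sub_sub_sub_cancel_right] at hv
  have hdb := hder (g := gt) (a := t) (t := F.t μ) hci hχ hχd hQp hQd
    (by positivity : (0 : ℝ) ≤ 2 ^ k / 2 ^ gw (r + 1)) hQb
  have hd := hlip (c := c) (i := r + 1) (G := χ) (Q := pderiv (some (c r)) Q) (g := gt)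
    (a := t + 1) (t := F.t μ)
    (M := 2 ^ c₅ * (2 ^ k / 2 ^ gw (r + 1)) * 2 ^ gt r) (ρ := ρ₂) k (by omega) hci hχ hχd
    (DepC.pderiv hQp r) (totalDegree_pdσ hQd _) (by positivity) hρ₂0
    hρ₂1 hdb b₁ b' hb₁n (ht1.trans (div_le_div_of_nonneg_right hρρ₂ (by positivity)))
    (fun l hl => hpos' l (by omega)) (fun l hl => hcc2 l (by omega))
  rw [hQdr, hQdr] at hd
  -- the numbers
  obtain ⟨v, hv'⟩ : ∃ v : ℝ, v = 2 ^ ((r + 2) * q) / 2 ^ (gw (r + 1) + B) := ⟨_, rfl⟩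
  obtain ⟨z, hz⟩ : ∃ z : ℝ, z = 1 / 2 ^ gt (r + 1) := ⟨_, rfl⟩
  have hv0 : 0 < v := by rw [hv']; positivity
  have hz0 : 0 < z := by rw [hz]; positivity
  obtain ⟨E, hE⟩ : ∃ E : ℝ, E = 2 ^ (C * (k + 1)) := ⟨_, rfl⟩
  have hρv : 1 / 2 ^ gw (r + 1) * ρ₂ ≤ 2 ^ ((r + 1) * (C₁ * (k + 1)) + 1) * v := by
    rw [hρ₂]
    calc 1 / 2 ^ gw (r + 1) * (2 ^ ((r + 1) * (q + C₁ * (k + 1))) * ρ) ≤
          1 / 2 ^ gw (r + 1) * (2 ^ ((r + 2) * q) * 2 ^ ((r + 1) * (C₁ * (k + 1)) + 1) / 2 ^ B) :=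
          mul_le_mul_of_nonneg_left hκ (by positivity)
      _ = _ := by
        rw [hv', pow_add _ (gw (r + 1)) B]
        field_simp
  obtain ⟨n₁, hn₁⟩ : ∃ n₁ : ℕ, n₁ = (r + 1) * (C₁ * (k + 1)) + 1 := ⟨_, rfl⟩
  rw [← hn₁] at hρv
  have hEz : (2 : ℝ) ^ k ≤ E := by
    rw [hE]
    refine pow_le_pow_right₀ (by norm_num) ?_
    rw [hCk]
    omega
  have hE1 : 1 ≤ E := h1k.trans hEz
  have hEv : (2 : ℝ) ^ (c₀ + k * D₁ + c₅ + k + n₁) ≤ E := by
    rw [hE]
    refine pow_le_pow_right₀ (by norm_num) ?_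
    rw [hCk, hn₁]
    have h1 := hk1 c₀
    have h2 := hk1 c₅
    have h3 : k * D₁ ≤ D₁ * (k + 1) := by nlinarith [Nat.zero_le D₁]
    omega
  have hEv' : (2 : ℝ) ^ (c₀ + k * D₁ + k + n₁) ≤ E :=
    (pow_le_pow_right₀ (by norm_num) (by omega)).trans hEv
  have hval : |eval b' (χ (r + 1) - ψ (r + 1)) - eval b₁ (χ (r + 1) - ψ (r + 1))| ≤ E * v := by
    refine hv.trans ?_
    calc 2 ^ (c₀ + k * D₁) * (2 ^ k / 2 ^ gw (r + 1)) * ρ₂ =
          2 ^ (c₀ + k * D₁ + k) * (1 / 2 ^ gw (r + 1) * ρ₂) := by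
          rw [pow_add _ _ k]
          ring
      _ ≤ 2 ^ (c₀ + k * D₁ + k) * (2 ^ n₁ * v) := mul_le_mul_of_nonneg_left hρv (by positivity)
      _ = 2 ^ (c₀ + k * D₁ + k + n₁) * v := by
          rw [pow_add _ _ n₁]
          ring
      _ ≤ E * v := mul_le_mul_of_nonneg_right hEv' hv0.le
  have hdrv : |eval b' (pderiv (some (c r)) (χ (r + 1) - ψ (r + 1))) -
      eval b₁ (pderiv (some (c r)) (χ (r + 1) - ψ (r + 1)))| ≤ E * 2 ^ gt r * v := by
    refine hd.trans ?_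
    calc 2 ^ (c₀ + k * D₁) * (2 ^ c₅ * (2 ^ k / 2 ^ gw (r + 1)) * 2 ^ gt r) * ρ₂ =
          2 ^ (c₀ + k * D₁ + c₅ + k) * 2 ^ gt r * (1 / 2 ^ gw (r + 1) * ρ₂) := by
          rw [pow_add _ _ k, pow_add _ _ c₅]
          ring
      _ ≤ 2 ^ (c₀ + k * D₁ + c₅ + k) * 2 ^ gt r * (2 ^ n₁ * v) :=
          mul_le_mul_of_nonneg_left hρv (by positivity)
      _ = 2 ^ (c₀ + k * D₁ + c₅ + k + n₁) * (2 ^ gt r * v) := by
          rw [pow_add _ _ n₁]
          ring
      _ ≤ E * (2 ^ gt r * v) := mul_le_mul_of_nonneg_right hEv (by positivity)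
      _ = _ := by ring
  rw [← hb', ← hE, ← hv', ← hz]
  constructor
  · have h1 := hpos (r + 1) le_rfl
    rw [← hz] at h1
    have e1 : F.x μ (c (r + 1)) - eval b₁ (ψ (r + 1)) - eval b' (χ (r + 1) - ψ (r + 1)) =
        (F.x μ (c (r + 1)) - eval b₁ (χ (r + 1))) -
        (eval b' (χ (r + 1) - ψ (r + 1)) - eval b₁ (χ (r + 1) - ψ (r + 1))) := by
      rw [map_sub (eval b₁)]
      ring
    rw [e1]
    refine (abs_sub _ _).trans ((add_le_add h1 hval).trans ?_)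
    rw [mul_add]
    have h2 : z ≤ E * z := le_mul_of_one_le_left hz0.le hE1
    linarith
  · have h1 : |eval b₁ (pderiv (some (c r)) (R - χ (r + 1)))| ≤ E * 2 ^ gt r * z := by
      refine hR.trans ?_
      rw [hz]
      calc (2 : ℝ) ^ k * 2 ^ gt r / 2 ^ gt (r + 1) = 2 ^ k * (2 ^ gt r * (1 / 2 ^ gt (r + 1))) := by
            ring
        _ ≤ E * (2 ^ gt r * (1 / 2 ^ gt (r + 1))) :=
            mul_le_mul_of_nonneg_right hEz (by positivity)
        _ = _ := by ring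
    have e1 : eval b₁ (pderiv (some (c r)) (R - ψ (r + 1))) -
        eval b' (pderiv (some (c r)) (χ (r + 1) - ψ (r + 1))) =
        eval b₁ (pderiv (some (c r)) (R - χ (r + 1))) -
        (eval b' (pderiv (some (c r)) (χ (r + 1) - ψ (r + 1))) -
          eval b₁ (pderiv (some (c r)) (χ (r + 1) - ψ (r + 1)))) := by
      simp only [map_sub]
      ring
    rw [e1]
    refine (abs_sub _ _).trans ((add_le_add h1 hdrv).trans (le_of_eq ?_))
    ring

/-- The restriction of a polynomial to the line in the direction `o`. -/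
noncomputable def ul (b : Option (Fin m) → ℝ) (o : Option (Fin m))
    (Q : MvPolynomial (Option (Fin m)) ℝ) : Polynomial ℝ :=
  haveI := Classical.decEq (Option (Fin m))
  MvPolynomial.aeval (fun o' => Polynomial.C (b o') +
    Polynomial.C (if o' = o then (1 : ℝ) else 0) * Polynomial.X) Q

theorem ul_deg (b : Option (Fin m) → ℝ) (o : Option (Fin m))
    {Q : MvPolynomial (Option (Fin m)) ℝ} {D : ℕ} (hQ : Q.totalDegree ≤ D) :
    (ul b o Q).natDegree ≤ D := by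
  classical
  unfold ul
  refine Pool.KBX.natDegree_aeval_le _ _ (fun o => ?_) hQ
  refine (Polynomial.natDegree_add_le _ _).trans (max_le ?_ ?_)
  · rw [Polynomial.natDegree_C]
    exact Nat.zero_le _
  · exact (Polynomial.natDegree_C_mul_le _ _).trans Polynomial.natDegree_X_le

theorem ul_eval (b : Option (Fin m) → ℝ) (o : Option (Fin m))
    (Q : MvPolynomial (Option (Fin m)) ℝ) (y : ℝ) :
    (ul b o Q).eval y = eval (Function.update b o (b o + y)) Q := by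
  classical
  unfold ul
  rw [Pool.KBX.eval_aeval_poly]
  refine congrArg (fun x => eval x Q) ?_
  funext o'
  simp only [Polynomial.eval_add, Polynomial.eval_C, Polynomial.eval_mul, Polynomial.eval_X]
  by_cases h1 : o' = o
  · rw [if_pos h1, h1, Function.update_self, one_mul]
  · rw [if_neg h1, Function.update_of_ne h1, zero_mul, add_zero]

theorem ul_der (b : Option (Fin m) → ℝ) (o : Option (Fin m))
    (Q : MvPolynomial (Option (Fin m)) ℝ) (y : ℝ) :
    (Polynomial.derivative (ul b o Q)).eval y =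
      eval (Function.update b o (b o + y)) (pderiv o Q) := by
  classical
  rw [← ul_eval]
  unfold ul
  rw [der_aevalσ, Polynomial.eval_finsetSum, Finset.sum_eq_single o]
  · rw [Polynomial.eval_mul]
    simp
  · intro j _ hj
    rw [Polynomial.eval_mul]
    simp [hj]
  · intro h'
    exact absurd (Finset.mem_univ _) h'

theorem ul_sub (b : Option (Fin m) → ℝ) (o : Option (Fin m))
    (P Q : MvPolynomial (Option (Fin m)) ℝ) : ul b o (P - Q) = ul b o P - ul b o Q := by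
  unfold ul
  rw [map_sub]

/-- **The relation of the samples at one time**: one polynomial for all the samples whose charts
agree along one line in the direction of `c r`. -/
theorem rel_q (D r : ℕ) : ∃ C : ℕ, 1 ≤ C ∧ ∀ {m J : ℕ} {F : Fam m J} {c : ℕ → Fin m}
    {w t k q B : ℕ} {gw gt : ℕ → ℕ} {ψ : ℕ → MvPolynomial (Option (Fin m)) ℝ} {ι : Type}
    {χ : ι → ℕ → MvPolynomial (Option (Fin m)) ℝ} {R : ι → MvPolynomial (Option (Fin m)) ℝ}
    {y : ι → ℝ} {μ : ι → F.Ω} {b : Option (Fin m) → ℝ} (i₀ : ι),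
    Set.InjOn c (Set.Iio (r + 2)) → t ≤ w + q → (∀ l ≤ r, gt l ≤ gw l + q) →
    (∀ i l, (χ i l).totalDegree ≤ D) → (∀ i l, DepC c l (χ i l)) →
    (∀ l, (ψ l).totalDegree ≤ D) → (∀ l, DepC c l (ψ l)) →
    (∀ i, ∀ l ≤ r + 1, |F.x (μ i) (c l) - eval (bt F (μ i)) (χ i l)| ≤ 1 / 2 ^ gt l) →
    (∀ i, ∀ l ≤ r + 1, ∃ κ : ℝ, ∀ b, NBx c (χ i) gt t (F.t (μ i)) l b →
      |eval b (χ i l) - eval b (ψ l) - κ| ≤ 2 ^ k / 2 ^ gw l) →
    (∀ i, |b none - F.t (μ i)| ≤ 1 / 2 ^ (w + B)) →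
    (∀ i, ∀ l < r, |(b (some (c l)) - eval b (ψ l)) -
      (F.x (μ i) (c l) - eval (bt F (μ i)) (ψ l))| ≤ 1 / 2 ^ (gw l + B)) →
    (∀ i, |(b (some (c r)) + y i - eval b (ψ r)) -
      (F.x (μ i) (c r) - eval (bt F (μ i)) (ψ r))| ≤ 1 / 2 ^ (gw r + B)) →
    (r + 2) * q + C * (k + 1) ≤ B →
    (∀ i, |eval (bt F (μ i)) (pderiv (some (c r)) (R i - χ i (r + 1)))| ≤
      2 ^ k * 2 ^ gt r / 2 ^ gt (r + 1)) →
    (∀ i, |y i| ≤ 2 ^ k / 2 ^ gt r) →
    (∀ i, ∀ z : ℝ, |z| ≤ 2 ^ k / 2 ^ gt r →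
      |eval (Function.update b (some (c r)) (b (some (c r)) + z)) (χ i (r + 1)) -
        eval (Function.update b (some (c r)) (b (some (c r)) + z)) (χ i₀ (r + 1))| ≤
        2 ^ k / 2 ^ gt (r + 1)) →
    (∀ i, |F.x (μ i) (c (r + 1)) - eval (bt F (μ i)) (ψ (r + 1)) -
      (ul b (some (c r)) (χ i₀ (r + 1) - ψ (r + 1))).eval (y i)| ≤
      2 ^ (C * (k + 1)) * (1 / 2 ^ gt (r + 1) + 2 ^ ((r + 2) * q) / 2 ^ (gw (r + 1) + B))) ∧
    ∀ i, |eval (bt F (μ i)) (pderiv (some (c r)) (R i - ψ (r + 1))) -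
      (Polynomial.derivative (ul b (some (c r)) (χ i₀ (r + 1) - ψ (r + 1)))).eval (y i)| ≤
      2 ^ (C * (k + 1)) * 2 ^ gt r *
        (1 / 2 ^ gt (r + 1) + 2 ^ ((r + 2) * q) / 2 ^ (gw (r + 1) + B)) := by
  classical
  obtain ⟨C₁, hC₁, hone⟩ := one_q D r
  obtain ⟨C₂, hC₂, hder⟩ := der_one D
  obtain ⟨c₂, hc₂⟩ := pow_unbounded_of_one_lt C₂ (one_lt_two (α := ℝ))
  refine ⟨C₁ + c₂ + 1, by omega, ?_⟩
  intro m J F c w t k q B gw gt ψ ι χ R y μ b i₀ hc htq hg hχ hχd hψ hψd hpos hcmp hbn hbl hbr hB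
    hR hy hcode
  have hk1 : ∀ n : ℕ, n ≤ n * (k + 1) := fun n => Nat.le_mul_of_pos_right _ (Nat.succ_pos k)
  have hCk : (C₁ + c₂ + 1) * (k + 1) = C₁ * (k + 1) + c₂ * (k + 1) + (k + 1) := by ring
  obtain ⟨v, hv⟩ : ∃ v : ℝ, v = 2 ^ ((r + 2) * q) / 2 ^ (gw (r + 1) + B) := ⟨_, rfl⟩
  obtain ⟨z, hz⟩ : ∃ z : ℝ, z = 1 / 2 ^ gt (r + 1) := ⟨_, rfl⟩
  have hv0 : 0 < v := by rw [hv]; positivity
  have hz0 : 0 < z := by rw [hz]; positivity
  have h1k : (1 : ℝ) ≤ 2 ^ k := one_le_pow₀ (by norm_num)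
  have key : ∀ i, |F.x (μ i) (c (r + 1)) - eval (bt F (μ i)) (ψ (r + 1)) -
      (ul b (some (c r)) (χ i (r + 1) - ψ (r + 1))).eval (y i)| ≤
        2 ^ (C₁ * (k + 1)) * (z + v) ∧
      |eval (bt F (μ i)) (pderiv (some (c r)) (R i - ψ (r + 1))) -
      (Polynomial.derivative (ul b (some (c r)) (χ i (r + 1) - ψ (r + 1)))).eval (y i)| ≤
      2 ^ (C₁ * (k + 1)) * 2 ^ gt r * (z + v) := by
    intro i
    rw [ul_eval, ul_der, hz, hv]
    exact hone hc htq hg (hχ i) (hχd i) hψ hψd (hpos i) (hcmp i) (hbn i) (hbl i) (hbr i) (by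
      rw [hCk] at hB
      omega) (hR i)
  obtain ⟨S, hS⟩ : ∃ S : ℝ, S = 2 ^ k / 2 ^ gt r := ⟨_, rfl⟩
  have hS0 : 0 < S := by rw [hS]; positivity
  have hdiff : ∀ i, ∀ x : ℝ, |x| ≤ S →
      |(ul b (some (c r)) (χ i (r + 1) - χ i₀ (r + 1))).eval x| ≤ 2 ^ k * z := by
    intro i x hx
    rw [ul_eval, map_sub, hz]
    refine (hcode i x (by rw [← hS]; exact hx)).trans (le_of_eq ?_)
    ring
  have hddif : ∀ i, |(Polynomial.derivative
      (ul b (some (c r)) (χ i (r + 1) - χ i₀ (r + 1)))).eval (y i)| ≤ 2 ^ c₂ * 2 ^ gt r * z := by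
    intro i
    obtain ⟨P, hP⟩ : ∃ P, P = ul b (some (c r)) (χ i (r + 1) - χ i₀ (r + 1)) := ⟨_, rfl⟩
    rw [← hP]
    have hPd : P.natDegree ≤ D := by
      rw [hP]
      exact ul_deg _ _ ((totalDegree_sub _ _).trans (max_le (hχ _ _) (hχ _ _)))
    obtain ⟨f, hf⟩ : ∃ f : Polynomial ℝ, f = P.comp (Polynomial.C (-S) +
        Polynomial.C (2 * S) * Polynomial.X) := ⟨_, rfl⟩
    have hfe : ∀ s, f.eval s = P.eval (-S + 2 * S * s) := by
      intro s
      rw [hf, Polynomial.eval_comp]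
      simp only [Polynomial.eval_add, Polynomial.eval_mul, Polynomial.eval_C, Polynomial.eval_X]
    have hfd : f.natDegree ≤ D := by
      rw [hf]
      refine Polynomial.natDegree_comp_le.trans ?_
      have h1 : (Polynomial.C (-S) + Polynomial.C (2 * S) * Polynomial.X).natDegree ≤ 1 := by
        refine (Polynomial.natDegree_add_le _ _).trans (max_le ?_ ?_)
        · rw [Polynomial.natDegree_C]
          exact Nat.zero_le _
        · exact (Polynomial.natDegree_C_mul_le _ _).trans Polynomial.natDegree_X_le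
      calc _ ≤ D * 1 := Nat.mul_le_mul hPd h1
        _ = D := mul_one _
    have hfder : ∀ s, (Polynomial.derivative f).eval s =
        2 * S * (Polynomial.derivative P).eval (-S + 2 * S * s) := by
      intro s
      rw [hf, Polynomial.derivative_comp]
      simp only [Polynomial.derivative_add, Polynomial.derivative_C, Polynomial.derivative_mul,
        Polynomial.derivative_X, zero_mul, zero_add, mul_one, Polynomial.eval_mul,
        Polynomial.eval_comp, Polynomial.eval_add, Polynomial.eval_C, Polynomial.eval_X]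
    have hyi : |y i| ≤ S := by rw [hS]; exact hy i
    obtain ⟨hy1, hy2⟩ := abs_le.1 hyi
    have h1 := hder f (2 ^ k * z) hfd (fun s hs => by
      rw [hfe, hP]
      refine hdiff i _ ?_
      rw [abs_le]
      constructor
      · nlinarith [hs.1]
      · nlinarith [hs.2]) ((y i + S) / (2 * S)) (by
      rw [abs_le]
      constructor
      · have : 0 ≤ (y i + S) / (2 * S) := div_nonneg (by linarith) (by linarith)
        linarith
      · rw [div_le_one (by linarith)]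
        linarith)
    rw [hfder] at h1
    have e1 : -S + 2 * S * ((y i + S) / (2 * S)) = y i := by
      field_simp
      ring
    rw [e1, abs_mul, abs_of_pos (show (0 : ℝ) < 2 * S by linarith)] at h1
    have h2 : 2 ^ k * z = S * (2 ^ gt r * z) := by
      rw [hS]
      field_simp
    rw [h2] at h1
    have h3 : 2 * S * |(Polynomial.derivative P).eval (y i)| ≤ 2 * S * (2 ^ c₂ * 2 ^ gt r * z) := by
      refine h1.trans ?_
      have h4 : C₂ * (S * (2 ^ gt r * z)) ≤ 2 ^ c₂ * (S * (2 ^ gt r * z)) :=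
        mul_le_mul_of_nonneg_right hc₂.le (by positivity)
      have h5 : 0 ≤ 2 ^ c₂ * (S * (2 ^ gt r * z)) := by positivity
      calc _ ≤ 2 ^ c₂ * (S * (2 ^ gt r * z)) := h4
        _ ≤ 2 * (2 ^ c₂ * (S * (2 ^ gt r * z))) := by linarith
        _ = _ := by ring
    exact le_of_mul_le_mul_left h3 (by linarith)
  have hsub : ∀ i, ul b (some (c r)) (χ i (r + 1) - ψ (r + 1)) =
      ul b (some (c r)) (χ i₀ (r + 1) - ψ (r + 1)) +
      ul b (some (c r)) (χ i (r + 1) - χ i₀ (r + 1)) := by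
    intro i
    rw [ul_sub, ul_sub, ul_sub]
    ring
  have hE1 : (2 : ℝ) ^ (C₁ * (k + 1)) * (z + v) + 2 ^ k * z ≤
      2 ^ ((C₁ + c₂ + 1) * (k + 1)) * (z + v) := by
    have h1 : (2 : ℝ) ^ k ≤ 2 ^ (C₁ * (k + 1)) := pow_le_pow_right₀ (by norm_num) (by nlinarith)
    have h2 : (2 : ℝ) ^ (C₁ * (k + 1)) * 2 ≤ 2 ^ ((C₁ + c₂ + 1) * (k + 1)) := by
      rw [← pow_succ]
      refine pow_le_pow_right₀ (by norm_num) ?_
      rw [hCk]
      omega
    have h3 : (2 : ℝ) ^ k * z ≤ 2 ^ (C₁ * (k + 1)) * (z + v) :=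
      mul_le_mul h1 (by linarith) hz0.le (by positivity)
    calc _ ≤ 2 ^ (C₁ * (k + 1)) * (z + v) + 2 ^ (C₁ * (k + 1)) * (z + v) := by linarith
      _ = 2 ^ (C₁ * (k + 1)) * 2 * (z + v) := by ring
      _ ≤ _ := mul_le_mul_of_nonneg_right h2 (by positivity)
  have hE2 : (2 : ℝ) ^ (C₁ * (k + 1)) * 2 ^ gt r * (z + v) + 2 ^ c₂ * 2 ^ gt r * z ≤
      2 ^ ((C₁ + c₂ + 1) * (k + 1)) * 2 ^ gt r * (z + v) := by
    have h2 : (2 : ℝ) ^ (C₁ * (k + 1)) + 2 ^ c₂ ≤ 2 ^ ((C₁ + c₂ + 1) * (k + 1)) := by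
      have h3 : (2 : ℝ) ^ (C₁ * (k + 1)) ≤ 2 ^ (C₁ * (k + 1) + c₂) :=
        pow_le_pow_right₀ (by norm_num) (by omega)
      have h4 : (2 : ℝ) ^ c₂ ≤ 2 ^ (C₁ * (k + 1) + c₂) :=
        pow_le_pow_right₀ (by norm_num) (by omega)
      have h5 : (2 : ℝ) ^ (C₁ * (k + 1) + c₂) * 2 ≤ 2 ^ ((C₁ + c₂ + 1) * (k + 1)) := by
        rw [← pow_succ]
        refine pow_le_pow_right₀ (by norm_num) ?_
        rw [hCk]
        have := hk1 c₂
        omega
      linarith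
    have h3 : (2 : ℝ) ^ c₂ * 2 ^ gt r * z ≤ 2 ^ c₂ * (2 ^ gt r * (z + v)) := by
      rw [mul_assoc]
      refine mul_le_mul_of_nonneg_left (mul_le_mul_of_nonneg_left (by linarith) (by positivity))
        (by positivity)
    calc _ ≤ 2 ^ (C₁ * (k + 1)) * (2 ^ gt r * (z + v)) + 2 ^ c₂ * (2 ^ gt r * (z + v)) := by
          linarith
      _ = (2 ^ (C₁ * (k + 1)) + 2 ^ c₂) * (2 ^ gt r * (z + v)) := by ring
      _ ≤ 2 ^ ((C₁ + c₂ + 1) * (k + 1)) * (2 ^ gt r * (z + v)) :=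
          mul_le_mul_of_nonneg_right h2 (by positivity)
      _ = _ := by ring
  rw [← hz, ← hv]
  refine ⟨fun i => ?_, fun i => ?_⟩
  · have h1 := (key i).1
    have h2 := hdiff i (y i) (by rw [hS]; exact hy i)
    rw [hsub i, Polynomial.eval_add] at h1
    refine le_trans ?_ hE1
    have e1 : F.x (μ i) (c (r + 1)) - eval (bt F (μ i)) (ψ (r + 1)) -
        (ul b (some (c r)) (χ i₀ (r + 1) - ψ (r + 1))).eval (y i) =
        (F.x (μ i) (c (r + 1)) - eval (bt F (μ i)) (ψ (r + 1)) -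
        ((ul b (some (c r)) (χ i₀ (r + 1) - ψ (r + 1))).eval (y i) +
        (ul b (some (c r)) (χ i (r + 1) - χ i₀ (r + 1))).eval (y i))) +
        (ul b (some (c r)) (χ i (r + 1) - χ i₀ (r + 1))).eval (y i) := by ring
    rw [e1]
    exact (abs_add_le _ _).trans (add_le_add h1 h2)
  · have h1 := (key i).2
    have h2 := hddif i
    rw [hsub i, Polynomial.derivative_add, Polynomial.eval_add] at h1
    refine le_trans ?_ hE2
    have e1 : eval (bt F (μ i)) (pderiv (some (c r)) (R i - ψ (r + 1))) -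
        (Polynomial.derivative (ul b (some (c r)) (χ i₀ (r + 1) - ψ (r + 1)))).eval (y i) =
        (eval (bt F (μ i)) (pderiv (some (c r)) (R i - ψ (r + 1))) -
        ((Polynomial.derivative (ul b (some (c r)) (χ i₀ (r + 1) - ψ (r + 1)))).eval (y i) +
        (Polynomial.derivative (ul b (some (c r)) (χ i (r + 1) - χ i₀ (r + 1)))).eval (y i))) +
        (Polynomial.derivative (ul b (some (c r)) (χ i (r + 1) - χ i₀ (r + 1)))).eval (y i) := by
      ring
    rw [e1]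
    exact (abs_add_le _ _).trans (add_le_add h1 h2)

end Pool.NDD66
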