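import Pool.Agent.H66.NDD.Rt
import Pool.Agent.H6.ND3.Ndr
import Pool.Agent.H77.STB.Nlc

/-!
# No linear relation between own velocities: the record

`nd_recO`: at a record whose place two is thin: the deep charts, with closed labels, and for a law
comparable with the law of the family, the probability of `RelO` is small, over any charts `Hw` of an
earlier window which are near the deep charts.
-/

set_option autoImplicit false

namespace Pool.NDD66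

open Finset Real MvPolynomial
open Pool.Agent.H49.Ent Pool.Agent.H32.Dense Pool.STK Pool.KA Pool.KSAT Pool.K2S Pool.PB Pool.S6C
open Pool.GEN Pool.CHT Pool.CHX Pool.D2R Pool.PKG
open Pool.FLF (Fam.sub)
open Pool.PB.Trl (rt rt_mem t_rt)
open Pool.LBT (ThrOf)
open Pool.ISO (lvN)
open Pool.V0F (chV chV_zero chV_mono chV_succ zzV radii_ok chw_step v0_nmR)
open Pool.ND6 (grb rec_balI)

variable {m : ℕ}

/-- **A closed ball** of three places, with its own path. -/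
structure BlO {J : ℕ} (F : Fam m J) (c : ℕ → Fin m) (D a e h h' : ℕ) (κ : ℝ) (g : ℕ → ℕ)
    (B : F.Ω → Prop) (G : PtT F → ℕ → MvPolynomial (Option (Fin m)) ℝ)
    (H : LnT F → ℕ → MvPolynomial (Option (Fin m)) ℝ) : Prop where
  ball : ChOK F c 3 (fun _ => D) a a e g B G H
  cls : ∀ ω, B ω → ∀ l ≤ 2, G (ptr F J ω) l = H (slam F a ω) l
  relb : RelvF F c 2 a a g D h κ B G
  own : ∀ ω, B ω → ∀ l ≤ 2, ∀ τ ∈ Set.Icc (0 : ℝ) 1,
    |(dv a (fun s _ => H s l) (c l) (slam F a ω)).eval τ| ≤ 2 ^ h' / 2 ^ g l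

/-- **No relation in own velocities at a record** whose place two is thin. -/
theorem nd_recO (m S₀ : ℕ) (hm : 3 ≤ m) (hS₀ : 1 ≤ S₀) : ∃ D₀ : ℕ, 1 ≤ D₀ ∧ ∀ (D D₂ : ℕ), D₀ ≤ D →
    ∀ {s ξ θ₁ ξ₁ : ℝ}, 1 < s → 0 < ξ → 0 < θ₁ → 0 ≤ ξ₁ → 4 * ξ₁ ≤ ξ → 4 * ξ₁ ≤ s - 1 →
    ∃ (ζ ε₁ : ℝ) (M₀ : ℕ), 0 < ζ ∧ ζ ≤ ξ ∧ ζ ≤ 1 ∧ 0 < ε₁ ∧ 1 ≤ M₀ ∧ ∀ {S : PCl m} {al : ℝ} {g₀ : ℝ → ℝ}
    {P : List (Fin m) × Fin m → ℝ → ℝ → ℝ}
    {θ : ℝ} {P₂ : ℕ → List (Fin m) × Fin m → ℝ → ℝ → ℝ} {θ₂ Eb e₂ : ℕ → ℝ}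
    {c : ℕ → Fin m} {Pt : ℝ → ℝ → ℝ} {r : ℝ → ℝ} {h Kn g : ℝ} {L T : ℕ → ℝ → ℝ → ℝ}
    {Sl : ℕ → ℝ} {κ : ℕ → Kg} {G : Set ℝ} {N₀ : ℕ} {A V : ℕ → ℝ} {S₂ N' : ℕ} {V' : ℕ → ℝ}
    {K ε q t : ℝ}
    (_ : RecG S al g₀ P θ P₂ θ₂ Eb e₂ c Pt r h Kn g L T Sl κ G S₀ N₀ A V S₂ N' V' K ε q t)
    {y : ℝ}, Sl 1 = 1 → Sl 2 = s → κ 2 = .thin → 0 ≤ ε → ε ≤ ε₁ → |y| + 4 ≤ K →
    (∃ k < N₀, A k = y + ζ / 2 + 1 ∧ V k = y + ζ / 2) → (∀ k ≤ M₀, ∃ j < N', V' j = y + k / M₀) →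
    ∃ K₁ : ℝ, 0 < K₁ ∧ ∀ {v₀ κ₀ : ℝ}, 0 ≤ v₀ → v₀ + θ₁ * q ≤ t + y * q → 0 < κ₀ →
    ∀ c₁ Mq : ℝ, 0 < c₁ → 0 < Mq → ∃ e₀ : ℝ, 0 < e₀ ∧ Bas S (fun J F A =>
      ∃ (B : F.Ω → Prop) (u : Fin 2 → ℕ → ℕ) (E : ℕ)
        (G : Fin 2 → PtT F → ℕ → MvPolynomial (Option (Fin m)) ℝ)
        (H : Fin 2 → LnT F → ℕ → MvPolynomial (Option (Fin m)) ℝ), Sub B A ∧
      Pe F.p A ≤ K₁ * Pe F.p B ∧ (E : ℝ) ≤ (Eb 2 + ζ * q) * J ∧
      (∀ i : Fin 2, BlO F c D ⌊(t + (y + (i : ℕ)) * q) * J⌋₊ E ⌊ζ * q * J⌋₊ ⌊ζ * q * J⌋₊ κ₀ (u i) B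
        (G i) (H i) ∧ ∀ l ≤ 2, (L l (t + (y + (i : ℕ)) * q) (t + (y + (i : ℕ)) * q) - ζ * q) * J ≤
          u i l ∧ (u i l : ℝ) ≤ L l (t + (y + (i : ℕ)) * q) (t + (y + (i : ℕ)) * q) * J) ∧
      ∀ B₁ : F.Ω → Prop, Sub B₁ B →
      ∀ (Hw : LnT F → ℕ → MvPolynomial (Option (Fin m)) ℝ) (SR : F.Ω → F.Ω → Prop) (gw : ℕ → ℕ)
        (qq X : ℕ), (∀ s l, (Hw s l).totalDegree ≤ D) → (∀ s l, DepC c l (Hw s l)) →
      (∀ l ≤ 1, u 1 l ≤ gw l + qq) → 2 * qq + q * J ≤ X → u 1 2 + 2 * qq ≤ gw 2 + X →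
      (∀ om nu, B₁ om → B₁ nu → SR om nu →
        NrB F c 1 ⌊(t + (y + 1) * q) * J⌋₊ ⌊(t + (y + 1) * q) * J⌋₊ ⌊ζ * q * J⌋₊ X (u 1) gw B₁
          (G 1) (H 1) (Hw (slam F ⌊v₀ * J⌋₊ om)) om nu ∧
        ∀ l ≤ 1, |ov F c (Hw (slam F ⌊v₀ * J⌋₊ om)) nu l| ≤
          2 ^ ⌊ζ * q * J⌋₊ * 2 ^ ⌊(t + y * q) * J⌋₊ / 2 ^ u 0 l) →
      (∀ om, B₁ om → |ncp c 1 (Hw (slam F ⌊v₀ * J⌋₊ om))
        (G 0 (ptr F J om) 1 - Hw (slam F ⌊v₀ * J⌋₊ om) 1) (bt F om) 0| ≤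
          2 ^ (ξ₁ * q * J) * 2 ^ u 0 0 / 2 ^ u 0 1) →
      ∀ (Ω₃ 𝒯 : Type) [Fintype Ω₃] (Q : Ω₃ → ℝ) (om : Ω₃ → F.Ω)
        (tp : Ω₃ → 𝒯) (PA : 𝒯 → ℕ → Polynomial ℝ), IsLaw Q →
      (∀ t l, (PA t l).natDegree ≤ D₂) → (∀ ω, law Q om ω * Pe F.p A ≤ Mq * F.p ω) →
      CH Q om (fun x => slam F ⌊v₀ * J⌋₊ (om x)) ≤
        CH Q om (fun x => (tp x, slam F ⌊v₀ * J⌋₊ (om x))) + e₀ * J →
      law Q (fun x => B₁ (om x) ∧ RelO F c B₁ ⌊v₀ * J⌋₊ Hw SR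
        (2 ^ ((2 * (t + y * q) - L 0 (t + y * q) (t + y * q) -
          L 1 (t + y * q) (t + y * q) - ζ * q) * J))
        (2 ^ ((L 2 (t + y * q) (t + y * q) - (t + y * q) + ξ * q) * J)) (PA (tp x)) (om x))
        True < c₁) := by
  classical
  obtain ⟨D₀, hD₀, hwin⟩ := winb_con m 2 S₀ (by norm_num) hS₀
  refine ⟨D₀, hD₀, ?_⟩
  intro D D₂ hDD s ξ θ₁ ξ₁ hs hξ hθ₁ hξ₁0 hξ₁ξ hξ₁s
  have hD : 1 ≤ D := hD₀.trans hDD
  obtain ⟨CB, hCB, hwin⟩ := hwin D hDD D le_rfl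
  obtain ⟨n, hn⟩ := exists_nat_ge (4 / θ₁ + 1)
  have hn1 : 1 ≤ n := by
    have h1 : (0 : ℝ) < 4 / θ₁ := by positivity
    have h2 : (0 : ℝ) < n := by linarith
    exact_mod_cast h2
  obtain ⟨C₁, hC₁, hcls⟩ := nd_clsO m D₂ D n hD hn1
  obtain ⟨Cr, hCr, hro⟩ := winb_rout m D 2 hD
  obtain ⟨Cg, hCg, hgr⟩ := grb m D
  obtain ⟨C, hC⟩ : ∃ C : ℝ, C = C₁ + Cr + Cg + 16 := ⟨_, rfl⟩
  have hCr1 : (1 : ℝ) ≤ Cr := by exact_mod_cast hCr
  have hCg1 : (1 : ℝ) ≤ Cg := by exact_mod_cast hCg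
  have hC1 : 1 ≤ C := by linarith
  have hC₁C : C₁ ≤ C := by linarith
  have hCrC : (Cr : ℝ) ≤ C := by linarith
  have hCgC : (Cg : ℝ) ≤ C := by linarith
  -- the constants
  obtain ⟨κ₂, hκ₂⟩ : ∃ κ₂ : ℝ, κ₂ = min (min (1 / 2) (ξ / 2)) ((s - 1) / 4) := ⟨_, rfl⟩
  have hκ₂0 : 0 < κ₂ := by
    rw [hκ₂]
    exact lt_min (lt_min (by norm_num) (by linarith)) (by linarith)
  have hκa : κ₂ ≤ 1 / 2 := by rw [hκ₂]; exact (min_le_left _ _).trans (min_le_left _ _)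
  have hκb : κ₂ ≤ ξ / 2 := by rw [hκ₂]; exact (min_le_left _ _).trans (min_le_right _ _)
  have hκc : κ₂ ≤ (s - 1) / 4 := by rw [hκ₂]; exact min_le_right _ _
  obtain ⟨β, hβe⟩ : ∃ β : ℝ, β = min (κ₂ / 32) (θ₁ / 4) := ⟨_, rfl⟩
  have hβ : 0 < β := by rw [hβe]; exact lt_min (by positivity) (by positivity)
  have hβκ : 32 * β ≤ κ₂ := by
    rw [hβe]
    have := min_le_left (κ₂ / 32) (θ₁ / 4)
    linarith
  have hβθ : 4 * β ≤ θ₁ := by
    rw [hβe]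
    have := min_le_right (κ₂ / 32) (θ₁ / 4)
    linarith
  obtain ⟨ζ, hζe⟩ : ∃ ζ : ℝ, ζ = β / (C * (s + 1)) := ⟨_, rfl⟩
  have hC0 : 0 < C := by linarith
  have hζ0 : 0 < ζ := by rw [hζe]; positivity
  have hζ : C * ζ * (s + 1) = β := by
    rw [hζe]
    field_simp
  have hζβ' : 32 * ζ ≤ β := by
    have h1 : 16 * ζ ≤ C * ζ := mul_le_mul_of_nonneg_right (by linarith) hζ0.le
    have h2 : C * ζ * 2 ≤ C * ζ * (s + 1) :=
      mul_le_mul_of_nonneg_left (by linarith) (by positivity)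
    linarith
  have hζβ : 2 * ζ ≤ β := by linarith
  obtain ⟨ε₁, hε₁⟩ : ∃ ε₁ : ℝ, ε₁ = min (β / 32) (ζ / (16 * C)) := ⟨_, rfl⟩
  have hε₁0 : 0 < ε₁ := by rw [hε₁]; exact lt_min (by positivity) (by positivity)
  obtain ⟨M₀, hM₀⟩ := exists_nat_ge (16 * C * (s + 1) / ζ)
  have hM0 : (0 : ℝ) < M₀ := lt_of_lt_of_le (by positivity) hM₀
  have hM1 : 1 ≤ M₀ := by
    have : 0 < M₀ := by exact_mod_cast hM0
    omega
  have hMs : (s + 1) / M₀ ≤ ζ / (16 * C) := by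
    rw [div_le_iff₀ hζ0] at hM₀
    rw [div_le_div_iff₀ hM0 (by positivity)]
    linarith
  refine ⟨ζ, ε₁, M₀, hζ0, by linarith, by linarith, hε₁0, hM1, ?_⟩
  intro S al g₀ P θ P₂ θ₂ Eb e₂ c Pt r h Kn g L T Sl κ G N₀ A V S₂ N' V' K ε q t R y S1 S2 hκ hε
    hεε hyK hAV hV'
  have hεβ : 32 * ε ≤ β := by
    have := hεε.trans ((le_of_eq hε₁).trans (min_le_left _ _))
    linarith
  have hεζ : ε ≤ ζ / (16 * C) := hεε.trans ((le_of_eq hε₁).trans (min_le_right _ _))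
  have hq := R.q0
  have ht0 := R.t0
  have ht1 := R.t1
  have h0m : 0 < m := by omega
  have h1m : 1 < m := by omega
  have h2m : 2 < m := by omega
  have W := R.tg 2 (by norm_num) h2m
  have hEb := W.Eb0
  have hEbe := W.Ebe
  have hy := abs_le.1 (le_refl |y|)
  have hK4 : 4 ≤ K := by linarith [abs_nonneg y]
  have hKq : 4 * q ≤ K * q := mul_le_mul_of_nonneg_right hK4 hq.le
  have hyq1 : y * q ≤ (K - 4) * q := mul_le_mul_of_nonneg_right (by linarith) hq.le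
  have hyq2 : -(K - 4) * q ≤ y * q := mul_le_mul_of_nonneg_right (by linarith) hq.le
  obtain ⟨x, hx⟩ : ∃ x : ℝ, x = t + y * q := ⟨_, rfl⟩
  rw [← hx]
  have hxa : t - K * q + 4 * q ≤ x := by rw [hx]; linarith
  have hxb : x ≤ t + K * q - 4 * q := by rw [hx]; linarith
  have hbox : ∀ u : ℝ, 0 ≤ u → u ≤ 4 * q → |x + u - t| ≤ K * q := fun u h1 h2 => by
    rw [abs_le]
    constructor <;> linarith
  -- the windows of the chain
  obtain ⟨ow, how⟩ : ∃ ow : ℕ → ℝ, ow = fun k => x + chV M₀ 0 k * q := ⟨_, rfl⟩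
  have hok : ∀ k, ow k = x + chV M₀ 0 k * q := fun k => by rw [how]
  have hch : ∀ k : ℕ, chV M₀ 0 k = k / M₀ := fun k => by
    unfold chV
    push_cast
    ring
  have how0 : ow 0 = x := by
    rw [hok, hch]
    simp
  have hown : ow M₀ = x + q := by
    rw [hok, hch, div_self hM0.ne', one_mul]
  have hk01 : ∀ k ≤ M₀, 0 ≤ chV M₀ 0 k ∧ chV M₀ 0 k ≤ 1 := fun k hk => by
    rw [hch]
    refine ⟨by positivity, ?_⟩
    rw [div_le_one hM0]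
    exact_mod_cast hk
  have hokq : ∀ k ≤ M₀, 0 ≤ chV M₀ 0 k * q ∧ chV M₀ 0 k * q ≤ q := fun k hk => by
    obtain ⟨h1, h2⟩ := hk01 k hk
    refine ⟨by positivity, ?_⟩
    have := mul_le_mul_of_nonneg_right h2 hq.le
    linarith
  have hlvk : ∀ k l : ℕ, l ≤ 2 → lvN P c 2 (L 2) l (ow k) (ow k) = L l (ow k) (ow k) :=
    fun k l hl => by rw [← R.lv_at h2m hl]
  have hSl : ∀ l ≤ 2, 1 ≤ Sl l ∧ Sl l ≤ s := by
    intro l hl
    have h3 : l = 0 ∨ l = 1 ∨ l = 2 := by omega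
    rcases h3 with rfl | rfl | rfl
    · rw [R.s0]
      exact ⟨le_rfl, hs.le⟩
    · rw [S1]
      exact ⟨le_rfl, hs.le⟩
    · rw [S2]
      exact ⟨hs.le, le_rfl⟩
  have hSl1 : ∀ l < 2, Sl l = 1 := by
    intro l hl
    have h3 : l = 0 ∨ l = 1 := by omega
    rcases h3 with rfl | rfl
    · exact R.s0
    · exact S1
  have hdL : ∀ l ≤ 2, ∀ u u' : ℝ, 0 ≤ u → u ≤ 4 * q → 0 ≤ u' → u' ≤ 4 * q →
      |L l (x + u) (x + u) - L l (x + u') (x + u') - Sl l * (u - u')| ≤ 2 * (ε * q) := by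
    intro l hl u u' h1 h2 h3 h4
    have h5 := abs_le.1 (R.dL l (by omega) (x + u) (hbox u h1 h2))
    have h6 := abs_le.1 (R.dL l (by omega) (x + u') (hbox u' h3 h4))
    have e1 : Sl l * (x + u - t) = Sl l * (x - t) + Sl l * u := by ring
    have e2 : Sl l * (x + u' - t) = Sl l * (x - t) + Sl l * u' := by ring
    have e3 : Sl l * (u - u') = Sl l * u - Sl l * u' := by ring
    rw [e1] at h5
    rw [e2] at h6
    rw [e3, abs_le]
    constructor <;> linarith [h5.1, h5.2, h6.1, h6.2]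
  have hroom : ∀ l ≤ 2, ∀ u : ℝ, 0 ≤ u → u ≤ 4 * q → L l (x + u) (x + u) + Eb 2 + 12 * q < 1 := by
    intro l hl u h1 h2
    have := W.room l hl (x + u) (hbox u h1 h2)
    have h3 : 12 * q ≤ 3 * K * q := by linarith
    linarith
  have hεq : 0 ≤ ε * q := by positivity
  have hlow : ∀ l ≤ 2, ∀ u : ℝ, 0 ≤ u → u ≤ 4 * q → q ≤ L l (x + u) (x + u) := by
    intro l hl u h1 h2
    have h3 : 0 ≤ x + u := by linarith
    have h4 : x + u ≤ 1 := by linarith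
    have h5 : x + u ≤ L l (x + u) (x + u) := by
      rcases Nat.lt_or_ge (l + 1) m with h6 | h6
      · rw [R.lv_lt h6]
        exact R.thr.low _ _ _ h3 le_rfl h4
      · have h7 : l = m - 1 := by omega
        rw [h7, R.lv_last h0m]
        exact R.tgs.low () _ _ h3 le_rfl h4
    linarith
  -- the rational windows
  obtain ⟨kp, hkp, hAk, hVk⟩ := hAV
  obtain ⟨d, hd, hrat⟩ := W.rat kp hkp (β / 32 * q) (by positivity)
  have eA : t + A kp * q = x + ζ / 2 * q + q := by rw [hAk, hx]; ring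
  have eV : t + V kp * q = x + ζ / 2 * q := by rw [hVk, hx]; ring
  rw [eA, eV] at hrat
  obtain ⟨a, ha1', ha2⟩ : ∃ a : ℚ, x + ζ / 2 * q + q < a ∧
      (a : ℝ) < x + ζ / 2 * q + q + min d (β * q / 2) :=
    exists_rat_btwn (by
      have : 0 < min d (β * q / 2) := lt_min hd (by positivity)
      linarith)
  obtain ⟨w, hw1, hw2⟩ : ∃ w : ℚ, x + ζ / 2 * q < w ∧
      (w : ℝ) < x + ζ / 2 * q + min d (ζ * q / 4) := exists_rat_btwn (by
      have : 0 < min d (ζ * q / 4) := lt_min hd (by positivity)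
      linarith)
  have ha3 := min_le_left d (β * q / 2)
  have ha4 := min_le_right d (β * q / 2)
  have hw3 := min_le_left d (ζ * q / 4)
  have hw4 := min_le_right d (ζ * q / 4)
  have hβ1 : β ≤ 1 / 64 := by linarith
  have hβq : β * q ≤ 1 / 64 * q := mul_le_mul_of_nonneg_right hβ1 hq.le
  have hβq0 : 0 < β * q := by positivity
  have hζq : ζ * q ≤ β * q / 2 := by
    have := mul_le_mul_of_nonneg_right hζβ hq.le
    linarith
  have hζq0 : 0 < ζ * q := by positivity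
  have hζ2 : ζ / 2 * q = ζ * q / 2 := by ring
  have hζq' : ζ / 2 * q ≤ β * q / 64 := by
    have := mul_le_mul_of_nonneg_right hζβ' hq.le
    linarith
  have ha1 : x + q < a := by linarith
  have hwa : (w : ℝ) ≤ a := by linarith
  obtain ⟨hbr, -, -⟩ := hrat a w ha1'.le (by linarith) hw1.le (by linarith) hwa
  have hkd := R.kd 2 h2m
  rw [hκ] at hkd
  obtain ⟨-, hthin⟩ := hkd
  have hth := hthin (x + ζ / 2 * q + q) (x + ζ / 2 * q) (by linarith) (by linarith) (by linarith)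
  have hdT := abs_le.1 (R.dT 2 h2m (x + ζ / 2 * q) (hbox _ (by positivity) (by linarith)))
  have hdx := abs_le.1 (R.dL 2 h2m x (by
    have := hbox 0 le_rfl (by linarith)
    rwa [add_zero] at this))
  have hdL1 := abs_le.1 (hdL 2 le_rfl q 0 hq.le (by linarith) le_rfl (by linarith))
  rw [add_zero, sub_zero, S2] at hdL1
  rw [S2] at hdT hdx
  have hrt : ∀ l ≤ 2, L l x x + Eb 2 + 12 * q < 1 := fun l hl => by
    have := hroom l hl 0 le_rfl (by linarith)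
    rwa [add_zero] at this
  have hsm : s * (x + ζ / 2 * q - t) - s * (x - t) = s * (ζ / 2 * q) := by ring
  obtain ⟨n1, n2, n3, n4, n5, n6, n7, n8, n9, n10, n11, n12⟩ :=
    v0_nmR (C := C) (q := q) (t := x) (β := β) (ζ := ζ) (s := s) (κ₂ := κ₂)
    (ε := 2 * ε) (L0 := L 2 x x) (LN := L 2 (x + q) (x + q)) (bt := bet (P₂ 2) c 2 a w)
    (Eb := Eb 2) (e := e₂ 2) (a := a) (w := w) hq hC1 hβ hβκ (by linarith) (by linarith) hζ0 hζ
    (by linarith) (by linarith) (by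
      have h1 : (s - 1) * (ζ / 2 * q) = s * (ζ / 2 * q) - ζ / 2 * q := by ring
      rw [h1]
      linarith [hdT.2, hdx.1]) (by linarith [hdL1.1]) ha1.le (by linarith) hw1.le (by linarith)
    (by
      have := hrt 2 le_rfl
      linarith) hEb (by linarith)
  have hCζ : C * (ζ * q) ≤ q := by
    have h1 : C * ζ ≤ 1 := by
      have h2 : C * ζ * 1 ≤ C * ζ * (s + 1) :=
        mul_le_mul_of_nonneg_left (by linarith) (by positivity)
      linarith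
    have h2 := mul_le_mul_of_nonneg_right h1 hq.le
    linarith
  have hC₁ζ : C₁ * (ζ * q) ≤ C * (ζ * q) := mul_le_mul_of_nonneg_right hC₁C hζq0.le
  -- the sizes of the windows
  obtain ⟨ηm, hηm⟩ : ∃ ηm : ℝ, ηm = ζ / (4 * C * CB) * q := ⟨_, rfl⟩
  have hCB0 : 0 < CB := by linarith
  have hηm0 : 0 < ηm := by rw [hηm]; positivity
  have hηm1 : 4 * C * (CB * ηm) = ζ * q := by
    rw [hηm]
    field_simp
  have hηm2 : CB * ηm ≤ ζ * q := by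
    have h1 : CB * ηm ≤ 4 * C * (CB * ηm) :=
      le_mul_of_one_le_left (by positivity) (by linarith)
    linarith
  have hr₀ : 0 < min (q / (2 * M₀)) (ζ / 2 * q / 2) := lt_min (by positivity) (by positivity)
  obtain ⟨K₁, bb, hK₁, hwin⟩ := hwin (S := S) (P := P) (θ := θ) (c := c) (Pt := L 2)
    (a := x + 3 * q) (Eb := Eb 2) (ηm := ηm) (o := ow) (η := fun _ => ηm) (σ := fun _ => ηm)
    (r₀ := fun _ => min (q / (2 * M₀)) (ζ / 2 * q / 2)) M₀ 2 R.thr R.th0 R.tmh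
    (R.inj.mono fun z hz => by
      rw [Set.mem_Iio] at hz ⊢
      omega) (R.lawL 2 h2m) hEb.le (fun k hk => by
      obtain ⟨j, hj, hVj⟩ := hV' k hk
      have h1 := hk01 k hk
      rw [hch] at h1
      have h2 := rec_balI R (i := 2) (k := j) (x := y + 3) (by norm_num) h2m hj
        (by rw [hVj]; linarith) (by rw [hVj]; linarith) (by
          rw [hVj, abs_le]
          constructor <;> linarith [hy.1, hy.2])
      have e1 : t + (y + 3) * q = x + 3 * q := by rw [hx]; ring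
      have e2 : t + V' j * q = ow k := by rw [hVj, hok, hch, hx]; ring
      rw [e1, e2] at h2
      exact h2)
    (fun k' _ => ⟨hηm0, hηm0, le_rfl, hr₀, le_rfl⟩)
  refine ⟨K₁ * 32 ^ 2, by positivity, ?_⟩
  intro v₀ κ₀ hv0 hvx hκ₀ c₁ Mq hc₁ hMq
  -- the numbers of the class theorem
  have hθq : 4 * (β * q) ≤ θ₁ * q := by
    have := mul_le_mul_of_nonneg_right hβθ hq.le
    linarith
  have hx1 : x < 1 := by linarith
  have hκq : κ₂ * q ≤ 1 / 2 * q := mul_le_mul_of_nonneg_right hκa hq.le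
  have hκq0 : 0 < κ₂ * q := by positivity
  have hκs : κ₂ * q ≤ (s - 1) / 4 * q := mul_le_mul_of_nonneg_right hκc hq.le
  have hκξ : κ₂ * q ≤ ξ / 2 * q := mul_le_mul_of_nonneg_right hκb hq.le
  have hβκq : 32 * (β * q) ≤ κ₂ * q := by
    have := mul_le_mul_of_nonneg_right hβκ hq.le
    linarith
  have hεβq : 32 * (ε * q) ≤ β * q := by
    have := mul_le_mul_of_nonneg_right hεβ hq.le
    linarith
  have hnn : κ₂ * q + ζ / 2 * q ≤ n * (ow 0 - v₀ - ζ * q) := by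
    rw [how0]
    have h1 : θ₁ / 2 * q ≤ x - v₀ - ζ * q := by
      rw [hx]
      have h2 : ζ * q ≤ θ₁ / 2 * q := by linarith
      linarith
    have h2 : (n : ℝ) * (θ₁ / 2 * q) ≤ n * (x - v₀ - ζ * q) :=
      mul_le_mul_of_nonneg_left h1 (Nat.cast_nonneg _)
    have h3 : 4 / θ₁ * (θ₁ / 2 * q) ≤ n * (θ₁ / 2 * q) :=
      mul_le_mul_of_nonneg_right (by linarith) (by positivity)
    have h4 : 4 / θ₁ * (θ₁ / 2 * q) = 2 * q := by field_simp; norm_num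
    linarith
  have hCβ : C₁ * (ζ * q) ≤ β * q := by
    have h1 : C * ζ ≤ β := by
      have h2 : C * ζ * 1 ≤ C * ζ * (s + 1) :=
        mul_le_mul_of_nonneg_left (by linarith) (by positivity)
      linarith
    have h2 := mul_le_mul_of_nonneg_right h1 hq.le
    linarith
  have hξq : 4 * (ξ₁ * q) ≤ (s - 1) * q := by
    have := mul_le_mul_of_nonneg_right hξ₁s hq.le
    linarith
  have hξq2 : 4 * (ξ₁ * q) ≤ ξ * q := by
    have := mul_le_mul_of_nonneg_right hξ₁ξ hq.le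
    linarith
  have hξq0 : 0 ≤ ξ₁ * q := by positivity
  have hdeep : κ₂ * q + ξ₁ * q + C₁ * (ζ * q) ≤ lvN P c 2 (L 2) 2 (ow M₀) (ow M₀) - ow M₀ -
      (lvN P c 2 (L 2) 2 (ow 0) (ow 0) - ow 0) := by
    rw [hlvk _ _ le_rfl, hlvk _ _ le_rfl, how0, hown]
    have h1 : (s - 1) * q = s * q - q := by ring
    have h2 : (s - 1) / 4 * q = (s - 1) * q / 4 := by ring
    rw [h2, h1] at hκs
    rw [h1] at hξq
    linarith [hdL1.1]
  obtain ⟨e₀, he₀, hcls⟩ := hcls (S := S) (P := P₂ 2) (θ := θ₂ 2) (c := c) (C₀ := CB)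
    (a' := x + 3 * q) (Eb := Eb 2) (ηm := ηm) (ζ := ζ * q) (o := ow) (η := fun _ => ηm)
    (σ := fun _ => ηm) (lv := fun k l => lvN P c 2 (L 2) l (ow k) (ow k)) (r := 2) (Dr := D)
    (N := M₀) (M := 2) (k₀ := 0) (nd := M₀) (a := a) (w := w) (q₁ := ζ / 2 * q) (s₁ := κ₂ * q)
    (h := β * q) (h₂ := 2 * (β * q)) (e := e₂ 2) (ι := ζ / 2 * q) (v₀ := v₀)
    (u₁ := ξ₁ * q) R.pos W.thr₂ R.tmh
    (R.inj.mono fun z hz => by
      rw [Set.mem_Iio] at hz ⊢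
      omega) le_rfl (Nat.zero_le _) le_rfl (by rw [how0]; linarith) (by rw [how0]; exact n1)
    (by
      have h1 : (0 : ℝ) ≤ w := by linarith
      exact_mod_cast h1) (by exact_mod_cast hwa) (by
      have h1 : (a : ℝ) ≤ 1 := by linarith
      exact_mod_cast h1) (by
      have h1 : (w : ℝ) < 1 := by linarith
      exact_mod_cast h1) (W.eθ w (by
      rw [abs_le]
      constructor <;> linarith)) hβq0 (by positivity) hζq0 hηm2 (by positivity) n4 (by linarith)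
    (by
      show bet (P₂ 2) c 2 a w + β * q + C₁ * (ζ * q) + 2 * (2 * (β * q)) ≤
        lvN P c 2 (L 2) 2 (ow 0) (ow 0) + κ₂ * q + (a - w)
      rw [hlvk _ _ le_rfl, how0]
      linarith) (by
      show bet (P₂ 2) c 2 a w + β * q + C₁ * (ζ * q) + 2 * (2 * (β * q)) ≤
        lvN P c 2 (L 2) 2 (ow M₀) (ow M₀) - (ow M₀ - w) + (a - w)
      rw [hlvk _ _ le_rfl, hown]
      linarith) (by
      show bet (P₂ 2) c 2 a w + β * q + C₁ * (ζ * q) + 2 * (2 * (β * q)) + ζ / 2 * q ≤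
        lvN P c 2 (L 2) 2 (ow 0) (ow 0) + 2 * (a - w)
      rw [hlvk _ _ le_rfl, how0]
      linarith) (by linarith) (fun l hl => by
      show Eb 2 + lvN P c 2 (L 2) l (ow 0) (ow 0) + 2 * (a - w) + C₁ * (ζ * q) ≤ 1
      rw [hlvk _ _ hl, how0]
      have h1 := n10 (L l x x) (by
        have := hrt l hl
        linarith)
      linarith) (fun l hl => by
      show Eb 2 + lvN P c 2 (L 2) l (ow 0) (ow 0) + max (κ₂ * q) 0 + 2 * (ζ / 2 * q) +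
        C₁ * (ζ * q) ≤ 1
      rw [hlvk _ _ hl, how0]
      have h1 := n11 (L l x x) (by
        have := hrt l hl
        linarith)
      linarith) (fun j _ => Or.inr (by
      show bet (P₂ 2) c 2 a w + β * q ≤ lvN P c 2 (L 2) 2 (ow 0) (ow 0) + (a - w) + ζ * q +
        2 * (β * q)
      rw [hlvk _ _ le_rfl, how0]
      exact n12)) (by positivity) (by linarith) hv0 (by linarith) (by
      rw [how0]
      linarith) hκq0.le hnn hdeep (fun l hl => by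
      show Eb 2 + lvN P c 2 (L 2) l (ow M₀) (ow M₀) + C₁ * (ζ * q) ≤ 1
      rw [hlvk _ _ hl, hown]
      have h1 := hroom l hl q hq.le (by linarith)
      linarith) (by rw [hown]; linarith) hξq0 c₁ Mq hc₁ hMq
  -- the outputs of the balls
  obtain ⟨ζr, hζr⟩ : ∃ ζr : ℝ, ζr = ζ * q / Cr := ⟨_, rfl⟩
  have hζr0 : 0 < ζr := by rw [hζr]; positivity
  have hζrC : Cr * ζr = ζ * q := by rw [hζr]; field_simp
  obtain ⟨κ', hκ', hro⟩ := hro (S := S) (c := c) (C₀ := CB) (a := x + 3 * q) (Eb := Eb 2)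
    (ηm := ηm) (ζ := ζr) (κ₀ := 1 / K₁) (o := ow) (η := fun _ => ηm) (σ := fun _ => ηm)
    (lv := fun k l => lvN P c 2 (L 2) l (ow k) (ow k)) (Dr := D) (N := M₀) (M := 2) [0, M₀]
    R.tmh (R.inj.mono fun z hz => by
      rw [Set.mem_Iio] at hz ⊢
      omega) le_rfl hζr0 (by positivity) (by
      rw [hζr, le_div_iff₀ (by positivity)]
      have h1 : CB * ηm * Cr ≤ 4 * C * (CB * ηm) := by
        have h2 : CB * ηm * Cr ≤ CB * ηm * (4 * C) :=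
          mul_le_mul_of_nonneg_left (by linarith) (by positivity)
        linarith
      linarith) (fun k hk => by
      have hk' : k = 0 ∨ k = M₀ := by
        simpa using hk
      rw [hζrC]
      rcases hk' with rfl | rfl
      · refine ⟨Nat.zero_le _, by rw [how0]; linarith, fun l hl => ?_⟩
        show ζ * q ≤ lvN P c 2 (L 2) l (ow 0) (ow 0) ∧
          Eb 2 + lvN P c 2 (L 2) l (ow 0) (ow 0) + ζ * q ≤ 1
        rw [hlvk _ _ hl, how0]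
        have h1 := hlow l hl 0 le_rfl (by linarith)
        rw [add_zero] at h1
        have h2 := hrt l hl
        constructor <;> linarith
      · refine ⟨le_rfl, by rw [hown]; linarith, fun l hl => ?_⟩
        show ζ * q ≤ lvN P c 2 (L 2) l (ow k) (ow k) ∧
          Eb 2 + lvN P c 2 (L 2) l (ow k) (ow k) + ζ * q ≤ 1
        rw [hlvk _ _ hl, hown]
        have h1 := hlow l hl q hq.le (by linarith)
        have h2 := hroom l hl q hq.le (by linarith)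
        constructor <;> linarith)
  -- the radii
  obtain ⟨J₁, hJ₁⟩ := radii_ok (M₀ := M₀) (cb := 0) (t := x) (q := q) (a := a)
    (q₁ := ζ / 2 * q) (φ := 0) (ζ := ζ * q) hM1 hq (by
      push_cast
      linarith) ha1.le n3 (by positivity) (by linarith) (by linarith) hζq0.le
  simp only [← hok, zero_mul, zero_add] at hJ₁
  obtain ⟨J₂, hJ₂⟩ := exists_nat_ge (max 8 (M₀ : ℝ) / (ζ / (4 * Cg) * q))
  obtain ⟨κ'', hκ''⟩ : ∃ κ'' : ℝ, κ'' = min κ' (κ₀ * (1 / 32 ^ 2)) := ⟨_, rfl⟩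
  have hκ''0 : 0 < κ'' := by rw [hκ'']; exact lt_min hκ' (by positivity)
  have hκ''1 : κ'' ≤ κ' := by rw [hκ'']; exact min_le_left _ _
  have hκ''2 : κ'' ≤ κ₀ * (1 / 32 ^ 2) := by rw [hκ'']; exact min_le_right _ _
  refine ⟨e₀, he₀, Bas.mono (max (max J₁ J₂) 1) ((hwin κ'' hκ''0).and (hro.and hcls)) ?_⟩
  rintro J hJ F A₀ ⟨b1, b2, b3⟩
  have hJ1 : J₁ ≤ J := (le_max_left _ _).trans ((le_max_left _ _).trans hJ)
  have hJ2 : J₂ ≤ J := (le_max_right _ _).trans ((le_max_left _ _).trans hJ)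
  have hJ0 : (0 : ℝ) ≤ J := Nat.cast_nonneg J
  have hJ2R : (J₂ : ℝ) ≤ J := by exact_mod_cast hJ2
  have hp := Pe_nonneg F.isLaw
  obtain ⟨z1, z2, z3, z4, z5, z6, z7⟩ := hJ₁ J hJ1
  obtain ⟨zz, hzz⟩ : ∃ zz : ℕ → ℕ → ℕ, zz = zzV M₀ 0 x q a (ζ / 2 * q) J := ⟨_, rfl⟩
  rw [← hzz] at z1 z2 z3 z4 z5 z6 z7
  -- the numbers
  obtain ⟨u, hu⟩ : ∃ u : ℝ, u = ζ / (4 * Cg) * (q * J) := ⟨_, rfl⟩
  have hmx : max 8 (M₀ : ℝ) ≤ u := by
    have h1 := hJ₂.trans hJ2R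
    rw [div_le_iff₀ (by positivity)] at h1
    rw [hu]
    linarith
  have hu8 : 8 ≤ u := (le_max_left _ _).trans hmx
  have huM : (M₀ : ℝ) ≤ u := (le_max_right _ _).trans hmx
  obtain ⟨qJ, hqJ⟩ : ∃ qJ : ℝ, qJ = q * J := ⟨_, rfl⟩
  have hqJ0 : 0 ≤ qJ := by rw [hqJ]; positivity
  have hCg0 : (0 : ℝ) < Cg := by linarith
  have hζu : Cg * (2 * u) = ζ / 2 * qJ := by
    rw [hu, ← hqJ]
    field_simp
    norm_num
  have hζC : ζ / (16 * C) ≤ ζ / (16 * Cg) :=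
    div_le_div_of_nonneg_left hζ0.le (by positivity) (by linarith)
  have hu4 : ζ / (16 * Cg) * qJ = u / 4 := by
    rw [hu, ← hqJ]
    field_simp
    ring
  obtain ⟨Y, hY⟩ : ∃ Y : ℕ, Y = ⌊2 * u⌋₊ := ⟨_, rfl⟩
  have hY1 : (Y : ℝ) ≤ 2 * u := by rw [hY]; exact Nat.floor_le (by linarith)
  have hY2 : u + 7 ≤ Y := by
    have h1 := (Nat.lt_floor_add_one (2 * u)).le
    rw [← hY] at h1
    linarith
  have hCgY : (Cg : ℝ) * Y ≤ ζ / 2 * qJ := by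
    rw [← hζu]
    exact mul_le_mul_of_nonneg_left hY1 hCg0.le
  obtain ⟨X, hX⟩ : ∃ X : ℕ, X = ⌊2 * κ₂ * qJ⌋₊ := ⟨_, rfl⟩
  have hX1 : (X : ℝ) ≤ 2 * κ₂ * qJ := by rw [hX]; exact Nat.floor_le (by positivity)
  have hX2 : 2 * κ₂ * qJ - 1 ≤ X := by
    have h1 := (Nat.lt_floor_add_one (2 * κ₂ * qJ)).le
    rw [← hX] at h1
    linarith
  obtain ⟨q', hq'⟩ : ∃ q' : ℕ, q' = ⌊qJ⌋₊ + 4 := ⟨_, rfl⟩
  have hq1 : (q' : ℝ) ≤ qJ + 4 := by
    rw [hq']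
    push_cast
    linarith [Nat.floor_le hqJ0]
  have hq2 : qJ + 3 ≤ q' := by
    have h1 := (Nat.lt_floor_add_one qJ).le
    rw [hq']
    push_cast
    linarith
  have hζκ : 64 * (ζ * qJ) ≤ κ₂ * qJ := by
    have h1 : 64 * ζ ≤ κ₂ := by linarith
    have := mul_le_mul_of_nonneg_right h1 hqJ0
    linarith
  have huζ : 2 * u ≤ ζ / 2 * qJ := by
    rw [← hζu]
    exact le_mul_of_one_le_left (by linarith) hCg1
  have hκJ : κ₂ * qJ ≤ 1 / 2 * qJ := mul_le_mul_of_nonneg_right hκa hqJ0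
  have hκsJ : κ₂ * qJ ≤ (s - 1) / 4 * qJ := mul_le_mul_of_nonneg_right hκc hqJ0
  have hstep : ∀ k, (ow (k + 1) - ow k) * (J : ℝ) = 1 / M₀ * qJ := fun k => by
    rw [hok, hok, chV_succ, hqJ]
    ring
  have hMsq : (s + 1) / M₀ * qJ ≤ u / 4 := by
    rw [← hu4]
    exact mul_le_mul_of_nonneg_right (hMs.trans hζC) hqJ0
  have hMsq' : s * (1 / M₀ * qJ) + 1 / M₀ * qJ = (s + 1) / M₀ * qJ := by ring
  have hM1q : 0 ≤ 1 / (M₀ : ℝ) * qJ := by positivity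
  have hεJ : 2 * (ε * q) * J ≤ u / 2 := by
    have h1 : ε * qJ ≤ ζ / (16 * Cg) * qJ :=
      mul_le_mul_of_nonneg_right (hεζ.trans hζC) hqJ0
    rw [hu4] at h1
    have h2 : 2 * (ε * q) * (J : ℝ) = 2 * (ε * qJ) := by rw [hqJ]; ring
    rw [h2]
    linarith
  have hdJ : ∀ l ≤ 2, ∀ k ≤ M₀, ∀ k' ≤ M₀, |(lvN P c 2 (L 2) l (ow k') (ow k') -
      lvN P c 2 (L 2) l (ow k) (ow k)) * J - Sl l * ((ow k' - ow k) * J)| ≤ u / 2 := by
    intro l hl k hk k' hk'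
    rw [hlvk _ _ hl, hlvk _ _ hl]
    have h1 := hokq k hk
    have h2 := hokq k' hk'
    have h3 := hdL l hl (chV M₀ 0 k' * q) (chV M₀ 0 k * q) h2.1 (by linarith) h1.1
      (by linarith)
    rw [← hok, ← hok] at h3
    have h4 : (L l (ow k') (ow k') - L l (ow k) (ow k)) * (J : ℝ) - Sl l * ((ow k' - ow k) * J) =
        (L l (ow k') (ow k') - L l (ow k) (ow k) -
          Sl l * (chV M₀ 0 k' * q - chV M₀ 0 k * q)) * J := by
      have h5 : ow k' - ow k = chV M₀ 0 k' * q - chV M₀ 0 k * q := by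
        rw [hok, hok]
        ring
      rw [h5]
      ring
    rw [h4, abs_mul, abs_of_nonneg hJ0]
    exact (mul_le_mul_of_nonneg_right h3 hJ0).trans hεJ
  have htot : (ow M₀ - ow 0) * (J : ℝ) = qJ := by
    rw [how0, hown, hqJ]
    ring
  have hmono : ∀ k, ow k ≤ ow (k + 1) := fun k => by
    rw [hok, hok]
    have := mul_le_mul_of_nonneg_right (chV_mono (M₀ := M₀) (cb := 0) (Nat.le_succ k)) hq.le
    linarith
  -- the events
  obtain ⟨B₀, g₁, G₁, H₁, hB₀, hPB₀, WB⟩ := b1 zz z1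
  have hPB₀' : 1 / K₁ * Pe F.p A₀ ≤ Pe F.p B₀ := by
    rw [one_div, inv_mul_le_iff₀ hK₁]
    exact hPB₀
  obtain ⟨B', hB', hPB', hout⟩ := b2 zz κ'' bb B₀ g₁ G₁ H₁ B₀ WB hκ''1 hB₀ (fun _ h => h) hPB₀'
  rw [hζrC] at hout
  obtain ⟨hsz, hvis⟩ := hgr WB (n := M₀) (q := q') (X := X) (Y := Y) (s := s)
    (R.inj.mono fun z hz => by
      rw [Set.mem_Iio] at hz ⊢
      omega) le_rfl le_rfl (fun k _ => ⟨z2 k, hmono k⟩) (z7 0) (by
      have h1 : CB * (ηm * J) = ζ / (4 * C) * qJ := by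
        rw [hηm, hqJ]
        field_simp
      rw [h1]
      have h2 : ζ / (4 * C) ≤ ζ / (4 * Cg) :=
        div_le_div_of_nonneg_left hζ0.le (by positivity) (by linarith)
      have h3 := mul_le_mul_of_nonneg_right h2 hqJ0
      rw [hqJ, ← hu] at h3
      rw [hqJ]
      linarith) (by
      have : (3 : ℝ) ≤ Y := by linarith
      exact_mod_cast this) (by
      have h1 : (M₀ : ℝ) ≤ Y := by linarith
      exact h1.trans (by exact_mod_cast Nat.lt_two_pow_self.le)) hs.le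
    (fun k hk l hl => by
      have h1 := abs_le.1 (hdJ l hl k (by omega) (k + 1) (by omega))
      rw [hstep] at h1
      obtain ⟨h2, h3⟩ := hSl l hl
      have h4 : Sl l * (1 / M₀ * qJ) ≤ s * (1 / M₀ * qJ) := mul_le_mul_of_nonneg_right h3 hM1q
      have h5 : 0 ≤ Sl l * (1 / M₀ * qJ) := mul_nonneg (by linarith) hM1q
      rw [abs_le]
      constructor <;> linarith [h1.1, h1.2]) (fun k _ => by
      rw [hstep]
      linarith) (fun k k' hk hk' l hl => by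
      have h1 := abs_le.1 (hdJ l hl.le k (by omega) k' hk')
      rw [hSl1 l hl, one_mul] at h1
      linarith [h1.2]) (fun k hk => by
      have h1 := abs_le.1 (hdJ 2 le_rfl 0 (Nat.zero_le _) k hk)
      rw [S2] at h1
      linarith [h1.1]) (by rw [htot]; exact hq2) (by
      rw [htot]
      have h1 : (s - 1) / 4 * qJ = (s * qJ - qJ) / 4 := by ring
      rw [h1] at hκsJ
      linarith) (by
      have : (X : ℝ) ≤ q' := by linarith
      exact_mod_cast this) (by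
      rw [htot]
      have h1 : (s - 1) / 4 * qJ = (s - 1) * qJ / 4 := by ring
      rw [h1] at hκsJ
      have h2 : 0 ≤ (s - 1) * qJ := mul_nonneg (by linarith) hqJ0
      linarith) (fun l hl => by
      have h1 := mul_le_mul_of_nonneg_right (hrt l hl).le hJ0
      have h2 : (L l x x + Eb 2 + 12 * q) * (J : ℝ) = (Eb 2 + L l x x) * J + 12 * qJ := by
        rw [hqJ]
        ring
      rw [h2, one_mul] at h1
      have h3 := z3 0
      have h4 : ζ / 2 * q * (J : ℝ) = ζ / 2 * qJ := by rw [hqJ]; ring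
      rw [h4] at h3
      have h5 : ζ / 2 * qJ ≤ qJ := by
        have : ζ / 2 ≤ 1 := by linarith
        have := mul_le_mul_of_nonneg_right this hqJ0
        linarith
      show (Eb 2 + lvN P c 2 (L 2) l (ow 0) (ow 0)) * J + zz 0 1 + q' + Cg * Y ≤ J
      rw [hlvk _ _ hl, how0]
      linarith)
  have h2pos : (0 : ℝ) < 2 := by norm_num
  have hsz' : ∀ ω, B' ω → ∀ j < 2, |gnh F c 2 (g₁ 0) (G₁ 0) (G₁ M₀) ω j| ≤
      2 ^ (ζ / 2 * q * (J : ℝ)) := fun ω hω j hj => by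
    refine (hsz ω (hB' ω hω) j hj).trans ?_
    rw [← Real.rpow_natCast]
    refine Real.rpow_le_rpow_of_exponent_le (by norm_num) ?_
    push_cast
    have h1 : ζ / 2 * q * (J : ℝ) = ζ / 2 * qJ := by rw [hqJ]; ring
    rw [h1]
    exact hCgY
  have hvis' : ∀ ω ν, B' ω → B' ν → ptr F J ω = ptr F J ν → ∀ j < 2,
      |gnh F c 2 (g₁ 0) (G₁ 0) (G₁ M₀) ω j - gnh F c 2 (g₁ 0) (G₁ 0) (G₁ M₀) ν j| ≤
        2 ^ (-(κ₂ * q * (J : ℝ))) := fun ω ν hω hν hpt j hj => by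
    refine (hvis ω ν (hB' ω hω) (hB' ν hν) hpt j hj).trans ?_
    rw [← Real.rpow_natCast, ← Real.rpow_natCast, ← Real.rpow_sub h2pos]
    refine Real.rpow_le_rpow_of_exponent_le (by norm_num) ?_
    push_cast
    have h1 : κ₂ * q * (J : ℝ) = κ₂ * qJ := by rw [hqJ]; ring
    rw [h1]
    linarith
  have hsub32 : (1 / 32 ^ 2 : ℝ) * Pe F.p B₀ ≤ Pe F.p B' := by
    have h1 : Pe F.p B₀ ≤ 32 ^ 2 * Pe F.p B' := by simpa using hPB'
    linarith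
  have hηζ : ηm ≤ ζ * q / 4 := by
    have h1 : 4 * ηm ≤ 4 * C * (CB * ηm) := by
      have h2 : ηm ≤ CB * ηm := le_mul_of_one_le_left hηm0.le hCB
      have h3 : 4 * (CB * ηm) ≤ 4 * C * (CB * ηm) :=
        mul_le_mul_of_nonneg_right (by linarith) (by positivity)
      linarith
    linarith
  have hEw : Eb 2 + ηm + ηm ≤ Eb 2 + ζ * q := by linarith
  have hfl : ⌊ηm * J⌋₊ ≤ ⌊ζ * q * J⌋₊ :=
    Nat.floor_le_floor (mul_le_mul_of_nonneg_right (by linarith) hJ0)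
  have hblo : ∀ k ≤ M₀, ROutB F c 2 ⌊ow k * J⌋₊ ⌊ζ * q * J⌋₊ (g₁ k) B' (G₁ k) (H₁ k) →
      BlO F c D ⌊ow k * J⌋₊ ⌊(Eb 2 + ηm + ηm) * J⌋₊ ⌊ζ * q * J⌋₊ ⌊ζ * q * J⌋₊ κ₀ (g₁ k) B'
        (G₁ k) (H₁ k) := by
    intro k hk hr
    have h1 := (WB.ev k hk).sub hB' hsub32 hκ₀.le hκ''2
    exact ⟨h1.ball, fun ω hω l hl => h1.cls ω hω l (by omega),
      Pool.STB77.relf_h h1.relb hfl, fun ω hω l hl τ hτ => hr.own ω hω l hl τ hτ⟩
  have hnum : ∀ k ≤ M₀, ∀ l ≤ 2, (L l (ow k) (ow k) - ζ * q) * J ≤ g₁ k l ∧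
      (g₁ k l : ℝ) ≤ L l (ow k) (ow k) * J := by
    intro k hk l hl
    obtain ⟨h1, h2⟩ := WB.sds k hk l hl
    have h1' : (lvN P c 2 (L 2) l (ow k) (ow k) - ηm) * J ≤ g₁ k l := h1
    have h2' : (g₁ k l : ℝ) ≤ lvN P c 2 (L 2) l (ow k) (ow k) * J := h2
    rw [hlvk _ _ hl] at h1' h2'
    refine ⟨le_trans (mul_le_mul_of_nonneg_right (by linarith) hJ0) h1', h2'⟩
  have ex0 : t + (y + ((0 : Fin 2) : ℕ)) * q = ow 0 := by
    rw [how0, hx]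
    simp
  have ex1 : t + (y + ((1 : Fin 2) : ℕ)) * q = ow M₀ := by
    rw [hown, hx]
    simp only [Fin.val_one, Nat.cast_one]
    ring
  have ex1' : t + (y + 1) * q = ow M₀ := by
    rw [hown, hx]
    ring
  refine ⟨B', ![g₁ 0, g₁ M₀], ⌊(Eb 2 + ηm + ηm) * J⌋₊, ![G₁ 0, G₁ M₀], ![H₁ 0, H₁ M₀],
    fun ω hω => hB₀ ω (hB' ω hω), ?_, ?_, ?_, ?_⟩
  · have h1 : Pe F.p B₀ ≤ 32 ^ 2 * Pe F.p B' := by simpa using hPB'
    calc Pe F.p A₀ ≤ K₁ * Pe F.p B₀ := hPB₀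
      _ ≤ K₁ * (32 ^ 2 * Pe F.p B') := mul_le_mul_of_nonneg_left h1 hK₁.le
      _ = _ := by ring
  · refine (Nat.floor_le (by positivity)).trans ?_
    exact mul_le_mul_of_nonneg_right hEw hJ0
  · intro i
    fin_cases i
    · refine ⟨?_, fun l hl => ?_⟩
      · show BlO F c D ⌊(t + (y + ((0 : Fin 2) : ℕ)) * q) * J⌋₊ _ _ _ κ₀ (g₁ 0) B' (G₁ 0) (H₁ 0)
        rw [ex0]
        exact hblo 0 (Nat.zero_le _) (hout 0 (by simp))
      · show (L l (t + (y + ((0 : Fin 2) : ℕ)) * q) (t + (y + ((0 : Fin 2) : ℕ)) * q) -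
          ζ * q) * J ≤ g₁ 0 l ∧ (g₁ 0 l : ℝ) ≤ L l (t + (y + ((0 : Fin 2) : ℕ)) * q)
          (t + (y + ((0 : Fin 2) : ℕ)) * q) * J
        rw [ex0]
        exact hnum 0 (Nat.zero_le _) l hl
    · refine ⟨?_, fun l hl => ?_⟩
      · show BlO F c D ⌊(t + (y + ((1 : Fin 2) : ℕ)) * q) * J⌋₊ _ _ _ κ₀ (g₁ M₀) B' (G₁ M₀)
          (H₁ M₀)
        rw [ex1]
        exact hblo M₀ le_rfl (hout M₀ (by simp))
      · show (L l (t + (y + ((1 : Fin 2) : ℕ)) * q) (t + (y + ((1 : Fin 2) : ℕ)) * q) -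
          ζ * q) * J ≤ g₁ M₀ l ∧ (g₁ M₀ l : ℝ) ≤ L l (t + (y + ((1 : Fin 2) : ℕ)) * q)
          (t + (y + ((1 : Fin 2) : ℕ)) * q) * J
        rw [ex1]
        exact hnum M₀ le_rfl l hl
  intro B₁ hB₁ Hw SR gw qq X hwd hwp hgq hX hX2 hSR hρ
  rw [ex1'] at hSR
  rw [← how0] at hSR
  intro Ω₃ 𝒯 _ Q om tp PA hQ hPA hlaw hCH
  have hfin := b3 zz κ'' bb B₀ g₁ G₁ H₁ 1 2 WB hB₀ (by norm_num) le_rfl (z3 0)
    (by rw [how0]; exact z5 0) (by rw [how0]; exact z6 0) B₁ (fun ω hω => hB' ω (hB₁ ω hω))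
    ((hout 0 (by simp)).sub hB₁) ((hout M₀ (by simp)).sub hB₁)
    (fun ω hω => hsz' ω (hB₁ ω hω))
    (fun ω ν hω hν => hvis' ω ν (hB₁ ω hω) (hB₁ ν hν)) Hw SR gw qq X hwd hwp hgq (by
      have h1 : C₁ * (ζ * q * J) ≤ q * J := by
        have h2 : C₁ * (ζ * q * J) = C₁ * (ζ * q) * J := by ring
        rw [h2]
        exact mul_le_mul_of_nonneg_right (by linarith) hJ0
      linarith) hX2 hSR hρ Ω₃ 𝒯 Q om tp PA hQ hPA hlaw hCH
  refine lt_of_le_of_lt ?_ hfin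
  refine (Pool.JVE.pe_sum Q _).trans_le (le_trans ?_ (Pool.JVE.pe_sum Q _).ge)
  refine Finset.sum_le_sum fun z _ => ?_
  have h7 := hQ.nonneg z
  by_cases h8 : B₁ (om z) ∧ RelO F c B₁ ⌊v₀ * J⌋₊ Hw SR
      (2 ^ ((2 * x - L 0 x x - L 1 x x - ζ * q) * J))
      (2 ^ ((L 2 x x - x + ξ * q) * J)) (PA (tp z)) (om z)
  · rw [if_pos h8, if_pos]
    refine ⟨h8.1, h8.2.mono (fun _ h => h) (fun _ _ h => h) ?_ ?_⟩
    · rw [hlvk _ _ (by norm_num), hlvk _ _ (by norm_num), how0]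
    · rw [hlvk _ _ le_rfl, how0]
      refine Real.rpow_le_rpow_of_exponent_le (by norm_num) ?_
      refine mul_le_mul_of_nonneg_right ?_ hJ0
      linarith
  · rw [if_neg h8]
    split_ifs <;> linarith

end Pool.NDD66
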