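import Pool.Agent.H66.NDD.Nod

/-!
# The linear relation of a tuple of configurations

`DTup`: a tuple of configurations: lines `ω i` at one exact time, lines `ν i` through the same exact
points, nodes `N i j` on the lines `ν i`; near data equal, the coordinate `c r` differs by `h i`.
`dd_tup`: the divided difference of the gradients of the row labels along the lines `ω i` vanishes on
the own velocities of `ν 0`. `h_tr`: the differences `h i` from the lines `ω i`.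
-/

set_option autoImplicit false

namespace Pool.NDD66

open Finset Real MvPolynomial
open Pool.Agent.H49.Ent Pool.Agent.H32.Dense Pool.STK Pool.KA Pool.KSAT Pool.K2S Pool.PB Pool.S6C
open Pool.GEN Pool.CHT Pool.D2R
open Pool.PB.Trl (rt rt_mem t_rt)

variable {m J : ℕ}

/-- **A tuple of configurations.** -/
structure DTup (F : Fam m J) (c : ℕ → Fin m) (r D w t k B : ℕ) (s : ℝ) (gw gt : ℕ → ℕ)
    (A : F.Ω → Prop) (Gt : PtT F → ℕ → MvPolynomial (Option (Fin m)) ℝ)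
    (ψ : ℕ → MvPolynomial (Option (Fin m)) ℝ) (h : Fin (D + 2) → ℝ)
    (ω ν : Fin (D + 2) → F.Ω) (N : Fin (D + 2) → Fin (D + 2) → F.Ω) : Prop where
  Aω : ∀ i, A (ω i)
  Aν : ∀ i, A (ν i)
  AN : ∀ i j, A (N i j)
  pt : ∀ i, ptr F J (ω i) = ptr F J (ν i)
  T : ∀ i, F.T (ω i) = F.T (ω 0)
  sl : ∀ i j, slam F w (N i j) = slam F w (ν i)
  tm : ∀ i j, |rt F w (N i j) - rt F w (N 0 j)| ≤ 1 / 2 ^ B
  s0 : 0 < s
  sep : ∀ j j', j ≠ j' → s ≤ |rt F w (N 0 j) - rt F w (N 0 j')|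
  near : ∀ i, ∀ l ≤ r, ∀ τ ∈ Set.Icc (0 : ℝ) 1, |(op w c ψ (slam F w (ν i)) l).eval τ -
    (op w c ψ (slam F w (ν 0)) l).eval τ - (if l = r then h i else 0)| ≤ 1 / 2 ^ (gw l + B)
  own : ∀ i, ∀ l ≤ r + 1, ∃ κ : ℝ, ∀ τ ∈ Set.Icc (0 : ℝ) 1,
    |(op w c ψ (slam F w (ν i)) l).eval τ - κ| ≤ 2 ^ k / 2 ^ gw l
  cmp : ∀ j, ∀ l ≤ r + 1, ∃ κ : ℝ, ∀ b, NBx c (Gt (ptr F J (N 0 j))) gt t (F.t (N 0 j)) l b →
    |eval b (Gt (ptr F J (N 0 j)) l) - eval b (ψ l) - κ| ≤ 2 ^ k / 2 ^ gw l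
  code : ∀ i j, ∀ b, NBx c (Gt (ptr F J (N 0 j))) gt t (F.t (N 0 j)) (r + 1) b →
    |eval b (Gt (ptr F J (N i j)) (r + 1)) - eval b (Gt (ptr F J (N 0 j)) (r + 1))| ≤
      2 ^ k / 2 ^ gt (r + 1)
  inj : Function.Injective h
  hh : ∀ i, |h i| ≤ 2 ^ k / 2 ^ gt r

theorem slam_T1 (F : Fam m J) (w : ℕ) {ω ν : F.Ω} (h : F.T ω = F.T ν) :
    (slam F w ω).2.2 = (slam F w ν).2.2 := by
  show F.T1 w ω = F.T1 w ν
  unfold Fam.T1
  rw [h]

/-- **The linear relation of a tuple of configurations.** -/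
theorem dd_tup (m D r : ℕ) : ∃ C : ℕ, 1 ≤ C ∧ ∀ {J : ℕ} {F : Fam m J} {c : ℕ → Fin m}
    {w a t e e' k q B X : ℕ} {g gw gt : ℕ → ℕ} {A : F.Ω → Prop}
    {G G₀ Gt : PtT F → ℕ → MvPolynomial (Option (Fin m)) ℝ}
    {H H₀ : LnT F → ℕ → MvPolynomial (Option (Fin m)) ℝ}
    {ψ : ℕ → MvPolynomial (Option (Fin m)) ℝ} {h : Fin (D + 2) → ℝ}
    {ω ν : Fin (D + 2) → F.Ω} {N : Fin (D + 2) → Fin (D + 2) → F.Ω} {s : ℝ},
    Set.InjOn c (Set.Iio (r + 2)) → w ≤ a → a ≤ J → w ≤ t → t ≤ w + q →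
    (∀ l ≤ r, gt l ≤ gw l + q) →
    ChOK F c (r + 2) (fun _ => D) a w e g A G H →
    ChOK F c (r + 2) (fun _ => D) w w e gw A G₀ H₀ →
    (∀ y l, (Gt y l).totalDegree ≤ D) → (∀ y l, DepC c l (Gt y l)) →
    (∀ μ, A μ → ∀ l ≤ r + 1, |F.x μ (c l) - eval (bt F μ) (Gt (ptr F J μ) l)| ≤ 1 / 2 ^ gt l) →
    (∀ l ≤ r + 1, e + g l + C * (k + 1) ≤ J) → (∀ l ≤ r + 1, e + gw l + C * (k + 1) ≤ J) →
    (∀ l ≤ r + 1, e' + gw l + X + C * (k + 1) ≤ J) →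
    (r + 2) * q + C * (k + 1) ≤ B → X + C ≤ B →
    (∀ ν, A ν → ∀ l ≤ r + 1, ∀ τ ∈ Set.Icc (0 : ℝ) 1,
      |(dv w (fun s _ => H s l) (c l) (slam F w ν)).eval τ| ≤ 2 ^ k / 2 ^ g l) →
    (∀ ν, A ν → ∀ l ≤ r + 1, ∀ τ ∈ Set.Icc (0 : ℝ) 1,
      |(dv w (fun s _ => H₀ s l) (c l) (slam F w ν)).eval τ| ≤ 2 ^ k / 2 ^ gw l) →
    (∀ l, (ψ l).totalDegree ≤ D) → (∀ l, DepC c l (ψ l)) →
    (∀ i, ∀ l ≤ r + 1, ∀ b, NBx c (G₀ (ptr F J (ω i))) gw w (F.t (ω i)) l b → ∀ j < l,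
      |eval b (pderiv (some (c j)) (ψ l))| ≤ 2 ^ (e' + nlp gw j l)) →
    DTup F c r D w t k B s gw gt A Gt ψ h ω ν N →
    (∀ i, ∀ l ≤ r, |ncp c (r + 1) ψ (H (slam F w (ω i)) (r + 1) - ψ (r + 1)) (bt F (ω i)) l| ≤
      2 ^ k * 2 ^ gw l / 2 ^ gw (r + 1)) →
    |∑ i, mu h i * nct c (r + 1) ψ (H (slam F w (ω i)) (r + 1) - ψ (r + 1)) (bt F (ω i)) +
      ∑ l ∈ range (r + 1), (∑ i, mu h i * ncp c (r + 1) ψ
        (H (slam F w (ω i)) (r + 1) - ψ (r + 1)) (bt F (ω i)) l) * ov F c ψ (ν 0) l| ≤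
      2 ^ (C * (k + 1)) * Lam h * 2 ^ w * ((1 / s) ^ (D + 1) *
        (1 / 2 ^ gt (r + 1) + 2 ^ ((r + 2) * q) / 2 ^ (gw (r + 1) + B)) +
        2 ^ (a - w) / 2 ^ g (r + 1) + 1 / 2 ^ (gw (r + 1) + X)) := by
  classical
  obtain ⟨C₁, hC₁, hdd⟩ := dd_ev m D r
  obtain ⟨C₂, hC₂, hmov⟩ := moved_gen m D (r + 1)
  obtain ⟨C₃, hC₃, hnod⟩ := node_q D r
  obtain ⟨C₄, hC₄, hder⟩ := der_one (D + 1)
  obtain ⟨c₄, hc₄⟩ := pow_unbounded_of_one_lt C₄ (one_lt_two (α := ℝ))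
  obtain ⟨C, hC⟩ : ∃ C : ℕ, C = C₁ * (C₂ + 1) + C₁ + C₂ + C₃ + c₄ := ⟨_, rfl⟩
  refine ⟨C, by omega, ?_⟩
  intro J F c w a t e e' k q B X g gw gt A G G₀ Gt H H₀ ψ h ω ν N s hc hwa haJ hwt htq hg hrw hbs
    hGtd hGtp hGtx hJ hJw hJX hB hXB hdv hdv0 hψ hψd hψl hD hgrd
  have hwJ : w ≤ J := hwa.trans haJ
  have hk1 : ∀ n : ℕ, n ≤ n * (k + 1) := fun n => Nat.le_mul_of_pos_right _ (Nat.succ_pos k)
  obtain ⟨k', hk'⟩ : ∃ k' : ℕ, k' = C₂ * (k + 1) + k := ⟨_, rfl⟩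
  have hkk' : k ≤ k' := by omega
  have hC₁k : C₁ * (k' + 1) ≤ C * (k + 1) - C₃ * (k + 1) := by
    have e1 : C₁ * (k' + 1) = C₁ * (C₂ + 1) * (k + 1) := by rw [hk']; ring
    have e2 : C * (k + 1) = C₁ * (C₂ + 1) * (k + 1) + C₁ * (k + 1) + C₂ * (k + 1) + C₃ * (k + 1) +
      c₄ * (k + 1) := by rw [hC]; ring
    omega
  have hC₁k' : C₁ * (k' + 1) ≤ C * (k + 1) := by omega
  have hC₂k : C₂ * (k + 1) ≤ C * (k + 1) := Nat.mul_le_mul_right _ (by omega)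
  have hC₃k : C₃ * (k + 1) ≤ C * (k + 1) := Nat.mul_le_mul_right _ (by omega)
  have hpk : (2 : ℝ) ^ k ≤ 2 ^ k' := pow_le_pow_right₀ (by norm_num) hkk'
  have hTν : ∀ i, F.T (ν i) = F.T (ν 0) := fun i => by
    rw [← (bt_near (hD.pt i)).1, ← (bt_near (hD.pt 0)).1, hD.T i]
  -- the own paths at the nodes
  obtain ⟨qq, hqq⟩ : ∃ qq : Fin (D + 2) → Polynomial ℝ, qq = fun j => MvPolynomial.aeval
      (fun o => Polynomial.C (bt F (N 0 j) o) +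
        Polynomial.C (if o = some (c r) then 1 else 0) * Polynomial.X)
      (Gt (ptr F J (N 0 j)) (r + 1) - ψ (r + 1)) := ⟨_, rfl⟩
  have hqd : ∀ j, (qq j).natDegree ≤ D := by
    intro j
    rw [hqq]
    refine Pool.KBX.natDegree_aeval_le _ _ (fun o => ?_)
      ((totalDegree_sub _ _).trans (max_le (hGtd _ _) (hψ _)))
    refine (Polynomial.natDegree_add_le _ _).trans (max_le ?_ ?_)
    · rw [Polynomial.natDegree_C]
      exact Nat.zero_le _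
    · exact (Polynomial.natDegree_C_mul_le _ _).trans Polynomial.natDegree_X_le
  have hqe : ∀ j y, (qq j).eval y = eval (Function.update (bt F (N 0 j)) (some (c r))
      (bt F (N 0 j) (some (c r)) + y)) (Gt (ptr F J (N 0 j)) (r + 1) - ψ (r + 1)) := by
    intro j y
    rw [hqq]
    show Polynomial.eval y (MvPolynomial.aeval _ _) = _
    rw [Pool.KBX.eval_aeval_poly]
    refine congrArg (fun x => eval x (Gt (ptr F J (N 0 j)) (r + 1) - ψ (r + 1))) ?_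
    funext o
    simp only [Polynomial.eval_add, Polynomial.eval_C, Polynomial.eval_mul, Polynomial.eval_X]
    by_cases h1 : o = some (c r)
    · rw [if_pos h1, h1, Function.update_self, one_mul]
    · rw [if_neg h1, Function.update_of_ne h1, zero_mul, add_zero]
  have hη : (0 : ℝ) ≤ 2 ^ (C₃ * (k + 1)) * (1 / 2 ^ gt (r + 1) +
      2 ^ ((r + 2) * q) / 2 ^ (gw (r + 1) + B)) := by positivity
  have hch : ∀ i j, |(op w c ψ (slam F w (ν i)) (r + 1)).eval (rt F w (N 0 j)) -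
      (qq j).eval (h i)| ≤ 2 ^ (C₃ * (k + 1)) * (1 / 2 ^ gt (r + 1) +
      2 ^ ((r + 2) * q) / 2 ^ (gw (r + 1) + B)) := by
    intro i j
    rw [hqe, ← hD.sl i j]
    refine hnod (χ' := Gt (ptr F J (N i j)) (r + 1)) hc hwJ hwt htq hg (hGtd _) (hGtp _) hψ hψd
      (hGtd _ _) (hGtp _ _) (fun l hl => hGtx _ (hD.AN 0 j) l (by omega))
      (hGtx _ (hD.AN i j) (r + 1) le_rfl) (hD.cmp j) (hD.code i j) ?_ (hD.tm i j) ?_ ?_ (hD.hh i) ?_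
    · rw [hD.sl i j, hD.sl 0 j]
      exact slam_T1 F w (hTν i)
    · intro l hl τ hτ
      rw [hD.sl i j, hD.sl 0 j]
      exact hD.near i l hl τ hτ
    · intro l hl
      rw [hD.sl i j]
      exact hD.own i l hl
    · omega
  -- the velocities
  have hov : ∀ i, ∀ l ≤ r, |ov F c ψ (ν i) l - ov F c ψ (ν 0) l| ≤ 2 ^ w / 2 ^ (gw l + X) := by
    intro i l hl
    have h1 := hder (op w c ψ (slam F w (ν i)) l - op w c ψ (slam F w (ν 0)) l -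
      Polynomial.C (if l = r then h i else 0)) (1 / 2 ^ (gw l + B))
      (Polynomial.natDegree_sub_C.le.trans ((Polynomial.natDegree_sub_le _ _).trans
        (max_le (op_deg w c hψ _ _) (op_deg w c hψ _ _)))) (fun τ hτ => by
        rw [Polynomial.eval_sub, Polynomial.eval_sub, Polynomial.eval_C]
        exact hD.near i l hl τ hτ) (rt F w (ν 0)) (by
        have := rt_mem F w (ν 0)
        rw [abs_of_nonneg this.1]
        exact this.2)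
    rw [Polynomial.derivative_sub, Polynomial.derivative_sub, Polynomial.derivative_C, sub_zero,
      Polynomial.eval_sub, op_der hwJ, ← rt_congr (hTν i), op_der hwJ, ← mul_sub, abs_mul,
      abs_of_pos (show (0 : ℝ) < 1 / 2 ^ w by positivity), one_div_mul_eq_div,
      div_le_iff₀ (by positivity : (0 : ℝ) < 2 ^ w)] at h1
    refine h1.trans ?_
    have e1 : C₄ * (1 / 2 ^ (gw l + B)) * 2 ^ w = C₄ * 2 ^ w / 2 ^ (gw l + B) := by ring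
    rw [e1, div_le_div_iff₀ (by positivity) (by positivity)]
    have e2 : (2 : ℝ) ^ c₄ * 2 ^ (gw l + X) ≤ 2 ^ (gw l + B) := by
      rw [← pow_add]
      exact pow_le_pow_right₀ (by norm_num) (by omega)
    calc C₄ * 2 ^ w * 2 ^ (gw l + X) = C₄ * 2 ^ (gw l + X) * 2 ^ w := by ring
      _ ≤ 2 ^ c₄ * 2 ^ (gw l + X) * 2 ^ w := mul_le_mul_of_nonneg_right
          (mul_le_mul_of_nonneg_right hc₄.le (by positivity)) (by positivity)
      _ ≤ 2 ^ (gw l + B) * 2 ^ w := mul_le_mul_of_nonneg_right e2 (by positivity)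
      _ = 2 ^ w * 2 ^ (gw l + B) := mul_comm _ _
  have hmv : ∀ i, ∀ l ≤ r + 1, |dd (ψ l) (bt F (ω i)) (bd F (ν i)) -
      dd (ψ l) (bt F (ν i)) (bd F (ν i))| ≤ 2 ^ k' * 2 ^ w / 2 ^ (gw l + X) := by
    intro i l hl
    have h1 := (hmov (e' := e') (X := X) hc hwJ hbs (fun l hl => by
      have := hJw l hl
      omega) (fun l hl => by
      have := hJX l hl
      omega) (ω i) (ν i) (hD.Aω i) (hD.Aν i) (hD.pt i) (hdv0 _ (hD.Aν i)) l hl (ψ l) (hψ l) (hψd l)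
      (hψl i l hl)).2
    refine h1.trans (div_le_div_of_nonneg_right (mul_le_mul_of_nonneg_right
      (pow_le_pow_right₀ (by norm_num) (by omega)) (by positivity)) (by positivity))
  have key := hdd (k := k') (X := X) (t := fun j => rt F w (N 0 j)) (q := qq) hc hwa haJ hrw
    (fun l hl => by
      have := hJ l hl
      omega) hψ hψd hD.Aω hD.Aν hD.pt hD.T
    (fun i l hl τ hτ => (hdv _ (hD.Aν i) l hl τ hτ).trans
      (div_le_div_of_nonneg_right hpk (by positivity))) hmv hD.s0 hD.sep (fun j => rt_mem F w _)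
    hqd hη hch hD.inj hov (fun i l hl => (hgrd i l hl).trans
      (div_le_div_of_nonneg_right (mul_le_mul_of_nonneg_right hpk (by positivity))
        (by positivity)))
  refine key.trans ?_
  have hLam : 0 ≤ Lam h := by
    unfold Lam
    exact Finset.sum_nonneg fun _ _ => abs_nonneg _
  have hs0 := hD.s0
  have hsp : (0 : ℝ) ≤ (1 / s) ^ (D + 1) := by positivity
  obtain ⟨E, hE⟩ : ∃ E : ℝ, E = 2 ^ (C * (k + 1)) := ⟨_, rfl⟩
  have hE1 : (2 : ℝ) ^ (C₁ * (k' + 1)) ≤ E := by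
    rw [hE]
    exact pow_le_pow_right₀ (by norm_num) hC₁k'
  have hE2 : (2 : ℝ) ^ (C₁ * (k' + 1)) * 2 ^ (C₃ * (k + 1)) ≤ E := by
    rw [hE, ← pow_add]
    exact pow_le_pow_right₀ (by norm_num) (by omega)
  obtain ⟨v, hv⟩ : ∃ v : ℝ, v = 1 / 2 ^ gt (r + 1) + 2 ^ ((r + 2) * q) / 2 ^ (gw (r + 1) + B) :=
    ⟨_, rfl⟩
  have hv0 : 0 ≤ v := by rw [hv]; positivity
  obtain ⟨z, hz⟩ : ∃ z : ℝ, z = 2 ^ (a - w) / 2 ^ g (r + 1) := ⟨_, rfl⟩
  have hz0 : 0 ≤ z := by rw [hz]; positivity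
  obtain ⟨y, hy⟩ : ∃ y : ℝ, y = 1 / 2 ^ (gw (r + 1) + X) := ⟨_, rfl⟩
  have hy0 : 0 ≤ y := by rw [hy]; positivity
  rw [← hE, ← hv, ← hz, ← hy]
  have hL : 0 ≤ Lam h * 2 ^ w := mul_nonneg hLam (by positivity)
  calc 2 ^ (C₁ * (k' + 1)) * Lam h * 2 ^ w * ((1 / s) ^ (D + 1) * (2 ^ (C₃ * (k + 1)) * v) +
        z + y) = (2 ^ (C₁ * (k' + 1)) * 2 ^ (C₃ * (k + 1))) * ((Lam h * 2 ^ w) *
          ((1 / s) ^ (D + 1) * v)) + 2 ^ (C₁ * (k' + 1)) * ((Lam h * 2 ^ w) * (z + y)) := by ring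
    _ ≤ E * ((Lam h * 2 ^ w) * ((1 / s) ^ (D + 1) * v)) + E * ((Lam h * 2 ^ w) * (z + y)) :=
        add_le_add (mul_le_mul_of_nonneg_right hE2 (mul_nonneg hL (mul_nonneg hsp hv0)))
          (mul_le_mul_of_nonneg_right hE1 (mul_nonneg hL (add_nonneg hz0 hy0)))
    _ = _ := by ring

/-- **The differences from the lines `ω i`.** -/
theorem h_tr {F : Fam m J} {c : ℕ → Fin m} {w r g : ℕ} {η δ h : ℝ}
    {ψ : ℕ → MvPolynomial (Option (Fin m)) ℝ} (hw : w ≤ J) {ω ω₀ ν ν₀ : F.Ω}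
    (hp : ptr F J ω = ptr F J ν) (hp₀ : ptr F J ω₀ = ptr F J ν₀) (hT : F.T ω = F.T ω₀)
    (hv : |eval (bt F ω) (ψ r) - eval (bt F ν) (ψ r)| ≤ δ)
    (hv₀ : |eval (bt F ω₀) (ψ r) - eval (bt F ν₀) (ψ r)| ≤ δ) (hδ : 1 / 2 ^ J ≤ δ)
    (hh : |(op w c ψ (slam F w ω) r).eval (rt F w ω₀) -
      (op w c ψ (slam F w ω₀) r).eval (rt F w ω₀) - h| ≤ 1 / 2 ^ g)
    (hη : ∀ τ ∈ Set.Icc (0 : ℝ) 1, ∀ τ' ∈ Set.Icc (0 : ℝ) 1,
      |((op w c ψ (slam F w ν) r).eval τ - (op w c ψ (slam F w ν₀) r).eval τ) -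
      ((op w c ψ (slam F w ν) r).eval τ' - (op w c ψ (slam F w ν₀) r).eval τ')| ≤ η) :
    ∀ τ ∈ Set.Icc (0 : ℝ) 1, |(op w c ψ (slam F w ν) r).eval τ -
      (op w c ψ (slam F w ν₀) r).eval τ - h| ≤ η + 1 / 2 ^ g + 4 * δ := by
  intro τ hτ
  have hTν : F.T ν = F.T ν₀ := by rw [← (bt_near hp).1, ← (bt_near hp₀).1, hT]
  have e1 : (op w c ψ (slam F w ω) r).eval (rt F w ω₀) = F.x ω (c r) - eval (bt F ω) (ψ r) := by
    rw [← rt_congr hT, op_at hw]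
  have e2 : (op w c ψ (slam F w ω₀) r).eval (rt F w ω₀) =
      F.x ω₀ (c r) - eval (bt F ω₀) (ψ r) := op_at hw _ _ _ _
  have e3 : (op w c ψ (slam F w ν) r).eval (rt F w ν₀) = F.x ν (c r) - eval (bt F ν) (ψ r) := by
    rw [← rt_congr hTν, op_at hw]
  have e4 : (op w c ψ (slam F w ν₀) r).eval (rt F w ν₀) =
      F.x ν₀ (c r) - eval (bt F ν₀) (ψ r) := op_at hw _ _ _ _
  have h1 := hη τ hτ (rt F w ν₀) (rt_mem F w _)
  rw [e3, e4] at h1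
  rw [e1, e2] at hh
  have h2 := ((bt_near hp).2.2 (c r)).trans hδ
  have h3 := ((bt_near hp₀).2.2 (c r)).trans hδ
  rw [abs_le] at *
  constructor <;> linarith [h1.1, h1.2, h2.1, h2.2, h3.1, h3.2, hh.1, hh.2, hv.1, hv.2, hv₀.1,
    hv₀.2]

end Pool.NDD66
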